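import Pool.Agent.Helper76.ES.Dui

/-!
# Averages in the real direction
-/

open Filter Topology Set MeasureTheory
open scoped Manifold ContDiff

noncomputable section

namespace Pool.Agent.Helper76.ES

private theorem avg_eq (f : ℂ × ℂ → ℝ) :
    avg f = fun p => ∫ a, (1 : ℝ) * f (p.1, p.2 + ((a : ℝ) : ℂ)) ∂(volume.restrict (Ioc (0 : ℝ) 1)) := by
  funext p
  simp only [avg, one_mul]
  rw [intervalIntegral.integral_of_le zero_le_one]

theorem avg_smooth {τ : ℂ → ℂ} (hτ : DifferentiableOn ℂ τ Hp) (hpos : ∀ s ∈ Hp, 0 < (τ s).im)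
    {d : ℕ} {f : ℂ × ℂ → ℝ} (hf : QP τ d f) :
    ContDiffOn ℝ ∞ (avg f) Om ∧ ∀ v, ∀ p ∈ Om, dv v (avg f) p = avg (dv v f) p := by
  have hK : ∀ d : ℕ, Integrable (fun a : ℝ => (1 : ℝ) * (1 + |((a : ℂ)).im|) ^ d)
      (volume.restrict (Ioc (0 : ℝ) 1)) := by
    intro d
    simp
  have hD := dui (K := fun _ : ℝ => (1 : ℝ)) (w := fun a : ℝ => (a : ℂ))
    Complex.measurable_ofReal hK hτ hpos hf
  refine ⟨?_, ?_⟩
  · rw [avg_eq]; exact hD.1
  · intro v p hp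
    rw [avg_eq f, avg_eq (dv v f)]
    exact hD.2.1 v p hp

private theorem om_add {p : ℂ × ℂ} (hp : p ∈ Om) (z : ℂ) : (p.1, p.2 + z) ∈ Om := hp

private theorem per {τ : ℂ → ℂ} {d : ℕ} {f : ℂ × ℂ → ℝ} (hf : QP τ d f) {p : ℂ × ℂ} (hp : p ∈ Om) :
    Function.Periodic (fun s : ℝ => f (p.1, p.2 + s)) 1 := by
  intro s
  have := hf.add_one (p := (p.1, p.2 + s)) (om_add hp _)
  have h : ((p.1, p.2 + ((s + 1 : ℝ) : ℂ)) : ℂ × ℂ) = (p.1, p.2 + (s : ℂ) + 1) := by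
    push_cast
    rw [add_assoc]
  show f (p.1, p.2 + ((s + 1 : ℝ) : ℂ)) = f (p.1, p.2 + (s : ℂ))
  rw [h]
  exact this

theorem avg_real {τ : ℂ → ℂ} {d : ℕ} {f : ℂ × ℂ → ℝ} (hf : QP τ d f) {p : ℂ × ℂ} (hp : p ∈ Om)
    (x : ℝ) : avg f (p.1, p.2 + x) = avg f p := by
  have hper := per hf hp
  have h1 : ∀ s : ℝ, f (p.1, p.2 + x + s) = f (p.1, p.2 + ((s + x : ℝ) : ℂ)) := by
    intro s
    have h : ((p.1, p.2 + (x : ℂ) + (s : ℂ)) : ℂ × ℂ) = (p.1, p.2 + ((s + x : ℝ) : ℂ)) := by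
      push_cast
      rw [add_assoc, add_comm (x : ℂ)]
    rw [h]
  have h2 : avg f (p.1, p.2 + x) = ∫ s in (0 : ℝ)..1, f (p.1, p.2 + ((s + x : ℝ) : ℂ)) := by
    simp only [avg, h1]
  rw [h2, intervalIntegral.integral_comp_add_right (fun s : ℝ => f (p.1, p.2 + (s : ℂ)))]
  have := hper.intervalIntegral_add_eq x 0
  rw [zero_add] at this ⊢
  rw [add_comm 1 x]
  exact this

theorem avg_dv_x {τ : ℂ → ℂ} {d : ℕ} {f : ℂ × ℂ → ℝ} (hf : QP τ d f) {p : ℂ × ℂ} (hp : p ∈ Om) :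
    avg (dv (0, 1) f) p = 0 := by
  have hOm : IsOpen Om := by
    have : Om = (fun p : ℂ × ℂ => p.1.im) ⁻¹' Ioi 0 := rfl
    rw [this]
    exact isOpen_Ioi.preimage (by fun_prop)
  have hsm := hf.contDiffOn
  have hda : ∀ s : ℝ, HasDerivAt (fun s : ℝ => f (p.1, p.2 + s)) (dv (0, 1) f (p.1, p.2 + s)) s := by
    intro s
    have hd : DifferentiableAt ℝ f (p.1, p.2 + (s : ℂ)) :=
      ((hsm.contDiffAt (hOm.mem_nhds (om_add hp _))).differentiableAt (by simp))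
    have hc : HasDerivAt (fun s : ℝ => ((p.1, p.2 + (s : ℂ)) : ℂ × ℂ)) (0, 1) s := by
      have h2 : HasDerivAt (fun s : ℝ => p.2 + (s : ℂ)) 1 s :=
        (Complex.ofRealCLM.hasDerivAt (x := s)).const_add p.2
      exact (hasDerivAt_const s p.1).prodMk h2
    exact hd.hasFDerivAt.comp_hasDerivAt s hc
  have hcont : Continuous (fun s : ℝ => dv (0, 1) f (p.1, p.2 + s)) := by
    have h3 : ContinuousOn (fun q => fderiv ℝ f q) Om :=
      hsm.continuousOn_fderiv_of_isOpen hOm (by simp)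
    have h4 : Continuous (fun s : ℝ => fderiv ℝ f (p.1, p.2 + (s : ℂ))) := by
      rw [← continuousOn_univ]
      refine h3.comp (f := fun s : ℝ => ((p.1, p.2 + (s : ℂ)) : ℂ × ℂ)) (by fun_prop) ?_
      intro s _
      exact om_add hp _
    exact h4.clm_apply continuous_const
  simp only [avg]
  rw [intervalIntegral.integral_eq_sub_of_hasDerivAt (f := fun s : ℝ => f (p.1, p.2 + s))
    (fun s _ => hda s) (hcont.intervalIntegrable 0 1)]
  have := per hf hp 0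
  simp only [zero_add] at this
  simp only [this, sub_self]

end Pool.Agent.Helper76.ES
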