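import Pool.Agent.Helper76.ES.Coef

/-!
# Closedness relations between the coefficients
-/

open Filter Topology Set MeasureTheory
open scoped Manifold ContDiff

noncomputable section

namespace Pool.Agent.Helper76.ES

namespace Rel

theorem near {P : ℂ × ℂ → ℂ × ℂ → ℝ} (h : Loc Om P) {p : ℂ × ℂ} (hp : p ∈ Om) :
    (cA P =ᶠ[𝓝 p] fun q => dv (1, 0) (dv (0, 1) (P p)) q +
      dv (Complex.I, 0) (dv (0, Complex.I) (P p)) q) ∧
    (cB P =ᶠ[𝓝 p] fun q => dv (1, 0) (dv (0, Complex.I) (P p)) q -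
      dv (Complex.I, 0) (dv (0, 1) (P p)) q) ∧
    (L P (0, 1) =ᶠ[𝓝 p] fun q => dv (0, 1) (dv (0, 1) (P p)) q +
      dv (0, Complex.I) (dv (0, Complex.I) (P p)) q) ∧
    (L P (1, 0) =ᶠ[𝓝 p] fun q => dv (1, 0) (dv (1, 0) (P p)) q +
      dv (Complex.I, 0) (dv (Complex.I, 0) (P p)) q) := by
  have h1 := (Coef.two (h.smooth p hp)).eventually (by simp)
  have e10 := L_eventually h hp (1, 0)
  have e11 := L_eventually h hp (1, 1)
  have e1I := L_eventually h hp (1, Complex.I)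
  have e01 := L_eventually h hp (0, 1)
  refine ⟨?_, ?_, ?_, ?_⟩
  · filter_upwards [h1, e10, e11, e01] with q a1 a2 a3 a4
    unfold cA
    rw [a2, a3, a4, Coef.lev_one a1, Coef.lev_one a1, Coef.lev_zero_one a1]
    simp
    ring
  · filter_upwards [h1, e10, e1I, e01] with q a1 a2 a3 a4
    unfold cB
    rw [a2, a3, a4, Coef.lev_one a1, Coef.lev_one a1, Coef.lev_zero_one a1]
    simp
    ring
  · filter_upwards [h1, e01] with q a1 a2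
    rw [a2, Coef.lev_zero_one a1]
  · filter_upwards [h1, e10] with q a1 a2
    rw [a2, Coef.lev_one a1]
    simp

theorem s12 {f : ℂ × ℂ → ℝ} {p : ℂ × ℂ} (hf : ContDiffAt ℝ ∞ f p) (u v w : ℂ × ℂ) :
    dv u (dv v (dv w f)) p = dv v (dv u (dv w f)) p := Coef.dv_comm' (Coef.dv_smooth hf w) u v

theorem s23 {f : ℂ × ℂ → ℝ} {p : ℂ × ℂ} (hf : ContDiffAt ℝ ∞ f p) (u v w : ℂ × ℂ) :
    dv u (dv v (dv w f)) p = dv u (dv w (dv v f)) p := Coef.dv_congr' (Coef.dv_comm hf v w) u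

theorem s13 {f : ℂ × ℂ → ℝ} {p : ℂ × ℂ} (hf : ContDiffAt ℝ ∞ f p) (u v w : ℂ × ℂ) :
    dv u (dv v (dv w f)) p = dv w (dv v (dv u f)) p := by
  rw [s12 hf, s23 hf, s12 hf]

end Rel

theorem rel1 {P : ℂ × ℂ → ℂ × ℂ → ℝ} (h : Loc Om P) {p : ℂ × ℂ} (hp : p ∈ Om) :
    dv (0, 1) (cA P) p + dv (0, Complex.I) (cB P) p = dv (1, 0) (L P (0, 1)) p := by
  obtain ⟨hA, hB, hC, hD⟩ := Rel.near h hp
  have hs := h.smooth p hp
  have h2 : ∀ v w, ContDiffAt ℝ ∞ (dv v (dv w (P p))) p :=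
    fun v w => Coef.dv_smooth (Coef.dv_smooth hs w) v
  rw [Coef.dv_congr' hA, Coef.dv_congr' hB, Coef.dv_congr' hC, Coef.dv_add (h2 _ _) (h2 _ _),
    Coef.dv_sub (h2 _ _) (h2 _ _), Coef.dv_add (h2 _ _) (h2 _ _)]
  have a1 := Rel.s12 hs (0, 1) (1, 0) (0, 1)
  have a2 := Rel.s13 hs (0, 1) (Complex.I, 0) (0, Complex.I)
  have a3 := Rel.s12 hs (0, Complex.I) (1, 0) (0, Complex.I)
  linarith

theorem rel2 {P : ℂ × ℂ → ℂ × ℂ → ℝ} (h : Loc Om P) {p : ℂ × ℂ} (hp : p ∈ Om) :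
    dv (0, Complex.I) (cA P) p - dv (0, 1) (cB P) p = dv (Complex.I, 0) (L P (0, 1)) p := by
  obtain ⟨hA, hB, hC, hD⟩ := Rel.near h hp
  have hs := h.smooth p hp
  have h2 : ∀ v w, ContDiffAt ℝ ∞ (dv v (dv w (P p))) p :=
    fun v w => Coef.dv_smooth (Coef.dv_smooth hs w) v
  rw [Coef.dv_congr' hA, Coef.dv_congr' hB, Coef.dv_congr' hC, Coef.dv_add (h2 _ _) (h2 _ _),
    Coef.dv_sub (h2 _ _) (h2 _ _), Coef.dv_add (h2 _ _) (h2 _ _)]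
  have a1 := Rel.s13 hs (0, Complex.I) (1, 0) (0, 1)
  have a2 := Rel.s12 hs (0, Complex.I) (Complex.I, 0) (0, Complex.I)
  have a3 := Rel.s12 hs (0, 1) (Complex.I, 0) (0, 1)
  linarith

theorem rel3 {P : ℂ × ℂ → ℂ × ℂ → ℝ} (h : Loc Om P) {p : ℂ × ℂ} (hp : p ∈ Om) :
    dv (1, 0) (cB P) p + dv (Complex.I, 0) (cA P) p = dv (0, Complex.I) (L P (1, 0)) p := by
  obtain ⟨hA, hB, hC, hD⟩ := Rel.near h hp
  have hs := h.smooth p hp
  have h2 : ∀ v w, ContDiffAt ℝ ∞ (dv v (dv w (P p))) p :=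
    fun v w => Coef.dv_smooth (Coef.dv_smooth hs w) v
  rw [Coef.dv_congr' hA, Coef.dv_congr' hB, Coef.dv_congr' hD, Coef.dv_add (h2 _ _) (h2 _ _),
    Coef.dv_sub (h2 _ _) (h2 _ _), Coef.dv_add (h2 _ _) (h2 _ _)]
  have a1 := Rel.s12 hs (1, 0) (Complex.I, 0) (0, 1)
  have a2 := Rel.s13 hs (0, Complex.I) (1, 0) (1, 0)
  have a3 := Rel.s13 hs (0, Complex.I) (Complex.I, 0) (Complex.I, 0)
  linarith

theorem rel4 {P : ℂ × ℂ → ℂ × ℂ → ℝ} (h : Loc Om P) {p : ℂ × ℂ} (hp : p ∈ Om) :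
    dv (1, 0) (cA P) p - dv (Complex.I, 0) (cB P) p = dv (0, 1) (L P (1, 0)) p := by
  obtain ⟨hA, hB, hC, hD⟩ := Rel.near h hp
  have hs := h.smooth p hp
  have h2 : ∀ v w, ContDiffAt ℝ ∞ (dv v (dv w (P p))) p :=
    fun v w => Coef.dv_smooth (Coef.dv_smooth hs w) v
  rw [Coef.dv_congr' hA, Coef.dv_congr' hB, Coef.dv_congr' hD, Coef.dv_add (h2 _ _) (h2 _ _),
    Coef.dv_sub (h2 _ _) (h2 _ _), Coef.dv_add (h2 _ _) (h2 _ _)]
  have a1 := Rel.s12 hs (1, 0) (Complex.I, 0) (0, Complex.I)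
  have a2 := Rel.s13 hs (0, 1) (1, 0) (1, 0)
  have a3 := Rel.s13 hs (0, 1) (Complex.I, 0) (Complex.I, 0)
  linarith

end Pool.Agent.Helper76.ES
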