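import Pool.Agent.Helper76.ES.QpL
import Pool.Agent.Helper76.ES.Avg
import Pool.Agent.Helper76.ES.Rel

/-!
# The zero mode of the potential
-/

open Filter Topology Set MeasureTheory
open scoped Manifold ContDiff

noncomputable section

namespace Pool.Agent.Helper76.ES

namespace ZeroV

section
variable {P : Type} [NormedAddCommGroup P] [NormedSpace ℝ P] {s : Set P} {h : P → ℝ → ℝ}

theorem smooth_integral (hs : IsOpen s)
    (hh : ContDiffOn ℝ ∞ (fun q : P × ℝ => h q.1 q.2) (s ×ˢ univ)) :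
    ContDiffOn ℝ ∞ (fun p => ∫ t in (0 : ℝ)..1, h p t) s := by
  let b : ContDiffBump (-1 / 2 : ℝ) := ⟨1, 2, one_pos, by norm_num⟩
  let g : P → ℝ → ℝ := fun p x => b x * h p (-x)
  let f : ℝ → ℝ := (Ioc (0 : ℝ) 1).indicator (fun _ => (1 : ℝ))
  have hf : LocallyIntegrable f volume := by
    apply Integrable.locallyIntegrable
    exact (integrable_indicator_iff measurableSet_Ioc).2 (integrableOn_const (by simp))
  have hg : ContDiffOn ℝ ∞ (fun q : P × ℝ => g q.1 q.2) (s ×ˢ univ) := by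
    apply ContDiffOn.mul
    · exact b.contDiff.comp_contDiffOn contDiff_snd.contDiffOn
    · have h1 : ContDiffOn ℝ ∞ (fun q : P × ℝ => (q.1, -q.2)) (s ×ˢ univ) :=
        (contDiff_fst.prodMk contDiff_snd.neg).contDiffOn
      exact hh.comp h1 (fun q hq => ⟨hq.1, mem_univ _⟩)
  have hgs : ∀ p, ∀ x, p ∈ s → x ∉ Metric.closedBall (-1 / 2 : ℝ) 2 → g p x = 0 := by
    intro p x _ hx
    have : b x = 0 := by
      apply b.zero_of_le_dist
      have h2 : ¬ dist x (-1 / 2) ≤ 2 := hx
      exact (not_le.1 h2).le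
    simp only [g, this, zero_mul]
  have key := contDiffOn_convolution_right_with_param_comp (μ := (volume : Measure ℝ)) (n := ⊤)
    (ContinuousLinearMap.mul ℝ ℝ) (s := s) (v := fun _ : P => (0 : ℝ)) contDiffOn_const
    (f := f) (g := g) (k := Metric.closedBall (-1 / 2 : ℝ) 2) hs
    (isCompact_closedBall _ _) hgs hf hg
  refine key.congr (fun p hp => ?_)
  rw [convolution_def, intervalIntegral.integral_of_le zero_le_one,
    ← integral_indicator measurableSet_Ioc]
  congr 1
  funext t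
  by_cases ht : t ∈ Ioc (0 : ℝ) 1
  · have h3 : b (0 - t) = 1 := by
      apply b.one_of_mem_closedBall
      rw [Metric.mem_closedBall, Real.dist_eq, abs_le]
      constructor
      · show -1 ≤ 0 - t - -1 / 2
        linarith [ht.2]
      · show 0 - t - -1 / 2 ≤ 1
        linarith [ht.1]
    simp only [f, g, indicator_of_mem ht, ContinuousLinearMap.mul_apply', h3]
    simp
  · simp only [f, indicator_of_notMem ht, ContinuousLinearMap.mul_apply', zero_mul]

theorem deriv_integral (hs : IsOpen s)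
    (hh : ContDiffOn ℝ ∞ (fun q : P × ℝ => h q.1 q.2) (s ×ˢ univ)) {p : P} (hp : p ∈ s) (v : P)
    {h' : ℝ → ℝ} (hd : ∀ t, fderiv ℝ (fun q : P × ℝ => h q.1 q.2) (p, t) (v, 0) = h' t) :
    fderiv ℝ (fun p => ∫ t in (0 : ℝ)..1, h p t) p v = ∫ t in (0 : ℝ)..1, h' t := by
  have hopen : IsOpen (s ×ˢ (univ : Set ℝ)) := hs.prod isOpen_univ
  set H : P × ℝ → ℝ := fun q => h q.1 q.2 with hH
  have hfd : ContinuousOn (fun q => fderiv ℝ H q (v, 0)) (s ×ˢ univ) := by
    have h1 : ContinuousOn (fderiv ℝ H) (s ×ˢ univ) :=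
      hh.continuousOn_fderiv_of_isOpen hopen (by simp)
    exact h1.clm_apply continuousOn_const
  have hdiff : ∀ q ∈ s ×ˢ (univ : Set ℝ), DifferentiableAt ℝ H q := fun q hq =>
    (hh.contDiffAt (hopen.mem_nhds hq)).differentiableAt (by simp)
  -- a compact neighbourhood
  have hcont : Continuous (fun r : ℝ => p + r • v) := by fun_prop
  have h0 : (fun r : ℝ => p + r • v) ⁻¹' s ∈ 𝓝 (0 : ℝ) :=
    (hs.preimage hcont).mem_nhds (by simpa using hp)
  obtain ⟨ε, hε, hball⟩ := Metric.mem_nhds_iff.1 h0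
  set K : Set (ℝ × ℝ) := Icc (-(ε / 2)) (ε / 2) ×ˢ Icc 0 1 with hK
  have hKc : IsCompact K := isCompact_Icc.prod isCompact_Icc
  have hin : ∀ r ∈ Icc (-(ε / 2)) (ε / 2), p + r • v ∈ s := by
    intro r hr
    apply hball
    rw [Metric.mem_ball, dist_zero_right, Real.norm_eq_abs, abs_lt]
    constructor <;> linarith [hr.1, hr.2]
  have hF'c : ContinuousOn (fun q : ℝ × ℝ => fderiv ℝ H (p + q.1 • v, q.2) (v, 0)) K := by
    apply hfd.comp (f := fun q : ℝ × ℝ => (p + q.1 • v, q.2)) (by fun_prop)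
    intro q hq
    exact ⟨hin q.1 hq.1, mem_univ _⟩
  obtain ⟨C, hC⟩ := hKc.exists_bound_of_continuousOn hF'c
  have hda := intervalIntegral.hasDerivAt_integral_of_dominated_loc_of_deriv_le
    (μ := volume) (a := 0) (b := 1) (F := fun (r : ℝ) t => h (p + r • v) t)
    (F' := fun (r : ℝ) t => fderiv ℝ H (p + r • v, t) (v, 0)) (x₀ := (0 : ℝ))
    (s := Icc (-(ε / 2)) (ε / 2)) (bound := fun _ => C)
    (Icc_mem_nhds (by linarith) (by linarith)) ?_ ?_ ?_ ?_ ?_ ?_
  · have hsm := smooth_integral hs hh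
    have hdf : DifferentiableAt ℝ (fun p => ∫ t in (0 : ℝ)..1, h p t) p :=
      (hsm.contDiffAt (hs.mem_nhds hp)).differentiableAt (by simp)
    have h1 : HasDerivAt (fun r : ℝ => p + r • v) v 0 := by
      have := ((hasDerivAt_id (0 : ℝ)).smul_const v).const_add p
      simpa using this
    have h2 : HasFDerivAt (fun p => ∫ t in (0 : ℝ)..1, h p t)
        (fderiv ℝ (fun p => ∫ t in (0 : ℝ)..1, h p t) p) (p + (0 : ℝ) • v) := by
      rw [zero_smul, add_zero]; exact hdf.hasFDerivAt
    have h3 := h2.comp_hasDerivAt (0 : ℝ) h1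
    have h4 := h3.unique hda.2
    rw [h4]
    apply intervalIntegral.integral_congr
    intro t _
    simp only [zero_smul, add_zero]
    exact hd t
  · filter_upwards [Icc_mem_nhds (show -(ε / 2) < 0 by linarith) (show 0 < ε / 2 by linarith)]
      with r hr
    have hc : Continuous (fun t => h (p + r • v) t) := by
      have : ContinuousOn (fun t : ℝ => H (p + r • v, t)) univ :=
        hh.continuousOn.comp (by fun_prop) (fun t _ => ⟨hin r hr, mem_univ _⟩)
      exact continuousOn_univ.1 this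
    exact hc.aestronglyMeasurable
  · have hc : Continuous (fun t => h (p + (0 : ℝ) • v) t) := by
      have : ContinuousOn (fun t : ℝ => H (p + (0 : ℝ) • v, t)) univ :=
        hh.continuousOn.comp (by fun_prop) (fun t _ => ⟨by simpa using hp, mem_univ _⟩)
      exact continuousOn_univ.1 this
    exact hc.intervalIntegrable _ _
  · have hc : Continuous (fun t => fderiv ℝ H (p + (0 : ℝ) • v, t) (v, 0)) := by
      have : ContinuousOn (fun t : ℝ => fderiv ℝ H (p + (0 : ℝ) • v, t) (v, 0)) univ :=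
        hfd.comp (f := fun t : ℝ => (p + (0 : ℝ) • v, t)) (by fun_prop)
          (fun t _ => ⟨by simpa using hp, mem_univ _⟩)
      exact continuousOn_univ.1 this
    exact hc.aestronglyMeasurable
  · refine Eventually.of_forall (fun t ht r hr => ?_)
    apply hC (r, t) ⟨hr, ?_⟩
    rw [uIoc_of_le zero_le_one] at ht
    exact ⟨ht.1.le, ht.2⟩
  · exact intervalIntegrable_const
  · refine Eventually.of_forall (fun t _ r hr => ?_)
    have h1 : HasDerivAt (fun r : ℝ => (p + r • v, t)) (v, (0 : ℝ)) r := by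
      have h2 : HasDerivAt (fun r : ℝ => p + r • v) v r := by
        have := ((hasDerivAt_id r).smul_const v).const_add p
        simpa using this
      exact h2.prodMk (hasDerivAt_const r t)
    exact (hdiff (p + r • v, t) ⟨hin r hr, mem_univ _⟩).hasFDerivAt.comp_hasDerivAt r h1

end

theorem isOpen_Om : IsOpen Om := isOpen_lt continuous_const (Complex.continuous_im.comp continuous_fst)

/-- the primitive in the direction `i` -/
def Pr (M : ℂ × ℂ → ℝ) (p : ℂ × ℂ) : ℝ :=
  ∫ t in (0 : ℝ)..1, p.2.im * M (p.1, ((t * p.2.im : ℝ) : ℂ) * Complex.I)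

theorem contDiff_im2 : ContDiff ℝ ∞ (fun q : (ℂ × ℂ) × ℝ => q.1.2.im) :=
  Complex.imCLM.contDiff.comp (contDiff_snd.comp contDiff_fst)

theorem contDiff_gam : ContDiff ℝ ∞ (fun q : (ℂ × ℂ) × ℝ =>
    ((q.1.1, ((q.2 * q.1.2.im : ℝ) : ℂ) * Complex.I) : ℂ × ℂ)) :=
  (contDiff_fst.comp contDiff_fst).prodMk
    ((Complex.ofRealCLM.contDiff.comp (contDiff_snd.mul contDiff_im2)).mul contDiff_const)

theorem Pr_contDiffOn {M : ℂ × ℂ → ℝ} (hM : ContDiffOn ℝ ∞ M Om) :
    ContDiffOn ℝ ∞ (fun q : (ℂ × ℂ) × ℝ =>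
      q.1.2.im * M (q.1.1, ((q.2 * q.1.2.im : ℝ) : ℂ) * Complex.I)) (Om ×ˢ univ) :=
  contDiff_im2.contDiffOn.mul (hM.comp contDiff_gam.contDiffOn fun _ hq => hq.1)

theorem Pr_smooth {M : ℂ × ℂ → ℝ} (hM : ContDiffOn ℝ ∞ M Om) : ContDiffOn ℝ ∞ (Pr M) Om :=
  smooth_integral isOpen_Om
    (h := fun (p : ℂ × ℂ) (t : ℝ) => p.2.im * M (p.1, ((t * p.2.im : ℝ) : ℂ) * Complex.I)) (Pr_contDiffOn hM)

theorem diffAt {M : ℂ × ℂ → ℝ} (hM : ContDiffOn ℝ ∞ M Om) {p : ℂ × ℂ} (hp : p ∈ Om) :
    DifferentiableAt ℝ M p :=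
  (hM.contDiffAt (isOpen_Om.mem_nhds hp)).differentiableAt (by simp)

theorem hasDerivAt_comp {M : ℂ × ℂ → ℝ} (hM : ContDiffOn ℝ ∞ M Om) {γ : ℝ → ℂ × ℂ}
    {w : ℂ × ℂ} {r : ℝ} (hγ : HasDerivAt γ w r) (h : γ r ∈ Om) :
    HasDerivAt (fun r => M (γ r)) (dv w M (γ r)) r :=
  (diffAt hM h).hasFDerivAt.comp_hasDerivAt r hγ

theorem dv_of_hasDerivAt {F : Type} [NormedAddCommGroup F] [NormedSpace ℝ F] {H : F → ℝ} {x w : F}
    {c : ℝ} (hd : DifferentiableAt ℝ H x) (h : HasDerivAt (fun r : ℝ => H (x + r • w)) c 0) :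
    fderiv ℝ H x w = c := by
  have h1 : HasDerivAt (fun r : ℝ => x + r • w) w 0 := by
    have := ((hasDerivAt_id (0 : ℝ)).smul_const w).const_add x
    simpa using this
  have h2 : HasFDerivAt H (fderiv ℝ H x) (x + (0 : ℝ) • w) := by
    rw [zero_smul, add_zero]; exact hd.hasFDerivAt
  exact (h2.comp_hasDerivAt (0 : ℝ) h1).unique h

theorem dv_add_vec {M : ℂ × ℂ → ℝ} (v w p : ℂ × ℂ) : dv (v + w) M p = dv v M p + dv w M p := by
  simp [dv]

theorem dv_smul_vec {M : ℂ × ℂ → ℝ} (c : ℝ) (v p : ℂ × ℂ) : dv (c • v) M p = c * dv v M p := by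
  simp [dv]

theorem hasDerivAt_line (a : ℂ) (y t : ℝ) :
    HasDerivAt (fun t : ℝ => ((a, ((t * y : ℝ) : ℂ) * Complex.I) : ℂ × ℂ)) (0, y * Complex.I) t := by
  have h1 : HasDerivAt (fun t : ℝ => ((t * y : ℝ) : ℂ) * Complex.I) (y * Complex.I) t := by
    have h2 : HasDerivAt (fun t : ℝ => t * y) y t := by
      simpa using (hasDerivAt_id t).mul_const y
    exact h2.ofReal_comp.mul_const Complex.I
  exact (hasDerivAt_const t a).prodMk h1

theorem Pr_dv {M : ℂ × ℂ → ℝ} (hM : ContDiffOn ℝ ∞ M Om) {p : ℂ × ℂ} (hp : p ∈ Om) (v : ℂ × ℂ) :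
    dv v (Pr M) p = v.2.im * M (p.1, p.2.im * Complex.I) + Pr (dv (v.1, 0) M) p := by
  have hopen : IsOpen (Om ×ˢ (univ : Set ℝ)) := isOpen_Om.prod isOpen_univ
  set γ : ℝ → ℂ × ℂ := fun t => (p.1, ((t * p.2.im : ℝ) : ℂ) * Complex.I) with hγ
  have hγO : ∀ t, γ t ∈ Om := fun t => hp
  have hd : ∀ t, fderiv ℝ (fun q : (ℂ × ℂ) × ℝ =>
      q.1.2.im * M (q.1.1, ((q.2 * q.1.2.im : ℝ) : ℂ) * Complex.I)) (p, t) (v, 0) =
      v.2.im * (M (γ t) + t * dv (0, p.2.im * Complex.I) M (γ t)) +
        p.2.im * dv (v.1, 0) M (γ t) := by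
    intro t
    apply dv_of_hasDerivAt
    · exact ((Pr_contDiffOn hM).contDiffAt
        (hopen.mem_nhds ⟨hp, mem_univ _⟩)).differentiableAt (by simp)
    · have a1 : HasDerivAt (fun r : ℝ => p.2.im + r * v.2.im) v.2.im 0 := by
        simpa using ((hasDerivAt_id (0 : ℝ)).mul_const v.2.im).const_add p.2.im
      have a2 : HasDerivAt (fun r : ℝ => ((p.1 + r • v.1,
          ((t * (p.2.im + r * v.2.im) : ℝ) : ℂ) * Complex.I) : ℂ × ℂ))
          (v.1, ((t * v.2.im : ℝ) : ℂ) * Complex.I) 0 := by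
        have b1 : HasDerivAt (fun r : ℝ => p.1 + r • v.1) v.1 0 := by
          have := ((hasDerivAt_id (0 : ℝ)).smul_const v.1).const_add p.1
          simpa using this
        have b2 : HasDerivAt (fun r : ℝ => t * (p.2.im + r * v.2.im)) (t * v.2.im) 0 :=
          a1.const_mul t
        exact b1.prodMk (b2.ofReal_comp.mul_const Complex.I)
      have hval : ((p.1 + (0 : ℝ) • v.1,
          ((t * (p.2.im + (0 : ℝ) * v.2.im) : ℝ) : ℂ) * Complex.I) : ℂ × ℂ) = γ t := by
        simp [hγ]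
      have a3 := hasDerivAt_comp hM a2 (by
        show (p.1 + (0 : ℝ) • v.1, ((t * (p.2.im + (0 : ℝ) * v.2.im) : ℝ) : ℂ) * Complex.I) ∈ Om
        rw [hval]; exact hγO t)
      rw [hval] at a3
      have a4 := a1.mul a3
      have hfun : (fun r : ℝ => (p.2.im + r * v.2.im) * M (p.1 + r • v.1,
          ((t * (p.2.im + r * v.2.im) : ℝ) : ℂ) * Complex.I)) =
          fun r : ℝ => (fun q : (ℂ × ℂ) × ℝ =>
            q.1.2.im * M (q.1.1, ((q.2 * q.1.2.im : ℝ) : ℂ) * Complex.I))
            ((p, t) + r • ((v, 0) : (ℂ × ℂ) × ℝ)) := by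
        funext r
        simp
      rw [← hfun]
      refine a4.congr_deriv ?_
      rw [hval]
      have hsplit : ((v.1, ((t * v.2.im : ℝ) : ℂ) * Complex.I) : ℂ × ℂ) =
          (v.1, 0) + (t * v.2.im) • ((0, Complex.I) : ℂ × ℂ) := by
        ext <;> simp
      have hsplit2 : ((0, p.2.im * Complex.I) : ℂ × ℂ) = p.2.im • ((0, Complex.I) : ℂ × ℂ) := by
        ext <;> simp
      rw [hsplit, dv_add_vec, dv_smul_vec, hsplit2, dv_smul_vec]
      ring
  have h1 := deriv_integral isOpen_Om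
    (h := fun (p : ℂ × ℂ) (t : ℝ) => p.2.im * M (p.1, ((t * p.2.im : ℝ) : ℂ) * Complex.I)) (Pr_contDiffOn hM) hp v hd
  have hMc : Continuous (fun t => M (γ t)) := by
    rw [← continuousOn_univ]
    exact hM.continuousOn.comp (by
      apply Continuous.continuousOn
      exact continuous_const.prodMk ((Complex.continuous_ofReal.comp
        (continuous_id.mul continuous_const)).mul continuous_const)) (fun t _ => hγO t)
  have hdc : ∀ w : ℂ × ℂ, Continuous (fun t => dv w M (γ t)) := by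
    intro w
    rw [← continuousOn_univ]
    have h2 : ContinuousOn (fun q => fderiv ℝ M q w) Om :=
      (hM.continuousOn_fderiv_of_isOpen isOpen_Om (by simp)).clm_apply continuousOn_const
    exact h2.comp (by
      apply Continuous.continuousOn
      exact continuous_const.prodMk ((Complex.continuous_ofReal.comp
        (continuous_id.mul continuous_const)).mul continuous_const)) (fun t _ => hγO t)
  have hftc : ∫ t in (0 : ℝ)..1, (M (γ t) + t * dv (0, p.2.im * Complex.I) M (γ t)) =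
      M (γ 1) := by
    have h3 : ∀ t ∈ uIcc (0 : ℝ) 1, HasDerivAt (fun t => t * M (γ t))
        (M (γ t) + t * dv (0, p.2.im * Complex.I) M (γ t)) t := by
      intro t _
      have := (hasDerivAt_id t).mul (hasDerivAt_comp hM (hasDerivAt_line p.1 p.2.im t) (hγO t))
      refine this.congr_deriv ?_
      simp [hγ]
    rw [intervalIntegral.integral_eq_sub_of_hasDerivAt h3]
    · simp
    · exact (hMc.add (continuous_id.mul (hdc _))).intervalIntegrable _ _
  have hg1 : γ 1 = (p.1, p.2.im * Complex.I) := by simp [hγ]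
  unfold dv Pr
  rw [h1, intervalIntegral.integral_add, intervalIntegral.integral_const_mul, hftc, hg1]
  · rfl
  · exact (continuous_const.mul (hMc.add (continuous_id.mul (hdc _)))).intervalIntegrable _ _
  · exact (continuous_const.mul (hdc _)).intervalIntegrable _ _

theorem Pr_eq (M : ℂ × ℂ → ℝ) (p : ℂ × ℂ) :
    Pr M p = ∫ y in (0 : ℝ)..p.2.im, M (p.1, y * Complex.I) := by
  unfold Pr
  rw [intervalIntegral.integral_const_mul]
  have := intervalIntegral.mul_integral_comp_mul_right (a := 0) (b := 1)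
    (f := fun y : ℝ => M (p.1, (y : ℂ) * Complex.I)) p.2.im
  rw [zero_mul, one_mul] at this
  exact this

/-- the primitive of a derivative -/
theorem Pr_ftc {M : ℂ × ℂ → ℝ} (hM : ContDiffOn ℝ ∞ M Om) {p : ℂ × ℂ} (hp : p ∈ Om) :
    Pr (dv (0, Complex.I) M) p = M (p.1, p.2.im * Complex.I) - M (p.1, 0) := by
  rw [Pr_eq]
  have h1 : ∀ y ∈ uIcc (0 : ℝ) p.2.im, HasDerivAt (fun y : ℝ => M (p.1, (y : ℂ) * Complex.I))
      (dv (0, Complex.I) M (p.1, (y : ℂ) * Complex.I)) y := by
    intro y _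
    have h2 := hasDerivAt_line p.1 1 y
    simp only [mul_one, Complex.ofReal_one, one_mul] at h2
    exact hasDerivAt_comp hM h2 hp
  rw [intervalIntegral.integral_eq_sub_of_hasDerivAt h1]
  · simp
  · apply ContinuousOn.intervalIntegrable
    apply Continuous.continuousOn
    rw [← continuousOn_univ]
    have h2 : ContinuousOn (fun q => fderiv ℝ M q (0, Complex.I)) Om :=
      (hM.continuousOn_fderiv_of_isOpen isOpen_Om (by simp)).clm_apply continuousOn_const
    exact h2.comp (by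
      apply Continuous.continuousOn
      exact continuous_const.prodMk (Complex.continuous_ofReal.mul continuous_const))
      (fun t _ => hp)

theorem avg_cont {f : ℂ × ℂ → ℝ} (hf : ContinuousOn f Om) {p : ℂ × ℂ} (hp : p ∈ Om) :
    Continuous (fun s : ℝ => f (p.1, p.2 + s)) := by
  rw [← continuousOn_univ]
  exact hf.comp (by
    apply Continuous.continuousOn
    exact continuous_const.prodMk (continuous_const.add Complex.continuous_ofReal))
    (fun t _ => hp)

theorem avg_add' {f g : ℂ × ℂ → ℝ} (hf : ContinuousOn f Om) (hg : ContinuousOn g Om)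
    {p : ℂ × ℂ} (hp : p ∈ Om) : avg (fun q => f q + g q) p = avg f p + avg g p := by
  unfold avg
  exact intervalIntegral.integral_add ((avg_cont hf hp).intervalIntegrable _ _)
    ((avg_cont hg hp).intervalIntegrable _ _)

theorem avg_mul' (c : ℝ) (f : ℂ × ℂ → ℝ) (p : ℂ × ℂ) :
    avg (fun q => c * f q) p = c * avg f p := by
  unfold avg
  exact intervalIntegral.integral_const_mul _ _

theorem avg_congr' {f g : ℂ × ℂ → ℝ} (h : ∀ q ∈ Om, f q = g q) {p : ℂ × ℂ} (hp : p ∈ Om) :
    avg f p = avg g p := by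
  unfold avg
  apply intervalIntegral.integral_congr
  intro s _
  exact h _ hp

theorem Pr_congr {f g : ℂ × ℂ → ℝ} (h : ∀ q ∈ Om, f q = g q) {p : ℂ × ℂ} (hp : p ∈ Om) :
    Pr f p = Pr g p := by
  unfold Pr
  apply intervalIntegral.integral_congr
  intro s _
  simp only
  rw [h (p.1, ((s * p.2.im : ℝ) : ℂ) * Complex.I) hp]

theorem Pr_cont {f : ℂ × ℂ → ℝ} (hf : ContinuousOn f Om) {p : ℂ × ℂ} (hp : p ∈ Om) :
    Continuous (fun t : ℝ => p.2.im * f (p.1, ((t * p.2.im : ℝ) : ℂ) * Complex.I)) := by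
  apply continuous_const.mul
  rw [← continuousOn_univ]
  exact hf.comp (by
    apply Continuous.continuousOn
    exact continuous_const.prodMk ((Complex.continuous_ofReal.comp
        (continuous_id.mul continuous_const)).mul continuous_const))
    (fun t _ => hp)

theorem Pr_add {f g : ℂ × ℂ → ℝ} (hf : ContinuousOn f Om) (hg : ContinuousOn g Om)
    {p : ℂ × ℂ} (hp : p ∈ Om) : Pr (fun q => f q + g q) p = Pr f p + Pr g p := by
  unfold Pr
  rw [← intervalIntegral.integral_add ((Pr_cont hf hp).intervalIntegrable _ _)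
    ((Pr_cont hg hp).intervalIntegrable _ _)]
  congr 1
  funext t
  ring

theorem Pr_mul (c : ℝ) (f : ℂ × ℂ → ℝ) (p : ℂ × ℂ) :
    Pr (fun q => c * f q) p = c * Pr f p := by
  unfold Pr
  rw [← intervalIntegral.integral_const_mul]
  congr 1
  funext t
  ring

section
variable {τ : ℂ → ℂ} {P : ℂ × ℂ → ℂ × ℂ → ℝ}

theorem qp_cB (G : Geo τ P) : QP τ 2 (cB P) := by
  have h := ((qp_L G Complex.I).const_mul (1 / 2)).add (((qp_L G 0).const_mul (-(1 / 2))).add
    (((qp_C G).mono (d' := 2) (by norm_num)).const_mul (-(1 / 2))))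
  have e : (fun p => 1 / 2 * L P (1, Complex.I) p + (-(1 / 2) * L P (1, 0) p +
      -(1 / 2) * L P (0, 1) p)) = cB P := by
    funext p
    unfold cB
    ring
  rw [← e]
  exact h

theorem qp_cA (G : Geo τ P) : QP τ 2 (cA P) := by
  have h := ((qp_L G 1).const_mul (1 / 2)).add (((qp_L G 0).const_mul (-(1 / 2))).add
    (((qp_C G).mono (d' := 2) (by norm_num)).const_mul (-(1 / 2))))
  have e : (fun p => 1 / 2 * L P (1, 1) p + (-(1 / 2) * L P (1, 0) p +
      -(1 / 2) * L P (0, 1) p)) = cA P := by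
    funext p
    unfold cA
    ring
  rw [← e]
  exact h

/-- the average of the form in the direction `(1, l)` -/
theorem avg_L (G : Geo τ P) {p : ℂ × ℂ} (hp : p ∈ Om) (l : ℂ) :
    avg (L P (1, l)) p = avg (L P (1, 0)) p + 2 * l.re * avg (cA P) p +
      2 * l.im * avg (cB P) p + ‖l‖ ^ 2 * avg (L P (0, 1)) p := by
  have c0 := (qp_L G 0).contDiffOn.continuousOn
  have cC := (qp_C G).contDiffOn.continuousOn
  have cA' := (qp_cA G).contDiffOn.continuousOn
  have cB' := (qp_cB G).contDiffOn.continuousOn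
  have h1 : avg (L P (1, l)) p = avg (fun q => L P (1, 0) q + (2 * l.re * cA P q +
      (2 * l.im * cB P q + ‖l‖ ^ 2 * L P (0, 1) q))) p := by
    apply avg_congr' _ hp
    intro q hq
    rw [L_one G.loc hq l]
    ring
  rw [h1, avg_add' c0 _ hp, avg_add' _ _ hp, avg_add' _ _ hp, avg_mul', avg_mul', avg_mul']
  · ring
  · exact continuousOn_const.mul cB'
  · exact continuousOn_const.mul cC
  · exact continuousOn_const.mul cA'
  · exact (continuousOn_const.mul cB').add (continuousOn_const.mul cC)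
  · exact (continuousOn_const.mul cA').add
      ((continuousOn_const.mul cB').add (continuousOn_const.mul cC))

/-- the average of the third relation -/
theorem avg_rel3 (G : Geo τ P) {p : ℂ × ℂ} (hp : p ∈ Om) :
    dv (1, 0) (avg (cB P)) p + dv (Complex.I, 0) (avg (cA P)) p =
      dv (0, Complex.I) (avg (L P (1, 0))) p := by
  rw [(avg_smooth G.hol G.pos (qp_cB G)).2 _ p hp, (avg_smooth G.hol G.pos (qp_cA G)).2 _ p hp,
    (avg_smooth G.hol G.pos (qp_L G 0)).2 _ p hp]
  rw [← avg_add' ((qp_cB G).dv G.hol _).contDiffOn.continuousOn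
    ((qp_cA G).dv G.hol _).contDiffOn.continuousOn hp]
  apply avg_congr' _ hp
  intro q hq
  exact rel3 G.loc hq

theorem im_eq {p : ℂ × ℂ} : (p.1, ((p.2.im : ℝ) : ℂ) * Complex.I + ((p.2.re : ℝ) : ℂ)) = p := by
  ext1
  · rfl
  · simp only
    rw [add_comm]
    exact Complex.re_add_im p.2

/-- a function with derivative zero in the direction `1` -/
theorem const_x {M : ℂ × ℂ → ℝ} (hM : ContDiffOn ℝ ∞ M Om) (h : ∀ p ∈ Om, dv (0, 1) M p = 0)
    {p : ℂ × ℂ} (hp : p ∈ Om) (x : ℝ) : M (p.1, p.2 + x) = M p := by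
  have h1 : ∀ r : ℝ, HasDerivAt (fun r : ℝ => M (p.1, p.2 + (r : ℂ))) 0 r := by
    intro r
    have h2 : HasDerivAt (fun r : ℝ => ((p.1, p.2 + (r : ℂ)) : ℂ × ℂ)) (0, 1) r := by
      have h3 : HasDerivAt (fun r : ℝ => p.2 + (r : ℂ)) 1 r := by
        have h4 : HasDerivAt (fun r : ℝ => (r : ℂ)) 1 r := by
          simpa using (hasDerivAt_id r).ofReal_comp
        exact h4.const_add p.2
      exact (hasDerivAt_const r p.1).prodMk h3
    have h5 := hasDerivAt_comp hM h2 hp
    rwa [h _ (show (p.1, p.2 + (r : ℂ)) ∈ Om from hp)] at h5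
  have h6 := is_const_of_deriv_eq_zero (fun r => (h1 r).differentiableAt)
    (fun r => (h1 r).deriv) x 0
  simpa using h6

/-- the average of `C` over a period -/
theorem int_period (G : Geo τ P) (h0 : ∀ s ∈ Hp, ∫ a in box (τ s), L P (0, 1) (s, pt a) = 0)
    {s : ℂ} (hs : s ∈ Hp) :
    ∫ y in (0 : ℝ)..(τ s).im, avg (L P (0, 1)) (s, y * Complex.I) = 0 := by
  have hT := G.pos s hs
  have hcont : Continuous (fun a : ℝ × ℝ => L P (0, 1) (s, pt a)) := by
    rw [← continuousOn_univ]
    refine (qp_C G).contDiffOn.continuousOn.comp ?_ (fun t _ => hs)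
    apply Continuous.continuousOn
    unfold pt
    fun_prop
  have h1 := h0 s hs
  unfold box at h1
  have hint : Integrable (fun a : ℝ × ℝ => L P (0, 1) (s, pt a))
      ((volume.restrict (Ico (0 : ℝ) 1)).prod (volume.restrict (Ico (0 : ℝ) (τ s).im))) := by
    rw [Measure.prod_restrict]
    have h2 : IntegrableOn (fun a : ℝ × ℝ => L P (0, 1) (s, pt a))
        (Icc (0 : ℝ) 1 ×ˢ Icc (0 : ℝ) (τ s).im) volume :=
      hcont.continuousOn.integrableOn_compact (isCompact_Icc.prod isCompact_Icc)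
    exact h2.mono_set (prod_mono Ico_subset_Icc_self Ico_subset_Icc_self)
  rw [Measure.volume_eq_prod, ← Measure.prod_restrict, integral_prod_symm _ hint] at h1
  rw [intervalIntegral.integral_of_le hT.le, integral_Ioc_eq_integral_Ioo,
    ← integral_Ico_eq_integral_Ioo]
  refine Eq.trans ?_ h1
  congr 1
  funext y
  unfold avg
  rw [intervalIntegral.integral_of_le zero_le_one, integral_Ioc_eq_integral_Ioo,
    ← integral_Ico_eq_integral_Ioo]
  congr 1
  funext x
  simp only [pt]
  rw [add_comm]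

end

end ZeroV

open ZeroV in
theorem exists_V {τ : ℂ → ℂ} {P : ℂ × ℂ → ℂ × ℂ → ℝ} (G : Geo τ P)
    (h0 : ∀ s ∈ Hp, ∫ a in box (τ s), L P (0, 1) (s, pt a) = 0)
    {N : ℂ × ℂ → ℝ} (hN : ContDiffOn ℝ ∞ N Om) (hN' : ∀ p ∈ Om, ∀ v : ℂ × ℂ, dv v N p =
      avg (cB P) p * v.1.re + avg (cA P) p * v.1.im + avg (L P (0, 1)) p * v.2.im) :
    ∃ V : ℂ × ℂ → ℝ, ContDiffOn ℝ ∞ V Om ∧
      (∀ p ∈ Om, V (p.1, p.2 + 1) = V p) ∧
      (∀ p ∈ Om, V (p.1, p.2 + τ p.1) =
        V p + ∫ y in (0 : ℝ)..(τ p.1).im, N (p.1, y * Complex.I)) ∧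
      (∀ p ∈ Om, ∀ l : ℂ, lev V p (1, l) = avg (L P (1, l)) p - avg (L P (1, 0)) (p.1, 0)) ∧
      ∀ p ∈ Om, lev V p (0, 1) = avg (L P (0, 1)) p := by
  have sB := (avg_smooth G.hol G.pos (qp_cB G)).1
  have sA := (avg_smooth G.hol G.pos (qp_cA G)).1
  have s0 := (avg_smooth G.hol G.pos (qp_L G 0)).1
  have sC := (avg_smooth G.hol G.pos (qp_C G)).1
  have hNx : ∀ p ∈ Om, dv (0, 1) N p = 0 := by
    intro p hp
    rw [hN' p hp]; simp
  have hNi : ∀ p ∈ Om, N (p.1, p.2.im * Complex.I) = N p := by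
    intro p hp
    have := const_x hN hNx (p := (p.1, p.2.im * Complex.I)) hp p.2.re
    simp only [im_eq] at this
    exact this.symm
  have hav : ∀ {d : ℕ} {f : ℂ × ℂ → ℝ}, QP τ d f → ∀ p ∈ Om,
      avg f (p.1, p.2.im * Complex.I) = avg f p := by
    intro d f hf p hp
    have := avg_real hf (p := (p.1, p.2.im * Complex.I)) hp p.2.re
    simp only [im_eq] at this
    exact this.symm
  have hVs := Pr_smooth hN
  -- first derivatives
  have hV1 : ∀ v : ℂ × ℂ, ∀ p ∈ Om, dv v (Pr N) p =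
      v.2.im * N p + (v.1.re * Pr (avg (cB P)) p + v.1.im * Pr (avg (cA P)) p) := by
    intro v p hp
    rw [Pr_dv hN hp, hNi p hp]
    congr 1
    have h1 : Pr (dv (v.1, 0) N) p =
        Pr (fun q => v.1.re * avg (cB P) q + v.1.im * avg (cA P) q) p := by
      apply Pr_congr _ hp
      intro q hq
      rw [hN' q hq]
      simp
      ring
    rw [h1, Pr_add (f := fun q => v.1.re * avg (cB P) q) (g := fun q => v.1.im * avg (cA P) q)
      (continuousOn_const.mul sB.continuousOn) (continuousOn_const.mul sA.continuousOn) hp,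
      Pr_mul, Pr_mul]
  -- second derivatives
  have hV2 : ∀ w v : ℂ × ℂ, ∀ p ∈ Om, dv w (dv v (Pr N)) p =
      v.2.im * dv w N p + (v.1.re * dv w (Pr (avg (cB P))) p +
        v.1.im * dv w (Pr (avg (cA P))) p) := by
    intro w v p hp
    have h1 : dv v (Pr N) =ᶠ[𝓝 p] fun p =>
        v.2.im * N p + (v.1.re * Pr (avg (cB P)) p + v.1.im * Pr (avg (cA P)) p) := by
      filter_upwards [isOpen_Om.mem_nhds hp] with q hq
      exact hV1 v q hq
    have d1 := (diffAt hN hp).hasFDerivAt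
    have d2 := (diffAt (Pr_smooth sB) hp).hasFDerivAt
    have d3 := (diffAt (Pr_smooth sA) hp).hasFDerivAt
    have d4 : HasFDerivAt (fun p => v.2.im * N p + (v.1.re * Pr (avg (cB P)) p +
        v.1.im * Pr (avg (cA P)) p)) (v.2.im • fderiv ℝ N p +
          (v.1.re • fderiv ℝ (Pr (avg (cB P))) p + v.1.im • fderiv ℝ (Pr (avg (cA P))) p)) p :=
      (d1.const_mul v.2.im).add ((d2.const_mul v.1.re).add (d3.const_mul v.1.im))
    unfold dv at h1 ⊢
    rw [h1.fderiv_eq]
    have d5 := d4.fderiv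
    have d6 := congrArg (fun f => f w) d5
    simpa using d6
  have hP2 : ∀ {d : ℕ} {f : ℂ × ℂ → ℝ}, QP τ d f → ∀ w : ℂ × ℂ, ∀ p ∈ Om,
      dv w (Pr (avg f)) p = w.2.im * avg f p + Pr (dv (w.1, 0) (avg f)) p := by
    intro d f hf w p hp
    rw [Pr_dv (avg_smooth G.hol G.pos hf).1 hp, hav hf p hp]
  have hle2 : (2 : WithTop ℕ∞) ≤ ∞ := by
    show ((2 : ℕ∞) : WithTop ℕ∞) ≤ ((⊤ : ℕ∞) : WithTop ℕ∞)
    exact WithTop.coe_le_coe.2 le_top
  refine ⟨Pr N, hVs, fun p hp => ?_, fun p hp => ?_, fun p hp l => ?_, fun p hp => ?_⟩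
  · simp [Pr]
  · -- the shift by τ
    set T := (τ p.1).im with hT
    have hs : p.1 ∈ Hp := hp
    let n : ℝ → ℝ := fun y => N (p.1, (y : ℂ) * Complex.I)
    have hline : ∀ y : ℝ, HasDerivAt n (avg (L P (0, 1)) (p.1, (y : ℂ) * Complex.I)) y := by
      intro y
      have h2 := hasDerivAt_line p.1 1 y
      simp only [mul_one, Complex.ofReal_one, one_mul] at h2
      have h3 := hasDerivAt_comp hN h2 hp
      rw [hN' _ (show (p.1, (y : ℂ) * Complex.I) ∈ Om from hp)] at h3
      simpa using h3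
    have hper : ∀ y : ℝ, avg (L P (0, 1)) (p.1, ((y + T : ℝ) : ℂ) * Complex.I) =
        avg (L P (0, 1)) (p.1, (y : ℂ) * Complex.I) := by
      intro y
      have h1 := avg_real (qp_C G) (p := (p.1, ((y + T : ℝ) : ℂ) * Complex.I)) hp (τ p.1).re
      rw [← h1]
      have h2 : ((y + T : ℝ) : ℂ) * Complex.I + ((τ p.1).re : ℂ) =
          (y : ℂ) * Complex.I + τ p.1 := by
        rw [hT]
        push_cast
        conv_rhs => rw [← Complex.re_add_im (τ p.1)]
        ring
      simp only [h2]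
      unfold avg
      apply intervalIntegral.integral_congr
      intro x _
      have h3 := C_add_tau G (p := (p.1, (y : ℂ) * Complex.I + (x : ℂ))) hp 1
      simp only [Int.cast_one, one_mul] at h3
      simp only
      rw [← h3]
      congr 2
      ring
    have hnT : ∀ y : ℝ, n (y + T) = n y := by
      have h1 : ∀ y, HasDerivAt (fun y => n (y + T) - n y) 0 y := by
        intro y
        have h2 := (hline (y + T)).comp_add_const y T
        have h3 := h2.sub (hline y)
        rw [hper y, sub_self] at h3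
        exact h3
      have h4 := is_const_of_deriv_eq_zero (fun r => (h1 r).differentiableAt)
        (fun r => (h1 r).deriv)
      have h5 : n (0 + T) - n 0 = 0 := by
        rw [zero_add]
        have h6 : ∀ y ∈ uIcc 0 T, HasDerivAt n
            (avg (L P (0, 1)) (p.1, (y : ℂ) * Complex.I)) y := fun y _ => hline y
        rw [← intervalIntegral.integral_eq_sub_of_hasDerivAt h6]
        · exact int_period G h0 hs
        · apply Continuous.intervalIntegrable
          rw [← continuousOn_univ]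
          exact sC.continuousOn.comp (by
            apply Continuous.continuousOn
            exact continuous_const.prodMk (Complex.continuous_ofReal.mul continuous_const))
            (fun t _ => hp)
      intro y
      have h7 : n (y + T) - n y = n (0 + T) - n 0 := h4 y 0
      linarith
    have hnc : Continuous n := by
      have : Differentiable ℝ n := fun y => (hline y).differentiableAt
      exact this.continuous
    rw [Pr_eq, Pr_eq]
    simp only [Complex.add_im]
    rw [← hT]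
    have hperf : Function.Periodic n T := hnT
    have h8 := hperf.intervalIntegral_add_eq p.2.im 0
    rw [zero_add] at h8
    have h9 := intervalIntegral.integral_add_adjacent_intervals (a := 0) (b := p.2.im)
      (c := p.2.im + T) (f := n) (μ := volume) (hnc.intervalIntegrable _ _)
      (hnc.intervalIntegrable _ _)
    rw [← h9, h8]
  · -- the Levi form in the direction (1, l)
    rw [lev_eq_dv ((hVs.contDiffAt (isOpen_Om.mem_nhds hp)).of_le hle2)]
    have e1 : Complex.I • ((1, l) : ℂ × ℂ) = (Complex.I, Complex.I * l) := by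
      ext <;> simp
    rw [e1, hV2 _ _ p hp, hV2 _ _ p hp, hP2 (qp_cB G) (1, l) p hp,
      hP2 (qp_cA G) (Complex.I, Complex.I * l) p hp, hN' p hp, hN' p hp, avg_L G hp l]
    have h3 : Pr (dv (1, 0) (avg (cB P))) p + Pr (dv (Complex.I, 0) (avg (cA P))) p =
        avg (L P (1, 0)) p - avg (L P (1, 0)) (p.1, 0) := by
      have c1 : ContinuousOn (dv (1, 0) (avg (cB P))) Om :=
        (sB.continuousOn_fderiv_of_isOpen isOpen_Om (by simp)).clm_apply continuousOn_const
      have c2 : ContinuousOn (dv (Complex.I, 0) (avg (cA P))) Om :=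
        (sA.continuousOn_fderiv_of_isOpen isOpen_Om (by simp)).clm_apply continuousOn_const
      rw [← Pr_add c1 c2 hp, Pr_congr (fun q hq => avg_rel3 G hq) hp, Pr_ftc s0 hp,
        hav (qp_L G 0) p hp]
    have h4 : ‖l‖ ^ 2 = l.re ^ 2 + l.im ^ 2 := by
      rw [← Complex.normSq_eq_norm_sq, Complex.normSq_apply]; ring
    rw [h4]
    simp only [Complex.one_re, Complex.one_im, Complex.I_re, Complex.I_im, Complex.mul_im]
    linear_combination h3
  · rw [lev_eq_dv ((hVs.contDiffAt (isOpen_Om.mem_nhds hp)).of_le hle2)]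
    have e1 : Complex.I • ((0, 1) : ℂ × ℂ) = (0, Complex.I) := by
      ext <;> simp
    rw [e1, hV2 _ _ p hp, hV2 _ _ p hp, hN' p hp (0, 1), hN' p hp (0, Complex.I)]
    simp

end Pool.Agent.Helper76.ES
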