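import Pool.Agent.Helper76.ES.Defs

/-!
# Notation for the analysis of closed real `(1,1)`-forms on families of elliptic curves
-/

open Filter Topology Set MeasureTheory
open scoped Manifold ContDiff

noncomputable section

namespace Pool.Agent.Helper76.ES

section
variable {F : Type} [NormedAddCommGroup F] [NormedSpace ℂ F]

/-- directional derivative -/
def dv (v : F) (u : F → ℝ) (p : F) : ℝ := fderiv ℝ u p v

/-- local potentials of a closed real `(1,1)`-form on an open set -/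
structure Loc (Ω : Set F) (P : F → F → ℝ) : Prop where
  smooth : ∀ p ∈ Ω, ContDiffAt ℝ ∞ (P p) p
  compat : ∀ p ∈ Ω, ∀ᶠ q in 𝓝 p, PH (fun q' => P p q' - P q q') q

/-- the Levi form of the form with potentials `P` in the direction `e` -/
def L (P : F → F → ℝ) (e p : F) : ℝ := lev (P p) p e

end

/-- a mixed coefficient of the form -/
def cA (P : ℂ × ℂ → ℂ × ℂ → ℝ) (p : ℂ × ℂ) : ℝ := (L P (1, 1) p - L P (1, 0) p - L P (0, 1) p) / 2

/-- a mixed coefficient of the form -/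
def cB (P : ℂ × ℂ → ℂ × ℂ → ℝ) (p : ℂ × ℂ) : ℝ :=
  (L P (1, Complex.I) p - L P (1, 0) p - L P (0, 1) p) / 2

/-- invariance of the local potentials -/
structure Geo (τ : ℂ → ℂ) (P : ℂ × ℂ → ℂ × ℂ → ℝ) : Prop where
  loc : Loc Om P
  hol : DifferentiableOn ℂ τ Hp
  pos : ∀ s ∈ Hp, 0 < (τ s).im
  one_l : ∀ p ∈ Om, ∀ q ∈ Om, P (p.1, p.2 + 1) q = P p q
  one_r : ∀ p ∈ Om, ∀ q ∈ Om, P p (q.1, q.2 + 1) = P p q
  tau_l : ∀ p ∈ Om, ∀ q ∈ Om, P (p.1, p.2 + τ p.1) q = P p q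
  tau_r : ∀ p ∈ Om, ∀ q ∈ Om, P p (q.1, q.2 + τ q.1) = P p q

/-- functions whose translates by `k τ` are polynomials in `k` with smooth `1`-periodic
coefficients -/
def QP (τ : ℂ → ℂ) (d : ℕ) (f : ℂ × ℂ → ℝ) : Prop :=
  ∃ g : ℕ → ℂ × ℂ → ℝ, (∀ j, ContDiffOn ℝ ∞ (g j) Om) ∧
    (∀ j, ∀ p ∈ Om, g j (p.1, p.2 + 1) = g j p) ∧
    ∀ k : ℤ, ∀ p ∈ Om, f (p.1, p.2 + k * τ p.1) = ∑ j ∈ Finset.range (d + 1), (k : ℝ) ^ j * g j p

/-- the strip `0 ≤ x < 1` -/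
def strip : Set (ℝ × ℝ) := Ico 0 1 ×ˢ univ

/-- the kernel `log |1 - e(z)|` for `Im z ≥ 0`, even -/
def ker (z : ℂ) : ℝ :=
  Real.log ‖1 - Complex.exp (2 * Real.pi * Complex.I * (if 0 ≤ z.im then z else -z))‖

/-- the average in the real direction -/
def avg (f : ℂ × ℂ → ℝ) (p : ℂ × ℂ) : ℝ := ∫ s in (0 : ℝ)..1, f (p.1, p.2 + s)

/-- the potential of the modes other than zero -/
def U1 (P : ℂ × ℂ → ℂ × ℂ → ℝ) (p : ℂ × ℂ) : ℝ :=
  1 / (2 * Real.pi) * ∫ a in strip, ker (pt a) * L P (0, 1) (p.1, p.2 + pt a)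

end Pool.Agent.Helper76.ES
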