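import Pool.Agent.Helper76.ES.Levi

/-!
# Coefficients of a closed `(1,1)`-form given by local potentials
-/

open Filter Topology Set MeasureTheory
open scoped Manifold ContDiff

noncomputable section

namespace Pool.Agent.Helper76.ES

namespace Coef

section
variable {F : Type} [NormedAddCommGroup F] [NormedSpace ℂ F]

theorem dv_congr {f g : F → ℝ} {p : F} (h : f =ᶠ[𝓝 p] g) (v : F) : dv v f =ᶠ[𝓝 p] dv v g := by
  filter_upwards [h.fderiv (𝕜 := ℝ)] with q hq
  simp only [dv, hq]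

theorem dv_congr' {f g : F → ℝ} {p : F} (h : f =ᶠ[𝓝 p] g) (v : F) : dv v f p = dv v g p :=
  (dv_congr h v).self_of_nhds

theorem dv_smooth {f : F → ℝ} {p : F} (hf : ContDiffAt ℝ ∞ f p) (v : F) :
    ContDiffAt ℝ ∞ (dv v f) p := by
  have h1 : ContDiffAt ℝ ∞ (fderiv ℝ f) p := hf.fderiv_right (m := ∞) (by norm_num)
  exact h1.clm_apply contDiffAt_const

theorem two {f : F → ℝ} {p : F} (hf : ContDiffAt ℝ ∞ f p) : ContDiffAt ℝ 2 f p :=
  hf.of_le (WithTop.coe_le_coe.2 le_top : ((2 : ℕ∞) : WithTop ℕ∞) ≤ ((⊤ : ℕ∞) : WithTop ℕ∞))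

theorem dv_dv {f : F → ℝ} {p : F} (hf : ContDiffAt ℝ 2 f p) (v w : F) :
    dv v (dv w f) p = fderiv ℝ (fderiv ℝ f) p v w := by
  have h1 : HasFDerivAt (fun q => fderiv ℝ f q w)
      ((ContinuousLinearMap.apply ℝ ℝ w).comp (fderiv ℝ (fderiv ℝ f) p)) p :=
    (ContinuousLinearMap.apply ℝ ℝ w).hasFDerivAt.comp p (Levi.diff_fderiv hf).hasFDerivAt
  have h2 : dv v (dv w f) p = ((ContinuousLinearMap.apply ℝ ℝ w).comp
      (fderiv ℝ (fderiv ℝ f) p)) v := by
    rw [← h1.fderiv]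
    rfl
  rw [h2]
  rfl

theorem dv_comm {f : F → ℝ} {p : F} (hf : ContDiffAt ℝ ∞ f p) (v w : F) :
    dv v (dv w f) =ᶠ[𝓝 p] dv w (dv v f) := by
  filter_upwards [(two hf).eventually (by simp)] with q hq
  rw [dv_dv hq, dv_dv hq]
  exact hq.isSymmSndFDerivAt (by simp) v w

theorem dv_comm' {f : F → ℝ} {p : F} (hf : ContDiffAt ℝ ∞ f p) (v w : F) :
    dv v (dv w f) p = dv w (dv v f) p := (dv_comm hf v w).self_of_nhds

theorem dv_add {f g : F → ℝ} {p : F} (hf : ContDiffAt ℝ ∞ f p) (hg : ContDiffAt ℝ ∞ g p) (v : F) :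
    dv v (fun q => f q + g q) p = dv v f p + dv v g p := by
  unfold dv
  rw [fderiv_fun_add ((two hf).differentiableAt (by norm_num))
    ((two hg).differentiableAt (by norm_num))]
  rfl

theorem dv_sub {f g : F → ℝ} {p : F} (hf : ContDiffAt ℝ ∞ f p) (hg : ContDiffAt ℝ ∞ g p) (v : F) :
    dv v (fun q => f q - g q) p = dv v f p - dv v g p := by
  unfold dv
  rw [fderiv_fun_sub ((two hf).differentiableAt (by norm_num))
    ((two hg).differentiableAt (by norm_num))]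
  rfl

theorem comm3 {f : F → ℝ} {p : F} (hf : ContDiffAt ℝ ∞ f p) (u v w : F) :
    dv u (dv v (dv w f)) p = dv v (dv w (dv u f)) p := by
  rw [dv_comm' (dv_smooth hf w) u v]
  exact dv_congr' (dv_comm hf u w) v

theorem comm4 {f : F → ℝ} {p : F} (hf : ContDiffAt ℝ ∞ f p) (v e : F) :
    dv v (dv v (dv e (dv e f))) p = dv e (dv e (dv v (dv v f))) p := by
  -- `D_v D_e D_e g = D_e D_e D_v g` near `p`
  have h1 : ∀ g : F → ℝ, ContDiffAt ℝ ∞ g p → ∀ u, dv u (dv e (dv e g)) =ᶠ[𝓝 p]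
      dv e (dv e (dv u g)) := by
    intro g hg u
    have a1 := dv_comm (dv_smooth hg e) u e
    have a2 := dv_congr (dv_comm hg u e) e
    exact a1.trans a2
  have h2 := dv_congr' (h1 f hf v) v
  rw [h2]
  exact (h1 (dv v f) (dv_smooth hf v) v).self_of_nhds

theorem L_dv {Ω : Set F} {P : F → F → ℝ} (h : Loc Ω P) {p : F} (hp : p ∈ Ω) (e : F) :
    L P e =ᶠ[𝓝 p] fun q => dv e (dv e (P p)) q +
      dv (Complex.I • e) (dv (Complex.I • e) (P p)) q := by
  filter_upwards [(two (h.smooth p hp)).eventually (by simp), h.compat p hp] with q h1 h2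
  have h3 := h2.self_of_nhds
  have h4 : ContDiffAt ℝ 2 (P q) q := by
    have h5 : P q = fun q' => P p q' - (P p q' - P q q') := by
      funext q'
      ring
    rw [h5]
    exact h1.sub h3.1
  have h6 := h3.2 e
  rw [lev_sub h1 h4] at h6
  have h7 : L P e q = lev (P p) q e := by
    unfold L
    linarith
  rw [h7, lev_eq_dv h1]

end

end Coef

section
variable {F : Type} [NormedAddCommGroup F] [NormedSpace ℂ F]

theorem L_eventually {Ω : Set F} {P : F → F → ℝ} (h : Loc Ω P) {p : F} (hp : p ∈ Ω) (e : F) :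
    ∀ᶠ q in 𝓝 p, L P e q = lev (P p) q e := by
  filter_upwards [(Coef.two (h.smooth p hp)).eventually (by simp), Coef.L_dv h hp e] with q h1 h2
  rw [h2, lev_eq_dv h1]

theorem L_smooth {Ω : Set F} {P : F → F → ℝ} (h : Loc Ω P) (e : F) :
    ContDiffOn ℝ ∞ (L P e) Ω := by
  intro p hp
  have h1 := h.smooth p hp
  have h2 : ContDiffAt ℝ ∞ (fun q => dv e (dv e (P p)) q +
      dv (Complex.I • e) (dv (Complex.I • e) (P p)) q) p :=
    (Coef.dv_smooth (Coef.dv_smooth h1 _) _).add (Coef.dv_smooth (Coef.dv_smooth h1 _) _)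
  exact (h2.congr_of_eventuallyEq (Coef.L_dv h hp e)).contDiffWithinAt

theorem L_comm {Ω : Set F} {P : F → F → ℝ} (h : Loc Ω P) {p : F} (hp : p ∈ Ω) (e v : F) :
    lev (L P e) p v = lev (L P v) p e := by
  have h1 := h.smooth p hp
  have key : ∀ a b : F, lev (L P a) p b =
      dv b (dv b (dv a (dv a (P p)))) p +
      dv (Complex.I • b) (dv (Complex.I • b) (dv a (dv a (P p)))) p +
      (dv b (dv b (dv (Complex.I • a) (dv (Complex.I • a) (P p)))) p +
      dv (Complex.I • b) (dv (Complex.I • b) (dv (Complex.I • a) (dv (Complex.I • a) (P p)))) p) := by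
    intro a b
    have s1 := Coef.two (Coef.dv_smooth (Coef.dv_smooth h1 a) a)
    have s2 := Coef.two (Coef.dv_smooth (Coef.dv_smooth h1 (Complex.I • a)) (Complex.I • a))
    rw [lev_congr (Coef.L_dv h hp a), lev_add s1 s2, lev_eq_dv s1, lev_eq_dv s2]
  rw [key, key, Coef.comm4 h1 v e, Coef.comm4 h1 (Complex.I • v) e,
    Coef.comm4 h1 v (Complex.I • e), Coef.comm4 h1 (Complex.I • v) (Complex.I • e)]
  ring

end

namespace Coef

theorem lev_one {u : ℂ × ℂ → ℝ} {p : ℂ × ℂ} (hu : ContDiffAt ℝ 2 u p) (l : ℂ) :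
    lev u p (1, l) = dv (1, 0) (dv (1, 0) u) p + dv (Complex.I, 0) (dv (Complex.I, 0) u) p +
      2 * l.re * (dv (1, 0) (dv (0, 1) u) p + dv (Complex.I, 0) (dv (0, Complex.I) u) p) +
      2 * l.im * (dv (1, 0) (dv (0, Complex.I) u) p - dv (Complex.I, 0) (dv (0, 1) u) p) +
      (l.re ^ 2 + l.im ^ 2) *
        (dv (0, 1) (dv (0, 1) u) p + dv (0, Complex.I) (dv (0, Complex.I) u) p) := by
  rw [Levi.lev_eq hu]
  simp only [dv_dv hu]
  have h1 : ((1, l) : ℂ × ℂ) = (1, 0) + (l.re • (0, 1) + l.im • (0, Complex.I)) := by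
    refine Prod.ext ?_ ?_
    · simp
    · simp
  have h2 : Complex.I • ((1, l) : ℂ × ℂ) =
      (Complex.I, 0) + (l.re • (0, Complex.I) - l.im • (0, 1)) := by
    refine Prod.ext ?_ ?_
    · simp
    · refine Complex.ext ?_ ?_ <;> simp
  rw [h2, h1]
  have hs : ∀ v w, fderiv ℝ (fderiv ℝ u) p v w = fderiv ℝ (fderiv ℝ u) p w v :=
    fun v w => hu.isSymmSndFDerivAt (by simp) v w
  simp only [map_add, map_sub, map_smul, add_apply, smul_apply, smul_eq_mul, sub_apply]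
  rw [hs (0, 1) (1, 0), hs (0, Complex.I) (1, 0), hs (0, 1) (Complex.I, 0),
    hs (0, Complex.I) (Complex.I, 0), hs (0, Complex.I) (0, 1)]
  ring

theorem lev_zero_one {u : ℂ × ℂ → ℝ} {p : ℂ × ℂ} (hu : ContDiffAt ℝ 2 u p) :
    lev u p (0, 1) =
      dv (0, 1) (dv (0, 1) u) p + dv (0, Complex.I) (dv (0, Complex.I) u) p := by
  rw [lev_eq_dv hu]
  have h : Complex.I • ((0, 1) : ℂ × ℂ) = (0, Complex.I) := by simp
  rw [h]

end Coef

theorem L_one {P : ℂ × ℂ → ℂ × ℂ → ℝ} (h : Loc Om P) {p : ℂ × ℂ} (hp : p ∈ Om) (l : ℂ) :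
    L P (1, l) p = L P (1, 0) p + 2 * cA P p * l.re + 2 * cB P p * l.im +
      ‖l‖ ^ 2 * L P (0, 1) p := by
  have h1 := Coef.two (h.smooth p hp)
  have h3 : ‖l‖ ^ 2 = l.re ^ 2 + l.im ^ 2 := by
    rw [← Complex.normSq_eq_norm_sq, Complex.normSq_apply]
    ring
  unfold cA cB L
  rw [h3, Coef.lev_one h1, Coef.lev_one h1, Coef.lev_one h1, Coef.lev_one h1,
    Coef.lev_zero_one h1]
  simp
  ring

end Pool.Agent.Helper76.ES
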