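import Pool.Agent.Helper76.ES.Base
import Pool.Agent.Helper21.Reg.Order

/-! # ES-EDIV: the divisor of the theta quotient, pushed forward -/

open Filter Topology Set MeasureTheory
open scoped Manifold ContDiff

noncomputable section

namespace Pool.Agent.Helper76.ES

open Pool.Agent.Helper21.Reg

private lemma ed_exists {τ : ℂ} (hτ : 0 < τ.im) (c : ℂ) : ∃ p ∈ cell τ, Lat τ (p - c) := by
  set n : ℤ := ⌊c.im / τ.im⌋ with hn
  set c1 : ℂ := c - n * τ with hc1
  set m : ℤ := ⌊c1.re⌋ with hm
  have him : c1.im = c.im - n * τ.im := by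
    rw [hc1]
    simp
  have h1 : (n : ℝ) * τ.im ≤ c.im := by
    have := Int.floor_le (c.im / τ.im)
    rwa [← hn, le_div_iff₀ hτ] at this
  have h2 : c.im < (n + 1 : ℝ) * τ.im := by
    have := Int.lt_floor_add_one (c.im / τ.im)
    rwa [← hn, div_lt_iff₀ hτ] at this
  refine ⟨c1 - m, ⟨?_, ?_, ?_, ?_⟩, ⟨-m, -n, ?_⟩⟩
  · have : (c1 - m).re = c1.re - m := by simp
    rw [this]
    have := Int.floor_le c1.re
    linarith
  · have : (c1 - m).re = c1.re - m := by simp
    rw [this]
    have := Int.lt_floor_add_one c1.re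
    linarith
  · have : (c1 - m).im = c1.im := by simp
    rw [this, him]
    linarith
  · have : (c1 - m).im = c1.im := by simp
    rw [this, him]
    linarith
  · rw [hc1]
    push_cast
    ring

private lemma ed_unique {τ : ℂ} (hτ : 0 < τ.im) {p q : ℂ} (hp : p ∈ cell τ) (hq : q ∈ cell τ)
    (h : Lat τ (p - q)) : p = q := by
  obtain ⟨m, n, hmn⟩ := h
  obtain ⟨a1, a2, a3, a4⟩ := hp
  obtain ⟨b1, b2, b3, b4⟩ := hq
  have him : p.im - q.im = n * τ.im := by
    have := congrArg Complex.im hmn
    simpa using this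
  have hn : n = 0 := by
    have h1 : (n : ℝ) * τ.im < 1 * τ.im := by linarith
    have h2 : (-1 : ℝ) * τ.im < n * τ.im := by linarith
    have h3 : (n : ℝ) < 1 := lt_of_mul_lt_mul_right h1 hτ.le
    have h4 : (-1 : ℝ) < n := lt_of_mul_lt_mul_right h2 hτ.le
    have h5 : n < 1 := by exact_mod_cast h3
    have h6 : -1 < n := by exact_mod_cast h4
    omega
  subst hn
  have hre : p.re - q.re = m := by
    have := congrArg Complex.re hmn
    simpa using this
  have hm : m = 0 := by
    have h3 : (m : ℝ) < 1 := by linarith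
    have h4 : (-1 : ℝ) < m := by linarith
    have h5 : m < 1 := by exact_mod_cast h3
    have h6 : -1 < m := by exact_mod_cast h4
    omega
  subst hm
  have : p - q = 0 := by rw [hmn]; simp
  exact sub_eq_zero.1 this

private lemma ed_per {τ : ℂ} {X : Type} {φ : ℂ → X} (h1 : ∀ z, φ (z + 1) = φ z)
    (h2 : ∀ z, φ (z + τ) = φ z) {p c : ℂ} (h : Lat τ (p - c)) : φ p = φ c := by
  obtain ⟨m, n, hmn⟩ := h
  have e1 : Function.Periodic φ 1 := h1
  have e2 : Function.Periodic φ τ := h2
  have e3 := e1.int_mul m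
  have e4 := e2.int_mul n
  have : p = c + m * 1 + n * τ := by linear_combination hmn
  rw [this, e4, e3]

theorem ell_div {τ : ℂ} (hτ : 0 < τ.im) {X : Type} {φ : ℂ → X} (h1 : ∀ z, φ (z + 1) = φ z)
    (h2 : ∀ z, φ (z + τ) = φ z) (b : ℂ) (M : ℤ) (N : ℕ) (x : X) [Decidable (φ b = x)]
    [Decidable (φ 0 = x)] :
    ∑ᶠ p ∈ {p : ℂ | p ∈ cell τ ∧ φ p = x},
        (meromorphicOrderAt (EF τ M [(b, (N : ℤ)), (0, -(N : ℤ))]) p).untop₀ =
      N * ((if φ b = x then 1 else 0) - (if φ 0 = x then 1 else 0)) := by
  classical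
  have hf : ∀ p, (meromorphicOrderAt (EF τ M [(b, (N : ℤ)), (0, -(N : ℤ))]) p).untop₀ =
      (if Lat τ (p - b) then (N : ℤ) else 0) + (if Lat τ (p - 0) then -(N : ℤ) else 0) := by
    intro p
    rw [EF_order hτ]
    unfold dord
    simp
  simp only [hf]
  by_cases hb : Lat τ b
  · have h3 : ∀ p, Lat τ (p - b) ↔ Lat τ (p - 0) := by
      intro p
      constructor
      · intro h
        have := h.add hb
        simpa using this
      · intro h
        have := h.add hb.neg
        rw [sub_zero] at this
        rwa [sub_eq_add_neg]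
    have h4 : φ b = φ 0 := ed_per h1 h2 (by simpa using hb)
    have h5 : ∀ p, (if Lat τ (p - b) then (N : ℤ) else 0) +
        (if Lat τ (p - 0) then -(N : ℤ) else 0) = 0 := by
      intro p
      by_cases h6 : Lat τ (p - 0)
      · rw [if_pos ((h3 p).2 h6), if_pos h6]; ring
      · rw [if_neg (fun h => h6 ((h3 p).1 h)), if_neg h6]; ring
    simp only [h5]
    rw [finsum_mem_zero]
    by_cases h7 : φ 0 = x
    · rw [if_pos (h4.trans h7), if_pos h7]; ring
    · rw [if_neg (fun h => h7 (h4.symm.trans h)), if_neg h7]; ring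
  · obtain ⟨pb, hpb1, hpb2⟩ := ed_exists hτ b
    obtain ⟨p0, hp01, hp02⟩ := ed_exists hτ 0
    have hnb : ¬ Lat τ (pb - 0) := by
      intro h
      apply hb
      have := h.add hpb2.neg
      rw [show pb - 0 + -(pb - b) = b by ring] at this
      exact this
    have hn0 : ¬ Lat τ (p0 - b) := by
      intro h
      apply hb
      have := hp02.add h.neg
      rw [show p0 - 0 + -(p0 - b) = b by ring] at this
      exact this
    have hne : pb ≠ p0 := by
      rintro rfl
      exact hnb hp02
    have hφb : φ pb = φ b := ed_per h1 h2 hpb2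
    have hφ0 : φ p0 = φ 0 := ed_per h1 h2 hp02
    rw [finsum_mem_def, finsum_eq_sum_of_support_subset (s := {pb, p0})]
    · rw [Finset.sum_pair hne]
      have e1 : ({p : ℂ | p ∈ cell τ ∧ φ p = x}.indicator (fun p =>
          (if Lat τ (p - b) then (N : ℤ) else 0) + (if Lat τ (p - 0) then -(N : ℤ) else 0)) pb) =
          if φ b = x then (N : ℤ) else 0 := by
        by_cases h3 : φ b = x
        · have hmem : pb ∈ {p : ℂ | p ∈ cell τ ∧ φ p = x} := ⟨hpb1, hφb.trans h3⟩
          rw [Set.indicator_of_mem hmem, if_pos hpb2, if_neg hnb, if_pos h3]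
          ring
        · rw [Set.indicator_of_notMem (fun h => h3 (hφb.symm.trans h.2)), if_neg h3]
      have e2 : ({p : ℂ | p ∈ cell τ ∧ φ p = x}.indicator (fun p =>
          (if Lat τ (p - b) then (N : ℤ) else 0) + (if Lat τ (p - 0) then -(N : ℤ) else 0)) p0) =
          if φ 0 = x then -(N : ℤ) else 0 := by
        by_cases h3 : φ 0 = x
        · have hmem : p0 ∈ {p : ℂ | p ∈ cell τ ∧ φ p = x} := ⟨hp01, hφ0.trans h3⟩
          rw [Set.indicator_of_mem hmem, if_neg hn0, if_pos hp02, if_pos h3]
          ring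
        · rw [Set.indicator_of_notMem (fun h => h3 (hφ0.symm.trans h.2)), if_neg h3]
      rw [e1, e2]
      split_ifs <;> ring
    · intro p hp
      rw [Function.mem_support] at hp
      have hmem : p ∈ {p : ℂ | p ∈ cell τ ∧ φ p = x} := Set.mem_of_indicator_ne_zero hp
      rw [Set.indicator_of_mem hmem] at hp
      rw [Finset.coe_insert, Finset.coe_singleton, Set.mem_insert_iff, Set.mem_singleton_iff]
      by_cases h3 : Lat τ (p - b)
      · left
        have := h3.add hpb2.neg
        rw [show p - b + -(pb - b) = p - pb by ring] at this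
        exact ed_unique hτ hmem.1 hpb1 this
      · right
        rw [if_neg h3, zero_add] at hp
        have h4 : Lat τ (p - 0) := by
          by_contra h5
          rw [if_neg h5] at hp
          exact hp rfl
        have := h4.add hp02.neg
        rw [show p - 0 + -(p0 - 0) = p - p0 by ring] at this
        exact ed_unique hτ hmem.1 hp01 this

end Pool.Agent.Helper76.ES
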