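import Pool.Agent.Helper76.ES.Base
import Pool.Agent.Helper21.Reg.Theta

/-! # The logarithm of the theta product as a sum of kernels -/

open Filter Topology Set MeasureTheory
open scoped Manifold ContDiff

noncomputable section

namespace Pool.Agent.Helper76.ES

namespace LogTh

open Pool.Agent.Helper21.Reg

/-- the logarithm of the product `∏ (1 - q^n s)` -/
theorem log_qp {q s : ℂ} (hq : ‖q‖ < 1) (hs : ‖s‖ < 1) :
    HasSum (fun n : ℕ => Real.log ‖1 + -(q ^ n * s)‖) (Real.log ‖qp q s‖) := by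
  have hne : ∀ n : ℕ, 1 + -(q ^ n * s) ≠ 0 := by
    intro n h
    have h1 : q ^ n * s = 1 := by linear_combination -h
    have h2 : ‖q ^ n * s‖ < 1 := by
      rw [norm_mul, norm_pow]
      calc ‖q‖ ^ n * ‖s‖ ≤ 1 * ‖s‖ := by
            gcongr
            exact pow_le_one₀ (norm_nonneg _) hq.le
        _ < 1 := by simpa using hs
    rw [h1] at h2
    simp at h2
  have h1 := Complex.summable_log_one_add_of_summable (qp_summable hq s)
  have h2 := Complex.cexp_tsum_eq_tprod hne h1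
  have h3 := Complex.hasSum_re h1.hasSum
  have h4 : Real.log ‖qp q s‖ = (∑' n : ℕ, Complex.log (1 + -(q ^ n * s))).re := by
    unfold qp
    rw [← h2, Complex.norm_exp, Real.log_exp]
  rw [h4]
  simpa only [Complex.log_re] using h3

theorem ker_pos {z : ℂ} (hz : 0 ≤ z.im) : ker z = Real.log ‖1 - ee z‖ := by
  unfold ker ee
  rw [if_pos hz]

theorem ker_neg {z : ℂ} (hz : z.im < 0) : ker z = Real.log ‖1 - ee (-z)‖ := by
  unfold ker ee
  rw [if_neg (not_le.2 hz)]

theorem ker_zero {z : ℂ} (hz : 1 - ee z ≠ 0) :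
    ker z = Real.log ‖1 - ee z‖ - 2 * Real.pi * max (-z.im) 0 := by
  by_cases h : 0 ≤ z.im
  · rw [ker_pos h, max_eq_right (by linarith)]
    ring
  · rw [not_le] at h
    rw [ker_neg h, max_eq_left (by linarith), ee_neg]
    have h1 : 1 - (ee z)⁻¹ = -((1 - ee z) * (ee z)⁻¹) := by
      have := ee_ne_zero z
      field_simp
      ring
    rw [h1, norm_neg, norm_mul, norm_inv, Real.log_mul (norm_ne_zero_iff.2 hz)
      (inv_ne_zero (norm_ne_zero_iff.2 (ee_ne_zero z))), Real.log_inv, norm_ee, Real.log_exp]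
    ring

end LogTh

open Pool.Agent.Helper21.Reg in
/-- the logarithm of the theta function in terms of the kernel -/
theorem log_Th {τ : ℂ} (hτ : 0 < τ.im) {z : ℂ} (h1 : -τ.im < z.im) (h2 : z.im < τ.im)
    (hz : ¬ ∃ n : ℤ, z = n) :
    HasSum (fun n : ℤ => ker (z + n * τ)) (Real.log ‖Th τ z‖ - 2 * Real.pi * max (-z.im) 0) := by
  have hq := norm_q_lt hτ
  have hz1 : 1 - ee z ≠ 0 := by
    intro h
    exact hz ((ee_eq_one_iff z).1 (sub_eq_zero.1 h).symm)
  have hs1 : ‖ee τ * ee z‖ < 1 := by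
    rw [← ee_add]
    apply norm_q_lt
    simp only [Complex.add_im]; linarith
  have hs2 : ‖ee τ * (ee z)⁻¹‖ < 1 := by
    rw [← ee_neg, ← ee_add]
    apply norm_q_lt
    simp only [Complex.add_im, Complex.neg_im]; linarith
  have hpow : ∀ n : ℕ, ee ((n : ℂ) * τ) = ee τ ^ n := by
    intro n
    have := ee_zsmul τ n
    rw [zpow_natCast] at this
    rw [← this]
    norm_cast
  have hA := LogTh.log_qp hq hs1
  have hB := LogTh.log_qp hq hs2
  -- the terms with `n ≥ 0`
  have hA' : HasSum (fun n : ℕ => ker (z + ((n : ℤ) : ℂ) * τ))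
      (Real.log ‖qp (ee τ) (ee τ * ee z)‖ +
        ∑ i ∈ Finset.range 1, ker (z + ((i : ℤ) : ℂ) * τ)) := by
    rw [← hasSum_nat_add_iff 1]
    have e : (fun n : ℕ => ker (z + (((n + 1 : ℕ) : ℤ) : ℂ) * τ)) =
        fun n : ℕ => Real.log ‖1 + -(ee τ ^ n * (ee τ * ee z))‖ := by
      funext n
      have him : (z + (((n + 1 : ℕ) : ℤ) : ℂ) * τ).im = z.im + (n + 1) * τ.im := by
        simp
      have h3 : 0 ≤ (z + (((n + 1 : ℕ) : ℤ) : ℂ) * τ).im := by
        rw [him]
        have : (0 : ℝ) ≤ n := Nat.cast_nonneg n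
        nlinarith [mul_nonneg this hτ.le]
      rw [LogTh.ker_pos h3]
      have e1 : z + (((n + 1 : ℕ) : ℤ) : ℂ) * τ = (n : ℂ) * τ + (τ + z) := by
        push_cast; ring
      rw [e1, ee_add, ee_add, hpow, sub_eq_add_neg]
    rw [e]
    exact hA
  have hB' : HasSum (fun n : ℕ => ker (z + ((-((n : ℤ) + 1) : ℤ) : ℂ) * τ))
      (Real.log ‖qp (ee τ) (ee τ * (ee z)⁻¹)‖) := by
    have e : (fun n : ℕ => ker (z + ((-((n : ℤ) + 1) : ℤ) : ℂ) * τ)) =
        fun n : ℕ => Real.log ‖1 + -(ee τ ^ n * (ee τ * (ee z)⁻¹))‖ := by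
      funext n
      have him : (z + ((-((n : ℤ) + 1) : ℤ) : ℂ) * τ).im = z.im - (n + 1) * τ.im := by
        push_cast
        simp
        ring
      have h3 : (z + ((-((n : ℤ) + 1) : ℤ) : ℂ) * τ).im < 0 := by
        rw [him]
        have : (0 : ℝ) ≤ n := Nat.cast_nonneg n
        nlinarith [mul_nonneg this hτ.le]
      rw [LogTh.ker_neg h3]
      have e1 : -(z + ((-((n : ℤ) + 1) : ℤ) : ℂ) * τ) = (n : ℂ) * τ + (τ + -z) := by
        push_cast; ring
      rw [e1, ee_add, ee_add, ee_neg, hpow, sub_eq_add_neg]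
    rw [e]
    exact hB
  have hC := HasSum.of_nat_of_neg_add_one (f := fun n : ℤ => ker (z + n * τ)) hA' hB'
  convert hC using 1
  rw [Finset.sum_range_one, Th_factor hτ, norm_mul, norm_mul]
  have hf := factor_ne_zero hτ h1 h2
  rw [Real.log_mul (norm_ne_zero_iff.2 hz1) (mul_ne_zero
    (norm_ne_zero_iff.2 (left_ne_zero_of_mul hf)) (norm_ne_zero_iff.2 (right_ne_zero_of_mul hf))),
    Real.log_mul (norm_ne_zero_iff.2 (left_ne_zero_of_mul hf))
      (norm_ne_zero_iff.2 (right_ne_zero_of_mul hf))]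
  have e0 : z + (((0 : ℕ) : ℤ) : ℂ) * τ = z := by simp
  rw [e0, LogTh.ker_zero hz1]
  ring

end Pool.Agent.Helper76.ES
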