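import Pool.Agent.Helper76.ES.KerL
import Pool.Agent.Helper76.ES.LogTh

/-!
# Green's identity on a torus (module TORUS, helper37)
-/

open Filter Topology Set MeasureTheory
open scoped Manifold ContDiff

noncomputable section

namespace Pool.Agent.Helper76.ES

namespace Torus

/-- the group of horizontal integral translations -/
abbrev GG : AddSubgroup (ℝ × ℝ) := AddSubgroup.zmultiples ((1 : ℝ), (0 : ℝ))

lemma fd (u : ℝ) : IsAddFundamentalDomain GG (Ico u (u + 1) ×ˢ (univ : Set ℝ))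
    (volume : Measure (ℝ × ℝ)) := by
  refine IsAddFundamentalDomain.mk' (measurableSet_Ico.prod MeasurableSet.univ).nullMeasurableSet
    fun x => ?_
  have hinj : Function.Injective (fun n : ℤ => n • ((1 : ℝ), (0 : ℝ))) := by
    intro a b h
    have := congrArg Prod.fst h
    simpa using this
  have hbij : Function.Bijective (codRestrict (fun n : ℤ => n • ((1 : ℝ), (0 : ℝ)))
      (AddSubgroup.zmultiples ((1 : ℝ), (0 : ℝ))) (fun n => ⟨n, rfl⟩)) :=
    (Equiv.ofInjective _ hinj).bijective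
  refine hbij.existsUnique_iff.2 ?_
  obtain ⟨n, hn, hu⟩ := existsUnique_add_zsmul_mem_Ico (one_pos : (0 : ℝ) < 1) x.1 u
  refine ⟨n, ?_, fun m hm => hu m ?_⟩
  · change (n • ((1 : ℝ), (0 : ℝ)) + x) ∈ _
    refine ⟨?_, mem_univ _⟩
    simpa [add_comm] using hn
  · have h1 : (m • ((1 : ℝ), (0 : ℝ)) + x) ∈ Ico u (u + 1) ×ˢ (univ : Set ℝ) := hm
    have h2 := h1.1
    simpa [add_comm] using h2

lemma shift_aux {F : ℝ × ℝ → ℝ} (hF : ∀ x y, F (x + 1, y) = F (x, y)) {E : Set ℝ}
    (hE : MeasurableSet E) (u : ℝ) :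
    (IntegrableOn F (Ico 0 1 ×ˢ E) ↔ IntegrableOn F (Ico u (u + 1) ×ˢ E)) ∧
    ∫ q in Ico (0 : ℝ) 1 ×ˢ E, F q = ∫ q in Ico u (u + 1) ×ˢ E, F q := by
  have hm : MeasurableSet ((univ : Set ℝ) ×ˢ E) := MeasurableSet.univ.prod hE
  set F' : ℝ × ℝ → ℝ := indicator ((univ : Set ℝ) ×ˢ E) F with hF'
  have hn : ∀ (n : ℕ) x y, F (x + n, y) = F (x, y) := by
    intro n
    induction n with
    | zero => intro x y; simp
    | succ n ih => intro x y; rw [← ih x y, ← hF (x + n) y]; congr 2; push_cast; ring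
  have hz : ∀ (n : ℤ) x y, F (x + n, y) = F (x, y) := by
    intro n x y
    obtain ⟨k, rfl | rfl⟩ := n.eq_nat_or_neg
    · exact_mod_cast hn k x y
    · have := hn k (x + ((-(k : ℤ) : ℤ) : ℝ)) y
      rw [← this]
      congr 2
      push_cast
      ring
  have hinv : ∀ (g : GG) (x : ℝ × ℝ), F' (g +ᵥ x) = F' x := by
    rintro ⟨g, ⟨n, rfl⟩⟩ x
    have e : (⟨n • ((1 : ℝ), (0 : ℝ)), ⟨n, rfl⟩⟩ : GG) +ᵥ x = (x.1 + n, x.2) := by
      change n • ((1 : ℝ), (0 : ℝ)) + x = _
      ext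
      · simp [add_comm]
      · simp
    have e' : ((⟨(fun x => x • ((1 : ℝ), (0 : ℝ))) n, ⟨n, rfl⟩⟩ : GG) +ᵥ x) = (x.1 + n, x.2) := e
    rw [e', hF']
    by_cases hx : x.2 ∈ E
    · rw [indicator_of_mem (show (x.1 + (n : ℝ), x.2) ∈ (univ : Set ℝ) ×ˢ E from ⟨mem_univ _, hx⟩),
        indicator_of_mem (show x ∈ (univ : Set ℝ) ×ˢ E from ⟨mem_univ _, hx⟩), hz]
    · rw [indicator_of_notMem (fun h => hx h.2), indicator_of_notMem (fun h => hx h.2)]
  have h0 := fd 0
  rw [zero_add] at h0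
  have hset : ∀ a b : ℝ, (Ico a b ×ˢ (univ : Set ℝ)) ∩ ((univ : Set ℝ) ×ˢ E) = Ico a b ×ˢ E := by
    intro a b
    rw [prod_inter_prod, inter_univ, univ_inter]
  constructor
  · have h1 := h0.integrableOn_iff (fd u) hinv
    rw [hF', integrableOn_indicator_iff hm, integrableOn_indicator_iff hm, inter_comm, hset,
      inter_comm, hset] at h1
    exact h1
  · have h1 := h0.setIntegral_eq (fd u) hinv
    rw [hF', setIntegral_indicator hm, setIntegral_indicator hm, hset, hset] at h1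
    exact h1

lemma shift {Ψ : ℂ → ℝ} (hΨ : ∀ z, Ψ (z + 1) = Ψ z) {E : Set ℝ} (hE : MeasurableSet E) (c : ℂ) :
    (IntegrableOn (fun q => Ψ (pt q + c)) (Ico 0 1 ×ˢ E) ↔
      IntegrableOn (fun q => Ψ (pt q)) (Ico 0 1 ×ˢ ((fun y => y - c.im) ⁻¹' E))) ∧
    ∫ q in Ico (0 : ℝ) 1 ×ˢ E, Ψ (pt q + c) =
      ∫ q in Ico (0 : ℝ) 1 ×ˢ ((fun y => y - c.im) ⁻¹' E), Ψ (pt q) := by
  set E' : Set ℝ := (fun y => y - c.im) ⁻¹' E with hE'
  have hE'm : MeasurableSet E' := (measurable_id.sub_const _) hE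
  have hF : ∀ x y : ℝ, Ψ (pt (x + 1, y)) = Ψ (pt (x, y)) := by
    intro x y
    have : pt (x + 1, y) = pt (x, y) + 1 := by
      unfold pt; push_cast; ring
    rw [this, hΨ]
  obtain ⟨s1, s2⟩ := shift_aux (F := fun q => Ψ (pt q)) hF hE'm c.re
  have hmp : MeasurePreserving (fun q : ℝ × ℝ => q + (c.re, c.im)) volume volume :=
    measurePreserving_add_right volume (c.re, c.im)
  have hme : MeasurableEmbedding (fun q : ℝ × ℝ => q + (c.re, c.im)) :=
    measurableEmbedding_addRight _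
  have hpre : (fun q : ℝ × ℝ => q + (c.re, c.im)) ⁻¹' (Ico c.re (c.re + 1) ×ˢ E') =
      Ico 0 1 ×ˢ E := by
    ext ⟨x, y⟩
    simp only [mem_preimage, mem_prod, hE', mem_Ico, Prod.mk_add_mk, add_sub_cancel_right]
    constructor
    · rintro ⟨⟨h1, h2⟩, h3⟩
      exact ⟨⟨by linarith, by linarith⟩, h3⟩
    · rintro ⟨⟨h1, h2⟩, h3⟩
      exact ⟨⟨by linarith, by linarith⟩, h3⟩
  have hcomp : ∀ q : ℝ × ℝ, Ψ (pt (q + (c.re, c.im))) = Ψ (pt q + c) := by
    intro q
    congr 1
    apply Complex.ext <;> simp [pt]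
  constructor
  · have h1 := hmp.integrableOn_comp_preimage hme (f := fun q => Ψ (pt q))
      (s := Ico c.re (c.re + 1) ×ˢ E')
    rw [hpre] at h1
    rw [s1, ← h1]
    have : ((fun q => Ψ (pt q)) ∘ fun q : ℝ × ℝ => q + (c.re, c.im)) = fun q => Ψ (pt q + c) :=
      funext hcomp
    rw [this]
  · have h1 := hmp.setIntegral_preimage_emb hme (fun q => Ψ (pt q)) (Ico c.re (c.re + 1) ×ˢ E')
    rw [hpre] at h1
    rw [s2, ← h1]
    simp only [hcomp]

lemma strip_shift {Ψ : ℂ → ℝ} (hΨ : ∀ z, Ψ (z + 1) = Ψ z) (c : ℂ) :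
    (IntegrableOn (fun q => Ψ (pt q + c)) strip ↔ IntegrableOn (fun q => Ψ (pt q)) strip) ∧
    ∫ q in strip, Ψ (pt q + c) = ∫ q in strip, Ψ (pt q) := by
  have := shift hΨ MeasurableSet.univ c
  rw [preimage_univ] at this
  exact this

lemma box_sum {Ψ : ℂ → ℝ} (hΨ : ∀ z, Ψ (z + 1) = Ψ z)
    (hint : IntegrableOn (fun q => Ψ (pt q)) strip) {τ : ℂ} (hτ : 0 < τ.im) :
    (∀ n : ℤ, IntegrableOn (fun q => Ψ (pt q + n * τ)) (box τ)) ∧
    HasSum (fun n : ℤ => ∫ q in box τ, Ψ (pt q + n * τ)) (∫ q in strip, Ψ (pt q)) := by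
  have hpre : ∀ n : ℤ, (fun y => y - ((n : ℂ) * τ).im) ⁻¹' (Ico 0 τ.im) =
      Ico (n • τ.im) ((n + 1) • τ.im) := by
    intro n
    ext y
    have : ((n : ℂ) * τ).im = n • τ.im := by simp
    rw [this]
    simp only [mem_preimage, mem_Ico, add_smul, one_smul]
    constructor
    · rintro ⟨h1, h2⟩
      exact ⟨by linarith, by linarith⟩
    · rintro ⟨h1, h2⟩
      exact ⟨by linarith, by linarith⟩
  have hu : ⋃ n : ℤ, (Ico (0 : ℝ) 1 ×ˢ Ico (n • τ.im) ((n + 1) • τ.im)) = strip := by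
    rw [← prod_iUnion, iUnion_Ico_zsmul hτ]
    rfl
  have hd : Pairwise (Function.onFun Disjoint fun n : ℤ =>
      (Ico (0 : ℝ) 1 ×ˢ Ico (n • τ.im) ((n + 1) • τ.im))) := by
    intro i j hij
    exact Disjoint.set_prod_right (pairwise_disjoint_Ico_zsmul τ.im hij) _ _
  have hsum := hasSum_integral_iUnion (μ := volume) (f := fun q => Ψ (pt q))
    (s := fun n : ℤ => (Ico (0 : ℝ) 1 ×ˢ Ico (n • τ.im) ((n + 1) • τ.im)))
    (fun n => measurableSet_Ico.prod measurableSet_Ico) hd (by rw [hu]; exact hint)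
  rw [hu] at hsum
  have hsh := fun n : ℤ => shift hΨ (measurableSet_Ico : MeasurableSet (Ico 0 τ.im)) (n * τ)
  simp only [hpre] at hsh
  constructor
  · intro n
    rw [box, (hsh n).1]
    refine hint.mono_set ?_
    rw [← hu]
    exact subset_iUnion (fun n : ℤ => (Ico (0 : ℝ) 1 ×ˢ Ico (n • τ.im) ((n + 1) • τ.im))) n
  · have : (fun n : ℤ => ∫ q in box τ, Ψ (pt q + n * τ)) =
        fun n : ℤ => ∫ q in Ico (0 : ℝ) 1 ×ˢ Ico (n • τ.im) ((n + 1) • τ.im), Ψ (pt q) :=
      funext fun n => (hsh n).2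
    rw [this]
    exact hsum

lemma ker_add_one (z : ℂ) : ker (z + 1) = ker z := by
  have h : (z + 1).im = z.im := by simp
  unfold ker
  rw [h]
  split_ifs with hz
  · rw [show 2 * Real.pi * Complex.I * (z + 1) = 2 * Real.pi * Complex.I * z +
      2 * Real.pi * Complex.I by ring, Complex.exp_add, Complex.exp_two_pi_mul_I, mul_one]
  · rw [show 2 * Real.pi * Complex.I * -(z + 1) = 2 * Real.pi * Complex.I * (-z) +
      -(2 * Real.pi * Complex.I) by ring, Complex.exp_add, Complex.exp_neg (2 * Real.pi * Complex.I),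
      Complex.exp_two_pi_mul_I, inv_one, mul_one]

lemma integrable_of_sum {α : Type} [MeasurableSpace α] {μ : Measure α} {G : ℤ → α → ℝ}
    {f : α → ℝ} (hf : AEStronglyMeasurable f μ) (hG : ∀ n, Integrable (G n) μ)
    (hs : Summable fun n => ∫ a, ‖G n a‖ ∂μ) (h : ∀ᵐ a ∂μ, HasSum (fun n => G n a) (f a)) :
    Integrable f μ := by
  refine ⟨hf, ?_⟩
  unfold HasFiniteIntegral
  calc ∫⁻ a, ‖f a‖ₑ ∂μ ≤ ∫⁻ a, ∑' n, ‖G n a‖ₑ ∂μ := by
        refine lintegral_mono_ae ?_
        filter_upwards [h] with a ha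
        rw [← ha.tsum_eq]
        exact enorm_tsum_le_tsum_enorm
    _ = ∑' n, ∫⁻ a, ‖G n a‖ₑ ∂μ := lintegral_tsum fun n => (hG n).1.enorm
    _ = ∑' n, ENNReal.ofReal (∫ a, ‖G n a‖ ∂μ) := by
        congr 1
        funext n
        rw [ofReal_integral_norm_eq_lintegral_enorm (hG n)]
    _ < ⊤ := hs.tsum_ofReal_lt_top

/-- a continuous doubly periodic function is bounded -/
lemma bounded {E : Type} [NormedAddCommGroup E] {τ : ℂ} (hτ : 0 < τ.im) {F : ℂ → E}
    (hF : Continuous F) (h1 : ∀ z, F (z + 1) = F z) (h2 : ∀ z, F (z + τ) = F z) :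
    ∃ B : ℝ, ∀ z, ‖F z‖ ≤ B := by
  have hc : Continuous fun p : ℝ × ℝ => F (p.1 + p.2 * τ) := by fun_prop
  obtain ⟨B, hB⟩ := ((isCompact_Icc (a := (0 : ℝ)) (b := 1)).prod
    (isCompact_Icc (a := (0 : ℝ)) (b := 1))).exists_bound_of_continuousOn hc.continuousOn
  have h1' : Function.Periodic F 1 := h1
  have h2' : Function.Periodic F τ := h2
  refine ⟨B, fun z => ?_⟩
  set v : ℝ := z.im / τ.im with hv
  set u : ℝ := z.re - v * τ.re with hu
  have hz : z = u + v * τ := by
    apply Complex.ext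
    · simp [hu]
    · simp [hv, hτ.ne']
  have e1 : F z = F (Int.fract u + Int.fract v * τ) := by
    have e2 : ((u : ℝ) : ℂ) = (⌊u⌋ : ℂ) + (Int.fract u : ℝ) := by
      exact_mod_cast (Int.floor_add_fract u).symm
    have e3 : ((v : ℝ) : ℂ) = (⌊v⌋ : ℂ) + (Int.fract v : ℝ) := by
      exact_mod_cast (Int.floor_add_fract v).symm
    rw [hz, e2, e3]
    have e4 : (⌊u⌋ : ℂ) + (Int.fract u : ℝ) + ((⌊v⌋ : ℂ) + (Int.fract v : ℝ)) * τ =
        ((Int.fract u : ℝ) : ℂ) + (Int.fract v : ℝ) * τ + ⌊v⌋ * τ + ⌊u⌋ * 1 := by ring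
    rw [e4, h1'.int_mul ⌊u⌋, h2'.int_mul ⌊v⌋]
  rw [e1]
  exact hB (Int.fract u, Int.fract v) ⟨⟨Int.fract_nonneg _, (Int.fract_lt_one _).le⟩,
    ⟨Int.fract_nonneg _, (Int.fract_lt_one _).le⟩⟩

/-- the mean over a horizontal period -/
def rf (F : ℂ → ℝ) (t : ℝ) : ℝ := ∫ x in (0 : ℝ)..1, F (x + t * Complex.I)

lemma rf_eq (F : ℂ → ℝ) (t : ℝ) : KerL.cf F 0 0 t = (rf F t : ℂ) := by
  unfold KerL.cf rf
  have : ∀ x : ℝ, KerL.eim 0 x = 1 := fun x => by unfold KerL.eim; simp
  simp only [this, mul_one, zero_add]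
  exact intervalIntegral.integral_ofReal

lemma rf_hasDerivAt {F : ℂ → ℝ} (hF : ContDiff ℝ 1 F) (t : ℝ) :
    HasDerivAt (rf F) (rf (dv Complex.I F) t) t := by
  have h1 := KerL.cf_hasDerivAt hF 0 0 t
  have h2 := Complex.reCLM.hasFDerivAt.comp_hasDerivAt t h1
  have h3 : (Complex.reCLM ∘ KerL.cf F 0 0) = rf F := by
    funext t
    simp [rf_eq]
  have h4 : Complex.reCLM (KerL.cf (dv Complex.I F) 0 0 t) = rf (dv Complex.I F) t := by
    simp [rf_eq]
  rw [h3, h4] at h2
  exact h2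

lemma rf_lap {g : ℂ → ℝ} (hg : ContDiff ℝ 2 g) (h1 : ∀ z, g (z + 1) = g z) (t : ℝ) :
    rf (Laplacian.laplacian g) t = rf (dv Complex.I (dv Complex.I g)) t := by
  have h := KerL.cf_lap hg h1 0 0 t
  simp only [Int.cast_zero, abs_zero, mul_zero, Complex.ofReal_zero] at h
  rw [rf_eq, rf_eq] at h
  simp only [ne_eq, OfNat.ofNat_ne_zero, not_false_eq_true, zero_pow, zero_mul, sub_zero] at h
  exact_mod_cast h

lemma rf_cont {F : ℂ → ℝ} (hF : Continuous F) : Continuous (rf F) := by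
  unfold rf
  apply intervalIntegral.continuous_parametric_intervalIntegral_of_continuous'
  fun_prop

lemma rf_tau {F : ℂ → ℝ} (h1 : ∀ z, F (z + 1) = F z) {τ : ℂ} (h2 : ∀ z, F (z + τ) = F z) :
    rf F τ.im = rf F 0 := by
  unfold rf
  have e1 : ∀ x : ℝ, F (x + τ.im * Complex.I) = F ((x - τ.re : ℝ) + (0 : ℝ) * Complex.I) := by
    intro x
    rw [← h2 ((x - τ.re : ℝ) + (0 : ℝ) * Complex.I)]
    congr 1
    apply Complex.ext <;> simp
  simp only [e1]
  rw [intervalIntegral.integral_comp_sub_right (fun y : ℝ => F (y + (0 : ℝ) * Complex.I))]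
  have hper : Function.Periodic (fun y : ℝ => F (y + (0 : ℝ) * Complex.I)) 1 := fun y => by
    have : ((y + 1 : ℝ) : ℂ) + (0 : ℝ) * Complex.I = y + (0 : ℝ) * Complex.I + 1 := by
      push_cast; ring
    simp only [this, h1]
  have := hper.intervalIntegral_add_eq (0 - τ.re) 0
  rw [show (1 : ℝ) - τ.re = 0 - τ.re + 1 by ring, this, zero_add]

/-- integrals over the box by Fubini -/
lemma box_fubini {τ : ℂ} (hτ : 0 < τ.im) {H : ℂ → ℝ} (hH : Continuous H) {w : ℝ → ℝ}
    (hw : Continuous w) :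
    IntegrableOn (fun q : ℝ × ℝ => w q.2 * H (pt q)) (box τ) ∧
    ∫ q in box τ, w q.2 * H (pt q) = ∫ y in (0 : ℝ)..τ.im, w y * rf H y := by
  have hpt : Continuous pt := by unfold pt; fun_prop
  have hc : Continuous fun q : ℝ × ℝ => w q.2 * H (pt q) := by fun_prop
  have hi : IntegrableOn (fun q : ℝ × ℝ => w q.2 * H (pt q)) (box τ) :=
    (hc.continuousOn.integrableOn_compact
      ((isCompact_Icc (a := (0 : ℝ)) (b := 1)).prod (isCompact_Icc (a := (0 : ℝ)) (b := τ.im)))).mono_set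
      (prod_mono Ico_subset_Icc_self Ico_subset_Icc_self)
  refine ⟨hi, ?_⟩
  have hr : (volume : Measure (ℝ × ℝ)).restrict (box τ) =
      ((volume : Measure ℝ).restrict (Ico 0 1)).prod (volume.restrict (Ico 0 τ.im)) := by
    rw [box, Measure.volume_eq_prod, ← Measure.prod_restrict]
  have hi' : Integrable (fun q : ℝ × ℝ => w q.2 * H (pt q))
      (((volume : Measure ℝ).restrict (Ico 0 1)).prod (volume.restrict (Ico 0 τ.im))) := by
    rw [← hr]; exact hi
  rw [hr, integral_prod_symm _ hi', intervalIntegral.integral_of_le hτ.le,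
    integral_Ico_eq_integral_Ioc]
  refine integral_congr_ae (Eventually.of_forall fun y => ?_)
  simp only
  rw [integral_const_mul, rf, intervalIntegral.integral_of_le zero_le_one,
    integral_Ico_eq_integral_Ioc]
  rfl

lemma dv_add_tau {g : ℂ → ℝ} {τ : ℂ} (h2 : ∀ z, g (z + τ) = g z) (v z : ℂ) :
    dv v g (z + τ) = dv v g z := by
  have h4 : (fun w => g (w + τ)) = g := funext h2
  have h5 := fderiv_comp_add_right (𝕜 := ℝ) (f := g) (x := z) τ
  rw [h4] at h5
  unfold dv
  rw [← h5]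

/-- the integral of the kernel against a doubly periodic function -/
lemma main_sum {τ : ℂ} (hτ : 0 < τ.im) {H : ℂ → ℝ} (hH : Continuous H) (h1 : ∀ z, H (z + 1) = H z)
    (h2 : ∀ z, H (z + τ) = H z) (a : ℂ) :
    (∀ n : ℤ, IntegrableOn (fun q => ker (pt q - a + n * τ) * H (pt q)) (box τ)) ∧
    (Summable fun n : ℤ => ∫ q in box τ, ‖ker (pt q - a + n * τ) * H (pt q)‖) ∧
    HasSum (fun n : ℤ => ∫ q in box τ, ker (pt q - a + n * τ) * H (pt q))
      (∫ q in strip, ker (pt q) * H (a + pt q)) := by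
  obtain ⟨B, hB⟩ := bounded hτ hH h1 h2
  have hpt : Continuous pt := by unfold pt; fun_prop
  have hHz : ∀ (n : ℤ) z, H (z + n * τ) = H z := by
    intro n z
    have h2' : Function.Periodic H τ := h2
    exact h2'.int_mul n z
  set Ψ : ℂ → ℝ := fun z => ker (z - a) * H z with hΨ
  have hΨ1 : ∀ z, Ψ (z + 1) = Ψ z := by
    intro z
    simp only [hΨ, h1]
    rw [show z + 1 - a = z - a + 1 by ring, ker_add_one]
  have hint0 : IntegrableOn (fun q => Ψ (pt q + a)) strip := by
    have e : (fun q => Ψ (pt q + a)) = fun q => ker (pt q) * H (pt q + a) := by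
      funext q; simp [hΨ]
    rw [e]
    refine (KerL.ker_int_bound B 0).mono' ?_ (Eventually.of_forall fun q => ?_)
    · refine ker_measurable.aestronglyMeasurable.mul (Continuous.aestronglyMeasurable ?_)
      fun_prop
    · rw [norm_mul, pow_zero, mul_one, Real.norm_eq_abs]
      exact mul_le_mul_of_nonneg_left (hB _) (abs_nonneg _)
  have hint : IntegrableOn (fun q => Ψ (pt q)) strip := (strip_shift hΨ1 a).1.1 hint0
  have hval : ∫ q in strip, Ψ (pt q) = ∫ q in strip, ker (pt q) * H (a + pt q) := by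
    rw [← (strip_shift hΨ1 a).2]
    congr 1
    funext q
    simp only [hΨ, add_sub_cancel_right]
    rw [add_comm]
  have hterm : ∀ (n : ℤ) (q : ℝ × ℝ), Ψ (pt q + n * τ) = ker (pt q - a + n * τ) * H (pt q) := by
    intro n q
    simp only [hΨ, hHz]
    congr 2
    ring
  obtain ⟨b1, b2⟩ := box_sum hΨ1 hint hτ
  obtain ⟨c1, c2⟩ := box_sum (Ψ := fun z => ‖Ψ z‖) (fun z => by rw [hΨ1]) hint.norm hτ
  simp only [hterm] at b1 b2 c2
  rw [hval] at b2
  exact ⟨b1, c2.summable, b2⟩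

open Pool.Agent.Helper21.Reg in
/-- the logarithm of the theta function on the box -/
lemma ae_log {τ : ℂ} (hτ : 0 < τ.im) {a : ℂ} (ha : 0 ≤ a.im) (ha' : a.im < τ.im) :
    ∀ᵐ q ∂(volume.restrict (box τ)), HasSum (fun n : ℤ => ker (pt q - a + n * τ))
      (Real.log ‖Th τ (pt q - a)‖ - 2 * Real.pi * max (a.im - q.2) 0) := by
  have hnull : ∀ᵐ q : ℝ × ℝ, q.2 ≠ a.im := by
    have h1 : (volume : Measure (ℝ × ℝ)) ((univ : Set ℝ) ×ˢ {a.im}) = 0 := by
      rw [Measure.volume_eq_prod, Measure.prod_prod]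
      simp
    refine (measure_eq_zero_iff_ae_notMem.1 h1).mono fun q hq hq' => hq ⟨mem_univ _, hq'⟩
  have hbm : MeasurableSet (box τ) := measurableSet_Ico.prod measurableSet_Ico
  rw [ae_restrict_iff' hbm]
  filter_upwards [hnull] with q hq hqb
  have him : (pt q - a).im = q.2 - a.im := by simp [pt]
  have hb : 0 ≤ q.2 ∧ q.2 < τ.im := hqb.2
  have h3 := log_Th hτ (z := pt q - a) (by rw [him]; linarith) (by rw [him]; linarith) (by
    rintro ⟨n, hn⟩
    apply hq
    have := congrArg Complex.im hn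
    rw [him] at this
    simp at this
    linarith)
  rw [him] at h3
  rw [show -(q.2 - a.im) = a.im - q.2 by ring] at h3
  exact h3

end Torus

open Torus Pool.Agent.Helper21.Reg in
theorem torus_Th {τ : ℂ} (hτ : 0 < τ.im) {g : ℂ → ℝ} (hg : ContDiff ℝ 2 g)
    (h1 : ∀ z, g (z + 1) = g z) (h2 : ∀ z, g (z + τ) = g z) {a : ℂ} (ha : 0 ≤ a.im)
    (ha' : a.im < τ.im) :
    IntegrableOn (fun q : ℝ × ℝ => Real.log ‖Th τ (pt q - a)‖) (box τ) ∧
    ∫ q in box τ, Real.log ‖Th τ (pt q - a)‖ * Laplacian.laplacian g (pt q) =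
      2 * Real.pi * (g a - (∫ x in (0 : ℝ)..1, g x) -
        a.im * ∫ x in (0 : ℝ)..1, dv Complex.I g x) := by
  set H := Laplacian.laplacian g with hHdef
  have hH : Continuous H := KerL.lap_cont hg
  have hH1 : ∀ z, H (z + 1) = H z := by
    intro z
    rw [hHdef, KerL.lap_eq hg, KerL.lap_eq hg, KerL.dv_per (KerL.dv_per h1 1) 1,
      KerL.dv_per (KerL.dv_per h1 Complex.I) Complex.I]
  have hH2 : ∀ z, H (z + τ) = H z := by
    intro z
    rw [hHdef, KerL.lap_eq hg, KerL.lap_eq hg, dv_add_tau (dv_add_tau h2 1) 1,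
      dv_add_tau (dv_add_tau h2 Complex.I) Complex.I]
  have hpt : Continuous pt := by unfold pt; fun_prop
  have hTh : Continuous (Th τ) := (Th_differentiable hτ).continuous
  have hbm : MeasurableSet (box τ) := measurableSet_Ico.prod measurableSet_Ico
  have hae := ae_log hτ ha ha'
  -- integrability
  have hmeas : Measurable fun q : ℝ × ℝ => Real.log ‖Th τ (pt q - a)‖ -
      2 * Real.pi * max (a.im - q.2) 0 := by
    refine (Real.measurable_log.comp (Continuous.measurable ?_)).sub (Continuous.measurable ?_)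
    · fun_prop
    · fun_prop
  obtain ⟨o1, o2, o3⟩ := main_sum hτ (H := fun _ => 1) continuous_const (fun _ => rfl)
    (fun _ => rfl) a
  simp only [mul_one] at o1 o2 o3
  have hint1 : IntegrableOn (fun q : ℝ × ℝ => Real.log ‖Th τ (pt q - a)‖ -
      2 * Real.pi * max (a.im - q.2) 0) (box τ) :=
    integrable_of_sum hmeas.aestronglyMeasurable o1 o2 hae
  have hwc : Continuous fun y : ℝ => 2 * Real.pi * max (a.im - y) 0 := by fun_prop
  have hint2 : IntegrableOn (fun q : ℝ × ℝ => 2 * Real.pi * max (a.im - q.2) 0) (box τ) := by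
    have := (box_fubini hτ (H := fun _ => 1) continuous_const hwc).1
    simpa using this
  have hint3 : IntegrableOn (fun q : ℝ × ℝ => Real.log ‖Th τ (pt q - a)‖) (box τ) := by
    have := hint1.add hint2
    refine this.congr (Eventually.of_forall fun q => ?_)
    simp
  refine ⟨hint3, ?_⟩
  -- the value
  obtain ⟨B, hB⟩ := bounded hτ hH hH1 hH2
  obtain ⟨p1, p2, p3⟩ := main_sum hτ hH hH1 hH2 a
  have hs := hasSum_integral_of_summable_integral_norm p1 p2
  have e1 := hs.unique p3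
  have e2 : ∫ q in box τ, (∑' n : ℤ, ker (pt q - a + n * τ) * H (pt q)) =
      ∫ q in box τ, (Real.log ‖Th τ (pt q - a)‖ - 2 * Real.pi * max (a.im - q.2) 0) * H (pt q) := by
    refine integral_congr_ae ?_
    filter_upwards [hae] with q hq
    exact (hq.mul_right _).tsum_eq
  rw [e2] at e1
  have hbd : ∀ (F : ℝ × ℝ → ℝ), IntegrableOn F (box τ) →
      IntegrableOn (fun q => F q * H (pt q)) (box τ) := by
    intro F hF
    refine Integrable.mul_bdd (c := B) hF ?_ (Eventually.of_forall fun q => hB _)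
    exact (hH.comp hpt).aestronglyMeasurable
  have e3 : ∫ q in box τ, Real.log ‖Th τ (pt q - a)‖ * H (pt q) =
      (∫ q in strip, ker (pt q) * H (a + pt q)) +
        ∫ q in box τ, 2 * Real.pi * max (a.im - q.2) 0 * H (pt q) := by
    rw [← e1, ← integral_add (hbd _ hint1) (hbd _ hint2)]
    congr 1
    funext q
    ring
  have hgd : ContDiff ℝ 1 g := hg.of_le (by norm_num)
  have hdv : ContDiff ℝ 1 (dv Complex.I g) := KerL.dv_contDiff hg Complex.I
  have hdvc : Continuous (dv Complex.I (dv Complex.I g)) := by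
    have := hdv.continuous_fderiv one_ne_zero
    unfold dv at this ⊢
    exact this.clm_apply continuous_const
  have e4 : ∫ q in box τ, 2 * Real.pi * max (a.im - q.2) 0 * H (pt q) =
      2 * Real.pi * (rf g a.im - a.im * rf (dv Complex.I g) 0 - rf g 0) := by
    rw [(box_fubini hτ hH hwc).2]
    have hc2 : Continuous fun y => 2 * Real.pi * max (a.im - y) 0 * rf H y :=
      hwc.mul (rf_cont hH)
    rw [← intervalIntegral.integral_add_adjacent_intervals (b := a.im)
      (hc2.intervalIntegrable _ _) (hc2.intervalIntegrable _ _)]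
    have e5 : ∫ y in a.im..τ.im, 2 * Real.pi * max (a.im - y) 0 * rf H y = 0 := by
      rw [intervalIntegral.integral_congr (g := fun _ => (0 : ℝ))]
      · simp
      · intro y hy
        rw [uIcc_of_le ha'.le] at hy
        simp only
        rw [max_eq_right (by linarith [hy.1])]; ring
    have e6 : ∫ y in (0 : ℝ)..a.im, 2 * Real.pi * max (a.im - y) 0 * rf H y =
        ∫ y in (0 : ℝ)..a.im, 2 * Real.pi * ((a.im - y) * rf (dv Complex.I (dv Complex.I g)) y) := by
      refine intervalIntegral.integral_congr fun y hy => ?_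
      rw [uIcc_of_le ha] at hy
      rw [max_eq_left (by linarith [hy.2]), hHdef, rf_lap hg h1]; ring
    rw [e5, e6, add_zero, intervalIntegral.integral_const_mul]
    congr 1
    have hder : ∀ y ∈ uIcc (0 : ℝ) a.im,
        HasDerivAt (fun y => (a.im - y) * rf (dv Complex.I g) y + rf g y)
          ((a.im - y) * rf (dv Complex.I (dv Complex.I g)) y) y := by
      intro y _
      have d1 := rf_hasDerivAt hgd y
      have d2 := rf_hasDerivAt hdv y
      refine ((((hasDerivAt_id y).const_sub a.im).mul d2).add d1).congr_deriv ?_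
      simp only [id]
      ring
    rw [intervalIntegral.integral_eq_sub_of_hasDerivAt hder]
    · ring
    · exact ((continuous_const.sub continuous_id).mul (rf_cont hdvc)).intervalIntegrable _ _
  -- bounds for kerL
  obtain ⟨B0, hB0⟩ := bounded hτ hg.continuous h1 h2
  have hf1 : ContDiff ℝ 1 (fderiv ℝ g) := hg.fderiv_right (m := 1) (by norm_num)
  have per1 : ∀ {E : Type} [NormedAddCommGroup E] [NormedSpace ℝ E] {F : ℂ → E} {c : ℂ},
      (∀ z, F (z + c) = F z) → ∀ z, fderiv ℝ F (z + c) = fderiv ℝ F z := by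
    intro E _ _ F c hF z
    have h4 : (fun w => F (w + c)) = F := funext hF
    have h5 := fderiv_comp_add_right (𝕜 := ℝ) (f := F) (x := z) c
    rw [h4] at h5
    exact h5.symm
  obtain ⟨B1, hB1⟩ := bounded hτ hf1.continuous (per1 h1) (per1 h2)
  obtain ⟨B2, hB2⟩ := bounded hτ (hf1.continuous_fderiv one_ne_zero) (per1 (per1 h1))
    (per1 (per1 h2))
  have hdd : ∀ z v : ℂ, dv v (dv v g) z = fderiv ℝ (fderiv ℝ g) z v v := by
    intro z v
    unfold dv
    rw [fderiv_clm_apply (hf1.differentiable one_ne_zero z) (differentiableAt_const v)]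
    simp
  have e7 := kerL hg h1 (M := max B0 (max B1 B2)) (d := 0)
    (fun z => by
      rw [pow_zero, mul_one]
      exact (hB0 z).trans (le_max_left _ _))
    (fun z v hv => by
      rw [pow_zero, mul_one]
      refine le_trans ?_ ((le_max_left B1 B2).trans (le_max_right _ _))
      have := (fderiv ℝ g z).le_opNorm v
      have h0 := norm_nonneg (fderiv ℝ g z)
      have := hB1 z
      unfold dv
      calc |fderiv ℝ g z v| ≤ ‖fderiv ℝ g z‖ * ‖v‖ := by assumption
        _ ≤ ‖fderiv ℝ g z‖ * 1 := mul_le_mul_of_nonneg_left hv h0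
        _ ≤ B1 := by linarith)
    (fun z v hv => by
      rw [pow_zero, mul_one, hdd]
      refine le_trans ?_ ((le_max_right B1 B2).trans (le_max_right _ _))
      have i1 := (fderiv ℝ (fderiv ℝ g) z v).le_opNorm v
      have i2 := (fderiv ℝ (fderiv ℝ g) z).le_opNorm v
      have h0 := norm_nonneg (fderiv ℝ (fderiv ℝ g) z)
      have h0' := norm_nonneg (fderiv ℝ (fderiv ℝ g) z v)
      have i3 := hB2 z
      calc |fderiv ℝ (fderiv ℝ g) z v v| ≤ ‖fderiv ℝ (fderiv ℝ g) z v‖ * ‖v‖ := i1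
        _ ≤ ‖fderiv ℝ (fderiv ℝ g) z v‖ * 1 := mul_le_mul_of_nonneg_left hv h0'
        _ ≤ ‖fderiv ℝ (fderiv ℝ g) z‖ * ‖v‖ := by linarith
        _ ≤ ‖fderiv ℝ (fderiv ℝ g) z‖ * 1 := mul_le_mul_of_nonneg_left hv h0
        _ ≤ B2 := by linarith)
    a
  have e8 : ∫ s in (0 : ℝ)..1, g (a + s) = rf g a.im := by
    unfold rf
    have i1 : ∀ x : ℝ, g (a + x) = g ((x + a.re : ℝ) + a.im * Complex.I) := by
      intro x
      congr 1
      apply Complex.ext
      · simp [add_comm]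
      · simp
    simp only [i1]
    rw [intervalIntegral.integral_comp_add_right (fun y : ℝ => g (y + a.im * Complex.I))]
    have hper : Function.Periodic (fun y : ℝ => g (y + a.im * Complex.I)) 1 := fun y => by
      have : ((y + 1 : ℝ) : ℂ) + a.im * Complex.I = y + a.im * Complex.I + 1 := by
        push_cast; ring
      simp only [this, h1]
    have := hper.intervalIntegral_add_eq (0 + a.re) 0
    rw [show (1 : ℝ) + a.re = 0 + a.re + 1 by ring, this, zero_add]
  have e9 : rf (dv Complex.I g) 0 = ∫ x in (0 : ℝ)..1, dv Complex.I g x := by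
    unfold rf; simp
  have e10 : rf g 0 = ∫ x in (0 : ℝ)..1, g x := by
    unfold rf; simp
  rw [e3, e4, e7, e8, ← e9, ← e10]
  ring

open Torus in
theorem torus_im {τ : ℂ} (hτ : 0 < τ.im) {g : ℂ → ℝ} (hg : ContDiff ℝ 2 g)
    (h1 : ∀ z, g (z + 1) = g z) (h2 : ∀ z, g (z + τ) = g z) :
    ∫ q in box τ, q.2 * Laplacian.laplacian g (pt q) =
      τ.im * ∫ x in (0 : ℝ)..1, dv Complex.I g x := by
  have hD := KerL.lap_cont hg
  have hdv : ContDiff ℝ 1 (dv Complex.I g) := KerL.dv_contDiff hg Complex.I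
  have hdvc : Continuous (dv Complex.I (dv Complex.I g)) := by
    have := hdv.continuous_fderiv one_ne_zero
    unfold dv at this ⊢
    exact this.clm_apply continuous_const
  have h3 := (box_fubini hτ hD continuous_id).2
  simp only [id] at h3
  rw [h3]
  simp only [rf_lap hg h1]
  have hder : ∀ y ∈ uIcc (0 : ℝ) τ.im, HasDerivAt (fun y => y * rf (dv Complex.I g) y - rf g y)
      (y * rf (dv Complex.I (dv Complex.I g)) y) y := by
    intro y _
    have e1 := rf_hasDerivAt (hg.of_le (by norm_num) : ContDiff ℝ 1 g) y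
    have e2 := rf_hasDerivAt hdv y
    refine (((hasDerivAt_id y).mul e2).sub e1).congr_deriv ?_
    simp
  rw [intervalIntegral.integral_eq_sub_of_hasDerivAt hder]
  · have e1 := rf_tau h1 h2
    have e2 := rf_tau (KerL.dv_per h1 Complex.I) (τ := τ) (fun z => by
      have h4 : (fun w => g (w + τ)) = g := funext h2
      have h5 := fderiv_comp_add_right (𝕜 := ℝ) (f := g) (x := z) τ
      rw [h4] at h5
      unfold dv
      rw [← h5])
    have e3 : rf (dv Complex.I g) 0 = ∫ x in (0 : ℝ)..1, dv Complex.I g x := by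
      unfold rf; simp
    rw [← e3, e1, e2]; ring
  · exact (continuous_id.mul (rf_cont hdvc)).intervalIntegrable _ _

end Pool.Agent.Helper76.ES
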