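import Pool.Agent.Helper76.ES.Base
import Pool.Agent.Helper76.ES.EDiv
import Pool.Agent.Helper76.ES.Torus
import Pool.Agent.Helper21.Reg.Order

/-!
# Elliptic functions with torsion divisor and their regulators (ELL)
-/

open Filter Topology Set MeasureTheory
open scoped Manifold ContDiff

noncomputable section

namespace Pool.Agent.Helper76.ES

namespace Ell

open Pool.Agent.Helper21.Reg

lemma pt_continuous : Continuous pt := by
  unfold pt
  fun_prop

lemma pt_injective : Function.Injective pt := by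
  intro a b h
  have h1 := congrArg Complex.re h
  have h2 := congrArg Complex.im h
  simp [pt] at h1 h2
  exact Prod.ext h1 h2

lemma pt_im (a : ℝ × ℝ) : (pt a).im = a.2 := by simp [pt]

lemma lat_countable (τ : ℂ) : {z : ℂ | Lat τ z}.Countable := by
  have : {z : ℂ | Lat τ z} ⊆ range (fun p : ℤ × ℤ => (p.1 : ℂ) + p.2 * τ) := by
    rintro z ⟨m, n, rfl⟩
    exact ⟨(m, n), rfl⟩
  exact (countable_range _).mono this

/-- almost all points of the plane are not in a translate of the lattice -/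
lemma ae_not_lat (τ a : ℂ) : ∀ᵐ q : ℝ × ℝ, ¬ Lat τ (pt q - a) := by
  have hc : {q : ℝ × ℝ | Lat τ (pt q - a)}.Countable := by
    have h1 : ((fun z : ℂ => z - a) ⁻¹' {z : ℂ | Lat τ z}).Countable :=
      (lat_countable τ).preimage (sub_left_injective)
    exact h1.preimage pt_injective
  have h0 : volume {q : ℝ × ℝ | Lat τ (pt q - a)} = 0 := hc.measure_zero _
  rw [ae_iff]
  simpa using h0

lemma continuous_laplacian {g : ℂ → ℝ} (hg : ContDiff ℝ 2 g) :
    Continuous (Laplacian.laplacian g) := by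
  rw [InnerProductSpace.laplacian_eq_iteratedFDeriv_complexPlane]
  have h := hg.continuous_iteratedFDeriv (m := 2) le_rfl
  exact (h.eval_const _).add (h.eval_const _)

lemma box_measurable (τ : ℂ) : MeasurableSet (box τ) :=
  measurableSet_Ico.prod measurableSet_Ico

lemma box_subset (τ : ℂ) : box τ ⊆ Icc 0 1 ×ˢ Icc 0 τ.im :=
  prod_mono Ico_subset_Icc_self Ico_subset_Icc_self

lemma integrable_mul {τ : ℂ} {F : ℝ × ℝ → ℝ} (hF : IntegrableOn F (box τ)) {D : ℂ → ℝ}
    (hD : Continuous D) : IntegrableOn (fun q => F q * D (pt q)) (box τ) :=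
  hF.mul_continuousOn_of_subset (hD.comp pt_continuous).continuousOn (box_measurable τ)
    (isCompact_Icc.prod isCompact_Icc) (box_subset τ)

lemma im_integrable (τ : ℂ) : IntegrableOn (fun q : ℝ × ℝ => q.2) (box τ) :=
  (continuous_snd.continuousOn.integrableOn_compact
    (isCompact_Icc.prod isCompact_Icc)).mono_set (box_subset τ)

lemma Th_integrable {τ : ℂ} (hτ : 0 < τ.im) {a : ℂ} (ha : 0 ≤ a.im) (ha' : a.im < τ.im) :
    IntegrableOn (fun q : ℝ × ℝ => Real.log ‖Th τ (pt q - a)‖) (box τ) :=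
  (torus_Th hτ (g := fun _ => 0) contDiff_const (fun _ => rfl) (fun _ => rfl) ha ha').1

/-- the logarithm of the theta quotient, outside the divisor -/
lemma log_EF {τ : ℂ} (hτ : 0 < τ.im) (M : ℤ) (N : ℕ) (b z : ℂ) (h1 : ¬ Lat τ (z - b))
    (h2 : ¬ Lat τ (z - 0)) :
    Real.log ‖EF τ M [(b, (N : ℤ)), (0, -(N : ℤ))] z‖ =
      2 * Real.pi * M * z.im + N * Real.log ‖Th τ (z - b)‖ - N * Real.log ‖Th τ (z - 0)‖ := by
  have e1 : Th τ (z - b) ≠ 0 := by rwa [Ne, Th_eq_zero_iff hτ]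
  have e2 : Th τ (z - 0) ≠ 0 := by rwa [Ne, Th_eq_zero_iff hτ]
  have e3 : ‖ee (-((M : ℂ) * z))‖ = Real.exp (2 * Real.pi * M * z.im) := by
    rw [norm_ee]
    congr 1
    simp
    ring
  unfold EF thProd
  simp only [List.map_cons, List.map_nil, List.prod_cons, List.prod_nil, mul_one, norm_mul,
    norm_zpow]
  rw [e3, Real.log_mul (Real.exp_pos _).ne' (by positivity), Real.log_exp,
    Real.log_mul (zpow_ne_zero _ (norm_ne_zero_iff.mpr e1))
      (zpow_ne_zero _ (norm_ne_zero_iff.mpr e2)), Real.log_zpow, Real.log_zpow]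
  push_cast
  ring

lemma periodic_zsmul {X : Type} {φ : ℂ → X} {τ : ℂ} (h : ∀ z, φ (z + τ) = φ z) (n : ℤ) (z : ℂ) :
    φ (z + n * τ) = φ z := by
  have h' : Function.Periodic φ τ := h
  exact h'.int_mul n z

end Ell

open Pool.Agent.Helper21.Reg Ell in
theorem exists_ell {τ : ℂ} (hτ : 0 < τ.im) {b : ℂ} {N : ℕ} {M K : ℤ}
    (hb : (N : ℂ) * b = M * τ + K) :
    ∃ f : ℂ → ℂ, (∀ z, MeromorphicAt f z) ∧ (∀ z, f (z + 1) = f z) ∧ (∀ z, f (z + τ) = f z) ∧
      (∀ z, meromorphicOrderAt f z ≠ ⊤) ∧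
      (∀ (X : Type) (φ : ℂ → X), (∀ z, φ (z + 1) = φ z) → (∀ z, φ (z + τ) = φ z) →
        ∀ (x : X) [Decidable (φ b = x)] [Decidable (φ 0 = x)],
        ∑ᶠ p ∈ {p : ℂ | p ∈ cell τ ∧ φ p = x}, (meromorphicOrderAt f p).untop₀ =
          N * ((if φ b = x then 1 else 0) - (if φ 0 = x then 1 else 0))) ∧
      (∀ D : ℂ → ℝ, Continuous D →
        IntegrableOn (fun q : ℝ × ℝ => Real.log ‖f (pt q)‖ * D (pt q)) (box τ)) ∧
      ∀ g : ℂ → ℝ, ContDiff ℝ 2 g → (∀ z, g (z + 1) = g z) → (∀ z, g (z + τ) = g z) →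
        ∫ q in box τ, Real.log ‖f (pt q)‖ * Laplacian.laplacian g (pt q) =
          2 * Real.pi * (N * (g b - g 0)) := by
  obtain ⟨j, hj⟩ : ∃ j : ℤ, j = ⌊b.im / τ.im⌋ := ⟨_, rfl⟩
  obtain ⟨b', hb'⟩ : ∃ b' : ℂ, b' = b + ((-j : ℤ) : ℂ) * τ := ⟨_, rfl⟩
  obtain ⟨M', hM'⟩ : ∃ M' : ℤ, M' = M - j * N := ⟨_, rfl⟩
  have him : b'.im = b.im - j * τ.im := by rw [hb']; simp; ring
  have h1 : (j : ℝ) * τ.im ≤ b.im := by
    have := Int.floor_le (b.im / τ.im)
    rw [← hj] at this
    rwa [le_div_iff₀ hτ] at this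
  have h2 : b.im < (j + 1 : ℝ) * τ.im := by
    have := Int.lt_floor_add_one (b.im / τ.im)
    rw [← hj] at this
    rwa [div_lt_iff₀ hτ] at this
  have hb0 : 0 ≤ b'.im := by rw [him]; linarith
  have hb1 : b'.im < τ.im := by rw [him]; linarith
  have hNb : (N : ℂ) * b' = M' * τ + K := by
    rw [hb', hM']
    push_cast
    linear_combination hb
  have hNim : (N : ℝ) * b'.im = M' * τ.im := by
    have := congrArg Complex.im hNb
    simpa using this
  obtain ⟨D, hD⟩ : ∃ D : List (ℂ × ℤ), D = [(b', (N : ℤ)), (0, -(N : ℤ))] := ⟨_, rfl⟩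
  have hdeg : ddeg D = 0 := by rw [hD]; simp [ddeg]
  have hsum : dsum D = K + M' * τ := by
    rw [hD]
    simp only [dsum, List.map_cons, List.map_nil, List.sum_cons, List.sum_nil, mul_zero, add_zero,
      Int.cast_natCast]
    rw [hNb]; ring
  -- the logarithm almost everywhere
  have hlog : ∀ᵐ q : ℝ × ℝ, Real.log ‖EF τ M' D (pt q)‖ =
      2 * Real.pi * M' * q.2 + N * Real.log ‖Th τ (pt q - b')‖
        - N * Real.log ‖Th τ (pt q - 0)‖ := by
    filter_upwards [ae_not_lat τ b', ae_not_lat τ 0] with q hq1 hq2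
    rw [hD, log_EF hτ M' N b' (pt q) hq1 hq2, pt_im]
  have i1 := Th_integrable hτ hb0 hb1
  have i2 := Th_integrable hτ (a := 0) (by simp) (by simpa using hτ)
  have i3 := im_integrable τ
  refine ⟨EF τ M' D, EF_mero hτ M' D, EF_add_one M' D, EF_add_tau hτ M' K D hdeg hsum, ?_, ?_,
    ?_, ?_⟩
  · intro z
    rw [EF_order hτ]
    exact WithTop.coe_ne_top
  · intro X φ p1 p2 x d1 d2
    have hφ : φ b' = φ b := by rw [hb']; exact periodic_zsmul p2 (-j) b
    have : Decidable (φ b' = x) := decidable_of_iff (φ b = x) (by rw [hφ])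
    have := ell_div hτ p1 p2 b' M' N x
    rw [hD, this]
    congr 2
    by_cases h : φ b = x
    · rw [if_pos h, if_pos (hφ.trans h)]
    · rw [if_neg h, if_neg (fun h' => h (hφ ▸ h'))]
  · intro D' hD'
    have i4 : IntegrableOn (fun q : ℝ × ℝ => 2 * Real.pi * M' * q.2
        + N * Real.log ‖Th τ (pt q - b')‖ - N * Real.log ‖Th τ (pt q - 0)‖) (box τ) :=
      ((i3.const_mul _).add (i1.const_mul _)).sub (i2.const_mul _)
    have i5 := integrable_mul i4 hD'
    refine i5.congr ?_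
    filter_upwards [ae_restrict_of_ae hlog] with q hq
    rw [hq]
  · intro g hg p1 p2
    have hΔ := continuous_laplacian hg
    have t1 := (torus_Th hτ hg p1 p2 hb0 hb1).2
    have t2 := (torus_Th hτ hg p1 p2 (a := 0) (by simp) (by simpa using hτ)).2
    have t3 := torus_im hτ hg p1 p2
    have j1 := integrable_mul i1 hΔ
    have j2 := integrable_mul i2 hΔ
    have j3 := integrable_mul i3 hΔ
    have e1 : ∫ q in box τ, Real.log ‖EF τ M' D (pt q)‖ * Laplacian.laplacian g (pt q) =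
        ∫ q in box τ, (2 * Real.pi * M' * (q.2 * Laplacian.laplacian g (pt q))
          + N * (Real.log ‖Th τ (pt q - b')‖ * Laplacian.laplacian g (pt q))
          - N * (Real.log ‖Th τ (pt q - 0)‖ * Laplacian.laplacian g (pt q))) := by
      refine integral_congr_ae ?_
      filter_upwards [ae_restrict_of_ae hlog] with q hq
      rw [hq]; ring
    have k1 : IntegrableOn (fun q : ℝ × ℝ => 2 * Real.pi * M' * (q.2 * Laplacian.laplacian g (pt q)))
        (box τ) := j3.const_mul _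
    have k2 : IntegrableOn (fun q : ℝ × ℝ => (N : ℝ) * (Real.log ‖Th τ (pt q - b')‖ *
        Laplacian.laplacian g (pt q))) (box τ) := j1.const_mul _
    have k3 : IntegrableOn (fun q : ℝ × ℝ => (N : ℝ) * (Real.log ‖Th τ (pt q - 0)‖ *
        Laplacian.laplacian g (pt q))) (box τ) := j2.const_mul _
    have k12 : IntegrableOn (fun q : ℝ × ℝ =>
        2 * Real.pi * M' * (q.2 * Laplacian.laplacian g (pt q)) +
        (N : ℝ) * (Real.log ‖Th τ (pt q - b')‖ * Laplacian.laplacian g (pt q))) (box τ) := k1.add k2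
    rw [e1, integral_sub k12 k3, integral_add k1 k2, integral_const_mul, integral_const_mul,
      integral_const_mul, t1, t2, t3]
    have hgb : g b' = g b := by rw [hb']; exact periodic_zsmul p2 (-j) b
    rw [hgb, Complex.zero_im]
    linear_combination (-(2 * Real.pi) * ∫ x in (0 : ℝ)..1, dv Complex.I g x) * hNim


end Pool.Agent.Helper76.ES
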