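import Pool.Agent.Helper76.ES.LogC

open Filter Topology Set MeasureTheory
open scoped Manifold ContDiff

noncomputable section

namespace Pool.Agent.Helper76.ES

namespace LogPot

open LogC

/-! ### The potential of a compactly supported density -/

/-- the potential as a convolution -/
def cv (g : ℂ → ℝ) (a : ℂ) : ℝ := ∫ t : ℂ, Real.log ‖t‖ * g (a - t)

lemma cv_eq_conv (g : ℂ → ℝ) :
    cv g = MeasureTheory.convolution (fun z : ℂ => Real.log ‖z‖) g
      (ContinuousLinearMap.mul ℝ ℝ) volume := by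
  ext a
  rfl

lemma cv_eq (g : ℂ → ℝ) (a : ℂ) : ∫ z : ℂ, Real.log ‖z - a‖ * g z = cv g a := by
  unfold cv
  rw [← integral_sub_left_eq_self (fun z : ℂ => Real.log ‖z - a‖ * g z) volume a]
  refine integral_congr_ae (Eventually.of_forall fun t => ?_)
  simp only
  rw [sub_sub_cancel_left, norm_neg]

lemma cv_eq' (g : ℂ → ℝ) (a : ℂ) : cv g a = ∫ t : ℂ, Real.log ‖t‖ * g (t + a) := by
  unfold cv
  rw [← integral_neg_eq_self (fun t : ℂ => Real.log ‖t‖ * g (a - t)) volume]
  refine integral_congr_ae (Eventually.of_forall fun t => ?_)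
  simp only
  rw [norm_neg, sub_neg_eq_add, add_comm]

lemma cv_dv {g : ℂ → ℝ} (hg : ContDiff ℝ 1 g) (hc : HasCompactSupport g) (v a : ℂ) :
    dv v (cv g) a = cv (dv v g) a := by
  have h := hc.hasFDerivAt_convolution_right (ContinuousLinearMap.mul ℝ ℝ) log_locInt hg a
  unfold dv
  rw [cv_eq_conv, h.fderiv, convolution_precompR_apply (ContinuousLinearMap.mul ℝ ℝ) log_locInt
    (hc.fderiv ℝ) (hg.continuous_fderiv one_ne_zero)]
  rfl

lemma cv_contDiff {g : ℂ → ℝ} (hg : ContDiff ℝ 2 g) (hc : HasCompactSupport g) :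
    ContDiff ℝ 2 (cv g) := by
  rw [cv_eq_conv]
  exact hc.contDiff_convolution_right (n := 2) (ContinuousLinearMap.mul ℝ ℝ) log_locInt hg

lemma supp_add {g : ℂ → ℝ} (hc : HasCompactSupport g) (a : ℂ) :
    HasCompactSupport fun t => g (t + a) :=
  hc.comp_homeomorph (Homeomorph.addRight a)

lemma dv_add (g : ℂ → ℝ) (v a t : ℂ) : dv v (fun t => g (t + a)) t = dv v g (t + a) := by
  unfold dv
  rw [fderiv_comp_add_right]

lemma cv_lap {g : ℂ → ℝ} (hg : ContDiff ℝ 2 g) (hc : HasCompactSupport g) (a : ℂ) :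
    Laplacian.laplacian (cv g) a = 2 * Real.pi * g a := by
  have h1 : ∀ v : ℂ, dv v (cv g) = cv (dv v g) := fun v => by
    ext a
    exact cv_dv (hg.of_le (by norm_num)) hc v a
  have hd : ∀ v : ℂ, ContDiff ℝ 1 (dv v g) := fun v => dv_cont hg v
  have hdc : ∀ v : ℂ, Continuous (dv v (dv v g)) := by
    intro v
    have c1 := hd v
    unfold dv at c1 ⊢
    exact (c1.continuous_fderiv (by norm_num)).clm_apply continuous_const
  rw [lap_eq (cv_contDiff hg hc).contDiffAt, h1, h1, cv_dv (hd 1) (dv_supp hc 1),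
    cv_dv (hd Complex.I) (dv_supp hc Complex.I), cv_eq', cv_eq', ← integral_add]
  · have hg' : ContDiff ℝ 2 (fun t => g (t + a)) := hg.comp (contDiff_id.add contDiff_const)
    have h2 := log_laplacian hg' (supp_add hc a)
    rw [zero_add] at h2
    rw [← h2]
    refine integral_congr_ae (Eventually.of_forall fun t => ?_)
    simp only
    rw [lap_eq hg'.contDiffAt]
    have h3 : ∀ v : ℂ, dv v (fun t => g (t + a)) = fun t => dv v g (t + a) := fun v => by
      ext t
      exact dv_add g v a t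
    rw [h3, h3, dv_add, dv_add]
    ring
  · exact int_log_mul ((hdc 1).comp (continuous_id.add continuous_const))
      (supp_add (dv_supp (dv_supp hc 1) 1) a)
  · exact int_log_mul ((hdc Complex.I).comp (continuous_id.add continuous_const))
      (supp_add (dv_supp (dv_supp hc Complex.I) Complex.I) a)

lemma cv_int {g : ℂ → ℝ} (hg : Continuous g) (hc : HasCompactSupport g) (a : ℂ) :
    Integrable (fun z : ℂ => Real.log ‖z - a‖ * g z) := by
  have h1 := int_log_mul (hg.comp (continuous_id.add (continuous_const (y := a))))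
    (supp_add hc a)
  have h2 := h1.comp_sub_right a
  refine h2.congr (Eventually.of_forall fun z => ?_)
  simp

/-! ### Bounds -/

lemma int_four : Integrable (fun z : ℂ => 1 / (1 + ‖z‖ ^ 2) ^ 2) := by
  have h := integrable_rpow_neg_one_add_norm_sq (E := ℂ) (μ := volume) (r := 4)
    (by rw [Complex.finrank_real_complex]; norm_num)
  refine h.congr (Eventually.of_forall fun z => ?_)
  simp only
  have h1 : (0 : ℝ) < 1 + ‖z‖ ^ 2 := by positivity
  rw [show (-4 / 2 : ℝ) = -((2 : ℕ) : ℝ) by norm_num, Real.rpow_neg h1.le, Real.rpow_natCast]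
  simp

lemma int_three : Integrable (fun z : ℂ => (1 + ‖z‖) / (1 + ‖z‖ ^ 2) ^ 2) := by
  have h := (integrable_rpow_neg_one_add_norm_sq (E := ℂ) (μ := volume) (r := 3)
    (by rw [Complex.finrank_real_complex]; norm_num)).const_mul 2
  refine h.mono' ?_ (Eventually.of_forall fun z => ?_)
  · refine Continuous.aestronglyMeasurable ?_
    refine Continuous.div (by fun_prop) (by fun_prop) (fun z => by positivity)
  · have h1 : (0 : ℝ) < 1 + ‖z‖ ^ 2 := by positivity
    have h0 := norm_nonneg z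
    rw [Real.norm_eq_abs, abs_of_nonneg (by positivity)]
    have e1 : (1 + ‖z‖ ^ 2) ^ (-3 / 2 : ℝ) = (1 + ‖z‖ ^ 2) ^ (1 / 2 : ℝ) / (1 + ‖z‖ ^ 2) ^ 2 := by
      rw [show (-3 / 2 : ℝ) = 1 / 2 - ((2 : ℕ) : ℝ) by norm_num, Real.rpow_sub h1,
        Real.rpow_natCast]
    rw [e1, mul_div_assoc']
    refine div_le_div_of_nonneg_right ?_ (by positivity)
    rw [← Real.sqrt_eq_rpow]
    have h2 : ‖z‖ ≤ Real.sqrt (1 + ‖z‖ ^ 2) := by
      apply Real.le_sqrt_of_sq_le
      linarith
    have h3 : 1 ≤ Real.sqrt (1 + ‖z‖ ^ 2) := by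
      rw [Real.one_le_sqrt]
      nlinarith
    linarith

lemma bound_D {D D' : ℂ → ℝ} (hD : Continuous D) (hD' : Continuous D')
    (h : ∀ z, z ≠ 0 → D z = (‖z‖ ^ 4)⁻¹ * D' z⁻¹) :
    ∃ M, 0 ≤ M ∧ ∀ z, |D z| ≤ M * (1 / (1 + ‖z‖ ^ 2) ^ 2) := by
  obtain ⟨M1, h1⟩ := (isCompact_closedBall (0 : ℂ) 1).exists_bound_of_continuousOn hD.continuousOn
  obtain ⟨M2, h2⟩ := (isCompact_closedBall (0 : ℂ) 1).exists_bound_of_continuousOn hD'.continuousOn
  have h10 : 0 ≤ M1 := (norm_nonneg _).trans (h1 0 (by simp))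
  have h20 : 0 ≤ M2 := (norm_nonneg _).trans (h2 0 (by simp))
  refine ⟨4 * M1 + 4 * M2, by positivity, fun z => ?_⟩
  rw [mul_one_div, le_div_iff₀ (by positivity)]
  have h0 := norm_nonneg z
  by_cases hz : ‖z‖ ≤ 1
  · have h3 : |D z| ≤ M1 := h1 z (by simpa using hz)
    have h5 : ‖z‖ ^ 2 ≤ 1 := by nlinarith
    have h4 : (1 + ‖z‖ ^ 2) ^ 2 ≤ 4 := by nlinarith [sq_nonneg ‖z‖]
    calc |D z| * (1 + ‖z‖ ^ 2) ^ 2 ≤ M1 * 4 := by gcongr
      _ ≤ 4 * M1 + 4 * M2 := by linarith
  · push Not at hz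
    have hz0 : z ≠ 0 := by
      rintro rfl
      simp at hz
      linarith
    have h3 : |D' z⁻¹| ≤ M2 := h2 z⁻¹ (by
      rw [mem_closedBall_zero_iff, norm_inv]
      exact inv_le_one_of_one_le₀ hz.le)
    rw [h z hz0, abs_mul, abs_of_nonneg (by positivity : 0 ≤ (‖z‖ ^ 4)⁻¹)]
    have h4 : (1 + ‖z‖ ^ 2) ^ 2 ≤ 4 * ‖z‖ ^ 4 := by
      have : 1 + ‖z‖ ^ 2 ≤ 2 * ‖z‖ ^ 2 := by nlinarith
      calc (1 + ‖z‖ ^ 2) ^ 2 ≤ (2 * ‖z‖ ^ 2) ^ 2 := by gcongr
        _ = 4 * ‖z‖ ^ 4 := by ring
    have hz4 : 0 < ‖z‖ ^ 4 := by positivity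
    calc (‖z‖ ^ 4)⁻¹ * |D' z⁻¹| * (1 + ‖z‖ ^ 2) ^ 2 ≤ (‖z‖ ^ 4)⁻¹ * M2 * (4 * ‖z‖ ^ 4) := by
          gcongr
      _ = 4 * M2 := by field_simp
      _ ≤ 4 * M1 + 4 * M2 := by linarith

/-! ### The far part -/

/-- `log ‖z - a‖ = log ‖z‖ + Re Log (1 - a / z)` -/
lemma log_sub {z a : ℂ} (hz : z ≠ 0) (ha : z ≠ a) :
    Real.log ‖z - a‖ = Real.log ‖z‖ + (Complex.log (1 + -(a / z))).re := by
  rw [Complex.log_re, ← Real.log_mul (norm_ne_zero_iff.2 hz), ← norm_mul]
  · congr 2
    field_simp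
    ring
  · rw [norm_ne_zero_iff]
    intro h0
    apply ha
    have : a / z = 1 := by linear_combination -h0
    rw [div_eq_one_iff_eq hz] at this
    exact this.symm

lemma far {g : ℂ → ℝ} (hg : Continuous g) {R : ℝ} (hR : 0 < R)
    (h0 : ∀ z, ‖z‖ ≤ R → g z = 0) {M : ℝ}
    (hM : ∀ z, |g z| ≤ M * (1 / (1 + ‖z‖ ^ 2) ^ 2)) :
    (∀ a, ‖a‖ < R / 2 → Integrable (fun z : ℂ => Real.log ‖z - a‖ * g z)) ∧
    ∀ a₀, ‖a₀‖ < R / 2 →
      InnerProductSpace.HarmonicAt (fun a : ℂ => ∫ z : ℂ, Real.log ‖z - a‖ * g z) a₀ := by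
  have hgi : Integrable g :=
    (int_four.const_mul M).mono' hg.aestronglyMeasurable (Eventually.of_forall hM)
  -- small quotients
  have hq : ∀ a z : ℂ, ‖a‖ < R / 2 → R < ‖z‖ → ‖-(a / z)‖ ≤ 1 / 2 := by
    intro a z ha hz
    rw [norm_neg, norm_div, div_le_iff₀ (by linarith)]
    linarith
  have hM0 : 0 ≤ M := by
    have := (abs_nonneg _).trans (hM 0)
    simpa using this
  -- integrability of the logarithm of the norm
  have i1 : Integrable (fun z : ℂ => Real.log ‖z‖ * g z) := by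
    have hmeas : AEStronglyMeasurable (fun z : ℂ => Real.log ‖z‖ * g z) volume :=
      (Real.measurable_log.comp measurable_norm).aestronglyMeasurable.mul hg.aestronglyMeasurable
    refine ((int_three.const_mul (M * (|Real.log R| + 1)))).mono' hmeas
      (Eventually.of_forall fun z => ?_)
    rw [Real.norm_eq_abs, abs_mul]
    by_cases hz : ‖z‖ ≤ R
    · rw [h0 z hz, abs_zero, mul_zero]
      have := norm_nonneg z
      positivity
    · push Not at hz
      have hz0 : 0 < ‖z‖ := hR.trans hz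
      have e1 : |Real.log ‖z‖| ≤ (|Real.log R| + 1) * (1 + ‖z‖) := by
        rw [abs_le]
        have f1 := Real.log_le_log hR hz.le
        have f2 := Real.log_le_sub_one_of_pos hz0
        have f3 := neg_abs_le (Real.log R)
        have f4 := abs_nonneg (Real.log R)
        constructor <;> nlinarith
      calc |Real.log ‖z‖| * |g z| ≤ ((|Real.log R| + 1) * (1 + ‖z‖)) *
            (M * (1 / (1 + ‖z‖ ^ 2) ^ 2)) := by
              gcongr
              exact hM z
        _ = M * (|Real.log R| + 1) * ((1 + ‖z‖) / (1 + ‖z‖ ^ 2) ^ 2) := by ring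
  -- the holomorphic part
  set F : ℂ → ℂ → ℂ := fun a z => Complex.log (1 + -(a / z)) * (g z : ℂ) with hF
  have hFm : ∀ a, AEStronglyMeasurable (F a) volume := by
    intro a
    refine AEStronglyMeasurable.mul ?_ ?_
    · refine (Complex.measurable_log.comp ?_).aestronglyMeasurable
      exact (measurable_const.add ((measurable_const.div measurable_id).neg))
    · exact (Complex.continuous_ofReal.comp hg).aestronglyMeasurable
  have i2 : ∀ a, ‖a‖ < R / 2 → Integrable (F a) := by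
    intro a ha
    refine (hgi.norm).mono' (hFm a) (Eventually.of_forall fun z => ?_)
    rw [hF]
    simp only
    rw [norm_mul, Complex.norm_real]
    by_cases hz : ‖z‖ ≤ R
    · rw [h0 z hz]
      simp
    · push Not at hz
      have e1 := Complex.norm_log_one_add_half_le_self (hq a z ha hz)
      have e2 := hq a z ha hz
      have e3 : ‖Complex.log (1 + -(a / z))‖ ≤ 1 := by linarith
      calc ‖Complex.log (1 + -(a / z))‖ * ‖g z‖ ≤ 1 * ‖g z‖ := by gcongr
        _ = ‖g z‖ := one_mul _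
  have e : ∀ a, ‖a‖ < R / 2 → ∀ z, Real.log ‖z - a‖ * g z =
      Real.log ‖z‖ * g z + (F a z).re := by
    intro a ha z
    by_cases hz : ‖z‖ ≤ R
    · rw [hF]
      simp only
      rw [h0 z hz]
      simp
    · push Not at hz
      have hz0 : z ≠ 0 := by
        rintro rfl
        simp at hz
        linarith
      have hza : z ≠ a := by
        rintro rfl
        linarith
      rw [log_sub hz0 hza, hF]
      simp only
      rw [Complex.re_mul_ofReal]
      ring
  refine ⟨fun a ha => ?_, fun a₀ ha₀ => ?_⟩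
  · exact (i1.add (i2 a ha).re).congr (Eventually.of_forall fun z => (e a ha z).symm)
  -- differentiability
  have hdiff : DifferentiableOn ℂ (fun a => ∫ z, F a z) (Metric.ball 0 (R / 2)) := by
    intro a ha
    refine DifferentiableAt.differentiableWithinAt ?_
    have hs : Metric.ball (0 : ℂ) (R / 2) ∈ 𝓝 a := Metric.isOpen_ball.mem_nhds ha
    have hd := hasDerivAt_integral_of_dominated_loc_of_deriv_le (μ := (volume : Measure ℂ))
      (F := F) (x₀ := a) (bound := fun z => 2 / R * ‖g z‖) hs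
      (Eventually.of_forall hFm) (i2 a (by simpa using ha))
      (F' := fun a z => (a - z)⁻¹ * (g z : ℂ)) ?_ ?_ (hgi.norm.const_mul _) ?_
    · exact hd.2.differentiableAt
    · refine AEStronglyMeasurable.mul ?_ ?_
      · exact ((measurable_const.sub measurable_id).inv).aestronglyMeasurable
      · exact (Complex.continuous_ofReal.comp hg).aestronglyMeasurable
    · refine Eventually.of_forall fun z x hx => ?_
      rw [norm_mul, Complex.norm_real]
      by_cases hz : ‖z‖ ≤ R
      · rw [h0 z hz]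
        simp
      · push Not at hz
        have hx' : ‖x‖ < R / 2 := by simpa using hx
        refine mul_le_mul_of_nonneg_right ?_ (norm_nonneg _)
        rw [norm_inv]
        have h1 : R / 2 ≤ ‖x - z‖ := by
          have := norm_sub_norm_le z x
          rw [norm_sub_rev] at this
          linarith
        calc ‖x - z‖⁻¹ ≤ (R / 2)⁻¹ := inv_anti₀ (by linarith) h1
          _ = 2 / R := by rw [inv_div]
    · refine Eventually.of_forall fun z x hx => ?_
      rw [hF]
      simp only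
      by_cases hz : ‖z‖ ≤ R
      · rw [h0 z hz]
        simp only [Complex.ofReal_zero, mul_zero]
        exact hasDerivAt_const x 0
      · push Not at hz
        have hx' : ‖x‖ < R / 2 := by simpa using hx
        have hz0 : z ≠ 0 := by
          rintro rfl
          simp at hz
          linarith
        have hxz : x ≠ z := by
          rintro rfl
          linarith
        refine HasDerivAt.mul_const ?_ _
        have h1 : HasDerivAt (fun x : ℂ => 1 + -(x / z)) (-(1 / z)) x :=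
          (((hasDerivAt_id x).div_const z).neg).const_add 1
        have h2 : 1 + -(x / z) ∈ Complex.slitPlane := by
          rw [Complex.mem_slitPlane_iff]
          left
          have h3 := hq x z hx' hz
          have h4 := Complex.abs_re_le_norm (-(x / z))
          have h5 := neg_abs_le (-(x / z)).re
          rw [Complex.add_re, Complex.one_re]
          linarith
        refine (h1.clog h2).congr_deriv ?_
        have h6 : x - z ≠ 0 := sub_ne_zero.2 hxz
        have h7 : 1 + -(x / z) ≠ 0 := Complex.slitPlane_ne_zero h2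
        rw [div_eq_iff h7]
        field_simp
        ring
  have hmem : a₀ ∈ Metric.ball (0 : ℂ) (R / 2) := by simpa using ha₀
  have han : AnalyticAt ℂ (fun a => ∫ z, F a z) a₀ :=
    hdiff.analyticAt (Metric.isOpen_ball.mem_nhds hmem)
  have hharm := han.harmonicAt_re
  have hc : InnerProductSpace.HarmonicAt
      (fun _ : ℂ => ∫ z : ℂ, Real.log ‖z‖ * g z) a₀ := by
    have h1 : AnalyticAt ℂ (fun _ : ℂ => ((∫ z : ℂ, Real.log ‖z‖ * g z : ℝ) : ℂ)) a₀ :=
      analyticAt_const
    exact h1.harmonicAt_re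
  have hsum := hc.add hharm
  refine (InnerProductSpace.harmonicAt_congr_nhds ?_).2 hsum
  filter_upwards [Metric.isOpen_ball.mem_nhds hmem] with a ha
  have ha' : ‖a‖ < R / 2 := by simpa using ha
  simp only [Pi.add_apply]
  have h3 : ∫ z, (F a z).re = (∫ z, F a z).re := integral_re (i2 a ha')
  have h2 : ∀ z, Real.log ‖z - a‖ * g z = Real.log ‖z‖ * g z + (F a z).re := e a ha'
  rw [← h3]
  simp only [h2]
  exact integral_add i1 (i2 a ha').re

/-- the local statement -/
lemma main {D D' : ℂ → ℝ} (hD : ContDiff ℝ ∞ D) (hD' : Continuous D')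
    (h : ∀ z, z ≠ 0 → D z = (‖z‖ ^ 4)⁻¹ * D' z⁻¹) (a₀ : ℂ) :
    Integrable (fun z : ℂ => Real.log ‖z - a₀‖ * D z) ∧
    ContDiffAt ℝ 2 (fun a : ℂ => ∫ z : ℂ, Real.log ‖z - a‖ * D z) a₀ ∧
    Laplacian.laplacian (fun a : ℂ => ∫ z : ℂ, Real.log ‖z - a‖ * D z) a₀ =
      2 * Real.pi * D a₀ := by
  obtain ⟨M, hM0, hM⟩ := bound_D hD.continuous hD' h
  set R : ℝ := 2 * (‖a₀‖ + 1) with hRdef
  have hR : 0 < R := by positivity
  have ha₀ : ‖a₀‖ < R / 2 := by
    rw [hRdef]
    linarith
  let χ : ContDiffBump (0 : ℂ) := ⟨R, R + 1, hR, by linarith⟩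
  set g₁ : ℂ → ℝ := fun z => χ z * D z with hg₁
  set g₂ : ℂ → ℝ := fun z => (1 - χ z) * D z with hg₂
  have c1 : ContDiff ℝ 2 g₁ := χ.contDiff.mul (hD.of_le (by exact_mod_cast le_top))
  have s1 : HasCompactSupport g₁ := χ.hasCompactSupport.mul_right
  have c2 : Continuous g₂ := (continuous_const.sub χ.continuous).mul hD.continuous
  have z2 : ∀ z, ‖z‖ ≤ R → g₂ z = 0 := by
    intro z hz
    have : χ z = 1 := χ.one_of_mem_closedBall (by simpa using hz)
    rw [hg₂]
    simp [this]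
  have b2 : ∀ z, |g₂ z| ≤ M * (1 / (1 + ‖z‖ ^ 2) ^ 2) := by
    intro z
    have h1 : |1 - χ z| ≤ 1 := by
      rw [abs_le]
      have := χ.nonneg (x := z)
      have := χ.le_one (x := z)
      constructor <;> linarith
    rw [hg₂]
    simp only
    rw [abs_mul]
    calc |1 - χ z| * |D z| ≤ 1 * |D z| := by gcongr
      _ = |D z| := one_mul _
      _ ≤ _ := hM z
  obtain ⟨f1, f2⟩ := far c2 hR z2 b2
  have hsum : ∀ z, D z = g₁ z + g₂ z := by
    intro z
    rw [hg₁, hg₂]
    ring
  have hU : (fun a : ℂ => ∫ z : ℂ, Real.log ‖z - a‖ * D z) =ᶠ[𝓝 a₀]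
      fun a => cv g₁ a + ∫ z : ℂ, Real.log ‖z - a‖ * g₂ z := by
    have hmem : a₀ ∈ Metric.ball (0 : ℂ) (R / 2) := by simpa using ha₀
    filter_upwards [Metric.isOpen_ball.mem_nhds hmem] with a ha
    have ha' : ‖a‖ < R / 2 := by simpa using ha
    rw [← cv_eq, ← integral_add (cv_int c1.continuous s1 a) (f1 a ha')]
    refine integral_congr_ae (Eventually.of_forall fun z => ?_)
    simp only
    rw [hsum z]
    ring
  have hcv := cv_contDiff c1 s1
  refine ⟨?_, ?_, ?_⟩
  · refine ((cv_int c1.continuous s1 a₀).add (f1 a₀ ha₀)).congr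
      (Eventually.of_forall fun z => ?_)
    simp only [Pi.add_apply]
    rw [hsum z]
    ring
  · exact (hcv.contDiffAt.add (f2 a₀ ha₀).1).congr_of_eventuallyEq hU
  · rw [(InnerProductSpace.laplacian_congr_nhds hU).eq_of_nhds]
    have h1 := ContDiffAt.laplacian_add (hcv.contDiffAt (x := a₀)) (f2 a₀ ha₀).1
    have h2 : Laplacian.laplacian (fun a : ℂ => ∫ z : ℂ, Real.log ‖z - a‖ * g₂ z) a₀ = 0 :=
      (f2 a₀ ha₀).2.eq_of_nhds
    have h3 : g₁ a₀ = D a₀ := by
      have : χ a₀ = 1 := χ.one_of_mem_closedBall (by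
        rw [mem_closedBall_zero_iff]
        change ‖a₀‖ ≤ R
        linarith)
      rw [hg₁]
      simp [this]
    rw [h2, cv_lap c1 s1, h3, add_zero] at h1
    exact h1

end LogPot

open LogPot in
theorem log_potential {D D' : ℂ → ℝ} (hD : ContDiff ℝ ∞ D) (hD' : Continuous D')
    (h : ∀ z, z ≠ 0 → D z = (‖z‖ ^ 4)⁻¹ * D' z⁻¹) :
    Integrable D ∧ (∀ a : ℂ, Integrable fun z : ℂ => Real.log ‖z - a‖ * D z) ∧
    ContDiff ℝ 2 (fun a : ℂ => 1 / (2 * Real.pi) * ∫ z : ℂ, Real.log ‖z - a‖ * D z) ∧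
    ∀ a, Laplacian.laplacian (fun a : ℂ => 1 / (2 * Real.pi) * ∫ z : ℂ, Real.log ‖z - a‖ * D z) a =
      D a := by
  obtain ⟨M, -, hM⟩ := bound_D hD.continuous hD' h
  refine ⟨(int_four.const_mul M).mono' hD.continuous.aestronglyMeasurable
    (Eventually.of_forall hM), fun a => (main hD hD' h a).1, ?_, fun a => ?_⟩
  · exact contDiff_iff_contDiffAt.2 fun a => contDiffAt_const.mul (main hD hD' h a).2.1
  · have h1 := InnerProductSpace.laplacian_smul (1 / (2 * Real.pi) : ℝ) (main hD hD' h a).2.1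
    have h2 : (fun a : ℂ => 1 / (2 * Real.pi) * ∫ z : ℂ, Real.log ‖z - a‖ * D z) =
        (1 / (2 * Real.pi) : ℝ) • fun a : ℂ => ∫ z : ℂ, Real.log ‖z - a‖ * D z := rfl
    rw [h2, h1, (main hD hD' h a).2.2]
    have := Real.pi_pos.ne'
    simp only [smul_eq_mul]
    field_simp

end Pool.Agent.Helper76.ES
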