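import Pool.Agent.Helper76.ES.FormL
import Pool.Agent.Helper76.ES.LogPot

/-!
# Regulators of rational curves
-/

open Filter Topology Set MeasureTheory
open scoped Manifold ContDiff

noncomputable section

namespace Pool.Agent.Helper76.ES

section
variable {E : Type} [NormedAddCommGroup E] [NormedSpace ℂ E]
  {X : Type} [TopologicalSpace X] [ChartedSpace E X]

private theorem rat_pot (η : Form E X) (C : RatCurve E X) :
    Integrable (dens η C.φ) ∧ (∀ a : ℂ, Integrable fun z : ℂ => Real.log ‖z - a‖ * dens η C.φ z) ∧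
    ContDiff ℝ 2 (fun a : ℂ => 1 / (2 * Real.pi) * ∫ z : ℂ, Real.log ‖z - a‖ * dens η C.φ z) ∧
    ∀ a, Laplacian.laplacian
      (fun a : ℂ => 1 / (2 * Real.pi) * ∫ z : ℂ, Real.log ‖z - a‖ * dens η C.φ z) a =
      dens η C.φ a :=
  log_potential (dens_continuous η C.hol) (dens_continuous η C.hol').continuous
    fun _ hz => dens_inv η C hz

private theorem rat_ae (a b : ℂ) (k : ℤ) : ∀ᵐ z : ℂ, Real.log ‖ratFun 1 [(a, k), (b, -k)] z‖ =
    k * (Real.log ‖z - a‖ - Real.log ‖z - b‖) := by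
  have h : ∀ᵐ z : ℂ, z ∉ ({a, b} : Set ℂ) :=
    measure_eq_zero_iff_ae_notMem.1 ((Set.toFinite _).measure_zero _)
  filter_upwards [h] with z hz
  simp only [Set.mem_insert_iff, Set.mem_singleton_iff, not_or] at hz
  have ha : ‖z - a‖ ≠ 0 := norm_ne_zero_iff.2 (sub_ne_zero.2 hz.1)
  have hb : ‖z - b‖ ≠ 0 := norm_ne_zero_iff.2 (sub_ne_zero.2 hz.2)
  simp only [ratFun, List.map_cons, List.map_nil, List.prod_cons, List.prod_nil, mul_one, one_mul,
    norm_mul, norm_zpow]
  rw [Real.log_mul (zpow_ne_zero _ ha) (zpow_ne_zero _ hb), Real.log_zpow, Real.log_zpow]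
  push_cast
  ring

theorem dens_integrable (η : Form E X) (C : RatCurve E X) :
    Integrable fun z => dens η C.φ z := (rat_pot η C).1

private theorem rat_int (η : Form E X) (C : RatCurve E X) (a b : ℂ) (k : ℤ) :
    Integrable fun z => k * (Real.log ‖z - a‖ - Real.log ‖z - b‖) * dens η C.φ z := by
  have h := (((rat_pot η C).2.1 a).sub ((rat_pot η C).2.1 b)).const_mul (k : ℝ)
  refine h.congr (Eventually.of_forall fun z => ?_)
  simp only [Pi.sub_apply]
  ring

theorem rat_integrable (η : Form E X) (C : RatCurve E X) (a b : ℂ) (k : ℤ) :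
    Integrable fun z => Real.log ‖ratFun 1 [(a, k), (b, -k)] z‖ * dens η C.φ z := by
  refine (rat_int η C a b k).congr ?_
  filter_upwards [rat_ae a b k] with z hz
  rw [hz]

theorem rat_potential (η : Form E X) (C : RatCurve E X) :
    ∃ u : ℂ → ℝ, ContDiff ℝ 2 u ∧ (∀ z, Laplacian.laplacian u z = dens η C.φ z) ∧
      ∀ (a b : ℂ) (k : ℤ), ∫ z : ℂ, Real.log ‖ratFun 1 [(a, k), (b, -k)] z‖ * dens η C.φ z =
        2 * Real.pi * (k * (u a - u b)) := by
  obtain ⟨-, h2, h3, h4⟩ := rat_pot η C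
  refine ⟨_, h3, h4, fun a b k => ?_⟩
  have e1 : ∫ z : ℂ, Real.log ‖ratFun 1 [(a, k), (b, -k)] z‖ * dens η C.φ z =
      ∫ z : ℂ, (k : ℝ) * (Real.log ‖z - a‖ * dens η C.φ z - Real.log ‖z - b‖ * dens η C.φ z) := by
    refine integral_congr_ae ?_
    filter_upwards [rat_ae a b k] with z hz
    rw [hz]
    ring
  rw [e1, integral_const_mul, integral_sub (h2 a) (h2 b)]
  have hp : (2 * Real.pi) ≠ 0 := by positivity
  field_simp

end

end Pool.Agent.Helper76.ES
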