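import Pool.Agent.Helper76.ES.Exact
import Pool.Agent.Helper76.ES.Rat
import Pool.Agent.Helper76.ES.Ell

/-!
# Cycles
-/

open Filter Topology Set MeasureTheory
open scoped Manifold ContDiff

noncomputable section

namespace Pool.Agent.Helper76.ES

variable {E : Type} [NormedAddCommGroup E] [NormedSpace ℂ E]
  {X : Type} [TopologicalSpace X] [ChartedSpace E X]

/-- terms whose regulator is linear in the form -/
def Lin {k : ℕ} (c : Fin k → ℝ) (η : Fin k → Form E X) (t : Term E X) : Prop :=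
  t.reg (comb c η) = ∑ j, c j * t.reg (η j)

theorem sum_zero_list {ι : Type} [Fintype ι] {α : Type} (l : List α) (f : ι → α → ℝ) :
    ∑ j, (l.map (f j)).sum = (l.map fun a => ∑ j, f j a).sum := by
  induction l with
  | nil => simp
  | cons a l ih => simp [Finset.sum_add_distrib, ih]

theorem reg_lin {k : ℕ} {c : Fin k → ℝ} {η : Fin k → Form E X} {ξ : Chain E X}
    (h : ∀ t ∈ ξ, Lin c η t.2) : reg (comb c η) ξ = ∑ j, c j * reg (η j) ξ := by
  unfold reg
  simp only [← List.sum_map_mul_left]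
  rw [sum_zero_list]
  congr 1
  refine List.map_congr_left fun t ht => ?_
  rw [h t ht, Finset.mul_sum]
  refine Finset.sum_congr rfl fun j _ => ?_
  ring

theorem measurable_pt : Measurable pt := by unfold pt; fun_prop

theorem continuous_pt : Continuous pt := by unfold pt; fun_prop

theorem integrableOn_box {D : ℂ → ℝ} (hD : Continuous D) (τ : ℂ) :
    IntegrableOn (fun a => D (pt a)) (box τ) := by
  have h : IntegrableOn (fun a => D (pt a)) (Icc (0 : ℝ) 1 ×ˢ Icc 0 τ.im) :=
    (hD.comp continuous_pt).continuousOn.integrableOn_compact (isCompact_Icc.prod isCompact_Icc)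
  exact h.mono_set (prod_mono Ico_subset_Icc_self Ico_subset_Icc_self)

theorem comb_dens {k : ℕ} (c : Fin k → ℝ) (η : Fin k → Form E X) {φ : ℂ → X}
    (hφ : ContMDiff 𝓘(ℂ, ℂ) 𝓘(ℂ, E) ω φ) :
    dens (comb c η) φ = fun z => ∑ j, c j * dens (η j) φ z := funext fun z => dens_comb c η hφ z

theorem lin_rat {k : ℕ} (c : Fin k → ℝ) (η : Fin k → Form E X) (C : RatCurve E X) (e : ℂ)
    (D : List (ℂ × ℤ))
    (h : ∀ η : Form E X, Integrable fun z => Real.log ‖ratFun e D z‖ * dens η C.φ z) :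
    Lin c η (.rat C e D) := by
  unfold Lin Term.reg
  simp only [comb_dens c η C.hol, Finset.mul_sum]
  rw [integral_finsetSum]
  · refine Finset.sum_congr rfl fun j _ => ?_
    rw [← integral_const_mul]
    refine integral_congr_ae (Eventually.of_forall fun z => ?_)
    simp only []; ring
  · intro j _
    have := (h (η j)).const_mul (c j)
    refine this.congr (Eventually.of_forall fun z => ?_)
    simp only []; ring

theorem lin_ell {k : ℕ} (c : Fin k → ℝ) (η : Fin k → Form E X) (C : EllCurve E X) (f : ℂ → ℂ)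
    (h : ∀ D : ℂ → ℝ, Continuous D →
      IntegrableOn (fun q : ℝ × ℝ => Real.log ‖f (pt q)‖ * D (pt q)) (box C.τ)) :
    Lin c η (.ell C f) := by
  unfold Lin Term.reg
  simp only [comb_dens c η C.hol, Finset.mul_sum]
  rw [integral_finsetSum]
  · refine Finset.sum_congr rfl fun j _ => ?_
    rw [← integral_const_mul]
    refine integral_congr_ae (Eventually.of_forall fun z => ?_)
    simp only []; ring
  · intro j _
    have := (h (dens (η j) C.φ) (dens_continuous (η j) C.hol).continuous).const_mul (c j)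
    refine this.congr (Eventually.of_forall fun z => ?_)
    simp only []; ring

/-- the constant `e` on a rational curve -/
theorem rat_const (C : RatCurve E X) :
    (Term.rat C (Real.exp 1) [] : Term E X).Valid ∧
    (∀ x, (Term.rat C (Real.exp 1) [] : Term E X).bd x = 0) ∧
    (∀ η : Form E X, (Term.rat C (Real.exp 1) [] : Term E X).reg η = ∫ z, dens η C.φ z) ∧
    ∀ {k : ℕ} (c : Fin k → ℝ) (η : Fin k → Form E X), Lin c η (.rat C (Real.exp 1) []) := by
  have h : ∀ z, Real.log ‖ratFun (Real.exp 1) [] z‖ = 1 := by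
    intro z
    simp only [ratFun, List.map_nil, List.prod_nil, mul_one]
    rw [Complex.norm_real, Real.norm_eq_abs, abs_of_pos (Real.exp_pos 1), Real.log_exp]
  refine ⟨⟨?_, by simp⟩, ?_, ?_, ?_⟩
  · exact_mod_cast (Real.exp_pos 1).ne'
  · intro x; simp [Term.bd]
  · intro η
    simp only [Term.reg, h, one_mul]
  · intro k c η
    refine lin_rat c η C _ _ fun η => ?_
    simp only [h, one_mul]
    exact dens_integrable η C

/-- the constant `e` on an elliptic curve -/
theorem ell_const (C : EllCurve E X) :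
    (Term.ell C (fun _ => (Real.exp 1 : ℂ)) : Term E X).Valid ∧
    (∀ x, (Term.ell C (fun _ => (Real.exp 1 : ℂ)) : Term E X).bd x = 0) ∧
    (∀ η : Form E X, (Term.ell C (fun _ => (Real.exp 1 : ℂ)) : Term E X).reg η =
      ∫ a in box C.τ, dens η C.φ (pt a)) ∧
    ∀ {k : ℕ} (c : Fin k → ℝ) (η : Fin k → Form E X),
      Lin c η (.ell C (fun _ => (Real.exp 1 : ℂ))) := by
  have h : Real.log ‖(Real.exp 1 : ℂ)‖ = 1 := by
    rw [Complex.norm_real, Real.norm_eq_abs, abs_of_pos (Real.exp_pos 1), Real.log_exp]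
  have hne : (Real.exp 1 : ℂ) ≠ 0 := by exact_mod_cast (Real.exp_pos 1).ne'
  have hord : ∀ z, meromorphicOrderAt (fun _ : ℂ => (Real.exp 1 : ℂ)) z = 0 := fun z =>
    Pool.Agent.Helper21.Reg.mOrd_of_ne analyticAt_const hne
  refine ⟨⟨fun z => MeromorphicAt.const _ z, fun z => rfl, fun z => rfl, fun z => ?_⟩, ?_, ?_, ?_⟩
  · rw [hord]; simp
  · intro x
    simp only [Term.bd, hord]
    simp
  · intro η
    simp only [Term.reg, h, one_mul]
  · intro k c η
    refine lin_ell c η C _ fun D hD => ?_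
    simp only [h, one_mul]
    exact integrableOn_box hD C.τ

/-- the two point function on a rational curve -/
theorem rat_two (C : RatCurve E X) (a b : ℂ) (m : ℤ) :
    (Term.rat C 1 [(a, m), (b, -m)] : Term E X).Valid ∧
    (∀ x [Decidable (C.φ a = x)] [Decidable (C.φ b = x)],
      (Term.rat C 1 [(a, m), (b, -m)] : Term E X).bd x =
      m * ((if C.φ a = x then 1 else 0) - (if C.φ b = x then 1 else 0))) ∧
    ∀ {k : ℕ} (c : Fin k → ℝ) (η : Fin k → Form E X), Lin c η (.rat C 1 [(a, m), (b, -m)]) := by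
  refine ⟨⟨one_ne_zero, by simp⟩, ?_, ?_⟩
  · intro x _ _
    simp only [Term.bd, List.map_cons, List.map_nil, List.sum_cons, List.sum_nil]
    split_ifs <;> ring
  · intro k c η
    exact lin_rat c η C _ _ fun η => rat_integrable η C a b m

/-- the function on the torus for the potential -/
theorem pot_fibre {F : Family E X} {η : Form E X} {U : ℂ × ℂ → ℝ} {κ ψ : ℂ → ℝ} {c : ℝ}
    (h : IsPot F η U κ ψ c) {s : ℂ} (hs : s ∈ Hp) :
    ContDiff ℝ 2 (fun z : ℂ => U (s, z) - ψ s / (F.τ s).im * z.im) ∧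
    (∀ z : ℂ, Laplacian.laplacian (fun z : ℂ => U (s, z) - ψ s / (F.τ s).im * z.im) z =
      dens η (F.ell hs).φ z) := by
  have h1 : ContDiff ℝ 2 (fun z : ℂ => U (s, z)) := by
    rw [contDiff_iff_contDiffAt]
    intro z
    have h2 : ContDiffAt ℝ 2 (fun z : ℂ => (s, z)) z := by fun_prop
    exact ContDiffAt.comp z (h.smooth (s, z) hs) h2
  have h2 : ContDiff ℝ 2 (fun z : ℂ => ψ s / (F.τ s).im * z.im) :=
    contDiff_const.mul Complex.imCLM.contDiff
  refine ⟨h1.sub h2, fun z => ?_⟩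
  have e : (fun z : ℂ => U (s, z) - ψ s / (F.τ s).im * z.im) =
      (fun z : ℂ => U (s, z)) - fun z : ℂ => ψ s / (F.τ s).im * z.im := rfl
  rw [e, h1.contDiffAt.laplacian_sub h2.contDiffAt]
  have h3 : ContDiffAt ℂ 2 (fun w : ℂ => (s, w)) z := by fun_prop
  have h4 := laplacian_comp (u := U) (γ := fun w : ℂ => (s, w)) (s := z) (h.smooth (s, z) hs) h3
  have h5 : deriv (fun w : ℂ => (s, w)) z = (0, 1) := by
    have : HasDerivAt (fun w : ℂ => (s, w)) (0, 1) z :=
      (hasDerivAt_const z s).prodMk (hasDerivAt_id z)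
    exact this.deriv
  rw [h5] at h4
  rw [h4, h.lev_v (s, z) hs, F.L_eq_dens η hs]
  have h6 : Laplacian.laplacian (fun z : ℂ => ψ s / (F.τ s).im * z.im) z = 0 := by
    have h7 : ∀ v : ℂ, dv v (fun z : ℂ => ψ s / (F.τ s).im * z.im) =
        fun _ => ψ s / (F.τ s).im * v.im := by
      intro v; funext p
      have : HasFDerivAt (fun z : ℂ => ψ s / (F.τ s).im * z.im)
          ((ψ s / (F.τ s).im) • Complex.imCLM) p :=
        (Complex.imCLM.hasFDerivAt).const_mul _
      unfold dv; rw [this.fderiv]; simp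
    have h8 := laplacian_comp (u := fun z : ℂ => ψ s / (F.τ s).im * z.im) (γ := fun w : ℂ => w)
      (s := z) h2.contDiffAt contDiffAt_id
    rw [h8, lev_eq_dv h2.contDiffAt]
    simp only [h7]
    simp [dv]
  rw [h6, sub_zero]
  rfl

/-- equality of `Φ` at two torsion values -/
theorem Phi_eq {F : Family E X} {k : ℕ} {c : Fin k → ℝ} {η : Fin k → Form E X}
    (h0 : ∀ ξ : Chain E X, IsCycle ξ → ∑ j, c j * reg (η j) ξ = 0)
    {U : ℂ × ℂ → ℝ} {κ ψ : ℂ → ℝ} {c' : ℝ} (h : IsPot F (comb c η) U κ ψ c') {u u' : ℂ → ℝ}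
    (hu : ∀ (a b : ℂ) (m : ℤ), (Term.rat F.R 1 [(a, m), (b, -m)] : Term E X).reg (comb c η) =
      2 * Real.pi * (m * (u a - u b)))
    (hu' : ∀ (a b : ℂ) (m : ℤ), (Term.rat F.R' 1 [(a, m), (b, -m)] : Term E X).reg (comb c η) =
      2 * Real.pi * (m * (u' a - u' b)))
    {s t : ℂ} (hs : s ∈ Hp) (ht : t ∈ Hp) {N N' : ℕ} {M K M' K' : ℤ} (hN : 0 < N) (hN' : 0 < N')
    (hsb : (N : ℂ) * F.b s = M * F.τ s + K) (htb : (N' : ℂ) * F.b t = M' * F.τ t + K') :
    Phi F U ψ u u' s = Phi F U ψ u u' t := by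
  classical
  obtain ⟨f, f1, f2, f3, f4, f5, f6, f7⟩ := exists_ell (F.τ_pos s hs) hsb
  obtain ⟨g, g1, g2, g3, g4, g5, g6, g7⟩ := exists_ell (F.τ_pos t ht) htb
  set T1 : Term E X := .ell (F.ell hs) f
  set T2 : Term E X := .ell (F.ell ht) g
  set T3 : Term E X := .rat F.R 1 [(F.r t, ((N * N' : ℕ) : ℤ)), (F.r s, -((N * N' : ℕ) : ℤ))]
  set T4 : Term E X := .rat F.R' 1 [(F.r' s, ((N * N' : ℕ) : ℤ)), (F.r' t, -((N * N' : ℕ) : ℤ))]
  obtain ⟨v3, b3, l3⟩ := rat_two F.R (F.r t) (F.r s) ((N * N' : ℕ) : ℤ)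
  obtain ⟨v4, b4, l4⟩ := rat_two F.R' (F.r' s) (F.r' t) ((N * N' : ℕ) : ℤ)
  have hper : ∀ {s : ℂ} (hs : s ∈ Hp), (∀ z, (F.ell hs).φ (z + 1) = (F.ell hs).φ z) ∧
      ∀ z, (F.ell hs).φ (z + F.τ s) = (F.ell hs).φ z := fun hs =>
    ⟨(F.ell hs).add_one, (F.ell hs).add_tau⟩
  have bd1 : ∀ x, T1.bd x = N * ((if F.Ψ (s, F.b s) = x then 1 else 0) -
      (if F.Ψ (s, 0) = x then 1 else 0)) := fun x => f5 X (F.ell hs).φ (hper hs).1 (hper hs).2 x
  have bd2 : ∀ x, T2.bd x = N' * ((if F.Ψ (t, F.b t) = x then 1 else 0) -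
      (if F.Ψ (t, 0) = x then 1 else 0)) := fun x => g5 X (F.ell ht).φ (hper ht).1 (hper ht).2 x
  set ξ : Chain E X := [((N' : ℤ), T1), (-(N : ℤ), T2), (1, T3), (1, T4)] with hξ
  have hcyc : IsCycle ξ := by
    refine ⟨?_, ?_⟩
    · intro q hq
      simp only [hξ, List.mem_cons, List.not_mem_nil, or_false] at hq
      rcases hq with rfl | rfl | rfl | rfl
      · exact ⟨f1, f2, f3, f4⟩
      · exact ⟨g1, g2, g3, g4⟩
      · exact v3
      · exact v4
    · intro x
      simp only [hξ, List.map_cons, List.map_nil, List.sum_cons, List.sum_nil]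
      rw [bd1, bd2, b3, b4, F.meet s hs, F.meet t ht, F.meet' s hs, F.meet' t ht]
      push_cast
      ring
  have hlin : ∀ q ∈ ξ, Lin c η q.2 := by
    intro q hq
    simp only [hξ, List.mem_cons, List.not_mem_nil, or_false] at hq
    rcases hq with rfl | rfl | rfl | rfl
    · exact lin_ell c η (F.ell hs) f f6
    · exact lin_ell c η (F.ell ht) g g6
    · exact l3 c η
    · exact l4 c η
  have hreg : reg (comb c η) ξ = 0 := by rw [reg_lin hlin]; exact h0 ξ hcyc
  have r1 : T1.reg (comb c η) = 2 * Real.pi * (N * ((U (s, F.b s) -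
      ψ s / (F.τ s).im * (F.b s).im) - U (s, 0))) := by
    obtain ⟨p1, p2⟩ := pot_fibre h hs
    have := f7 _ p1 ?_ ?_
    · simp only [p2] at this
      rw [show T1.reg (comb c η) = ∫ a in box (F.τ s), Real.log ‖f (pt a)‖ *
        dens (comb c η) (F.ell hs).φ (pt a) from rfl, this]
      simp
    · intro z
      have := h.one (s, z) hs
      simp only [] at this
      rw [this]; simp
    · intro z
      have := h.tau (s, z) hs
      simp only [] at this
      rw [this, Complex.add_im]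
      have := (F.τ_pos s hs).ne'
      field_simp
      ring
  have r2 : T2.reg (comb c η) = 2 * Real.pi * (N' * ((U (t, F.b t) -
      ψ t / (F.τ t).im * (F.b t).im) - U (t, 0))) := by
    obtain ⟨p1, p2⟩ := pot_fibre h ht
    have := g7 _ p1 ?_ ?_
    · simp only [p2] at this
      rw [show T2.reg (comb c η) = ∫ a in box (F.τ t), Real.log ‖g (pt a)‖ *
        dens (comb c η) (F.ell ht).φ (pt a) from rfl, this]
      simp
    · intro z
      have := h.one (t, z) ht
      simp only [] at this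
      rw [this]; simp
    · intro z
      have := h.tau (t, z) ht
      simp only [] at this
      rw [this, Complex.add_im]
      have := (F.τ_pos t ht).ne'
      field_simp
      ring
  have r3 : T3.reg (comb c η) = _ := hu (F.r t) (F.r s) ((N * N' : ℕ) : ℤ)
  have r4 : T4.reg (comb c η) = _ := hu' (F.r' s) (F.r' t) ((N * N' : ℕ) : ℤ)
  have e : reg (comb c η) ξ = 2 * Real.pi * (N * N') * (Phi F U ψ u u' s - Phi F U ψ u u' t) := by
    simp only [reg, hξ, List.map_cons, List.map_nil, List.sum_cons, List.sum_nil]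
    rw [r1, r2, r3, r4]
    unfold Phi
    push_cast
    ring
  rw [hreg] at e
  have hpos : (2 * Real.pi * (N * N')) ≠ 0 := by
    have : (0 : ℝ) < N := by exact_mod_cast hN
    have : (0 : ℝ) < N' := by exact_mod_cast hN'
    positivity
  have := (mul_eq_zero.1 e.symm).resolve_left hpos
  linarith

end Pool.Agent.Helper76.ES
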