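import Mathlib

/-!
# Regulators on `K_1` of complex manifolds containing elliptic and rational curves
-/

open Filter Topology Set MeasureTheory
open scoped Manifold ContDiff

noncomputable section

namespace Pool.Agent.Helper76.ES

section
variable {E : Type} [NormedAddCommGroup E] [NormedSpace ℂ E]

/-- the Laplacian at `0` of `s ↦ u (p + s e)`, `s` complex: `4 ∂∂̄ u` in the direction `e` -/
def lev (u : E → ℝ) (p e : E) : ℝ := Laplacian.laplacian (fun s : ℂ => u (p + s • e)) 0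

/-- `v` is pluriharmonic near `p`: twice continuously differentiable and harmonic along every
complex line -/
def PH (v : E → ℝ) (p : E) : Prop := ∀ᶠ q in 𝓝 p, ContDiffAt ℝ 2 v q ∧ ∀ e : E, lev v q e = 0

end

variable (E : Type) [NormedAddCommGroup E] [NormedSpace ℂ E]
  (X : Type) [TopologicalSpace X] [ChartedSpace E X]

/-- A closed real `(1,1)`-form `η` on the complex manifold `X`, given by smooth local potentials:
`η = i ∂∂̄ (pot x)` near `x`; the potentials `pot x` and `pot y` differ by a pluriharmonic function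
near `y` when `y` is near `x`. -/
structure Form where
  /-- the potential near `x` -/
  pot : X → X → ℝ
  smooth : ∀ x, ContDiffAt ℝ ∞ (pot x ∘ (chartAt E x).symm) (chartAt E x x)
  compat : ∀ x, ∀ᶠ y in 𝓝 x,
    PH ((fun y' => pot x y' - pot y y') ∘ (chartAt E y).symm) (chartAt E y y)

/-- a rational curve: a holomorphic map from the Riemann sphere to `X`, `φ` on `ℂ` and `ψ` in the
coordinate `1/z` -/
structure RatCurve where
  φ : ℂ → X
  ψ : ℂ → X
  hol : ContMDiff 𝓘(ℂ, ℂ) 𝓘(ℂ, E) ω φ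
  hol' : ContMDiff 𝓘(ℂ, ℂ) 𝓘(ℂ, E) ω ψ
  glue : ∀ z, z ≠ 0 → ψ z = φ z⁻¹

/-- an elliptic curve in `X`: a holomorphic map from `ℂ / (ℤ + ℤ τ)` to `X` -/
structure EllCurve where
  τ : ℂ
  pos : 0 < τ.im
  φ : ℂ → X
  hol : ContMDiff 𝓘(ℂ, ℂ) 𝓘(ℂ, E) ω φ
  add_one : ∀ z, φ (z + 1) = φ z
  add_tau : ∀ z, φ (z + τ) = φ z

/-- a curve in `X` with a function on it: a rational curve with `c ∏ (z - a) ^ n` over the list of
the `(a, n)`, or an elliptic curve with an elliptic function -/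
inductive Term
  | rat (C : RatCurve E X) (c : ℂ) (D : List (ℂ × ℤ))
  | ell (C : EllCurve E X) (f : ℂ → ℂ)

variable {E X}

/-- the rational function `c ∏ (z - a) ^ n` -/
def ratFun (c : ℂ) (D : List (ℂ × ℤ)) (z : ℂ) : ℂ := c * (D.map fun a => (z - a.1) ^ a.2).prod

/-- the rational function is not zero and has no zero or pole at infinity; the elliptic function is
meromorphic with periods `1`, `τ` and not identically zero -/
def Term.Valid : Term E X → Prop
  | .rat _ c D => c ≠ 0 ∧ (D.map Prod.snd).sum = 0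
  | .ell C f => (∀ z, MeromorphicAt f z) ∧ (∀ z, f (z + 1) = f z) ∧ (∀ z, f (z + C.τ) = f z) ∧
      ∀ z, meromorphicOrderAt f z ≠ ⊤

/-- the fundamental domain of `ℤ + ℤ τ` -/
def cell (τ : ℂ) : Set ℂ := {z | 0 ≤ z.re ∧ z.re < 1 ∧ 0 ≤ z.im ∧ z.im < τ.im}

open Classical in
/-- the divisor of the function, pushed forward to `X` -/
def Term.bd : Term E X → X → ℤ
  | .rat C _ D, x => (D.map fun a => if C.φ a.1 = x then a.2 else 0).sum
  | .ell C f, x => ∑ᶠ p ∈ {p : ℂ | p ∈ cell C.τ ∧ C.φ p = x}, (meromorphicOrderAt f p).untop₀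

/-- the density of the pull-back of `η` under a holomorphic curve `φ : ℂ → X`:
`φ^* η = (1/2) dens dx ∧ dy` -/
def dens (η : Form E X) (φ : ℂ → X) (z : ℂ) : ℝ :=
  Laplacian.laplacian (fun w => η.pot (φ z) (φ w)) z

/-- the set of the `(x, y)` with `x + i y` in the fundamental domain -/
def box (τ : ℂ) : Set (ℝ × ℝ) := Ico 0 1 ×ˢ Ico 0 τ.im

/-- the point `x + i y` -/
def pt (a : ℝ × ℝ) : ℂ := a.1 + a.2 * Complex.I

/-- the regulator of a term: `∫ log |f| φ^* η` (times `2`) -/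
def Term.reg (η : Form E X) : Term E X → ℝ
  | .rat C c D => ∫ z : ℂ, Real.log ‖ratFun c D z‖ * dens η C.φ z
  | .ell C f => ∫ a in box C.τ, Real.log ‖f (pt a)‖ * dens η C.φ (pt a)

/-- formal sums `∑ n (C, f)` -/
abbrev Chain (E X : Type) [NormedAddCommGroup E] [NormedSpace ℂ E] [TopologicalSpace X]
    [ChartedSpace E X] := List (ℤ × Term E X)

/-- `K_1`-cycles: the sum of the divisors is zero in `X` -/
def IsCycle (ξ : Chain E X) : Prop :=
  (∀ t ∈ ξ, t.2.Valid) ∧ ∀ x : X, (ξ.map fun t => t.1 * t.2.bd x).sum = 0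

/-- the regulator of a chain -/
def reg (η : Form E X) (ξ : Chain E X) : ℝ := (ξ.map fun t => (t.1 : ℝ) * t.2.reg η).sum

/-- the upper half plane -/
def Hp : Set ℂ := {s | 0 < s.im}

/-- the upper half plane times `ℂ` -/
def Om : Set (ℂ × ℂ) := {p | 0 < p.1.im}

variable (E X) in
/-- A family of elliptic curves `ℂ / (ℤ + ℤ τ(s))` in `X` over the upper half plane with multiplicative
monodromy at `i ∞`, and two rational curves meeting each of them in the points `0` and `b(s)`. -/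
structure Family where
  τ : ℂ → ℂ
  hτ : DifferentiableOn ℂ τ Hp
  τ_pos : ∀ s ∈ Hp, 0 < (τ s).im
  n : ℤ
  hn : n ≠ 0
  τ_shift : ∀ s ∈ Hp, τ (s + 1) = τ s + n
  Ψ : ℂ × ℂ → X
  hΨ : ContMDiffOn 𝓘(ℂ, ℂ × ℂ) 𝓘(ℂ, E) ω Ψ Om
  Ψ_one : ∀ p ∈ Om, Ψ (p.1, p.2 + 1) = Ψ p
  Ψ_tau : ∀ p ∈ Om, Ψ (p.1, p.2 + τ p.1) = Ψ p
  Ψ_shift : ∀ p ∈ Om, Ψ (p.1 + 1, p.2) = Ψ p
  b : ℂ → ℂ
  hb : DifferentiableOn ℂ b Hp
  m : ℤ
  b_shift : ∀ s ∈ Hp, b (s + 1) = b s + m
  b_ne : ¬ ∃ c : ℂ, ∀ s ∈ Hp, b s = m / n * τ s + c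
  R : RatCurve E X
  R' : RatCurve E X
  r : ℂ → ℂ
  r' : ℂ → ℂ
  hr : DifferentiableOn ℂ r Hp
  hr' : DifferentiableOn ℂ r' Hp
  meet : ∀ s ∈ Hp, Ψ (s, b s) = R.φ (r s)
  meet' : ∀ s ∈ Hp, Ψ (s, 0) = R'.φ (r' s)

/-- the pull-back of `η` to the family is `i ∂∂̄ G` for a function `G` with the periods `1`, `τ` -/
def ExactAlong (F : Family E X) (η : Form E X) : Prop :=
  ∃ G : ℂ × ℂ → ℝ, (∀ p ∈ Om, G (p.1, p.2 + 1) = G p) ∧ (∀ p ∈ Om, G (p.1, p.2 + F.τ p.1) = G p) ∧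
    ∀ p ∈ Om, PH (fun q => G q - η.pot (F.Ψ p) (F.Ψ q)) p

/-- the degree of `η` is zero on all rational and elliptic curves -/
def NumTrivial (η : Form E X) : Prop :=
  (∀ C : RatCurve E X, ∫ z : ℂ, dens η C.φ z = 0) ∧
    ∀ C : EllCurve E X, ∫ a in box C.τ, dens η C.φ (pt a) = 0

end Pool.Agent.Helper76.ES
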