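import Pool.Agent.Helper76.ES.Quasi

/-!
# Differentiation under the integral for quasi-periodic functions (module DUI, helper87)
-/

open Filter Topology Set MeasureTheory
open scoped Manifold ContDiff

noncomputable section

namespace Pool.Agent.Helper76.ES

namespace Dui

open Quasi

/-- the coordinates -/
def c1 : ℂ × ℂ →L[ℝ] ℝ := Complex.reCLM.comp (ContinuousLinearMap.fst ℝ ℂ ℂ)
/-- the coordinates -/
def c2 : ℂ × ℂ →L[ℝ] ℝ := Complex.imCLM.comp (ContinuousLinearMap.fst ℝ ℂ ℂ)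
/-- the coordinates -/
def c3 : ℂ × ℂ →L[ℝ] ℝ := Complex.reCLM.comp (ContinuousLinearMap.snd ℝ ℂ ℂ)
/-- the coordinates -/
def c4 : ℂ × ℂ →L[ℝ] ℝ := Complex.imCLM.comp (ContinuousLinearMap.snd ℝ ℂ ℂ)

lemma decomp (v : ℂ × ℂ) : v = v.1.re • ((1 : ℂ), (0 : ℂ)) + v.1.im • (Complex.I, (0 : ℂ)) +
    v.2.re • ((0 : ℂ), (1 : ℂ)) + v.2.im • ((0 : ℂ), Complex.I) := by
  obtain ⟨⟨a, b⟩, ⟨c, e⟩⟩ := v
  refine Prod.ext (Complex.ext ?_ ?_) (Complex.ext ?_ ?_) <;> simp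

lemma clm_apply (L : ℂ × ℂ →L[ℝ] ℝ) (v : ℂ × ℂ) : L v =
    v.1.re * L (1, 0) + v.1.im * L (Complex.I, 0) + v.2.re * L (0, 1) +
      v.2.im * L (0, Complex.I) := by
  conv_lhs => rw [decomp v]
  simp only [map_add, map_smul, smul_eq_mul]

lemma clm_eq (L : ℂ × ℂ →L[ℝ] ℝ) : L = L (1, 0) • c1 + L (Complex.I, 0) • c2 + L (0, 1) • c3 +
    L (0, Complex.I) • c4 := by
  refine ContinuousLinearMap.ext fun v => ?_
  rw [clm_apply]
  have e1 : c1 v = v.1.re := rfl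
  have e2 : c2 v = v.1.im := rfl
  have e3 : c3 v = v.2.re := rfl
  have e4 : c4 v = v.2.im := rfl
  change _ = L (1, 0) * c1 v + L (Complex.I, 0) * c2 v + L (0, 1) * c3 v + L (0, Complex.I) * c4 v
  rw [e1, e2, e3, e4]
  ring

lemma norm_le (L : ℂ × ℂ →L[ℝ] ℝ) :
    ‖L‖ ≤ |L (1, 0)| + |L (Complex.I, 0)| + |L (0, 1)| + |L (0, Complex.I)| := by
  refine L.opNorm_le_bound (by positivity) fun v => ?_
  rw [clm_apply, Real.norm_eq_abs]
  have h1 : |v.1.re| ≤ ‖v‖ := (Complex.abs_re_le_norm _).trans (norm_fst_le v)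
  have h2 : |v.1.im| ≤ ‖v‖ := (Complex.abs_im_le_norm _).trans (norm_fst_le v)
  have h3 : |v.2.re| ≤ ‖v‖ := (Complex.abs_re_le_norm _).trans (norm_snd_le v)
  have h4 : |v.2.im| ≤ ‖v‖ := (Complex.abs_im_le_norm _).trans (norm_snd_le v)
  calc |v.1.re * L (1, 0) + v.1.im * L (Complex.I, 0) + v.2.re * L (0, 1) +
        v.2.im * L (0, Complex.I)|
      ≤ |v.1.re * L (1, 0)| + |v.1.im * L (Complex.I, 0)| + |v.2.re * L (0, 1)| +
        |v.2.im * L (0, Complex.I)| := by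
        refine (abs_add_le _ _).trans (add_le_add ((abs_add_le _ _).trans
          (add_le_add (abs_add_le _ _) le_rfl)) le_rfl)
    _ ≤ ‖v‖ * |L (1, 0)| + ‖v‖ * |L (Complex.I, 0)| + ‖v‖ * |L (0, 1)| +
        ‖v‖ * |L (0, Complex.I)| := by
        simp only [abs_mul]
        gcongr
    _ = _ := by ring

lemma growth_fderiv {τ : ℂ → ℂ} (hτ : DifferentiableOn ℂ τ Hp) (hpos : ∀ s ∈ Hp, 0 < (τ s).im)
    {d : ℕ} {f : ℂ × ℂ → ℝ} (hf : QP τ d f) {K : Set ℂ} (hK : IsCompact K) (hKH : K ⊆ Hp) :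
    ∃ M : ℝ, ∀ s ∈ K, ∀ z : ℂ, ‖fderiv ℝ f (s, z)‖ ≤ M * (1 + |z.im|) ^ (d + 1) := by
  obtain ⟨M1, h1⟩ := (hf.dv hτ (1, 0)).growth hτ hpos hK hKH
  obtain ⟨M2, h2⟩ := (hf.dv hτ (Complex.I, 0)).growth hτ hpos hK hKH
  obtain ⟨M3, h3⟩ := (hf.dv hτ (0, 1)).growth hτ hpos hK hKH
  obtain ⟨M4, h4⟩ := (hf.dv hτ (0, Complex.I)).growth hτ hpos hK hKH
  refine ⟨M1 + M2 + M3 + M4, fun s hs z => (norm_le _).trans ?_⟩
  have i1 := h1 s hs z
  have i2 := h2 s hs z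
  have i3 := h3 s hs z
  have i4 := h4 s hs z
  simp only [dv] at i1 i2 i3 i4
  calc _ ≤ M1 * (1 + |z.im|) ^ (d + 1) + M2 * (1 + |z.im|) ^ (d + 1) +
        M3 * (1 + |z.im|) ^ (d + 1) + M4 * (1 + |z.im|) ^ (d + 1) :=
        add_le_add (add_le_add (add_le_add i1 i2) i3) i4
    _ = _ := by ring

section
variable {α : Type} [MeasurableSpace α] {μ : Measure α} {K : α → ℝ} {w : α → ℂ}

lemma meas_K (hK : ∀ d : ℕ, Integrable (fun a => K a * (1 + |(w a).im|) ^ d) μ) :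
    AEStronglyMeasurable K μ := by
  have := (hK 0).aestronglyMeasurable
  simpa using this

lemma cont_slice {Y : Type} [TopologicalSpace Y] {g : ℂ × ℂ → Y} (hg : ContinuousOn g Om)
    {s : ℂ} (hs : s ∈ Hp) (c : ℂ) : Continuous fun z : ℂ => g (s, c + z) := by
  rw [← continuousOn_univ]
  exact hg.comp (by fun_prop) fun z _ => hs

lemma bound_one {x y c : ℝ} (h : |x| ≤ c) : 1 + |x + y| ≤ (1 + c) * (1 + |y|) := by
  have h1 := abs_add_le x y
  have h2 := abs_nonneg y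
  have h3 : 0 ≤ c := (abs_nonneg _).trans h
  nlinarith [mul_nonneg h3 h2]

lemma main (hw : Measurable w) (hK : ∀ d : ℕ, Integrable (fun a => K a * (1 + |(w a).im|) ^ d) μ)
    {τ : ℂ → ℂ} (hτ : DifferentiableOn ℂ τ Hp) (hpos : ∀ s ∈ Hp, 0 < (τ s).im)
    {d : ℕ} {f : ℂ × ℂ → ℝ} (hf : QP τ d f) {p : ℂ × ℂ} (hp : p ∈ Om) :
    HasFDerivAt (fun p : ℂ × ℂ => ∫ a, K a * f (p.1, p.2 + w a) ∂μ)
      (∫ a, K a • fderiv ℝ f (p.1, p.2 + w a) ∂μ) p ∧
    Integrable (fun a => K a • fderiv ℝ f (p.1, p.2 + w a)) μ ∧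
    Integrable (fun a => K a * f (p.1, p.2 + w a)) μ := by
  have hfs := hf.contDiffOn
  have hfd : ContDiffOn ℝ ∞ (fderiv ℝ f) Om := hfs.fderiv_of_isOpen isOpen_Om (by simp)
  have hwm : AEStronglyMeasurable w μ := hw.aestronglyMeasurable
  have hmf : ∀ q ∈ Om, AEStronglyMeasurable (fun a => K a * f (q.1, q.2 + w a)) μ := fun q hq =>
    (meas_K hK).mul ((cont_slice hfs.continuousOn hq q.2).comp_aestronglyMeasurable hwm)
  have hmd : AEStronglyMeasurable (fun a => K a • fderiv ℝ f (p.1, p.2 + w a)) μ :=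
    (meas_K hK).smul ((cont_slice hfd.continuousOn hp p.2).comp_aestronglyMeasurable hwm)
  obtain ⟨r, hr, hrs⟩ := Metric.nhds_basis_closedBall.mem_iff.1 (isOpen_Hp.mem_nhds
    (show p.1 ∈ Hp from hp))
  obtain ⟨M, hM⟩ := growth_fderiv hτ hpos hf (isCompact_closedBall p.1 r) hrs
  obtain ⟨M', hM'⟩ := hf.growth hτ hpos (isCompact_closedBall p.1 r) hrs
  have hKn : ∀ d : ℕ, Integrable (fun a => |K a| * (1 + |(w a).im|) ^ d) μ := fun d => by
    refine (hK d).norm.congr (Eventually.of_forall fun a => ?_)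
    simp only [norm_mul, Real.norm_eq_abs, abs_pow]
    rw [abs_of_nonneg (a := 1 + |(w a).im|) (by positivity)]
  have hM0 : 0 ≤ M := by
    have := (norm_nonneg _).trans (hM p.1 (Metric.mem_closedBall_self hr.le) 0)
    simpa using this
  have hM0' : 0 ≤ M' := by
    have := (abs_nonneg _).trans (hM' p.1 (Metric.mem_closedBall_self hr.le) 0)
    simpa using this
  have hint : Integrable (fun a => K a * f (p.1, p.2 + w a)) μ := by
    refine Integrable.mono' ((hKn d).const_mul (M' * (1 + |p.2.im|) ^ d)) (hmf p hp)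
      (Eventually.of_forall fun a => ?_)
    rw [Real.norm_eq_abs, abs_mul]
    have h1 := hM' p.1 (Metric.mem_closedBall_self hr.le) (p.2 + w a)
    have h2 : (1 + |(p.2 + w a).im|) ^ d ≤ (1 + |p.2.im|) ^ d * (1 + |(w a).im|) ^ d := by
      rw [← mul_pow, Complex.add_im]
      exact pow_le_pow_left₀ (by positivity) (bound_one le_rfl) _
    calc |K a| * |f (p.1, p.2 + w a)| ≤ |K a| * (M' * ((1 + |p.2.im|) ^ d *
          (1 + |(w a).im|) ^ d)) :=
          mul_le_mul_of_nonneg_left (h1.trans (mul_le_mul_of_nonneg_left h2 hM0')) (abs_nonneg _)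
      _ = _ := by ring
  have hbd : ∀ a, ∀ x ∈ Metric.closedBall p.1 r ×ˢ Metric.ball p.2 1,
      ‖K a • fderiv ℝ f (x.1, x.2 + w a)‖ ≤
        M * (1 + (|p.2.im| + 1)) ^ (d + 1) * (|K a| * (1 + |(w a).im|) ^ (d + 1)) := by
    intro a x hx
    rw [norm_smul, Real.norm_eq_abs]
    have h1 := hM x.1 hx.1 (x.2 + w a)
    have h3 : |x.2.im| ≤ |p.2.im| + 1 := by
      have e1 : |(x.2 - p.2).im| ≤ 1 := by
        refine (Complex.abs_im_le_norm _).trans ?_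
        have := hx.2
        rw [Metric.mem_ball, dist_eq_norm] at this
        exact this.le
      have e2 : x.2.im = p.2.im + (x.2 - p.2).im := by simp
      rw [e2]
      exact (abs_add_le _ _).trans (by linarith)
    have h2 : (1 + |(x.2 + w a).im|) ^ (d + 1) ≤
        (1 + (|p.2.im| + 1)) ^ (d + 1) * (1 + |(w a).im|) ^ (d + 1) := by
      rw [← mul_pow, Complex.add_im]
      exact pow_le_pow_left₀ (by positivity) (bound_one h3) _
    calc |K a| * ‖fderiv ℝ f (x.1, x.2 + w a)‖ ≤ |K a| * (M * ((1 + (|p.2.im| + 1)) ^ (d + 1) *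
          (1 + |(w a).im|) ^ (d + 1))) :=
          mul_le_mul_of_nonneg_left (h1.trans (mul_le_mul_of_nonneg_left h2 hM0)) (abs_nonneg _)
      _ = _ := by ring
  have hbint : Integrable (fun a => M * (1 + (|p.2.im| + 1)) ^ (d + 1) *
      (|K a| * (1 + |(w a).im|) ^ (d + 1))) μ := (hKn (d + 1)).const_mul _
  have hnb : Metric.closedBall p.1 r ×ˢ Metric.ball p.2 1 ∈ 𝓝 p :=
    prod_mem_nhds (Metric.closedBall_mem_nhds _ hr) (Metric.ball_mem_nhds _ one_pos)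
  refine ⟨?_, ?_, hint⟩
  · refine hasFDerivAt_integral_of_dominated_of_fderiv_le hnb ?_ hint hmd
      (Eventually.of_forall hbd) hbint (Eventually.of_forall fun a x hx => ?_)
    · filter_upwards [isOpen_Om.mem_nhds hp] with q hq
      exact hmf q hq
    · have hx' : (x + ((0 : ℂ), w a)) ∈ Om := by
        have : x.1 ∈ Hp := hrs hx.1
        have e : (x + ((0 : ℂ), w a)).1 = x.1 := by simp
        change 0 < (x + ((0 : ℂ), w a)).1.im
        rw [e]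
        exact this
      have h1 : HasFDerivAt f (fderiv ℝ f (x + ((0 : ℂ), w a))) (x + ((0 : ℂ), w a)) :=
        ((hfs.contDiffAt (isOpen_Om.mem_nhds hx')).differentiableAt (by simp)).hasFDerivAt
      have h2 := (hasFDerivAt_comp_add_right ((0 : ℂ), w a)).2 h1
      have e : ∀ x : ℂ × ℂ, x + ((0 : ℂ), w a) = (x.1, x.2 + w a) := fun x => by
        ext <;> simp
      simp only [e] at h2
      exact h2.const_mul (K a)
  · exact Integrable.mono' hbint hmd (Eventually.of_forall fun a =>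
      hbd a p ⟨Metric.mem_closedBall_self hr.le, Metric.mem_ball_self one_pos⟩)

lemma dir (hw : Measurable w) (hK : ∀ d : ℕ, Integrable (fun a => K a * (1 + |(w a).im|) ^ d) μ)
    {τ : ℂ → ℂ} (hτ : DifferentiableOn ℂ τ Hp) (hpos : ∀ s ∈ Hp, 0 < (τ s).im)
    {d : ℕ} {f : ℂ × ℂ → ℝ} (hf : QP τ d f) (v : ℂ × ℂ) {p : ℂ × ℂ} (hp : p ∈ Om) :
    dv v (fun p : ℂ × ℂ => ∫ a, K a * f (p.1, p.2 + w a) ∂μ) p =
      ∫ a, K a * dv v f (p.1, p.2 + w a) ∂μ := by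
  obtain ⟨h1, h2, -⟩ := main hw hK hτ hpos hf hp
  unfold dv
  rw [h1.fderiv, ContinuousLinearMap.integral_apply h2]
  rfl

lemma smooth_n (hw : Measurable w)
    (hK : ∀ d : ℕ, Integrable (fun a => K a * (1 + |(w a).im|) ^ d) μ)
    {τ : ℂ → ℂ} (hτ : DifferentiableOn ℂ τ Hp) (hpos : ∀ s ∈ Hp, 0 < (τ s).im) (n : ℕ) :
    ∀ {d : ℕ} {f : ℂ × ℂ → ℝ}, QP τ d f →
      ContDiffOn ℝ n (fun p : ℂ × ℂ => ∫ a, K a * f (p.1, p.2 + w a) ∂μ) Om := by
  induction n with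
  | zero =>
    intro d f hf
    rw [Nat.cast_zero, contDiffOn_zero]
    exact fun p hp => (main hw hK hτ hpos hf hp).1.continuousAt.continuousWithinAt
  | succ n ih =>
    intro d f hf
    rw [Nat.cast_succ, contDiffOn_succ_iff_fderiv_of_isOpen isOpen_Om]
    refine ⟨fun p hp => (main hw hK hτ hpos hf hp).1.differentiableAt.differentiableWithinAt,
      fun h => by simp at h, ?_⟩
    have hsm : ∀ (v : ℂ × ℂ) (c : ℂ × ℂ →L[ℝ] ℝ), ContDiffOn ℝ n
        (fun p : ℂ × ℂ => (∫ a, K a * dv v f (p.1, p.2 + w a) ∂μ) • c) Om := fun v c =>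
      (ih (hf.dv hτ v)).smul contDiffOn_const
    refine ((((hsm (1, 0) c1).add (hsm (Complex.I, 0) c2)).add (hsm (0, 1) c3)).add
      (hsm (0, Complex.I) c4)).congr fun p hp => ?_
    rw [clm_eq (fderiv ℝ _ p)]
    have e := fun v => dir hw hK hτ hpos hf v hp
    simp only [← e]
    rfl

end

end Dui

theorem dui {α : Type} [MeasurableSpace α] {μ : Measure α} {K : α → ℝ} {w : α → ℂ}
    (hw : Measurable w) (hK : ∀ d : ℕ, Integrable (fun a => K a * (1 + |(w a).im|) ^ d) μ)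
    {τ : ℂ → ℂ} (hτ : DifferentiableOn ℂ τ Hp) (hpos : ∀ s ∈ Hp, 0 < (τ s).im)
    {d : ℕ} {f : ℂ × ℂ → ℝ} (hf : QP τ d f) :
    ContDiffOn ℝ ∞ (fun p => ∫ a, K a * f (p.1, p.2 + w a) ∂μ) Om ∧
    (∀ v, ∀ p ∈ Om, dv v (fun p => ∫ a, K a * f (p.1, p.2 + w a) ∂μ) p =
      ∫ a, K a * dv v f (p.1, p.2 + w a) ∂μ) ∧
    ∀ p ∈ Om, Integrable (fun a => K a * f (p.1, p.2 + w a)) μ :=
  ⟨contDiffOn_infty.2 fun n => Dui.smooth_n hw hK hτ hpos n hf,
    fun v _ hp => Dui.dir hw hK hτ hpos hf v hp, fun _ hp => (Dui.main hw hK hτ hpos hf hp).2.2⟩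

end Pool.Agent.Helper76.ES
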