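import Pool.Agent.Helper76.ES.Phi

/-!
# Exactness along the family
-/

open Filter Topology Set MeasureTheory
open scoped Manifold ContDiff

noncomputable section

namespace Pool.Agent.Helper76.ES

theorem lev_clm (f : (ℂ × ℂ) →L[ℝ] ℝ) (q e : ℂ × ℂ) : lev f q e = 0 := by
  have h1 : ∀ v : ℂ × ℂ, dv v f = fun _ => f v := by
    intro v; funext p; unfold dv; rw [ContinuousLinearMap.fderiv]
  rw [lev_eq_dv f.contDiff.contDiffAt]
  simp only [h1]
  simp [dv]

/-- potentials near a point, uniformly in the direction -/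
theorem L_eventually_all {Ω : Set (ℂ × ℂ)} {P : ℂ × ℂ → ℂ × ℂ → ℝ} (h : Loc Ω P) {p : ℂ × ℂ}
    (hp : p ∈ Ω) : ∀ᶠ q in 𝓝 p, ContDiffAt ℝ 2 (P p) q ∧ ∀ e, L P e q = lev (P p) q e := by
  have h1 : ∀ᶠ q in 𝓝 p, ContDiffAt ℝ 2 (P p) q :=
    (contDiffAt_P h hp).eventually (by simp)
  filter_upwards [h1, h.compat p hp] with q hq hPH
  refine ⟨hq, fun e => ?_⟩
  have h2 := hPH.self_of_nhds
  have h3 : ContDiffAt ℝ 2 (P q) q := by
    have := hq.sub h2.1
    refine this.congr_of_eventuallyEq (Eventually.of_forall fun x => ?_)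
    simp
  have h4 := lev_sub hq h3 e
  rw [h2.2 e] at h4
  unfold L
  linarith

/-- directions -/
theorem lev_all {v : ℂ × ℂ → ℝ} {q : ℂ × ℂ} (hv : ContDiffAt ℝ 2 v q) (h1 : ∀ l : ℂ, lev v q (1, l) = 0)
    (h2 : lev v q (0, 1) = 0) (e : ℂ × ℂ) : lev v q e = 0 := by
  by_cases he : e.1 = 0
  · have : e = e.2 • ((0, 1) : ℂ × ℂ) := by ext <;> simp [he]
    rw [this, lev_smul hv, h2, mul_zero]
  · have : e = e.1 • ((1, e.2 / e.1) : ℂ × ℂ) := by
      ext
      · simp
      · simp; field_simp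
    rw [this, lev_smul hv, h1, mul_zero]

variable {E : Type} [NormedAddCommGroup E] [NormedSpace ℂ E]
  {X : Type} [TopologicalSpace X] [ChartedSpace E X]
variable {F : Family E X} {η : Form E X} {U : ℂ × ℂ → ℝ} {κ ψ : ℂ → ℝ} {c : ℝ}

theorem exact_of_pot (h : IsPot F η U κ ψ c) {k : ℝ} (hk : ∀ s ∈ Hp, ψ s = k * (F.τ s).im)
    {u' : ℂ → ℝ} (hu' : ContDiff ℝ 2 u')
    (hu1' : ∀ z, Laplacian.laplacian u' z = dens η F.R'.φ z) : ExactAlong F η := by
  set v : ℂ → ℝ := fun s => u' (F.r' s) - U (s, 0) with hv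
  refine ⟨fun q => U q - k * q.2.im + v q.1, ?_, ?_, ?_⟩
  · intro p hp
    simp only [h.one p hp]
    simp
  · intro p hp
    simp only [h.tau p hp, hk p.1 hp, Complex.add_im]
    ring
  · intro p hp
    unfold PH
    filter_upwards [L_eventually_all (F.geo η).loc hp, isOpen_Om.mem_nhds hp] with q hq hqO
    obtain ⟨hq1, hq2⟩ := hq
    have hqs : q.1 ∈ Hp := hqO
    have hvd : ∀ s ∈ Hp, ContDiffAt ℝ 2 v s := fun s hs =>
      (contDiffAt_rat hu' F.hr' hs).sub
        (contDiffAt_section h.smooth (a := fun _ => 0) (differentiableOn_const 0) hs)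
    have hvl : Laplacian.laplacian v q.1 = κ q.1 := by
      have h1 := contDiffAt_rat hu' F.hr' hqs
      have h2 := contDiffAt_section h.smooth (a := fun _ => 0) (differentiableOn_const 0) hqs
      have e : v = (fun t => u' (F.r' t)) - fun t => U (t, 0) := rfl
      rw [e, h1.laplacian_sub h2, rat_section η F.R' hu' hu1' F.hr' hqs,
        h.section (a := fun _ => 0) (differentiableOn_const 0) hqs]
      have e2 : (fun t : ℂ => η.pot (F.Ψ (q.1, 0)) (F.Ψ (t, 0))) =ᶠ[𝓝 q.1]
          fun t : ℂ => η.pot (F.R'.φ (F.r' q.1)) (F.R'.φ (F.r' t)) := by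
        filter_upwards [isOpen_Hp.mem_nhds hqs] with t ht
        rw [F.meet' t ht, F.meet' _ hqs]
      rw [(InnerProductSpace.laplacian_congr_nhds e2).eq_of_nhds]
      ring
    have hU := h.smooth q hqO
    set im2 : (ℂ × ℂ) →L[ℝ] ℝ := Complex.imCLM.comp (ContinuousLinearMap.snd ℝ ℂ ℂ) with him2
    have him : ContDiffAt ℝ 2 (fun q : ℂ × ℂ => k * q.2.im) q :=
      contDiffAt_const.mul im2.contDiff.contDiffAt
    have hlim : ∀ e, lev (fun q : ℂ × ℂ => k * q.2.im) q e = 0 := by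
      intro e
      have := lev_const_mul (u := im2) im2.contDiff.contDiffAt (p := q) k e
      rw [lev_clm, mul_zero] at this
      exact this
    have hvf : ContDiffAt ℝ 2 (fun q : ℂ × ℂ => v q.1) q :=
      ContDiffAt.comp q (hvd _ hqs) contDiffAt_fst
    have hlv : ∀ e : ℂ × ℂ, lev (fun q : ℂ × ℂ => v q.1) q e = lev v q.1 e.1 := by
      intro e
      have := lev_comp (u := v) (T := fun q : ℂ × ℂ => q.1) (p := q) (hvd _ hqs) contDiffAt_fst e
      rw [this]
      congr 1
      rw [show (fun q : ℂ × ℂ => q.1) = Prod.fst from rfl, fderiv_fst]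
      rfl
    have hG : ContDiffAt ℝ 2 (fun q : ℂ × ℂ => U q - k * q.2.im + v q.1) q :=
      (hU.sub him).add hvf
    have hGP : ContDiffAt ℝ 2 (fun q : ℂ × ℂ => U q - k * q.2.im + v q.1 - F.P η p q) q :=
      hG.sub hq1
    refine ⟨hGP, fun e => ?_⟩
    have key : ∀ e, lev (fun q : ℂ × ℂ => U q - k * q.2.im + v q.1 - F.P η p q) q e =
        lev U q e + lev v q.1 e.1 - L (F.P η) e q := by
      intro e
      rw [lev_sub hG hq1, lev_add (hU.sub him) hvf, lev_sub hU him, hlim, hlv, hq2]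
      ring
    have e1 : ∀ z : ℂ, ContDiffAt ℝ 2 v z → lev v z 1 = Laplacian.laplacian v z := by
      intro z hz
      have := laplacian_comp (u := v) (γ := fun w : ℂ => w) (s := z) hz contDiffAt_id
      simpa using this.symm
    refine lev_all hGP ?_ ?_ e
    · intro l
      rw [key, h.lev_h q hqO l]
      simp only []
      rw [e1 _ (hvd _ hqs), hvl]
      ring
    · rw [key, h.lev_v q hqO]
      simp only []
      have : (0 : ℂ) = (0 : ℂ) • 1 := by simp
      rw [this, lev_smul (hvd _ hqs)]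
      simp

end Pool.Agent.Helper76.ES
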