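import Pool.Agent.Helper76.ES.Coef

/-!
# Pull-back of forms, densities
-/

open Filter Topology Set MeasureTheory
open scoped Manifold ContDiff

noncomputable section

namespace Pool.Agent.Helper76.ES

namespace FormL

section
variable {E : Type} [NormedAddCommGroup E] [NormedSpace ℂ E]
  {X : Type} [TopologicalSpace X] [ChartedSpace E X]
  {F : Type} [NormedAddCommGroup F] [NormedSpace ℂ F]

theorem PH_congr {u v : F → ℝ} {p : F} (h : u =ᶠ[𝓝 p] v) (hu : PH u p) : PH v p := by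
  filter_upwards [hu, eventually_eventually_nhds.2 h] with q h1 h2
  have h3 : u =ᶠ[𝓝 q] v := h2
  refine ⟨h1.1.congr_of_eventuallyEq h3.symm, fun e => ?_⟩
  rw [← lev_congr h3]
  exact h1.2 e

theorem chart {Ψ : F → X} {p : F} (h : ContMDiffAt 𝓘(ℂ, F) 𝓘(ℂ, E) ω Ψ p) :
    ContinuousAt Ψ p ∧ ContDiffAt ℂ ω (fun q => chartAt E (Ψ p) (Ψ q)) p := by
  rw [contMDiffAt_iff_target, contMDiffAt_iff_contDiffAt] at h
  exact h

omit [NormedSpace ℂ E] [NormedSpace ℂ F] in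
theorem near {Ψ : F → X} {p : F} (h : ContinuousAt Ψ p) (u : X → ℝ) :
    (fun q => (u ∘ (chartAt E (Ψ p)).symm) (chartAt E (Ψ p) (Ψ q))) =ᶠ[𝓝 p] fun q => u (Ψ q) := by
  have h1 : ∀ᶠ q in 𝓝 p, Ψ q ∈ (chartAt E (Ψ p)).source :=
    h.eventually ((chartAt E (Ψ p)).open_source.mem_nhds (mem_chart_source E (Ψ p)))
  filter_upwards [h1] with q hq
  simp only [Function.comp]
  rw [(chartAt E (Ψ p)).left_inv hq]

theorem lev_sum {ι : Type} (t : Finset ι) (c : ι → ℝ) {u : ι → F → ℝ} {q : F}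
    (h : ∀ i ∈ t, ContDiffAt ℝ 2 (u i) q) (e : F) :
    lev (fun q => ∑ i ∈ t, c i * u i q) q e = ∑ i ∈ t, c i * lev (u i) q e := by
  classical
  induction t using Finset.induction_on with
  | empty => simp [lev]
  | insert a t ha ih =>
    have j1 := h a (Finset.mem_insert_self _ _)
    have j3 : ContDiffAt ℝ 2 (fun q => c a * u a q) q := contDiffAt_const.mul j1
    have j4 : ContDiffAt ℝ 2 (fun q => ∑ i ∈ t, c i * u i q) q :=
      ContDiffAt.sum fun i hi => contDiffAt_const.mul (h i (Finset.mem_insert_of_mem hi))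
    simp only [Finset.sum_insert ha]
    rw [lev_add j3 j4, lev_const_mul j1, ih fun i hi => h i (Finset.mem_insert_of_mem hi)]

end

end FormL

section
variable {E : Type} [NormedAddCommGroup E] [NormedSpace ℂ E]
  {X : Type} [TopologicalSpace X] [ChartedSpace E X]
  {F : Type} [NormedAddCommGroup F] [NormedSpace ℂ F]

theorem loc_of_form (η : Form E X) {Ω : Set F} (hΩ : IsOpen Ω) {Ψ : F → X}
    (hΨ : ContMDiffOn 𝓘(ℂ, F) 𝓘(ℂ, E) ω Ψ Ω) : Loc Ω fun p q => η.pot (Ψ p) (Ψ q) := by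
  have hc : ∀ p ∈ Ω, ContinuousAt Ψ p ∧ ContDiffAt ℂ ω (fun q => chartAt E (Ψ p) (Ψ q)) p :=
    fun p hp => FormL.chart (hΨ.contMDiffAt (hΩ.mem_nhds hp))
  constructor
  · intro p hp
    obtain ⟨h1, h2⟩ := hc p hp
    have h3 : ContDiffAt ℝ ∞ (fun q => chartAt E (Ψ p) (Ψ q)) p :=
      (h2.restrict_scalars ℝ).of_le (by simp)
    have h4 := ContDiffAt.comp p (η.smooth (Ψ p)) h3
    exact h4.congr_of_eventuallyEq (FormL.near h1 (η.pot (Ψ p))).symm
  · intro p hp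
    filter_upwards [(hc p hp).1.eventually (η.compat (Ψ p)), hΩ.mem_nhds hp] with q h1 h2
    obtain ⟨h3, h4⟩ := hc q h2
    have h5 : ContDiffAt ℂ 2 (fun r => chartAt E (Ψ q) (Ψ r)) q := h4.of_le (by simp)
    exact FormL.PH_congr (FormL.near h3 fun y' => η.pot (Ψ p) y' - η.pot (Ψ q) y')
      (PH_comp (T := fun r => chartAt E (Ψ q) (Ψ r)) h1 h5)

/-- linear combination of forms -/
def comb {k : ℕ} (c : Fin k → ℝ) (η : Fin k → Form E X) : Form E X where
  pot x y := ∑ j, c j * (η j).pot x y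
  smooth := by
    intro x
    exact ContDiffAt.sum fun j _ => contDiffAt_const.mul ((η j).smooth x)
  compat := by
    intro x
    have h : ∀ᶠ y in 𝓝 x, ∀ j : Fin k,
        PH ((fun y' => (η j).pot x y' - (η j).pot y y') ∘ (chartAt E y).symm) (chartAt E y y) :=
      Filter.eventually_all.2 fun j => (η j).compat x
    filter_upwards [h] with y hy
    have h2 := PH_sum Finset.univ c fun j _ => hy j
    have h3 : (fun q => ∑ i, c i * ((fun y' => (η i).pot x y' - (η i).pot y y') ∘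
        (chartAt E y).symm) q) = (fun y' => ∑ j, c j * (η j).pot x y' - ∑ j, c j * (η j).pot y y') ∘
        (chartAt E y).symm := by
      funext q
      simp only [Function.comp, ← Finset.sum_sub_distrib, mul_sub]
    rw [h3] at h2
    exact h2

theorem FormL.dens_eq (η : Form E X) {φ : ℂ → X} (hφ : ContMDiff 𝓘(ℂ, ℂ) 𝓘(ℂ, E) ω φ) (z : ℂ) :
    dens η φ z = L (fun p q => η.pot (φ p) (φ q)) 1 z := by
  have h := loc_of_form η isOpen_univ (Ψ := φ) hφ.contMDiffOn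
  have h1 := laplacian_comp (u := fun q => η.pot (φ z) (φ q)) (γ := fun t : ℂ => t) (s := z)
    (Coef.two (h.smooth z (mem_univ z))) contDiffAt_id
  have h2 : deriv (fun t : ℂ => t) z = 1 := deriv_id z
  rw [h2] at h1
  exact h1

theorem dens_continuous (η : Form E X) {φ : ℂ → X} (hφ : ContMDiff 𝓘(ℂ, ℂ) 𝓘(ℂ, E) ω φ) :
    ContDiff ℝ ∞ (dens η φ) := by
  have h := loc_of_form η isOpen_univ (Ψ := φ) hφ.contMDiffOn
  have h1 := L_smooth h 1
  rw [contDiffOn_univ] at h1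
  have h2 : dens η φ = L (fun p q => η.pot (φ p) (φ q)) 1 := funext fun z => FormL.dens_eq η hφ z
  rw [h2]
  exact h1

theorem dens_comb {k : ℕ} (c : Fin k → ℝ) (η : Fin k → Form E X) {φ : ℂ → X}
    (hφ : ContMDiff 𝓘(ℂ, ℂ) 𝓘(ℂ, E) ω φ) (z : ℂ) :
    dens (comb c η) φ z = ∑ j, c j * dens (η j) φ z := by
  simp only [FormL.dens_eq _ hφ]
  exact FormL.lev_sum Finset.univ c (fun j _ => Coef.two
    ((loc_of_form (η j) isOpen_univ (Ψ := φ) hφ.contMDiffOn).smooth z (mem_univ z))) 1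

/-- the density in the coordinate `1/z` of a rational curve -/
theorem dens_inv (η : Form E X) (C : RatCurve E X) {z : ℂ} (hz : z ≠ 0) :
    dens η C.φ z = (‖z‖ ^ 4)⁻¹ * dens η C.ψ z⁻¹ := by
  have h := loc_of_form η isOpen_univ (Ψ := C.ψ) C.hol'.contMDiffOn
  have hg : ∀ w : ℂ, w ≠ 0 → C.φ w = C.ψ w⁻¹ := by
    intro w hw
    rw [C.glue w⁻¹ (inv_ne_zero hw), inv_inv]
  have h1 : (fun w => η.pot (C.φ z) (C.φ w)) =ᶠ[𝓝 z] fun w => η.pot (C.ψ z⁻¹) (C.ψ w⁻¹) := by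
    filter_upwards [isOpen_ne.mem_nhds hz] with w hw
    rw [hg z hz, hg w hw]
  have h2 : dens η C.φ z = Laplacian.laplacian (fun w => η.pot (C.ψ z⁻¹) (C.ψ w⁻¹)) z :=
    (InnerProductSpace.laplacian_congr_nhds h1).self_of_nhds
  have h3 : ContDiffAt ℂ 2 (fun w : ℂ => w⁻¹) z := contDiffAt_inv ℂ hz
  have h4 := laplacian_comp (u := fun q => η.pot (C.ψ z⁻¹) (C.ψ q)) (γ := fun w : ℂ => w⁻¹) (s := z)
    (Coef.two (h.smooth z⁻¹ (mem_univ _))) h3
  rw [h2, FormL.dens_eq η C.hol', h4, deriv_inv]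
  have h5 : -(z ^ 2)⁻¹ = (-(z ^ 2)⁻¹) • (1 : ℂ) := by simp
  rw [h5, lev_smul (Coef.two (h.smooth z⁻¹ (mem_univ _)))]
  have h6 : ‖-(z ^ 2)⁻¹‖ ^ 2 = (‖z‖ ^ 4)⁻¹ := by
    rw [norm_neg, norm_inv, norm_pow, inv_pow, ← pow_mul]
  rw [h6]
  rfl

end

end Pool.Agent.Helper76.ES
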