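import Pool.Agent.Helper76.ES.Base

/-!
# A harmonic function on the upper half plane is an imaginary part (module IM, helper37)
-/

open Filter Topology Set MeasureTheory
open scoped Manifold ContDiff

noncomputable section

namespace Pool.Agent.Helper76.ES

namespace ImPart

lemma isOpen_Hp : IsOpen Hp := isOpen_lt continuous_const Complex.continuous_im

lemma convex_Hp : Convex ℝ Hp := by
  have h : Hp = Complex.imCLM ⁻¹' (Ioi 0) := by
    ext z; simp [Hp]
  rw [h]
  exact (convex_Ioi 0).affine_preimage Complex.imCLM.toLinearMap.toAffineMap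

end ImPart

open ImPart in
/-- a harmonic function on the upper half plane is an imaginary part -/
theorem exists_im {u : ℂ → ℝ} (hu : ∀ s ∈ Hp, ContDiffAt ℝ 2 u s)
    (h : ∀ s ∈ Hp, Laplacian.laplacian u s = 0) :
    ∃ f : ℂ → ℂ, DifferentiableOn ℂ f Hp ∧ ∀ s ∈ Hp, u s = (f s).im := by
  have hh : ∀ s ∈ Hp, InnerProductSpace.HarmonicAt u s := fun s hs =>
    ⟨hu s hs, by
      filter_upwards [isOpen_Hp.mem_nhds hs] with t ht
      exact h t ht⟩
  set g : ℂ → ℂ := fun z => fderiv ℝ u z 1 - Complex.I * fderiv ℝ u z Complex.I with hg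
  have hgd : DifferentiableOn ℂ g Hp := fun s hs =>
    (HarmonicAt.differentiableAt_complex_partial (hh s hs)).differentiableWithinAt
  obtain ⟨F, hF⟩ := convex_Hp.exists_forall_hasDerivWithinAt hgd
  have hF' : ∀ s ∈ Hp, HasDerivAt F (g s) s := fun s hs =>
    (hF s hs).hasDerivAt (isOpen_Hp.mem_nhds hs)
  have h0 : Complex.I ∈ Hp := by simp [Hp]
  set c : ℝ := u Complex.I - (F Complex.I).re with hc
  have key : ∀ s ∈ Hp, (F s).re + c = u s := by
    refine convex_Hp.eqOn_of_fderivWithin_eq (𝕜 := ℝ) (x := Complex.I)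
      (f := fun s => (F s).re + c) (g := u) ?_ ?_ isOpen_Hp.uniqueDiffOn ?_ h0 ?_
    · intro s hs
      have h1 := (hF' s hs).hasFDerivAt.restrictScalars ℝ
      exact ((Complex.reCLM.hasFDerivAt.comp s h1).add_const c).differentiableAt.differentiableWithinAt
    · intro s hs
      exact ((hu s hs).differentiableAt two_ne_zero).differentiableWithinAt
    · intro s hs
      rw [fderivWithin_of_isOpen isOpen_Hp hs, fderivWithin_of_isOpen isOpen_Hp hs]
      have h1 := (hF' s hs).hasFDerivAt.restrictScalars ℝ
      have h2 := (Complex.reCLM.hasFDerivAt.comp s h1).add_const c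
      have h3 : fderiv ℝ (fun s => (F s).re + c) s = _ := h2.fderiv
      rw [h3]
      ext a
      have h4 : a = a.re • (1 : ℂ) + a.im • Complex.I := by
        simp
      conv_rhs => rw [h4, map_add, map_smul, map_smul]
      simp [hg]
    · simp [hc]
  refine ⟨fun s => Complex.I * (F s + c), ?_, fun s hs => ?_⟩
  · intro s hs
    exact ((((hF' s hs).differentiableAt).add_const (c : ℂ)).const_mul Complex.I).differentiableWithinAt
  · rw [← key s hs]
    simp

end Pool.Agent.Helper76.ES
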