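import Pool.Agent.Helper76.ES.Coef

/-!
# Invariance of the Levi form
-/

open Filter Topology Set MeasureTheory
open scoped Manifold ContDiff

noncomputable section

namespace Pool.Agent.Helper76.ES

namespace Inv

theorem isOpen_Hp : IsOpen Hp := isOpen_lt continuous_const Complex.continuous_im

theorem isOpen_Om : IsOpen Om :=
  isOpen_lt continuous_const (Complex.continuous_im.comp continuous_fst)

theorem contDiffAt_hol {τ : ℂ → ℂ} (hτ : DifferentiableOn ℂ τ Hp) {s : ℂ} (hs : s ∈ Hp) {n : ℕ∞} :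
    ContDiffAt ℂ n τ s :=
  ((hτ.analyticAt (isOpen_Hp.mem_nhds hs)).contDiffAt (n := n))

end Inv

theorem L_translate {P : ℂ × ℂ → ℂ × ℂ → ℝ} (v : ℂ × ℂ) (hv : ∀ p ∈ Om, p + v ∈ Om)
    (h1 : ∀ p ∈ Om, ∀ q ∈ Om, P (p + v) q = P p q) (h2 : ∀ p ∈ Om, ∀ q ∈ Om, P p (q + v) = P p q)
    {p : ℂ × ℂ} (hp : p ∈ Om) (e : ℂ × ℂ) : L P e (p + v) = L P e p := by
  have h3 : ContinuousAt (fun s : ℂ => p + s • e) 0 := by fun_prop
  have h0 : Tendsto (fun s : ℂ => p + s • e) (𝓝 0) (𝓝 p) := by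
    simpa [ContinuousAt] using h3
  have h4 : (fun s : ℂ => P (p + v) (p + v + s • e)) =ᶠ[𝓝 0] fun s : ℂ => P p (p + s • e) := by
    filter_upwards [h0.eventually (Inv.isOpen_Om.mem_nhds hp)] with s hs
    have h5 : p + v + s • e = (p + s • e) + v := by abel
    rw [h5, h2 _ (hv p hp) _ hs, h1 _ hp _ hs]
  exact (InnerProductSpace.laplacian_congr_nhds h4).self_of_nhds

theorem L_add_one {τ : ℂ → ℂ} {P : ℂ × ℂ → ℂ × ℂ → ℝ} (G : Geo τ P) {p : ℂ × ℂ} (hp : p ∈ Om)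
    (e : ℂ × ℂ) : L P e (p.1, p.2 + 1) = L P e p := by
  have h : ∀ q : ℂ × ℂ, (q.1, q.2 + 1) = q + (0, 1) := fun q => Prod.ext (by simp) (by simp)
  rw [h]
  refine L_translate (0, 1) (fun q hq => ?_) (fun q hq r hr => ?_) (fun q hq r hr => ?_) hp e
  · simpa [Om] using hq
  · rw [← h]
    exact G.one_l q hq r hr
  · rw [← h]
    exact G.one_r q hq r hr

namespace Inv

theorem tau_l {τ : ℂ → ℂ} {P : ℂ × ℂ → ℂ × ℂ → ℝ} (G : Geo τ P) (k : ℤ) :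
    ∀ p ∈ Om, ∀ q ∈ Om, P (p.1, p.2 + k * τ p.1) q = P p q := by
  induction k using Int.induction_on with
  | zero => intro p _ q _; simp
  | succ k ih =>
    intro p hp q hq
    have h1 := G.tau_l (p.1, p.2 + (k : ℤ) * τ p.1) hp q hq
    have h2 : p.2 + ((k + 1 : ℤ) : ℂ) * τ p.1 = p.2 + (k : ℤ) * τ p.1 + τ p.1 := by
      push_cast
      ring
    rw [h2]
    simp only at h1
    rw [h1]
    exact ih p hp q hq
  | pred k ih =>
    intro p hp q hq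
    have h1 := G.tau_l (p.1, p.2 + (-(k : ℤ) - 1 : ℤ) * τ p.1) hp q hq
    have h2 : p.2 + ((-(k : ℤ) - 1 : ℤ) : ℂ) * τ p.1 + τ p.1 = p.2 + (-(k : ℤ) : ℤ) * τ p.1 := by
      push_cast
      ring
    simp only at h1
    rw [h2] at h1
    rw [← h1]
    exact ih p hp q hq

theorem tau_r {τ : ℂ → ℂ} {P : ℂ × ℂ → ℂ × ℂ → ℝ} (G : Geo τ P) (k : ℤ) :
    ∀ p ∈ Om, ∀ q ∈ Om, P p (q.1, q.2 + k * τ q.1) = P p q := by
  induction k using Int.induction_on with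
  | zero => intro p _ q _; simp
  | succ k ih =>
    intro p hp q hq
    have h1 := G.tau_r p hp (q.1, q.2 + (k : ℤ) * τ q.1) hq
    have h2 : q.2 + ((k + 1 : ℤ) : ℂ) * τ q.1 = q.2 + (k : ℤ) * τ q.1 + τ q.1 := by
      push_cast
      ring
    rw [h2]
    simp only at h1
    rw [h1]
    exact ih p hp q hq
  | pred k ih =>
    intro p hp q hq
    have h1 := G.tau_r p hp (q.1, q.2 + (-(k : ℤ) - 1 : ℤ) * τ q.1) hq
    have h2 : q.2 + ((-(k : ℤ) - 1 : ℤ) : ℂ) * τ q.1 + τ q.1 = q.2 + (-(k : ℤ) : ℤ) * τ q.1 := by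
      push_cast
      ring
    simp only at h1
    rw [h2] at h1
    rw [← h1]
    exact ih p hp q hq

/-- the translation by `k τ` -/
theorem L_shift {τ : ℂ → ℂ} {P : ℂ × ℂ → ℂ × ℂ → ℝ} (G : Geo τ P) {p : ℂ × ℂ} (hp : p ∈ Om)
    (k : ℤ) (α β : ℂ) :
    L P (α, β + k * deriv τ p.1 * α) (p.1, p.2 + k * τ p.1) = L P (α, β) p := by
  have hτ : ContDiffAt ℂ 2 τ p.1 := contDiffAt_hol G.hol hp
  have hτ' : ContDiffAt ℂ 2 (fun q : ℂ × ℂ => τ q.1) p := hτ.comp p contDiffAt_fst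
  have hT : ContDiffAt ℂ 2 (fun q : ℂ × ℂ => (q.1, q.2 + k * τ q.1)) p :=
    contDiffAt_fst.prodMk (contDiffAt_snd.add (contDiffAt_const.mul hτ'))
  have hd : HasFDerivAt (fun q : ℂ × ℂ => (q.1, q.2 + k * τ q.1))
      ((ContinuousLinearMap.fst ℂ ℂ ℂ).prod (ContinuousLinearMap.snd ℂ ℂ ℂ +
        (k : ℂ) • (deriv τ p.1 • ContinuousLinearMap.fst ℂ ℂ ℂ))) p := by
    have h1 : HasFDerivAt (fun q : ℂ × ℂ => τ q.1) (deriv τ p.1 • ContinuousLinearMap.fst ℂ ℂ ℂ) p :=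
      (hτ.differentiableAt (by norm_num)).hasDerivAt.comp_hasFDerivAt p hasFDerivAt_fst
    exact hasFDerivAt_fst.prodMk (hasFDerivAt_snd.add (h1.const_mul (k : ℂ)))
  have hTp : ((p.1, p.2 + k * τ p.1) : ℂ × ℂ) ∈ Om := hp
  have h1 := lev_comp (u := P (p.1, p.2 + k * τ p.1)) (T := fun q : ℂ × ℂ => (q.1, q.2 + k * τ q.1))
    (p := p) (Coef.two (G.loc.smooth _ hTp)) hT (α, β)
  rw [hd.fderiv] at h1
  have h2 : ((ContinuousLinearMap.fst ℂ ℂ ℂ).prod (ContinuousLinearMap.snd ℂ ℂ ℂ +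
        (k : ℂ) • (deriv τ p.1 • ContinuousLinearMap.fst ℂ ℂ ℂ))) (α, β) =
      (α, β + k * deriv τ p.1 * α) := by
    simp
    ring
  rw [h2] at h1
  have h3 : (fun q : ℂ × ℂ => P (p.1, p.2 + k * τ p.1) (q.1, q.2 + k * τ q.1)) =ᶠ[𝓝 p] P p := by
    filter_upwards [isOpen_Om.mem_nhds hp] with q hq
    rw [tau_r G k _ hTp q hq, tau_l G k p hp q hq]
  rw [lev_congr h3] at h1
  exact h1.symm

end Inv

theorem C_add_tau {τ : ℂ → ℂ} {P : ℂ × ℂ → ℂ × ℂ → ℝ} (G : Geo τ P) {p : ℂ × ℂ} (hp : p ∈ Om)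
    (k : ℤ) : L P (0, 1) (p.1, p.2 + k * τ p.1) = L P (0, 1) p := by
  have h := Inv.L_shift G hp k 0 1
  simpa using h

theorem L_add_tau {τ : ℂ → ℂ} {P : ℂ × ℂ → ℂ × ℂ → ℝ} (G : Geo τ P) {p : ℂ × ℂ} (hp : p ∈ Om)
    (k : ℤ) (l : ℂ) :
    L P (1, l) (p.1, p.2 + k * τ p.1) = L P (1, l - k * deriv τ p.1) p := by
  have h := Inv.L_shift G hp k 1 (l - k * deriv τ p.1)
  simpa using h

/-- the Laplacian of the potential along a holomorphic section -/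
theorem L_curve {P : ℂ × ℂ → ℂ × ℂ → ℝ} (h : Loc Om P) {a : ℂ → ℂ} (ha : DifferentiableOn ℂ a Hp)
    {s : ℂ} (hs : s ∈ Hp) :
    Laplacian.laplacian (fun t : ℂ => P (s, a s) (t, a t)) s = L P (1, deriv a s) (s, a s) := by
  have ha2 : ContDiffAt ℂ 2 a s := Inv.contDiffAt_hol ha hs
  have hγ : ContDiffAt ℂ 2 (fun t : ℂ => (t, a t)) s := contDiffAt_id.prodMk ha2
  have hp : ((s, a s) : ℂ × ℂ) ∈ Om := hs
  rw [laplacian_comp (u := P (s, a s)) (γ := fun t : ℂ => (t, a t))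
    (Coef.two (h.smooth _ hp)) hγ]
  have h1 : deriv (fun t : ℂ => (t, a t)) s = (1, deriv a s) :=
    ((hasDerivAt_id s).prodMk (ha2.differentiableAt (by norm_num)).hasDerivAt).deriv
  rw [h1]
  rfl

end Pool.Agent.Helper76.ES
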