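import Pool.Agent.Helper76.ES.Base

/-!
# Integrability of the kernel on the strip
-/

open Filter Topology Set MeasureTheory

noncomputable section

namespace Pool.Agent.Helper76.ES

theorem pt_im (a : ℝ × ℝ) : (pt a).im = a.2 := by simp [pt]

theorem ker_measurable : Measurable (fun a : ℝ × ℝ => ker (pt a)) := by
  unfold ker
  have hpt : Measurable pt := by
    have : Continuous pt := by unfold pt; fun_prop
    exact this.measurable
  have h1 : Measurable (fun a : ℝ × ℝ => if 0 ≤ (pt a).im then pt a else -pt a) := by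
    refine Measurable.ite ?_ hpt hpt.neg
    exact measurableSet_le measurable_const (Complex.measurable_im.comp hpt)
  fun_prop

/-- the value of the kernel -/
theorem ker_eq (x y : ℝ) : ∃ s : ℝ, (s = x ∨ s = -x) ∧ ker (pt (x, y)) =
    Real.log ‖1 - ((Real.exp (-(2 * Real.pi * |y|)) : ℝ) : ℂ) *
      Complex.exp ((2 * Real.pi * s : ℝ) * Complex.I)‖ := by
  unfold ker
  rw [pt_im]
  by_cases hy : 0 ≤ y
  · refine ⟨x, Or.inl rfl, ?_⟩
    rw [if_pos hy, abs_of_nonneg hy]
    congr 3
    rw [Complex.ofReal_exp, ← Complex.exp_add]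
    congr 1
    simp only [pt]
    push_cast
    ring_nf
    rw [Complex.I_sq]; ring
  · refine ⟨-x, Or.inr rfl, ?_⟩
    rw [if_neg hy, abs_of_neg (not_le.1 hy)]
    congr 3
    rw [Complex.ofReal_exp, ← Complex.exp_add]
    congr 1
    simp only [pt]
    push_cast
    ring_nf
    rw [Complex.I_sq]; ring

theorem ker_bound (x y : ℝ) (hs : Real.sin (2 * Real.pi * x) ≠ 0) :
    |ker (pt (x, y))| ≤ (Real.log 2 - Real.log |Real.sin (2 * Real.pi * x)|) *
      (Real.exp (2 * Real.pi) * Real.exp (-(2 * Real.pi * |y|))) := by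
  obtain ⟨s, hs', he⟩ := ker_eq x y
  rw [he]
  set r : ℝ := Real.exp (-(2 * Real.pi * |y|)) with hr
  have hr0 : 0 < r := Real.exp_pos _
  have hr1 : r ≤ 1 := by
    rw [hr, Real.exp_le_one_iff]
    have := mul_nonneg (mul_nonneg zero_le_two Real.pi_pos.le) (abs_nonneg y)
    linarith
  have hsin : |Real.sin (2 * Real.pi * s)| = |Real.sin (2 * Real.pi * x)| := by
    rcases hs' with rfl | rfl
    · rfl
    · rw [mul_neg, Real.sin_neg, abs_neg]
  set θ : ℝ := 2 * Real.pi * s with hθ
  set w : ℂ := (r : ℂ) * Complex.exp ((θ : ℝ) * Complex.I) with hw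
  have hwn : ‖w‖ = r := by
    rw [hw, norm_mul, Complex.norm_exp_ofReal_mul_I, Complex.norm_real, Real.norm_eq_abs,
      abs_of_pos hr0, mul_one]
  have hup : ‖1 - w‖ ≤ 2 := by
    refine (norm_sub_le _ _).trans ?_
    rw [hwn, norm_one]; linarith
  have hsq : ‖1 - w‖ ^ 2 = (r - Real.cos θ) ^ 2 + Real.sin θ ^ 2 := by
    rw [Complex.sq_norm, Complex.normSq_apply]
    have e1 : (1 - w).re = 1 - r * Real.cos θ := by
      simp [hw, Complex.exp_ofReal_mul_I_re]
    have e2 : (1 - w).im = -(r * Real.sin θ) := by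
      simp [hw, Complex.exp_ofReal_mul_I_im]
    rw [e1, e2]
    linear_combination (r ^ 2 - 1) * Real.sin_sq_add_cos_sq θ
  have hlow : |Real.sin θ| ≤ ‖1 - w‖ := by
    rw [← Real.sqrt_sq_eq_abs, ← Real.sqrt_sq (norm_nonneg (1 - w)), hsq]
    exact Real.sqrt_le_sqrt (by nlinarith [sq_nonneg (r - Real.cos θ)])
  have hs0 : 0 < |Real.sin θ| := by rw [hsin]; exact abs_pos.2 hs
  have hle0 : Real.log |Real.sin θ| ≤ 0 := Real.log_nonpos hs0.le (Real.abs_sin_le_one θ)
  rw [← hsin]
  have hlog2 : (1 : ℝ) / 2 ≤ Real.log 2 := by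
    have := Real.log_two_gt_d9; linarith
  have he7 : (7 : ℝ) ≤ Real.exp (2 * Real.pi) := by
    have := Real.add_one_le_exp (2 * Real.pi)
    have := Real.pi_gt_three
    linarith
  have hL : Real.log 2 ≤ Real.log 2 - Real.log |Real.sin θ| := by linarith
  rcases le_or_gt |y| 1 with hy | hy
  · have h1 : 1 ≤ Real.exp (2 * Real.pi) * r := by
      rw [hr, ← Real.exp_add]
      refine Real.one_le_exp ?_
      have := Real.pi_pos
      nlinarith
    have h2 : |Real.log ‖1 - w‖| ≤ Real.log 2 - Real.log |Real.sin θ| := by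
      rw [abs_le]
      constructor
      · have := Real.log_le_log hs0 hlow
        linarith
      · have := Real.log_le_log (lt_of_lt_of_le hs0 hlow) hup
        linarith
    refine h2.trans ?_
    nlinarith
  · have h1 : r ≤ Real.exp (-(2 * Real.pi)) := by
      rw [hr]
      refine Real.exp_le_exp.2 ?_
      have := Real.pi_pos
      nlinarith
    have h2 : Real.exp (-(2 * Real.pi)) ≤ 1 / 7 := by
      rw [Real.exp_neg, inv_eq_one_div]
      exact one_div_le_one_div_of_le (by norm_num) he7
    have h3 : ‖-w‖ ≤ 1 / 2 := by rw [norm_neg, hwn]; linarith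
    have h4 := Complex.norm_log_one_add_half_le_self h3
    rw [norm_neg, hwn, ← sub_eq_add_neg] at h4
    have h5 : |Real.log ‖1 - w‖| ≤ 3 / 2 * r := by
      rw [← Complex.log_re]
      exact (Complex.abs_re_le_norm _).trans h4
    refine h5.trans ?_
    have h6 : (3 : ℝ) / 2 ≤ (Real.log 2 - Real.log |Real.sin θ|) * Real.exp (2 * Real.pi) := by
      nlinarith
    nlinarith

theorem integrableOn_log_sin :
    IntegrableOn (fun x : ℝ => Real.log 2 - Real.log |Real.sin (2 * Real.pi * x)|) (Ico 0 1) := by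
  have h := (intervalIntegrable_log_sin (a := 0) (b := 2 * Real.pi)).comp_mul_left
    (c := 2 * Real.pi)
  rw [zero_div, div_self (by positivity)] at h
  have h2 : IntervalIntegrable (fun x : ℝ => Real.log 2 - Real.log |Real.sin (2 * Real.pi * x)|)
      volume 0 1 := by
    refine (intervalIntegrable_const).sub ?_
    refine h.congr ?_
    intro x _
    simp [Real.log_abs]
  rw [intervalIntegrable_iff_integrableOn_Ico_of_le zero_le_one] at h2
  exact h2

theorem integrable_exp_pow (d : ℕ) :
    Integrable (fun y : ℝ => Real.exp (2 * Real.pi) * Real.exp (-(2 * Real.pi * |y|)) *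
      (1 + |y|) ^ d) := by
  refine ((integrable_inv_one_add_sq.const_mul
    (Real.exp (2 * Real.pi) * (d.factorial * Real.exp 1 * 2)))).mono' ?_ ?_
  · exact Continuous.aestronglyMeasurable (by fun_prop)
  · refine Eventually.of_forall fun y => ?_
    have hy := abs_nonneg y
    rw [Real.norm_eq_abs, abs_of_nonneg (by positivity), mul_assoc, mul_assoc (Real.exp (2 * Real.pi))
      (d.factorial * Real.exp 1 * 2)]
    refine mul_le_mul_of_nonneg_left ?_ (Real.exp_pos _).le
    have h1 : (1 + |y|) ^ d ≤ d.factorial * Real.exp (1 + |y|) := by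
      have := Real.pow_div_factorial_le_exp (1 + |y|) (by positivity) d
      rw [div_le_iff₀ (by positivity)] at this
      linarith
    have h2 : Real.exp (-(2 * Real.pi * |y|)) * Real.exp (1 + |y|) ≤
        Real.exp 1 * Real.exp (-|y|) := by
      rw [← Real.exp_add, ← Real.exp_add]
      refine Real.exp_le_exp.2 ?_
      have := Real.pi_gt_three
      nlinarith
    have h3 : Real.exp (-|y|) ≤ 2 * (1 + y ^ 2)⁻¹ := by
      have h4 := Real.quadratic_le_exp_of_nonneg hy
      rw [sq_abs] at h4
      rw [Real.exp_neg, ← div_eq_mul_inv, inv_eq_one_div, div_le_div_iff₀ (Real.exp_pos _)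
        (by positivity)]
      nlinarith
    calc Real.exp (-(2 * Real.pi * |y|)) * (1 + |y|) ^ d
        ≤ Real.exp (-(2 * Real.pi * |y|)) * (d.factorial * Real.exp (1 + |y|)) :=
          mul_le_mul_of_nonneg_left h1 (Real.exp_pos _).le
      _ = d.factorial * (Real.exp (-(2 * Real.pi * |y|)) * Real.exp (1 + |y|)) := by ring
      _ ≤ d.factorial * (Real.exp 1 * Real.exp (-|y|)) :=
          mul_le_mul_of_nonneg_left h2 (by positivity)
      _ ≤ d.factorial * (Real.exp 1 * (2 * (1 + y ^ 2)⁻¹)) := by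
          have := mul_le_mul_of_nonneg_left h3 (Real.exp_pos 1).le
          exact mul_le_mul_of_nonneg_left this (by positivity)
      _ = d.factorial * Real.exp 1 * 2 * (1 + y ^ 2)⁻¹ := by ring

theorem ae_sin : ∀ᵐ a : ℝ × ℝ, Real.sin (2 * Real.pi * a.1) ≠ 0 := by
  have h1 : ∀ᵐ x : ℝ, Real.sin (2 * Real.pi * x) ≠ 0 := by
    have hc : {x : ℝ | ¬ Real.sin (2 * Real.pi * x) ≠ 0} ⊆ range (fun k : ℤ => (k : ℝ) / 2) := by
      intro x hx
      simp only [mem_ofPred_eq, not_not] at hx
      obtain ⟨k, hk⟩ := Real.sin_eq_zero_iff.1 hx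
      refine ⟨k, ?_⟩
      have := Real.pi_pos
      field_simp
      nlinarith
    exact measure_mono_null hc ((countable_range _).measure_zero _)
  rw [Measure.volume_eq_prod]
  exact Measure.quasiMeasurePreserving_fst.ae h1

theorem ker_integrable (d : ℕ) :
    IntegrableOn (fun a : ℝ × ℝ => ker (pt a) * (1 + |(pt a).im|) ^ d) strip := by
  have hG : IntegrableOn (fun a : ℝ × ℝ => (Real.log 2 - Real.log |Real.sin (2 * Real.pi * a.1)|) *
      (Real.exp (2 * Real.pi) * Real.exp (-(2 * Real.pi * |a.2|)) * (1 + |a.2|) ^ d)) strip := by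
    unfold IntegrableOn strip
    rw [Measure.volume_eq_prod, ← Measure.prod_restrict, Measure.restrict_univ]
    exact Integrable.mul_prod integrableOn_log_sin (integrable_exp_pow d)
  refine Integrable.mono' hG ?_ ?_
  · refine Measurable.aestronglyMeasurable ?_
    have := ker_measurable
    simp_rw [pt_im]
    fun_prop
  · refine ae_restrict_of_ae ?_
    filter_upwards [ae_sin] with a ha
    rw [Real.norm_eq_abs, abs_mul, pt_im, abs_of_nonneg (by positivity : 0 ≤ (1 + |a.2|) ^ d)]
    have := ker_bound a.1 a.2 ha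
    calc |ker (pt a)| * (1 + |a.2|) ^ d
        ≤ (Real.log 2 - Real.log |Real.sin (2 * Real.pi * a.1)|) *
          (Real.exp (2 * Real.pi) * Real.exp (-(2 * Real.pi * |a.2|))) * (1 + |a.2|) ^ d :=
          mul_le_mul_of_nonneg_right this (by positivity)
      _ = _ := by ring

end Pool.Agent.Helper76.ES
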