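import Pool.Agent.Helper76.ES.Base

/-!
# Fourier coefficients of the kernel
-/

open Filter Topology Set MeasureTheory

noncomputable section

namespace Pool.Agent.Helper76.ES

/-- the kernel is even in the imaginary part -/
theorem ker_im_neg (x y : ℝ) (hy : y < 0) :
    ker (x + y * Complex.I) = ker (x + ((-y : ℝ) : ℂ) * Complex.I) := by
  unfold ker
  have i1 : ((x : ℂ) + y * Complex.I).im = y := by simp
  have i2 : ((x : ℂ) + ((-y : ℝ) : ℂ) * Complex.I).im = -y := by simp
  rw [i1, i2, if_neg (not_le.2 hy), if_pos (by linarith)]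
  congr 1
  rw [← Complex.norm_conj, map_sub, map_one, ← Complex.exp_conj]
  congr 3
  simp only [map_mul, map_ofNat, Complex.conj_ofReal, Complex.conj_I, map_neg, map_add]
  push_cast
  ring_nf

theorem integral_e (k : ℤ) :
    ∫ x in (0 : ℝ)..1, Complex.exp (2 * Real.pi * Complex.I * k * x) = if k = 0 then 1 else 0 := by
  split_ifs with h
  · subst h
    simp
  · have hc : (2 * Real.pi * Complex.I * k : ℂ) ≠ 0 := by
      have : (k : ℂ) ≠ 0 := by exact_mod_cast h
      simp [Real.pi_ne_zero, this]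
    rw [integral_exp_mul_complex hc]
    have h1 : Complex.exp (2 * Real.pi * Complex.I * k * ((1 : ℝ) : ℂ)) = 1 := by
      rw [Complex.exp_eq_one_iff]
      exact ⟨k, by push_cast; ring⟩
    rw [h1]
    simp

theorem kerF_pos (m : ℤ) {y : ℝ} (hy : 0 < y) :
    ∫ x in (0 : ℝ)..1, (ker (x + y * Complex.I) : ℂ) *
        Complex.exp (2 * Real.pi * Complex.I * m * x) =
      ((-(1 / (2 * |(m : ℝ)|)) * Real.exp (-(2 * Real.pi * |(m : ℝ)| * y)) : ℝ) : ℂ) := by
  set r : ℝ := Real.exp (-(2 * Real.pi * y)) with hr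
  have hr0 : 0 < r := Real.exp_pos _
  have hr1 : r < 1 := by
    rw [hr, Real.exp_lt_one_iff]
    have := Real.pi_pos
    nlinarith [mul_pos this hy]
  set F : ℕ → ℝ → ℂ := fun n x => -((r ^ n / n : ℝ) : ℂ) *
    ((Complex.exp (2 * Real.pi * Complex.I * ((n + m : ℤ) : ℂ) * x) +
      Complex.exp (2 * Real.pi * Complex.I * ((m - n : ℤ) : ℂ) * x)) / 2) with hF
  have hFc : ∀ n, Continuous (F n) := by
    intro n
    simp only [hF]
    fun_prop
  have hsum : ∀ x : ℝ, HasSum (fun n => F n x)
      ((ker (x + y * Complex.I) : ℂ) * Complex.exp (2 * Real.pi * Complex.I * m * x)) := by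
    intro x
    set w : ℂ := Complex.exp (2 * Real.pi * Complex.I * (x + y * Complex.I)) with hw
    have hwn : ‖w‖ = r := by
      rw [hw, Complex.norm_exp]
      congr 1
      simp
    have hk : ker (x + y * Complex.I) = (Complex.log (1 - w)).re := by
      unfold ker
      have i1 : ((x : ℂ) + y * Complex.I).im = y := by simp
      rw [i1, if_pos hy.le, Complex.log_re]
    have h1 := Complex.hasSum_taylorSeries_neg_log (z := w) (by rw [hwn]; exact hr1)
    have h2 := Complex.hasSum_re h1
    have h3 : HasSum (fun n : ℕ => (-(w ^ n / n).re : ℝ)) (ker (x + y * Complex.I)) := by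
      have := h2.neg
      rwa [Complex.neg_re, neg_neg, ← hk] at this
    have h4 : HasSum (fun n : ℕ => (((-(w ^ n / n).re : ℝ) : ℂ)))
        ((ker (x + y * Complex.I) : ℝ) : ℂ) := h3.mapL Complex.ofRealCLM
    have h5 := h4.mul_right (Complex.exp (2 * Real.pi * Complex.I * m * x))
    refine (?_ : (∀ n, F n x = ((-(w ^ n / n).re : ℝ) : ℂ) *
        Complex.exp (2 * Real.pi * Complex.I * m * x)) → _) ?_
    · intro hfun; simp_rw [hfun]; exact h5
    intro n
    have hwn' : w ^ n = (r ^ n : ℝ) * Complex.exp (2 * Real.pi * Complex.I * n * x) := by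
      rw [hw, ← Complex.exp_nat_mul, hr, ← Real.exp_nat_mul]
      push_cast
      rw [← Complex.exp_add]
      congr 1
      ring_nf
      rw [Complex.I_sq]
      ring
    have hre : (w ^ n / n).re = r ^ n / n * (Complex.exp (2 * Real.pi * Complex.I * n * x)).re := by
      rw [hwn']
      have : ((r ^ n : ℝ) : ℂ) * Complex.exp (2 * Real.pi * Complex.I * n * x) / (n : ℂ)
          = ((r ^ n / n : ℝ) : ℂ) * Complex.exp (2 * Real.pi * Complex.I * n * x) := by
        push_cast; ring
      rw [this, Complex.re_ofReal_mul]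
    have hcos : (((Complex.exp (2 * Real.pi * Complex.I * n * x)).re : ℝ) : ℂ)
        = (Complex.exp (2 * Real.pi * Complex.I * n * x)
          + Complex.exp (-(2 * Real.pi * Complex.I * n * x))) / 2 := by
      rw [Complex.re_eq_add_conj, ← Complex.exp_conj]
      congr 3
      simp only [map_mul, map_ofNat, Complex.conj_ofReal, Complex.conj_I, Complex.conj_natCast]
      ring_nf
    simp only [hF]
    rw [hre]
    push_cast
    rw [hcos]
    have e1 : Complex.exp (2 * Real.pi * Complex.I * ((n : ℂ) + m) * x)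
        = Complex.exp (2 * Real.pi * Complex.I * n * x) *
          Complex.exp (2 * Real.pi * Complex.I * m * x) := by
      rw [← Complex.exp_add]; ring_nf
    have e2 : Complex.exp (2 * Real.pi * Complex.I * ((m : ℂ) - n) * x)
        = Complex.exp (-(2 * Real.pi * Complex.I * n * x)) *
          Complex.exp (2 * Real.pi * Complex.I * m * x) := by
      rw [← Complex.exp_add]; ring_nf
    rw [e1, e2]
    ring
  have hnorm : ∀ (k : ℤ) (x : ℝ), ‖Complex.exp (2 * Real.pi * Complex.I * k * x)‖ = 1 := by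
    intro k x
    have : (2 * Real.pi * Complex.I * k * x : ℂ) = ((2 * Real.pi * k * x : ℝ) : ℂ) * Complex.I := by
      push_cast; ring
    rw [this, Complex.norm_exp_ofReal_mul_I]
  have hb : ∀ n x, ‖F n x‖ ≤ r ^ n := by
    intro n x
    simp only [hF]
    rw [norm_mul, norm_neg, Complex.norm_real, norm_div (_ + _) (2 : ℂ)]
    have h1 : ‖Complex.exp (2 * Real.pi * Complex.I * ((n + m : ℤ) : ℂ) * x) +
      Complex.exp (2 * Real.pi * Complex.I * ((m - n : ℤ) : ℂ) * x)‖ ≤ 2 := by
      refine (norm_add_le _ _).trans ?_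
      rw [hnorm, hnorm]; norm_num
    have h2 : ‖(r ^ n / n : ℝ)‖ ≤ r ^ n := by
      rw [Real.norm_eq_abs, abs_of_nonneg (by positivity)]
      rcases Nat.eq_zero_or_pos n with rfl | hn
      · simp
      · exact div_le_self (by positivity) (by exact_mod_cast hn)
    have h3 : ‖Complex.exp (2 * Real.pi * Complex.I * ((n + m : ℤ) : ℂ) * x) +
      Complex.exp (2 * Real.pi * Complex.I * ((m - n : ℤ) : ℂ) * x)‖ / ‖(2 : ℂ)‖ ≤ 1 := by
      rw [div_le_one (by norm_num)]
      simpa using h1
    calc _ ≤ r ^ n * 1 := mul_le_mul h2 h3 (by positivity) (by positivity)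
      _ = r ^ n := mul_one _
  have hI := intervalIntegral.hasSum_integral_of_dominated_convergence (μ := volume) (a := 0)
    (b := 1) (F := F) (f := fun x : ℝ => (ker (x + y * Complex.I) : ℂ) *
        Complex.exp (2 * Real.pi * Complex.I * m * x)) (fun n _ => r ^ n)
    (fun n => (hFc n).aestronglyMeasurable)
    (fun n => Eventually.of_forall fun x _ => hb n x)
    (Eventually.of_forall fun x _ => summable_geometric_of_lt_one hr0.le hr1)
    (by simp)
    (Eventually.of_forall fun x _ => hsum x)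
  have hint : ∀ n, ∫ x in (0 : ℝ)..1, F n x = -((r ^ n / n : ℝ) : ℂ) *
      (((if (n + m : ℤ) = 0 then 1 else 0) + (if (m - n : ℤ) = 0 then 1 else 0)) / 2) := by
    intro n
    simp only [hF]
    rw [intervalIntegral.integral_const_mul, intervalIntegral.integral_div,
      intervalIntegral.integral_add, integral_e, integral_e]
    · exact Continuous.intervalIntegrable (by fun_prop) _ _
    · exact Continuous.intervalIntegrable (by fun_prop) _ _
  rw [← hI.tsum_eq]
  simp_rw [hint]
  rw [tsum_eq_single m.natAbs]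
  · have hexp : Real.exp (-(2 * Real.pi * |(m : ℝ)| * y)) = r ^ m.natAbs := by
      rw [hr, ← Real.exp_nat_mul, Nat.cast_natAbs, Int.cast_abs]
      congr 1; ring
    have hcast : ((m.natAbs : ℕ) : ℝ) = |(m : ℝ)| := by
      rw [Nat.cast_natAbs, Int.cast_abs]
    rw [hexp, hcast]
    rcases lt_trichotomy m 0 with h | h | h
    · have c1 : ((m.natAbs : ℤ) + m) = 0 := by omega
      have c2 : ¬ (m - (m.natAbs : ℤ)) = 0 := by omega
      rw [if_pos c1, if_neg c2]
      push_cast; ring
    · subst h; simp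
    · have c1 : ¬ ((m.natAbs : ℤ) + m) = 0 := by omega
      have c2 : (m - (m.natAbs : ℤ)) = 0 := by omega
      rw [if_neg c1, if_pos c2]
      push_cast; ring
  · intro n hn
    have c1 : ¬ ((n : ℤ) + m) = 0 := by omega
    have c2 : ¬ (m - (n : ℤ)) = 0 := by omega
    rw [if_neg c1, if_neg c2]
    simp

theorem kerF (m : ℤ) {y : ℝ} (hy : y ≠ 0) :
    ∫ x in (0 : ℝ)..1, (ker (x + y * Complex.I) : ℂ) *
        Complex.exp (2 * Real.pi * Complex.I * m * x) =
      ((-(1 / (2 * |(m : ℝ)|)) * Real.exp (-(2 * Real.pi * |(m : ℝ)| * |y|)) : ℝ) : ℂ) := by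
  rcases lt_or_gt_of_ne hy with h | h
  · rw [abs_of_neg h, ← kerF_pos m (by linarith : 0 < -y)]
    refine intervalIntegral.integral_congr fun x _ => ?_
    rw [ker_im_neg x y h]
  · rw [abs_of_pos h]
    exact kerF_pos m h

theorem ker_fourier_zero {y : ℝ} (hy : y ≠ 0) :
    ∫ x in (0 : ℝ)..1, ker (x + y * Complex.I) = 0 := by
  have h := kerF 0 hy
  simp only [Int.cast_zero, mul_zero, zero_mul, Complex.exp_zero, mul_one, abs_zero, div_zero,
    neg_zero, Complex.ofReal_zero] at h
  rw [intervalIntegral.integral_ofReal] at h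
  exact_mod_cast h

theorem ker_fourier {m : ℤ} (hm : m ≠ 0) {y : ℝ} (hy : y ≠ 0) :
    ∫ x in (0 : ℝ)..1, (ker (x + y * Complex.I) : ℂ) *
        Complex.exp (2 * Real.pi * Complex.I * m * x) =
      ((-(1 / (2 * |(m : ℝ)|)) * Real.exp (-(2 * Real.pi * |(m : ℝ)| * |y|)) : ℝ) : ℂ) :=
  kerF m hy

end Pool.Agent.Helper76.ES
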