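import Pool.Agent.Helper76.ES.Base

/-!
# The Green function of the second derivative minus a constant on the line
-/

open Filter Topology Set MeasureTheory Asymptotics
open scoped Manifold ContDiff

noncomputable section

namespace Pool.Agent.Helper76.ES

private theorem ode_bigO {A c K : ℝ} (hc : 0 < c) (d : ℕ) {g : ℝ → ℂ}
    (hg : ∀ t, 0 ≤ t → ‖g t‖ ≤ K * (A + t) ^ d) :
    (fun t : ℝ => (Real.exp (-(c * t)) : ℂ) * g t) =O[atTop] fun t => Real.exp (-(c / 2) * t) := by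
  have h1 : (fun x : ℝ => x ^ d) =o[atTop] fun x => Real.exp (c / 2 * x) :=
    isLittleO_pow_exp_pos_mul_atTop d (half_pos hc)
  have h2 : Tendsto (fun t : ℝ => A + t) atTop atTop := tendsto_atTop_add_const_left _ _ tendsto_id
  have h3 := (h1.comp_tendsto h2).isBigO
  have h4 : (fun t : ℝ => K * (A + t) ^ d) =O[atTop] fun t => Real.exp (c / 2 * t) := by
    refine (h3.const_mul_left K).trans ?_
    refine IsBigO.of_bound (Real.exp (c / 2 * A)) (Eventually.of_forall fun t => ?_)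
    simp only [Function.comp, Real.norm_eq_abs, abs_of_pos (Real.exp_pos _)]
    rw [← Real.exp_add]
    exact le_of_eq (by ring_nf)
  have h5 : g =O[atTop] fun t => Real.exp (c / 2 * t) := by
    refine IsBigO.trans (IsBigO.of_bound 1 ?_) h4
    filter_upwards [eventually_ge_atTop (0 : ℝ)] with t ht
    rw [one_mul]
    exact (hg t ht).trans (le_abs_self _)
  have h6 : (fun t : ℝ => (Real.exp (-(c * t)) : ℂ)) =O[atTop] fun t => Real.exp (-(c * t)) := by
    refine IsBigO.of_bound 1 (Eventually.of_forall fun t => ?_)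
    rw [Complex.norm_real, one_mul]
  refine (h6.mul h5).trans (IsBigO.of_bound 1 (Eventually.of_forall fun t => ?_))
  rw [one_mul, ← Real.exp_add]
  apply le_of_eq
  congr 2
  ring

private theorem ode_pos {c : ℝ} (hc : 0 < c) {φ φ' φ'' : ℝ → ℂ} (h1 : ∀ y, HasDerivAt φ (φ' y) y)
    (h2 : ∀ y, HasDerivAt φ' (φ'' y) y) (h3 : Continuous φ'') {M : ℝ} {d : ℕ}
    (b0 : ∀ y, ‖φ y‖ ≤ M * (1 + |y|) ^ d) (b1 : ∀ y, ‖φ' y‖ ≤ M * (1 + |y|) ^ d)
    (b2 : ∀ y, ‖φ'' y‖ ≤ M * (1 + |y|) ^ d) (y : ℝ) :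
    IntegrableOn (fun t : ℝ => (Real.exp (-(c * t)) : ℂ) * (φ'' (y + t) - c ^ 2 * φ (y + t)))
      (Ioi 0) ∧
    ∫ t in Ioi (0 : ℝ), (Real.exp (-(c * t)) : ℂ) * (φ'' (y + t) - c ^ 2 * φ (y + t)) =
      -(φ' y + c * φ y) := by
  have hM : 0 ≤ M := by
    have h := b0 0
    simp only [abs_zero, add_zero, one_pow, mul_one] at h
    exact (norm_nonneg _).trans h
  have hb : ∀ t : ℝ, 0 ≤ t → M * (1 + |y + t|) ^ d ≤ M * ((1 + |y|) + t) ^ d := by
    intro t ht
    apply mul_le_mul_of_nonneg_left _ hM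
    apply pow_le_pow_left₀ (by positivity)
    have := abs_add_le y t
    rw [abs_of_nonneg ht] at this
    linarith
  have hcφ : Continuous φ := continuous_iff_continuousAt.2 fun t => (h1 t).continuousAt
  have hcφ' : Continuous φ' := continuous_iff_continuousAt.2 fun t => (h2 t).continuousAt
  have hO1 := ode_bigO (A := 1 + |y|) (K := M + c ^ 2 * M) hc d
    (g := fun t => φ'' (y + t) - c ^ 2 * φ (y + t)) (by
      intro t ht
      refine (norm_sub_le _ _).trans ?_
      rw [norm_mul, norm_pow, Complex.norm_real, Real.norm_eq_abs, abs_of_pos hc, add_mul, mul_assoc]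
      exact add_le_add ((b2 _).trans (hb t ht))
        (mul_le_mul_of_nonneg_left ((b0 _).trans (hb t ht)) (by positivity)))
  have hO2 := ode_bigO (A := 1 + |y|) (K := M + c * M) hc d
    (g := fun t => φ' (y + t) + c * φ (y + t)) (by
      intro t ht
      refine (norm_add_le _ _).trans ?_
      rw [norm_mul, Complex.norm_real, Real.norm_eq_abs, abs_of_pos hc, add_mul, mul_assoc]
      exact add_le_add ((b1 _).trans (hb t ht))
        (mul_le_mul_of_nonneg_left ((b0 _).trans (hb t ht)) hc.le))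
  have hint : IntegrableOn
      (fun t : ℝ => (Real.exp (-(c * t)) : ℂ) * (φ'' (y + t) - c ^ 2 * φ (y + t))) (Ioi 0) := by
    have hcont : Continuous
        (fun t : ℝ => (Real.exp (-(c * t)) : ℂ) * (φ'' (y + t) - c ^ 2 * φ (y + t))) := by
      fun_prop
    exact (integrable_norm_iff hcont.aestronglyMeasurable).1
      (integrable_of_isBigO_exp_neg (half_pos hc) hcont.norm.continuousOn hO1.norm_left)
  refine ⟨hint, ?_⟩
  have hlim : Tendsto (fun t : ℝ => (Real.exp (-(c * t)) : ℂ) * (φ' (y + t) + c * φ (y + t))) atTop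
      (𝓝 0) := by
    refine hO2.trans_tendsto ?_
    have : Tendsto (fun t : ℝ => -(c / 2) * t) atTop atBot :=
      tendsto_id.const_mul_atTop_of_neg (by linarith [half_pos hc])
    exact Real.tendsto_exp_atBot.comp this
  have hder : ∀ t : ℝ, HasDerivAt
      (fun t : ℝ => (Real.exp (-(c * t)) : ℂ) * (φ' (y + t) + c * φ (y + t)))
      ((Real.exp (-(c * t)) : ℂ) * (φ'' (y + t) - c ^ 2 * φ (y + t))) t := by
    intro t
    have e1 : HasDerivAt (fun t : ℝ => Real.exp (-(c * t))) (Real.exp (-(c * t)) * -(c * 1)) t :=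
      ((hasDerivAt_id t).const_mul c).neg.exp
    have e2 := e1.ofReal_comp
    have e3 : HasDerivAt (fun t : ℝ => φ' (y + t)) (φ'' (y + t)) t := (h2 (y + t)).comp_const_add y t
    have e4 : HasDerivAt (fun t : ℝ => φ (y + t)) (φ' (y + t)) t := (h1 (y + t)).comp_const_add y t
    have e5 := e2.fun_mul (e3.fun_add (e4.const_mul (c : ℂ)))
    refine e5.congr_deriv ?_
    push_cast
    ring
  have key := integral_Ioi_of_hasDerivAt_of_tendsto (a := (0 : ℝ))
    (hder 0).continuousAt.continuousWithinAt (fun t _ => hder t) hint hlim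
  rw [key]
  simp

theorem ode_kernel {c : ℝ} (hc : 0 < c) {φ φ' φ'' : ℝ → ℂ} (h1 : ∀ y, HasDerivAt φ (φ' y) y)
    (h2 : ∀ y, HasDerivAt φ' (φ'' y) y) (h3 : Continuous φ'') {M : ℝ} {d : ℕ}
    (b0 : ∀ y, ‖φ y‖ ≤ M * (1 + |y|) ^ d) (b1 : ∀ y, ‖φ' y‖ ≤ M * (1 + |y|) ^ d)
    (b2 : ∀ y, ‖φ'' y‖ ≤ M * (1 + |y|) ^ d) (y : ℝ) :
    ∫ t : ℝ, (Real.exp (-(c * |t|)) : ℂ) * (φ'' (y + t) - c ^ 2 * φ (y + t)) = -(2 * c) * φ y := by
  obtain ⟨i1, e1⟩ := ode_pos hc h1 h2 h3 b0 b1 b2 y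
  have g1 : ∀ y, HasDerivAt (fun y => φ (-y)) (-φ' (-y)) y := fun y => by
    exact ((h1 (-y)).scomp y (hasDerivAt_neg y)).congr_deriv (by simp)
  have g2 : ∀ y, HasDerivAt (fun y => -φ' (-y)) (φ'' (-y)) y := fun y => by
    exact ((h2 (-y)).scomp y (hasDerivAt_neg y)).neg.congr_deriv (by simp)
  obtain ⟨i2, e2⟩ := ode_pos hc g1 g2 (h3.comp continuous_neg)
    (fun y => by simpa using b0 (-y)) (fun y => by simpa using b1 (-y))
    (fun y => by simpa using b2 (-y)) (-y)
  set f : ℝ → ℂ := fun t => (Real.exp (-(c * |t|)) : ℂ) * (φ'' (y + t) - c ^ 2 * φ (y + t)) with hf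
  have f1 : EqOn f (fun t : ℝ => (Real.exp (-(c * t)) : ℂ) * (φ'' (y + t) - c ^ 2 * φ (y + t)))
      (Ioi 0) := by
    intro t ht
    simp only [hf, abs_of_pos (mem_Ioi.1 ht)]
  have f2 : EqOn (fun t => f (-t)) (fun t : ℝ => (Real.exp (-(c * t)) : ℂ) *
      (φ'' (-(-y + t)) - c ^ 2 * φ (-(-y + t)))) (Ioi 0) := by
    intro t ht
    simp only [hf, abs_neg, abs_of_pos (mem_Ioi.1 ht), neg_add, neg_neg]
  have j1 : IntegrableOn f (Ioi 0) := (integrableOn_congr_fun f1 measurableSet_Ioi).2 i1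
  have j2' : IntegrableOn (fun t => f (-t)) (Ioi 0) :=
    (integrableOn_congr_fun f2 measurableSet_Ioi).2 i2
  have j2 : IntegrableOn f (Iic 0) := by
    have h := (integrableOn_Ici_iff_integrableOn_Ioi (μ := volume)).2 j2'
    have h' := (MeasurePreserving.integrableOn_comp_preimage
      (Measure.measurePreserving_neg (volume : Measure ℝ))
      (Homeomorph.neg ℝ).measurableEmbedding (f := f) (s := Iic 0)).1
    apply h'
    have hs : (fun x : ℝ => -x) ⁻¹' Iic 0 = Ici 0 := by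
      ext x; simp
    have : (Neg.neg : ℝ → ℝ) ⁻¹' Iic 0 = Ici 0 := hs
    rw [this]
    exact h
  have k1 : ∫ t in Ioi (0 : ℝ), f t = -(φ' y + c * φ y) := by
    rw [setIntegral_congr_fun measurableSet_Ioi f1, e1]
  have k2 : ∫ t in Iic (0 : ℝ), f t = φ' y - c * φ y := by
    have h := integral_comp_neg_Ioi (0 : ℝ) f
    rw [neg_zero] at h
    rw [← h, setIntegral_congr_fun measurableSet_Ioi f2, e2]
    simp only [neg_neg]
    ring
  rw [← intervalIntegral.integral_Iic_add_Ioi j2 j1, k1, k2]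
  ring

end Pool.Agent.Helper76.ES
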