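import Pool.Agent.Helper76.ES.Ker
import Pool.Agent.Helper76.ES.KerF
import Pool.Agent.Helper76.ES.Ode

/-!
# The kernel inverts the Laplacian (module KERL, helper37)
-/

open Filter Topology Set MeasureTheory
open scoped Manifold ContDiff

noncomputable section

namespace Pool.Agent.Helper76.ES

namespace KerL

/-- the exponential `e(-m x)` -/
def eim (m : ℤ) (x : ℝ) : ℂ := Complex.exp (-(2 * Real.pi * Complex.I * m * x))

lemma eim_cont (m : ℤ) : Continuous (eim m) := by unfold eim; fun_prop

lemma eim_norm (m : ℤ) (x : ℝ) : ‖eim m x‖ = 1 := by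
  unfold eim
  rw [Complex.norm_exp]
  simp

lemma eim_add (m : ℤ) (x y : ℝ) : eim m (x + y) = eim m x * eim m y := by
  unfold eim
  rw [← Complex.exp_add]
  congr 1
  push_cast
  ring

lemma eim_int (m k : ℤ) : eim m k = 1 := by
  unfold eim
  rw [Complex.exp_eq_one_iff]
  exact ⟨-(m * k), by push_cast; ring⟩

lemma eim_one (m : ℤ) : eim m 1 = 1 := by
  have := eim_int m 1
  simpa using this

lemma eim_add_one (m : ℤ) (x : ℝ) : eim m (x + 1) = eim m x := by
  rw [eim_add, eim_one, mul_one]

lemma eim_zero (m : ℤ) : eim m 0 = 1 := by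
  have := eim_int m 0
  simpa using this

/-- a continuous periodic function with all Fourier coefficients zero is zero -/
lemma eq_zero_of_coeff {g : ℝ → ℂ} (hg : Continuous g) (hp : ∀ x, g (x + 1) = g x)
    (h : ∀ m : ℤ, ∫ x in (0 : ℝ)..1, g x * eim m x = 0) (x : ℝ) : g x = 0 := by
  have hp' : Function.Periodic g 1 := hp
  have : Fact ((0 : ℝ) < 1) := ⟨one_pos⟩
  set F : C(AddCircle (1 : ℝ), ℂ) := ⟨hp'.lift, by
    refine (QuotientAddGroup.isQuotientMap_mk _).continuous_iff.mpr ?_
    exact hg⟩ with hF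
  have hc : ∀ n : ℤ, fourierCoeff F n = 0 := by
    intro n
    rw [fourierCoeff_eq_intervalIntegral F n 0]
    have h1 : ∀ y : ℝ, (fourier (-n) (y : AddCircle (1 : ℝ))) • F (y : AddCircle (1 : ℝ)) =
        g y * eim n y := by
      intro y
      rw [fourier_coe_apply, smul_eq_mul, mul_comm]
      congr 1
      unfold eim
      congr 1
      push_cast
      ring
    simp only [h1, zero_add, h n, smul_zero]
  have hs := has_pointwise_sum_fourier_series_of_summable (f := F) (by
    have : fourierCoeff F = fun _ => 0 := funext hc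
    rw [this]
    exact summable_zero) (x : AddCircle (1 : ℝ))
  simp only [hc, zero_smul] at hs
  exact (hs.unique hasSum_zero)

lemma coeff_shift {q : ℝ → ℂ} (hp : ∀ x, q (x + 1) = q x) (m : ℤ) (u : ℝ) :
    ∫ x in (0 : ℝ)..1, q (x + u) * eim m x = eim m (-u) * ∫ x in (0 : ℝ)..1, q x * eim m x := by
  have h1 : ∀ x, q (x + u) * eim m x = eim m (-u) * (q (x + u) * eim m (x + u)) := by
    intro x
    have : eim m x = eim m (-u) * eim m (x + u) := by
      rw [← eim_add]; congr 1; ring
    rw [this]; ring
  simp only [h1, intervalIntegral.integral_const_mul]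
  congr 1
  rw [intervalIntegral.integral_comp_add_right (fun x => q x * eim m x)]
  have hper : Function.Periodic (fun x => q x * eim m x) 1 := fun x => by
    simp only [hp, eim_add_one]
  have := hper.intervalIntegral_add_eq u 0
  rw [show (0 : ℝ) + u = u by ring, show (1 : ℝ) + u = u + 1 by ring, this, zero_add]

lemma coeff_deriv {q q' : ℝ → ℂ} (hd : ∀ x, HasDerivAt q (q' x) x) (hc : Continuous q')
    (hp : ∀ x, q (x + 1) = q x) (m : ℤ) :
    ∫ x in (0 : ℝ)..1, q' x * eim m x =
      2 * Real.pi * Complex.I * m * ∫ x in (0 : ℝ)..1, q x * eim m x := by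
  have hq : Continuous q := continuous_iff_continuousAt.2 fun x => (hd x).continuousAt
  have hem : ∀ x, HasDerivAt (eim m) (-(2 * Real.pi * Complex.I * m) * eim m x) x := by
    intro x
    unfold eim
    have h1 : HasDerivAt (fun x : ℝ => -(2 * Real.pi * Complex.I * m * (x : ℂ)))
        (-(2 * Real.pi * Complex.I * m * 1)) x :=
      ((Complex.ofRealCLM.hasDerivAt (x := x)).const_mul _).neg
    have h2 := h1.cexp
    refine h2.congr_deriv ?_
    ring
  have h1 : ∀ x ∈ uIcc (0 : ℝ) 1, HasDerivAt (fun x => q x * eim m x)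
      (q' x * eim m x + q x * (-(2 * Real.pi * Complex.I * m) * eim m x)) x := fun x _ =>
    (hd x).mul (hem x)
  have h2 := intervalIntegral.integral_eq_sub_of_hasDerivAt h1 (by
    apply Continuous.intervalIntegrable
    have := eim_cont m
    fun_prop)
  have h3 : q 1 * eim m 1 - q 0 * eim m 0 = 0 := by
    have := hp 0
    rw [zero_add] at this
    rw [this, eim_one, eim_zero]; ring
  rw [h3, intervalIntegral.integral_add] at h2
  · have h4 : ∫ x in (0 : ℝ)..1, q x * (-(2 * Real.pi * Complex.I * m) * eim m x) =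
        -(2 * Real.pi * Complex.I * m) * ∫ x in (0 : ℝ)..1, q x * eim m x := by
      rw [← intervalIntegral.integral_const_mul]
      congr 1
      funext x
      ring
    rw [h4] at h2
    linear_combination h2
  · apply Continuous.intervalIntegrable
    have := eim_cont m
    fun_prop
  · apply Continuous.intervalIntegrable
    have := eim_cont m
    fun_prop

/-- the Fourier coefficient on a horizontal line -/
def cf (F : ℂ → ℝ) (z : ℂ) (m : ℤ) (t : ℝ) : ℂ :=
  ∫ x in (0 : ℝ)..1, (F (z + x + t * Complex.I) : ℂ) * eim m x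

lemma cf_cont {F : ℂ → ℝ} (hF : Continuous F) (z : ℂ) (m : ℤ) : Continuous (cf F z m) := by
  unfold cf
  apply intervalIntegral.continuous_parametric_intervalIntegral_of_continuous'
  have := eim_cont m
  fun_prop

lemma growth_aux {F : ℂ → ℝ} {M : ℝ} {d : ℕ} (hM : ∀ w : ℂ, |F w| ≤ M * (1 + |w.im|) ^ d)
    (z : ℂ) (x t : ℝ) :
    |F (z + x + t * Complex.I)| ≤ M * (1 + |z.im|) ^ d * (1 + |t|) ^ d := by
  have hM0 : 0 ≤ M := by
    have := hM 0
    simp only [Complex.zero_im, abs_zero, add_zero, one_pow, mul_one] at this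
    exact (abs_nonneg _).trans this
  refine (hM _).trans ?_
  rw [mul_assoc, ← mul_pow]
  refine mul_le_mul_of_nonneg_left (pow_le_pow_left₀ (by positivity) ?_ d) hM0
  have h1 : (z + x + t * Complex.I).im = z.im + t := by simp
  rw [h1]
  have := abs_add_le z.im t
  nlinarith [mul_nonneg (abs_nonneg z.im) (abs_nonneg t)]

lemma cf_bound {F : ℂ → ℝ} {M : ℝ} {d : ℕ}
    (hM : ∀ w : ℂ, |F w| ≤ M * (1 + |w.im|) ^ d) (z : ℂ) (m : ℤ) (t : ℝ) :
    ‖cf F z m t‖ ≤ M * (1 + |z.im|) ^ d * (1 + |t|) ^ d := by
  unfold cf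
  have := intervalIntegral.norm_integral_le_of_norm_le_const (a := (0 : ℝ)) (b := 1)
    (f := fun x : ℝ => (F (z + x + t * Complex.I) : ℂ) * eim m x)
    (C := M * (1 + |z.im|) ^ d * (1 + |t|) ^ d) (fun x _ => by
      rw [norm_mul, eim_norm, mul_one, Complex.norm_real, Real.norm_eq_abs]
      exact growth_aux hM z x t)
  simpa using this

lemma cf_hasDerivAt {F : ℂ → ℝ} (hF : ContDiff ℝ 1 F) (z : ℂ) (m : ℤ) (t : ℝ) :
    HasDerivAt (cf F z m) (cf (dv Complex.I F) z m t) t := by
  have hd : ∀ (x t : ℝ), HasDerivAt (fun t : ℝ => (F (z + x + t * Complex.I) : ℂ) * eim m x)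
      ((dv Complex.I F (z + x + t * Complex.I) : ℂ) * eim m x) t := by
    intro x t
    have h1 : HasDerivAt (fun t : ℝ => z + x + t * Complex.I) (1 * Complex.I) t :=
      ((Complex.ofRealCLM.hasDerivAt (x := t)).mul_const Complex.I).const_add (z + x)
    have h2 := (hF.differentiable one_ne_zero (z + x + t * Complex.I)).hasFDerivAt.comp_hasDerivAt t h1
    rw [one_mul] at h2
    exact (h2.ofReal_comp).mul_const (eim m x)
  have hdc : Continuous (dv Complex.I F) := by
    unfold dv
    exact (hF.continuous_fderiv one_ne_zero).clm_apply continuous_const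
  have hcont : Continuous fun p : ℝ × ℝ => (dv Complex.I F (z + p.2 + p.1 * Complex.I) : ℂ) *
      eim m p.2 := by
    have := eim_cont m
    fun_prop
  obtain ⟨C, hC⟩ := ((isCompact_Icc (a := t - 1) (b := t + 1)).prod
    (isCompact_Icc (a := (0 : ℝ)) (b := 1))).exists_bound_of_continuousOn hcont.continuousOn
  refine (intervalIntegral.hasDerivAt_integral_of_dominated_loc_of_deriv_le (μ := volume)
    (F := fun (t : ℝ) (x : ℝ) => (F (z + x + t * Complex.I) : ℂ) * eim m x)
    (F' := fun (t : ℝ) (x : ℝ) => (dv Complex.I F (z + x + t * Complex.I) : ℂ) * eim m x)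
    (s := Icc (t - 1) (t + 1)) (bound := fun _ => C) (Icc_mem_nhds (by linarith) (by linarith))
    ?_ ?_ ?_ ?_ ?_ ?_).2
  · refine Eventually.of_forall fun t' => Continuous.aestronglyMeasurable ?_
    have := eim_cont m
    have := hF.continuous
    fun_prop
  · apply Continuous.intervalIntegrable
    have := eim_cont m
    have := hF.continuous
    fun_prop
  · refine Continuous.aestronglyMeasurable ?_
    have := eim_cont m
    fun_prop
  · refine Eventually.of_forall fun x hx t' ht' => ?_
    rw [uIoc_of_le zero_le_one] at hx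
    exact hC (t', x) ⟨ht', hx.1.le, hx.2⟩
  · simp
  · exact Eventually.of_forall fun x _ t' _ => hd x t'

lemma cf_dv_one {F : ℂ → ℝ} (hF : ContDiff ℝ 1 F) (hper : ∀ w, F (w + 1) = F w) (z : ℂ) (m : ℤ)
    (t : ℝ) : cf (dv 1 F) z m t = 2 * Real.pi * Complex.I * m * cf F z m t := by
  unfold cf
  refine coeff_deriv (q := fun x : ℝ => (F (z + x + t * Complex.I) : ℂ))
    (q' := fun x : ℝ => (dv 1 F (z + x + t * Complex.I) : ℂ)) (fun x => ?_) ?_ (fun x => ?_) m
  · have h1 : HasDerivAt (fun x : ℝ => z + x + t * Complex.I) 1 x :=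
      (((Complex.ofRealCLM.hasDerivAt (x := x))).const_add z).add_const _
    have h2 := (hF.differentiable one_ne_zero (z + x + t * Complex.I)).hasFDerivAt.comp_hasDerivAt x h1
    exact h2.ofReal_comp
  · have : Continuous (dv 1 F) := by
      unfold dv
      exact (hF.continuous_fderiv one_ne_zero).clm_apply continuous_const
    fun_prop
  · have : z + ((x + 1 : ℝ) : ℂ) + t * Complex.I = z + x + t * Complex.I + 1 := by
      push_cast; ring
    simp only [this, hper]

lemma dv_contDiff {f : ℂ → ℝ} (hf : ContDiff ℝ 2 f) (v : ℂ) : ContDiff ℝ 1 (dv v f) := by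
  unfold dv
  exact (hf.fderiv_right (m := 1) (by norm_num)).clm_apply contDiff_const

lemma dv_per {f : ℂ → ℝ} (hper : ∀ w, f (w + 1) = f w) (v : ℂ) (w : ℂ) :
    dv v f (w + 1) = dv v f w := by
  unfold dv
  have h1 : (fun w => f (w + 1)) = f := funext hper
  have h2 := fderiv_comp_add_right (𝕜 := ℝ) (f := f) (x := w) 1
  rw [h1] at h2
  rw [← h2]

lemma lap_eq {f : ℂ → ℝ} (hf : ContDiff ℝ 2 f) (w : ℂ) :
    Laplacian.laplacian f w = dv 1 (dv 1 f) w + dv Complex.I (dv Complex.I f) w := by
  have h : ∀ v : ℂ, dv v (dv v f) w = iteratedFDeriv ℝ 2 f w ![v, v] := by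
    intro v
    rw [iteratedFDeriv_two_apply]
    unfold dv
    have h1 : DifferentiableAt ℝ (fderiv ℝ f) w :=
      (hf.fderiv_right (m := 1) (by norm_num)).differentiable one_ne_zero w
    rw [fderiv_clm_apply h1 (differentiableAt_const v)]
    simp
  rw [h, h, InnerProductSpace.laplacian_eq_iteratedFDeriv_complexPlane]

lemma cf_lap {f : ℂ → ℝ} (hf : ContDiff ℝ 2 f) (hper : ∀ w, f (w + 1) = f w) (z : ℂ) (m : ℤ)
    (t : ℝ) : cf (Laplacian.laplacian f) z m t =
      cf (dv Complex.I (dv Complex.I f)) z m t - (2 * Real.pi * |(m : ℝ)|) ^ 2 * cf f z m t := by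
  have h1 : cf (Laplacian.laplacian f) z m t =
      cf (dv 1 (dv 1 f)) z m t + cf (dv Complex.I (dv Complex.I f)) z m t := by
    unfold cf
    rw [← intervalIntegral.integral_add]
    · congr 1
      funext x
      rw [lap_eq hf]
      push_cast
      ring
    · apply Continuous.intervalIntegrable
      have := eim_cont m
      have : Continuous (dv 1 (dv 1 f)) := by
        have := (dv_contDiff hf 1).continuous_fderiv one_ne_zero
        unfold dv at this ⊢
        exact this.clm_apply continuous_const
      fun_prop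
    · apply Continuous.intervalIntegrable
      have := eim_cont m
      have : Continuous (dv Complex.I (dv Complex.I f)) := by
        have := (dv_contDiff hf Complex.I).continuous_fderiv one_ne_zero
        unfold dv at this ⊢
        exact this.clm_apply continuous_const
      fun_prop
  rw [h1, cf_dv_one (dv_contDiff hf 1) (dv_per hper 1), cf_dv_one (hf.of_le (by norm_num)) hper]
  have h2 : ((|(m : ℝ)| : ℝ) : ℂ) ^ 2 = (m : ℂ) ^ 2 := by
    rw [← Complex.ofReal_pow, sq_abs]; push_cast; ring
  have h3 := Complex.I_sq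
  linear_combination (4 * (Real.pi : ℂ) ^ 2 * m ^ 2 * cf f z m t) * h3 +
    4 * (Real.pi : ℂ) ^ 2 * cf f z m t * h2

lemma lap_cont {f : ℂ → ℝ} (hf : ContDiff ℝ 2 f) : Continuous (Laplacian.laplacian f) := by
  have h : ∀ v : ℂ, Continuous (dv v (dv v f)) := by
    intro v
    have := (dv_contDiff hf v).continuous_fderiv one_ne_zero
    unfold dv at this ⊢
    exact this.clm_apply continuous_const
  have h2 : Laplacian.laplacian f = fun w => dv 1 (dv 1 f) w + dv Complex.I (dv Complex.I f) w :=
    funext (lap_eq hf)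
  rw [h2]
  exact (h 1).add (h Complex.I)

lemma restrict_strip : (volume : Measure (ℝ × ℝ)).restrict strip =
    ((volume : Measure ℝ).restrict (Ico 0 1)).prod volume := by
  rw [strip, Measure.volume_eq_prod, ← Measure.prod_restrict, Measure.restrict_univ]

lemma ker_int_bound (C : ℝ) (d : ℕ) : Integrable (fun a : ℝ × ℝ => |ker (pt a)| * (C * (1 + |a.2|) ^ d))
    (volume.restrict strip) := by
  have h1 := (ker_integrable d).norm.const_mul C
  refine h1.congr (Eventually.of_forall fun a => ?_)
  simp only [norm_mul, Real.norm_eq_abs]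
  rw [abs_of_nonneg (by positivity : (0 : ℝ) ≤ (1 + |(pt a).im|) ^ d)]
  have : (pt a).im = a.2 := by simp [pt]
  rw [this]; ring

lemma pt_meas : Measurable fun a : ℝ × ℝ => (ker (pt a) : ℂ) :=
  Complex.measurable_ofReal.comp ker_measurable

/-- the coefficients of the kernel -/
lemma khat (m : ℤ) {v : ℝ} : ∫ u in Ico (0 : ℝ) 1, (ker (u + v * Complex.I) : ℂ) * eim m (-u) =
    ∫ x in (0 : ℝ)..1, (ker (x + v * Complex.I) : ℂ) *
        Complex.exp (2 * Real.pi * Complex.I * m * x) := by
  rw [intervalIntegral.integral_of_le zero_le_one, integral_Ico_eq_integral_Ioc]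
  congr 1
  funext u
  congr 1
  unfold eim
  congr 1
  push_cast
  ring

/-- the Fourier coefficients of the convolution -/
lemma W_coeff {D : ℂ → ℝ} (hD : Continuous D) (hper : ∀ w, D (w + 1) = D w) {C : ℝ} {d : ℕ}
    (hb : ∀ w : ℂ, |D w| ≤ C * (1 + |w.im|) ^ d) (z : ℂ) (m : ℤ) :
    ∫ x in (0 : ℝ)..1, ((∫ a in strip, ker (pt a) * D (z + x + pt a) : ℝ) : ℂ) * eim m x =
      ∫ v : ℝ, (∫ u in Ico (0 : ℝ) 1, (ker (u + v * Complex.I) : ℂ) * eim m (-u)) *
        cf D z m v := by
  have hem := eim_cont m
  have hpt : Continuous pt := by unfold pt; fun_prop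
  have e1 : ∀ (x : ℝ) (a : ℝ × ℝ), z + x + pt a = z + (x + a.1 : ℝ) + a.2 * Complex.I := by
    intro x a
    unfold pt
    push_cast
    ring
  set C' := C * (1 + |z.im|) ^ d with hC'
  have hb' : ∀ (x : ℝ) (a : ℝ × ℝ), |D (z + x + pt a)| ≤ C' * (1 + |a.2|) ^ d := by
    intro x a
    rw [e1]
    exact growth_aux hb z _ _
  -- Fubini
  have hint : Integrable (Function.uncurry fun (x : ℝ) (a : ℝ × ℝ) =>
      (ker (pt a) : ℂ) * (D (z + x + pt a) : ℂ) * eim m x)
      (((volume : Measure ℝ).restrict (Ioc 0 1)).prod (volume.restrict strip)) := by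
    have hB : Integrable (fun p : ℝ × (ℝ × ℝ) => |ker (pt p.2)| * (C' * (1 + |p.2.2|) ^ d))
        (((volume : Measure ℝ).restrict (Ioc 0 1)).prod (volume.restrict strip)) :=
      (ker_int_bound C' d).comp_snd _
    refine hB.mono' ?_ (Eventually.of_forall fun p => ?_)
    · refine ((pt_meas.comp measurable_snd).aestronglyMeasurable.mul
        (Continuous.aestronglyMeasurable ?_)).mul (Continuous.aestronglyMeasurable ?_)
      · fun_prop
      · fun_prop
    · simp only [Function.uncurry, norm_mul, eim_norm, mul_one, Complex.norm_real, Real.norm_eq_abs]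
      exact mul_le_mul_of_nonneg_left (hb' _ _) (abs_nonneg _)
  have h1 : ∫ x in (0 : ℝ)..1, ((∫ a in strip, ker (pt a) * D (z + x + pt a) : ℝ) : ℂ) * eim m x =
      ∫ a in strip, ∫ x in Ioc (0 : ℝ) 1, (ker (pt a) : ℂ) * (D (z + x + pt a) : ℂ) * eim m x := by
    rw [← integral_integral_swap hint, intervalIntegral.integral_of_le zero_le_one]
    refine integral_congr_ae (Eventually.of_forall fun x => ?_)
    simp only
    rw [← integral_complex_ofReal, ← integral_mul_const]
    refine integral_congr_ae (Eventually.of_forall fun a => ?_)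
    simp only
    push_cast
    ring
  have h2 : ∀ a : ℝ × ℝ, ∫ x in Ioc (0 : ℝ) 1, (ker (pt a) : ℂ) * (D (z + x + pt a) : ℂ) * eim m x =
      (ker (pt a) : ℂ) * eim m (-a.1) * cf D z m a.2 := by
    intro a
    rw [← intervalIntegral.integral_of_le zero_le_one]
    have h3 := coeff_shift (q := fun x : ℝ => (D (z + x + a.2 * Complex.I) : ℂ)) (fun x => by
      have : z + ((x + 1 : ℝ) : ℂ) + a.2 * Complex.I = z + x + a.2 * Complex.I + 1 := by
        push_cast; ring
      simp only [this, hper]) m a.1
    simp only [e1, mul_assoc]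
    rw [intervalIntegral.integral_const_mul]
    congr 1
  rw [h1, integral_congr_ae (Eventually.of_forall h2)]
  -- Fubini on the strip
  have hcf := cf_cont hD z m
  have hint2 : Integrable (fun a : ℝ × ℝ => (ker (pt a) : ℂ) * eim m (-a.1) * cf D z m a.2)
      (((volume : Measure ℝ).restrict (Ico 0 1)).prod volume) := by
    rw [← restrict_strip]
    refine (ker_int_bound C' d).mono' ?_ (Eventually.of_forall fun a => ?_)
    · refine (pt_meas.aestronglyMeasurable.mul
        (Continuous.aestronglyMeasurable ?_)).mul (Continuous.aestronglyMeasurable ?_)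
      · fun_prop
      · fun_prop
    · simp only [norm_mul, eim_norm, mul_one, Complex.norm_real, Real.norm_eq_abs]
      exact mul_le_mul_of_nonneg_left (cf_bound hb z m a.2) (abs_nonneg _)
  rw [restrict_strip, integral_prod_symm _ hint2]
  refine integral_congr_ae (Eventually.of_forall fun v => ?_)
  simp only
  rw [integral_mul_const]
  rfl

lemma W_cont {D : ℂ → ℝ} (hD : Continuous D) {C : ℝ} {d : ℕ}
    (hb : ∀ w : ℂ, |D w| ≤ C * (1 + |w.im|) ^ d) (z : ℂ) :
    Continuous fun x : ℝ => ∫ a in strip, ker (pt a) * D (z + x + pt a) := by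
  have hpt : Continuous pt := by unfold pt; fun_prop
  have e1 : ∀ (x : ℝ) (a : ℝ × ℝ), z + x + pt a = z + (x + a.1 : ℝ) + a.2 * Complex.I := by
    intro x a
    unfold pt
    push_cast
    ring
  refine continuous_of_dominated (bound := fun a => |ker (pt a)| * (C * (1 + |z.im|) ^ d *
    (1 + |a.2|) ^ d)) (fun x => ?_) (fun x => Eventually.of_forall fun a => ?_)
    (ker_int_bound _ d) (Eventually.of_forall fun a => ?_)
  · refine ker_measurable.aestronglyMeasurable.mul (Continuous.aestronglyMeasurable ?_)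
    fun_prop
  · rw [norm_mul, Real.norm_eq_abs, Real.norm_eq_abs, e1]
    exact mul_le_mul_of_nonneg_left (growth_aux hb z _ _) (abs_nonneg _)
  · fun_prop

end KerL

open KerL in
theorem kerL {f : ℂ → ℝ} (hf : ContDiff ℝ 2 f) (hper : ∀ z, f (z + 1) = f z) {M : ℝ} {d : ℕ}
    (b0 : ∀ z : ℂ, |f z| ≤ M * (1 + |z.im|) ^ d)
    (b1 : ∀ z : ℂ, ∀ v : ℂ, ‖v‖ ≤ 1 → |dv v f z| ≤ M * (1 + |z.im|) ^ d)
    (b2 : ∀ z : ℂ, ∀ v : ℂ, ‖v‖ ≤ 1 → |dv v (dv v f) z| ≤ M * (1 + |z.im|) ^ d) (z : ℂ) :
    ∫ a in strip, ker (pt a) * Laplacian.laplacian f (z + pt a) =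
      2 * Real.pi * (f z - ∫ s in (0 : ℝ)..1, f (z + s)) := by
  set D := Laplacian.laplacian f with hDdef
  have hD : Continuous D := lap_cont hf
  have hDper : ∀ w, D (w + 1) = D w := by
    intro w
    rw [hDdef, lap_eq hf, lap_eq hf, dv_per (dv_per hper 1) 1,
      dv_per (dv_per hper Complex.I) Complex.I]
  have hDb : ∀ w : ℂ, |D w| ≤ 2 * M * (1 + |w.im|) ^ d := by
    intro w
    rw [hDdef, lap_eq hf]
    have e1 := b2 w 1 (by simp)
    have e2 := b2 w Complex.I (by simp)
    have := abs_add_le (dv 1 (dv 1 f) w) (dv Complex.I (dv Complex.I f) w)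
    linarith
  set A : ℝ := ∫ s in (0 : ℝ)..1, f (z + s) with hA
  set W : ℝ → ℝ := fun x => ∫ a in strip, ker (pt a) * D (z + x + pt a) with hW
  have hWc : Continuous W := W_cont hD hDb z
  have hcf0 : cf f z 0 0 = A := by
    unfold cf
    have : ∀ x : ℝ, eim 0 x = 1 := fun x => by unfold eim; simp
    simp only [this, mul_one, Complex.ofReal_zero, zero_mul, add_zero]
    rw [hA]
    exact intervalIntegral.integral_ofReal
  have hem0 : ∀ m : ℤ, m ≠ 0 → ∫ x in (0 : ℝ)..1, eim m x = 0 := by
    intro m hm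
    have h1 := coeff_deriv (q := fun _ => (1 : ℂ)) (q' := fun _ => 0)
      (fun x => hasDerivAt_const x 1) continuous_const (fun _ => rfl) m
    simp only [zero_mul, intervalIntegral.integral_zero, one_mul] at h1
    have h2 : (2 * Real.pi * Complex.I * m : ℂ) ≠ 0 := by
      have h3 : (Real.pi : ℂ) ≠ 0 := by exact_mod_cast Real.pi_ne_zero
      have h4 : (m : ℂ) ≠ 0 := by exact_mod_cast hm
      exact mul_ne_zero (mul_ne_zero (mul_ne_zero two_ne_zero h3) Complex.I_ne_zero) h4
    exact (mul_eq_zero.mp h1.symm).resolve_left h2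
  have hWm : ∀ m : ℤ, ∫ x in (0 : ℝ)..1, (W x : ℂ) * eim m x =
      if m = 0 then 0 else 2 * Real.pi * cf f z m 0 := by
    intro m
    have h1 := W_coeff hD hDper hDb z m
    change ∫ x in (0 : ℝ)..1, (W x : ℂ) * eim m x = _ at h1
    rw [h1]
    simp only [khat]
    have hae : ∀ᵐ v : ℝ, v ≠ 0 := by
      have : (volume : Measure ℝ) {v : ℝ | ¬ v ≠ 0} = 0 := by simp
      exact this
    split_ifs with hm
    · subst hm
      rw [integral_congr_ae (g := fun _ => (0 : ℂ))]
      · simp
      · filter_upwards [hae] with v hv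
        have h2 := ker_fourier_zero hv
        have h3 : ∫ x in (0 : ℝ)..1, (ker (x + v * Complex.I) : ℂ) *
            Complex.exp (2 * Real.pi * Complex.I * ((0 : ℤ) : ℂ) * x) = 0 := by
          have : ∀ x : ℝ, (ker (x + v * Complex.I) : ℂ) *
            Complex.exp (2 * Real.pi * Complex.I * ((0 : ℤ) : ℂ) * x) =
              ((ker (x + v * Complex.I) : ℝ) : ℂ) := fun x => by simp
          simp only [this]
          rw [intervalIntegral.integral_ofReal, h2, Complex.ofReal_zero]
        rw [h3, zero_mul]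
    · have hm0 : (0 : ℝ) < |(m : ℝ)| := abs_pos.mpr (by exact_mod_cast hm)
      have hc : (0 : ℝ) < 2 * Real.pi * |(m : ℝ)| := by positivity
      have hode := ode_kernel hc (φ := cf f z m) (φ' := cf (dv Complex.I f) z m)
        (φ'' := cf (dv Complex.I (dv Complex.I f)) z m)
        (fun y => cf_hasDerivAt (hf.of_le (by norm_num)) z m y)
        (fun y => cf_hasDerivAt (dv_contDiff hf Complex.I) z m y)
        (cf_cont (by
          have := (dv_contDiff hf Complex.I).continuous_fderiv one_ne_zero
          unfold dv at this ⊢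
          exact this.clm_apply continuous_const) z m)
        (M := M * (1 + |z.im|) ^ d) (d := d)
        (fun y => cf_bound b0 z m y)
        (fun y => cf_bound (fun w => b1 w Complex.I (by simp)) z m y)
        (fun y => cf_bound (fun w => b2 w Complex.I (by simp)) z m y) 0
      rw [integral_congr_ae (g := fun v : ℝ => (-(1 / (2 * |(m : ℝ)|)) : ℂ) *
        ((Real.exp (-(2 * Real.pi * |(m : ℝ)| * |v|)) : ℂ) *
          (cf (dv Complex.I (dv Complex.I f)) z m (0 + v) -
            ((2 * Real.pi * |(m : ℝ)| : ℝ) : ℂ) ^ 2 * cf f z m (0 + v))))]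
      · rw [integral_const_mul, hode]
        have : ((|(m : ℝ)| : ℝ) : ℂ) ≠ 0 := by exact_mod_cast hm0.ne'
        push_cast
        field_simp
      · filter_upwards [hae] with v hv
        rw [ker_fourier hm hv, cf_lap hf hper, zero_add]
        push_cast
        ring
  -- conclusion
  have key := eq_zero_of_coeff (g := fun x : ℝ => ((W x - 2 * Real.pi * (f (z + x) - A) : ℝ) : ℂ))
    (by
      have := hf.continuous
      fun_prop)
    (fun x => by
      have e1 : z + ((x + 1 : ℝ) : ℂ) = z + x + 1 := by push_cast; ring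
      have e2 : W (x + 1) = W x := by
        simp only [hW]
        congr 1
        funext a
        have : z + ((x + 1 : ℝ) : ℂ) + pt a = z + x + pt a + 1 := by push_cast; ring
        rw [this, hDper]
      simp only [e1, e2, hper])
    (fun m => by
      have e1 : ∀ x : ℝ, ((W x - 2 * Real.pi * (f (z + x) - A) : ℝ) : ℂ) * eim m x =
          (W x : ℂ) * eim m x - (2 * Real.pi * ((f (z + x) : ℂ) * eim m x) -
            2 * Real.pi * A * eim m x) := by
        intro x
        push_cast
        ring
      have hem := eim_cont m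
      have hfc := hf.continuous
      simp only [e1]
      rw [intervalIntegral.integral_sub, intervalIntegral.integral_sub,
        intervalIntegral.integral_const_mul, intervalIntegral.integral_const_mul, hWm]
      · have e2 : ∫ x in (0 : ℝ)..1, (f (z + x) : ℂ) * eim m x = cf f z m 0 := by
          unfold cf
          simp
        rw [e2]
        split_ifs with hm
        · subst hm
          rw [hcf0]
          have : ∀ x : ℝ, eim 0 x = 1 := fun x => by unfold eim; simp
          simp [this]
        · rw [hem0 m hm]; simp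
      · exact Continuous.intervalIntegrable (by fun_prop) _ _
      · exact Continuous.intervalIntegrable (by fun_prop) _ _
      · exact Continuous.intervalIntegrable (by fun_prop) _ _
      · exact Continuous.intervalIntegrable (by fun_prop) _ _)
    0
  have key2 : W 0 - 2 * Real.pi * (f z - A) = 0 := by
    have := key
    simp only [Complex.ofReal_zero, add_zero] at this
    exact_mod_cast this
  have key3 : W 0 = ∫ a in strip, ker (pt a) * D (z + pt a) := by
    simp only [hW, Complex.ofReal_zero, add_zero]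
  rw [← key3]
  linarith

end Pool.Agent.Helper76.ES
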