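import Pool.Agent.Helper76.ES.Base

/-!
# The Levi form: chain rule, linearity, pluriharmonic functions
-/

open Filter Topology Set MeasureTheory
open scoped Manifold ContDiff

noncomputable section

namespace Pool.Agent.Helper76.ES

namespace Levi

section
variable {G : Type} [NormedAddCommGroup G] [NormedSpace ℝ G]
  {E : Type} [NormedAddCommGroup E] [NormedSpace ℝ E]
  {H : Type} [NormedAddCommGroup H] [NormedSpace ℝ H]

theorem diff_fderiv {u : E → H} {p : E} (hu : ContDiffAt ℝ 2 u p) :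
    DifferentiableAt ℝ (fderiv ℝ u) p :=
  (hu.fderiv_right (m := 1) (by norm_num)).differentiableAt (by norm_num)

theorem ev_diff {u : E → H} {p : E} (hu : ContDiffAt ℝ 2 u p) :
    ∀ᶠ q in 𝓝 p, DifferentiableAt ℝ u q := by
  filter_upwards [hu.eventually (by simp)] with q hq
  exact hq.differentiableAt (by norm_num)

/-- the chain rule for second derivatives -/
theorem chain2 {u : E → H} {g : G → E} {s : G} (hu : ContDiffAt ℝ 2 u (g s))
    (hg : ContDiffAt ℝ 2 g s) (v w : G) :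
    fderiv ℝ (fderiv ℝ fun t => u (g t)) s v w =
      fderiv ℝ (fderiv ℝ u) (g s) (fderiv ℝ g s v) (fderiv ℝ g s w) +
        fderiv ℝ u (g s) (fderiv ℝ (fderiv ℝ g) s v w) := by
  have h1 : (fderiv ℝ fun t => u (g t)) =ᶠ[𝓝 s] fun t => (fderiv ℝ u (g t)).comp (fderiv ℝ g t) := by
    filter_upwards [ev_diff hg, hg.continuousAt.eventually (ev_diff hu)] with t h1 h2
    exact fderiv_comp t h2 h1
  rw [h1.fderiv_eq]
  have h2 : HasFDerivAt (fun t => fderiv ℝ u (g t))
      ((fderiv ℝ (fderiv ℝ u) (g s)).comp (fderiv ℝ g s)) s :=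
    (diff_fderiv hu).hasFDerivAt.comp s (hg.differentiableAt (by norm_num)).hasFDerivAt
  have h3 := h2.clm_comp (diff_fderiv hg).hasFDerivAt
  rw [h3.fderiv]
  simp [add_comm]

end

section
variable {E : Type} [NormedAddCommGroup E] [NormedSpace ℂ E]
  {F : Type} [NormedAddCommGroup F] [NormedSpace ℂ F]

theorem ev_diffC {u : F → E} {p : F} (hu : ContDiffAt ℂ 2 u p) :
    ∀ᶠ q in 𝓝 p, DifferentiableAt ℂ u q := by
  filter_upwards [hu.eventually (by simp)] with q hq
  exact hq.differentiableAt (by norm_num)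

theorem fderiv_real {T : F → E} {p : F} (hT : DifferentiableAt ℂ T p) (v : F) :
    fderiv ℝ T p v = fderiv ℂ T p v := by
  rw [(hT.hasFDerivAt.restrictScalars ℝ).fderiv]
  rfl

theorem fderiv2_real {T : F → E} {p : F} (hT : ContDiffAt ℂ 2 T p) (v w : F) :
    fderiv ℝ (fderiv ℝ T) p v w = fderiv ℂ (fderiv ℂ T) p v w := by
  have h1 : fderiv ℝ T =ᶠ[𝓝 p]
      fun q => ContinuousLinearMap.restrictScalarsL ℂ F E ℝ ℝ (fderiv ℂ T q) := by
    filter_upwards [ev_diffC hT] with q hq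
    rw [(hq.hasFDerivAt.restrictScalars ℝ).fderiv]
    rfl
  rw [h1.fderiv_eq]
  have h2 : DifferentiableAt ℂ (fderiv ℂ T) p :=
    (hT.fderiv_right (m := 1) (by norm_num)).differentiableAt (by norm_num)
  have h3 := (ContinuousLinearMap.restrictScalarsL ℂ F E ℝ ℝ).hasFDerivAt.comp p
    (h2.hasFDerivAt.restrictScalars ℝ)
  have h4 : fderiv ℝ (fun q => ContinuousLinearMap.restrictScalarsL ℂ F E ℝ ℝ (fderiv ℂ T q)) p =
      (ContinuousLinearMap.restrictScalarsL ℂ F E ℝ ℝ).comp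
        ((fderiv ℂ (fderiv ℂ T) p).restrictScalars ℝ) := h3.fderiv
  rw [h4]
  rfl

theorem lap_eq (f : ℂ → ℝ) (s : ℂ) : Laplacian.laplacian f s =
    fderiv ℝ (fderiv ℝ f) s 1 1 + fderiv ℝ (fderiv ℝ f) s Complex.I Complex.I := by
  rw [InnerProductSpace.laplacian_eq_iteratedFDeriv_complexPlane]
  simp [iteratedFDeriv_two_apply]

/-- the Laplacian of a composition with a holomorphic map -/
theorem lap_comp {u : E → ℝ} {γ : ℂ → E} {s : ℂ} (hu : ContDiffAt ℝ 2 u (γ s))
    (hγ : ContDiffAt ℂ 2 γ s) :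
    Laplacian.laplacian (fun t : ℂ => u (γ t)) s =
      fderiv ℝ (fderiv ℝ u) (γ s) (fderiv ℂ γ s 1) (fderiv ℂ γ s 1) +
        fderiv ℝ (fderiv ℝ u) (γ s) (Complex.I • fderiv ℂ γ s 1) (Complex.I • fderiv ℂ γ s 1) := by
  have hd : DifferentiableAt ℂ γ s := hγ.differentiableAt (by norm_num)
  rw [lap_eq, chain2 hu (hγ.restrict_scalars ℝ), chain2 hu (hγ.restrict_scalars ℝ),
    fderiv2_real hγ, fderiv2_real hγ, fderiv_real hd, fderiv_real hd]
  have h1 : fderiv ℂ γ s Complex.I = Complex.I • fderiv ℂ γ s 1 := by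
    rw [← map_smul]
    simp
  have h2 : fderiv ℂ (fderiv ℂ γ) s Complex.I Complex.I = -fderiv ℂ (fderiv ℂ γ) s 1 1 := by
    have h3 : fderiv ℂ (fderiv ℂ γ) s Complex.I = Complex.I • fderiv ℂ (fderiv ℂ γ) s 1 := by
      rw [← map_smul]
      simp
    have h4 : fderiv ℂ (fderiv ℂ γ) s 1 Complex.I = Complex.I • fderiv ℂ (fderiv ℂ γ) s 1 1 := by
      rw [← map_smul]
      simp
    rw [h3, smul_apply, h4, smul_smul, Complex.I_mul_I, neg_one_smul]
  rw [h1, h2, map_neg]
  ring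

theorem lev_eq {u : E → ℝ} {p : E} (hu : ContDiffAt ℝ 2 u p) (e : E) :
    lev u p e = fderiv ℝ (fderiv ℝ u) p e e +
      fderiv ℝ (fderiv ℝ u) p (Complex.I • e) (Complex.I • e) := by
  have h1 : ContDiffAt ℂ 2 (fun s : ℂ => p + s • e) 0 := by fun_prop
  have h2 : fderiv ℂ (fun s : ℂ => p + s • e) 0 1 = e := by
    have h3 : HasFDerivAt (fun s : ℂ => p + s • e)
        ((ContinuousLinearMap.id ℂ ℂ).smulRight e) 0 :=
      ((ContinuousLinearMap.id ℂ ℂ).hasFDerivAt.smul_const e).const_add p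
    rw [h3.fderiv]
    simp
  have h0 : p + (0 : ℂ) • e = p := by simp
  have h4 := lap_comp (u := u) (γ := fun s : ℂ => p + s • e) (s := 0) (by rw [h0]; exact hu) h1
  rw [h2] at h4
  simp only [h0] at h4
  exact h4

end

end Levi

section
variable {E : Type} [NormedAddCommGroup E] [NormedSpace ℂ E]
  {F : Type} [NormedAddCommGroup F] [NormedSpace ℂ F]

theorem lev_congr {u v : E → ℝ} {p : E} (h : u =ᶠ[𝓝 p] v) (e : E) : lev u p e = lev v p e := by
  have h1 : ContinuousAt (fun s : ℂ => p + s • e) 0 := by fun_prop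
  have h0 : Tendsto (fun s : ℂ => p + s • e) (𝓝 0) (𝓝 p) := by
    simpa [ContinuousAt] using h1
  have h2 : (fun s : ℂ => u (p + s • e)) =ᶠ[𝓝 0] fun s : ℂ => v (p + s • e) :=
    h.comp_tendsto h0
  exact (InnerProductSpace.laplacian_congr_nhds h2).self_of_nhds

theorem lev_add {u v : E → ℝ} {p : E} (hu : ContDiffAt ℝ 2 u p) (hv : ContDiffAt ℝ 2 v p) (e : E) :
    lev (fun q => u q + v q) p e = lev u p e + lev v p e := by
  have h0 : p + (0 : ℂ) • e = p := by simp
  have h1 : ContDiffAt ℝ 2 (fun s : ℂ => p + s • e) 0 := by fun_prop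
  have hu' : ContDiffAt ℝ 2 (fun s : ℂ => u (p + s • e)) 0 :=
    ContDiffAt.comp (0 : ℂ) (g := u) (by rw [h0]; exact hu) h1
  have hv' : ContDiffAt ℝ 2 (fun s : ℂ => v (p + s • e)) 0 :=
    ContDiffAt.comp (0 : ℂ) (g := v) (by rw [h0]; exact hv) h1
  exact hu'.laplacian_add hv'

theorem lev_sub {u v : E → ℝ} {p : E} (hu : ContDiffAt ℝ 2 u p) (hv : ContDiffAt ℝ 2 v p) (e : E) :
    lev (fun q => u q - v q) p e = lev u p e - lev v p e := by
  have h0 : p + (0 : ℂ) • e = p := by simp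
  have h1 : ContDiffAt ℝ 2 (fun s : ℂ => p + s • e) 0 := by fun_prop
  have hu' : ContDiffAt ℝ 2 (fun s : ℂ => u (p + s • e)) 0 :=
    ContDiffAt.comp (0 : ℂ) (g := u) (by rw [h0]; exact hu) h1
  have hv' : ContDiffAt ℝ 2 (fun s : ℂ => v (p + s • e)) 0 :=
    ContDiffAt.comp (0 : ℂ) (g := v) (by rw [h0]; exact hv) h1
  exact hu'.laplacian_sub hv'

theorem lev_const_mul {u : E → ℝ} {p : E} (hu : ContDiffAt ℝ 2 u p) (c : ℝ) (e : E) :
    lev (fun q => c * u q) p e = c * lev u p e := by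
  have h0 : p + (0 : ℂ) • e = p := by simp
  have h1 : ContDiffAt ℝ 2 (fun s : ℂ => p + s • e) 0 := by fun_prop
  have hu' : ContDiffAt ℝ 2 (fun s : ℂ => u (p + s • e)) 0 :=
    ContDiffAt.comp (0 : ℂ) (g := u) (by rw [h0]; exact hu) h1
  exact InnerProductSpace.laplacian_smul c hu'

theorem lev_eq_dv {u : E → ℝ} {p : E} (hu : ContDiffAt ℝ 2 u p) (e : E) :
    lev u p e = dv e (dv e u) p + dv (Complex.I • e) (dv (Complex.I • e) u) p := by
  have h : ∀ v : E, dv v (dv v u) p = fderiv ℝ (fderiv ℝ u) p v v := by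
    intro v
    have h1 : HasFDerivAt (fun q => fderiv ℝ u q v)
        ((ContinuousLinearMap.apply ℝ ℝ v).comp (fderiv ℝ (fderiv ℝ u) p)) p :=
      (ContinuousLinearMap.apply ℝ ℝ v).hasFDerivAt.comp p (Levi.diff_fderiv hu).hasFDerivAt
    have h2 : dv v (dv v u) p = ((ContinuousLinearMap.apply ℝ ℝ v).comp
        (fderiv ℝ (fderiv ℝ u) p)) v := by
      rw [← h1.fderiv]
      rfl
    rw [h2]
    rfl
  rw [Levi.lev_eq hu, h, h]

theorem laplacian_comp {u : E → ℝ} {γ : ℂ → E} {s : ℂ} (hu : ContDiffAt ℝ 2 u (γ s))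
    (hγ : ContDiffAt ℂ 2 γ s) :
    Laplacian.laplacian (fun t : ℂ => u (γ t)) s = lev u (γ s) (deriv γ s) := by
  rw [Levi.lap_comp hu hγ, Levi.lev_eq hu]
  rfl

theorem lev_comp {u : E → ℝ} {T : F → E} {p : F} (hu : ContDiffAt ℝ 2 u (T p))
    (hT : ContDiffAt ℂ 2 T p) (e : F) :
    lev (fun q => u (T q)) p e = lev u (T p) (fderiv ℂ T p e) := by
  have h0 : p + (0 : ℂ) • e = p := by simp
  have h1 : ContDiffAt ℂ 2 (fun s : ℂ => p + s • e) 0 := by fun_prop
  have h2 : ContDiffAt ℂ 2 (fun s : ℂ => T (p + s • e)) 0 :=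
    ContDiffAt.comp (0 : ℂ) (g := T) (by rw [h0]; exact hT) h1
  have h3 := laplacian_comp (u := u) (γ := fun s : ℂ => T (p + s • e)) (s := 0)
    (by simp only [h0]; exact hu) h2
  have h4 : deriv (fun s : ℂ => T (p + s • e)) 0 = fderiv ℂ T p e := by
    have h5 : HasFDerivAt (fun s : ℂ => p + s • e)
        ((ContinuousLinearMap.id ℂ ℂ).smulRight e) 0 :=
      ((ContinuousLinearMap.id ℂ ℂ).hasFDerivAt.smul_const e).const_add p
    have h6 : HasFDerivAt T (fderiv ℂ T p) (p + (0 : ℂ) • e) := by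
      rw [h0]
      exact (hT.differentiableAt (by norm_num)).hasFDerivAt
    have h7 := h6.comp (0 : ℂ) h5
    have h8 : fderiv ℂ (fun s : ℂ => T (p + s • e)) 0 =
      (fderiv ℂ T p).comp ((ContinuousLinearMap.id ℂ ℂ).smulRight e) := h7.fderiv
    have h9 : deriv (fun s : ℂ => T (p + s • e)) 0 =
      fderiv ℂ (fun s : ℂ => T (p + s • e)) 0 1 := rfl
    rw [h9, h8]
    simp
  rw [h4] at h3
  simp only [h0] at h3
  exact h3

theorem lev_smul {u : E → ℝ} {p : E} (hu : ContDiffAt ℝ 2 u p) (a : ℂ) (e : E) :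
    lev u p (a • e) = ‖a‖ ^ 2 * lev u p e := by
  rw [Levi.lev_eq hu, Levi.lev_eq hu]
  have h1 : a • e = a.re • e + a.im • (Complex.I • e) := by
    conv_lhs => rw [← Complex.re_add_im a]
    rw [add_smul, mul_smul, Complex.coe_smul, Complex.coe_smul]
  have h2 : Complex.I • a • e = (-a.im) • e + a.re • (Complex.I • e) := by
    rw [h1, smul_add, smul_comm Complex.I a.re, smul_comm Complex.I a.im, smul_smul Complex.I,
      Complex.I_mul_I, neg_one_smul, smul_neg, neg_smul]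
    abel
  rw [h2, h1]
  have h3 : ‖a‖ ^ 2 = a.re ^ 2 + a.im ^ 2 := by
    rw [← Complex.normSq_eq_norm_sq, Complex.normSq_apply]
    ring
  rw [h3]
  simp only [map_add, map_smul, add_apply, smul_apply, smul_eq_mul]
  ring

theorem PH_comp {u : E → ℝ} {T : F → E} {p : F} (hu : PH u (T p)) (hT : ContDiffAt ℂ 2 T p) :
    PH (fun q => u (T q)) p := by
  filter_upwards [hT.continuousAt.eventually hu, hT.eventually (by simp)] with q h1 h2
  refine ⟨ContDiffAt.comp q h1.1 (h2.restrict_scalars ℝ), fun e => ?_⟩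
  rw [lev_comp h1.1 h2]
  exact h1.2 _

theorem PH_sum {ι : Type} (s : Finset ι) {u : ι → E → ℝ} (c : ι → ℝ) {p : E}
    (h : ∀ i ∈ s, PH (u i) p) : PH (fun q => ∑ i ∈ s, c i * u i q) p := by
  have h1 : ∀ᶠ q in 𝓝 p, ∀ i ∈ s, ContDiffAt ℝ 2 (u i) q ∧ ∀ e : E, lev (u i) q e = 0 :=
    (Finset.eventually_all s).2 h
  filter_upwards [h1] with q hq
  have key : ∀ t : Finset ι, t ⊆ s → ContDiffAt ℝ 2 (fun q => ∑ i ∈ t, c i * u i q) q ∧
      ∀ e, lev (fun q => ∑ i ∈ t, c i * u i q) q e = 0 := by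
    classical
    intro t
    induction t using Finset.induction_on with
    | empty =>
      intro _
      refine ⟨by simpa using contDiffAt_const, fun e => ?_⟩
      simp [lev]
    | insert a t ha ih =>
      intro hs
      obtain ⟨i1, i2⟩ := ih fun x hx => hs (Finset.mem_insert_of_mem hx)
      obtain ⟨j1, j2⟩ := hq a (hs (Finset.mem_insert_self _ _))
      have j3 : ContDiffAt ℝ 2 (fun q => c a * u a q) q := contDiffAt_const.mul j1
      simp only [Finset.sum_insert ha]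
      refine ⟨j3.add i1, fun e => ?_⟩
      rw [lev_add j3 i1, lev_const_mul j1, j2, i2]
      ring
  exact key s subset_rfl

end

end Pool.Agent.Helper76.ES
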