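import Pool.Agent.Helper76.ES.Base

/-!
# Density of sets closed under sums and rational multiples
-/

open Filter Topology Set MeasureTheory
open scoped Manifold ContDiff

noncomputable section

namespace Pool.Agent.Helper76.ES

/-- a set of vectors closed under sums and rational multiples on which no nonzero functional
vanishes is dense -/
theorem dense_of_no_functional {k : ℕ} {S : Set (Fin k → ℝ)} (h0 : (0 : Fin k → ℝ) ∈ S)
    (hadd : ∀ v ∈ S, ∀ w ∈ S, v + w ∈ S) (hsmul : ∀ q : ℚ, ∀ v ∈ S, (fun j => (q : ℝ) * v j) ∈ S)
    (h : ∀ c : Fin k → ℝ, (∀ v ∈ S, ∑ j, c j * v j = 0) → c = 0) : Dense S := by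
  have hcl_add : ∀ v ∈ closure S, ∀ w ∈ closure S, v + w ∈ closure S := by
    intro v hv w hw
    exact map_mem_closure₂ continuous_add hv hw fun a ha b hb => hadd a ha b hb
  have hcl_smul : ∀ r : ℝ, ∀ v ∈ closure S, r • v ∈ closure S := by
    intro r v hv
    have hq : ∀ q : ℚ, (q : ℝ) • v ∈ closure S := by
      intro q
      exact map_mem_closure (continuous_const_smul (q : ℝ)) hv fun a ha => hsmul q a ha
    have hc : Continuous fun r : ℝ => r • v := continuous_id.smul continuous_const
    have hr : r ∈ closure (range ((↑) : ℚ → ℝ)) := by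
      rw [Rat.isDenseEmbedding_coe_real.dense.closure_eq]
      trivial
    have := map_mem_closure hc hr (t := closure S) (by
      rintro _ ⟨q, rfl⟩
      exact hq q)
    rwa [closure_closure] at this
  let W : Submodule ℝ (Fin k → ℝ) :=
    { carrier := closure S
      add_mem' := fun {a b} ha hb => hcl_add a ha b hb
      zero_mem' := subset_closure h0
      smul_mem' := fun r v hv => hcl_smul r v hv }
  have hW : W = ⊤ := by
    by_contra hne
    obtain ⟨f, hf0, hf⟩ := Submodule.exists_le_ker_of_lt_top W (lt_top_iff_ne_top.2 hne)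
    apply hf0
    have hrep : ∀ v : Fin k → ℝ, f v = ∑ j, f (Pi.single j 1) * v j := by
      intro v
      conv_lhs => rw [← LinearMap.sum_single_apply (fun _ : Fin k => ℝ) v, map_sum]
      refine Finset.sum_congr rfl fun j _ => ?_
      have : (Pi.single j (v j) : Fin k → ℝ) = v j • Pi.single j (1 : ℝ) := by
        rw [← Pi.single_smul, smul_eq_mul, mul_one]
      rw [this, map_smul, smul_eq_mul, mul_comm]
    have hz := h (fun j => f (Pi.single j 1)) (by
      intro v hv
      rw [← hrep v]
      exact LinearMap.mem_ker.1 (hf (subset_closure hv)))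
    refine LinearMap.ext fun v => ?_
    rw [hrep v, LinearMap.zero_apply]
    exact Finset.sum_eq_zero fun j _ => by rw [congrFun hz j, Pi.zero_apply, zero_mul]
  intro v
  have : v ∈ W := by rw [hW]; trivial
  exact this

end Pool.Agent.Helper76.ES
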