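import Pool.Agent.Helper76.ES.Base

open Filter Topology Set MeasureTheory
open scoped Manifold ContDiff

noncomputable section

namespace Pool.Agent.Helper76.ES

namespace LogC

/-- the regularised square of the norm -/
def rho (ε : ℝ) (z : ℂ) : ℝ := z.re ^ 2 + z.im ^ 2 + ε ^ 2

lemma rho_pos {ε : ℝ} (hε : 0 < ε) (z : ℂ) : 0 < rho ε z := by
  unfold rho
  positivity

lemma norm_sq_eq (z : ℂ) : ‖z‖ ^ 2 = z.re ^ 2 + z.im ^ 2 := by
  rw [← Complex.normSq_eq_norm_sq, Complex.normSq_apply]
  ring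

lemma dv_dv {F : Type} [NormedAddCommGroup F] [NormedSpace ℂ F] {f : F → ℝ} {z : F}
    (hf : ContDiffAt ℝ 2 f z) (v w : F) :
    dv w (dv v f) z = fderiv ℝ (fderiv ℝ f) z w v := by
  have h : DifferentiableAt ℝ (fderiv ℝ f) z :=
    (hf.fderiv_right (m := 1) (by norm_num)).differentiableAt (by norm_num)
  have h2 := (h.hasFDerivAt.clm_apply (hasFDerivAt_const v z)).fderiv
  unfold dv
  rw [h2]
  simp

lemma lap_eq {f : ℂ → ℝ} {z : ℂ} (hf : ContDiffAt ℝ 2 f z) :
    Laplacian.laplacian f z = dv 1 (dv 1 f) z + dv Complex.I (dv Complex.I f) z := by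
  rw [InnerProductSpace.laplacian_eq_iteratedFDeriv_complexPlane, dv_dv hf, dv_dv hf]
  simp [iteratedFDeriv_two_apply]

lemma line_log_one {ε : ℝ} (hε : 0 < ε) (z : ℂ) :
    HasLineDerivAt ℝ (fun z => 1 / 2 * Real.log (rho ε z)) (z.re / rho ε z) z 1 := by
  have h0 := rho_pos hε z
  unfold HasLineDerivAt
  have h1 : HasDerivAt (fun t : ℝ => rho ε (z + t • (1 : ℂ))) (2 * z.re) 0 := by
    unfold rho
    have : (fun t : ℝ => (z + t • (1 : ℂ)).re ^ 2 + (z + t • (1 : ℂ)).im ^ 2 + ε ^ 2) =
        fun t : ℝ => (z.re + t) ^ 2 + z.im ^ 2 + ε ^ 2 := by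
      ext t
      simp
    rw [this]
    have h := (((hasDerivAt_id (0 : ℝ)).const_add z.re).pow 2).add_const (z.im ^ 2)
    have h' := h.add_const (ε ^ 2)
    simpa using h'
  have h2 := (h1.log (by simpa using h0.ne')).const_mul (1 / 2 : ℝ)
  refine h2.congr_deriv ?_
  simp only [zero_smul, add_zero]
  field_simp

lemma line_log_I {ε : ℝ} (hε : 0 < ε) (z : ℂ) :
    HasLineDerivAt ℝ (fun z => 1 / 2 * Real.log (rho ε z)) (z.im / rho ε z) z Complex.I := by
  have h0 := rho_pos hε z
  unfold HasLineDerivAt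
  have h1 : HasDerivAt (fun t : ℝ => rho ε (z + t • Complex.I)) (2 * z.im) 0 := by
    unfold rho
    have : (fun t : ℝ => (z + t • Complex.I).re ^ 2 + (z + t • Complex.I).im ^ 2 + ε ^ 2) =
        fun t : ℝ => z.re ^ 2 + (z.im + t) ^ 2 + ε ^ 2 := by
      ext t
      simp
    rw [this]
    have h := (((hasDerivAt_id (0 : ℝ)).const_add z.im).pow 2).const_add (z.re ^ 2)
    have h' := h.add_const (ε ^ 2)
    simpa using h'
  have h2 := (h1.log (by simpa using h0.ne')).const_mul (1 / 2 : ℝ)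
  refine h2.congr_deriv ?_
  simp only [zero_smul, add_zero]
  field_simp

lemma line_div_one {ε : ℝ} (hε : 0 < ε) (z : ℂ) :
    HasLineDerivAt ℝ (fun z => z.re / rho ε z)
      (1 / rho ε z - 2 * z.re ^ 2 / rho ε z ^ 2) z 1 := by
  have h0 := rho_pos hε z
  unfold HasLineDerivAt
  have h1 : HasDerivAt (fun t : ℝ => rho ε (z + t • (1 : ℂ))) (2 * z.re) 0 := by
    unfold rho
    have : (fun t : ℝ => (z + t • (1 : ℂ)).re ^ 2 + (z + t • (1 : ℂ)).im ^ 2 + ε ^ 2) =
        fun t : ℝ => (z.re + t) ^ 2 + z.im ^ 2 + ε ^ 2 := by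
      ext t
      simp
    rw [this]
    have h := (((hasDerivAt_id (0 : ℝ)).const_add z.re).pow 2).add_const (z.im ^ 2)
    have h' := h.add_const (ε ^ 2)
    simpa using h'
  have h3 : HasDerivAt (fun t : ℝ => (z + t • (1 : ℂ)).re) 1 0 := by
    have : (fun t : ℝ => (z + t • (1 : ℂ)).re) = fun t : ℝ => z.re + t := by
      ext t
      simp
    rw [this]
    exact (hasDerivAt_id (0 : ℝ)).const_add z.re
  have h2 := h3.div h1 (by simpa using h0.ne')
  refine h2.congr_deriv ?_
  simp only [zero_smul, add_zero]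
  field_simp

lemma line_div_I {ε : ℝ} (hε : 0 < ε) (z : ℂ) :
    HasLineDerivAt ℝ (fun z => z.im / rho ε z)
      (1 / rho ε z - 2 * z.im ^ 2 / rho ε z ^ 2) z Complex.I := by
  have h0 := rho_pos hε z
  unfold HasLineDerivAt
  have h1 : HasDerivAt (fun t : ℝ => rho ε (z + t • Complex.I)) (2 * z.im) 0 := by
    unfold rho
    have : (fun t : ℝ => (z + t • Complex.I).re ^ 2 + (z + t • Complex.I).im ^ 2 + ε ^ 2) =
        fun t : ℝ => z.re ^ 2 + (z.im + t) ^ 2 + ε ^ 2 := by
      ext t
      simp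
    rw [this]
    have h := (((hasDerivAt_id (0 : ℝ)).const_add z.im).pow 2).const_add (z.re ^ 2)
    have h' := h.add_const (ε ^ 2)
    simpa using h'
  have h3 : HasDerivAt (fun t : ℝ => (z + t • Complex.I).im) 1 0 := by
    have : (fun t : ℝ => (z + t • Complex.I).im) = fun t : ℝ => z.im + t := by
      ext t
      simp
    rw [this]
    exact (hasDerivAt_id (0 : ℝ)).const_add z.im
  have h2 := h3.div h1 (by simpa using h0.ne')
  refine h2.congr_deriv ?_
  simp only [zero_smul, add_zero]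
  field_simp

lemma rho_cont (ε : ℝ) : Continuous (rho ε) := by
  unfold rho
  fun_prop

lemma dv_cont {f : ℂ → ℝ} (hf : ContDiff ℝ 2 f) (v : ℂ) : ContDiff ℝ 1 (dv v f) := by
  unfold dv
  exact (hf.fderiv_right (m := 1) (by norm_num)).clm_apply contDiff_const

lemma dv_supp {f : ℂ → ℝ} (hc : HasCompactSupport f) (v : ℂ) : HasCompactSupport (dv v f) :=
  hc.fderiv_apply ℝ v

/-- integration by parts twice in one direction -/
lemma parts {f φ ψ χ : ℂ → ℝ} {v : ℂ} (hf : ContDiff ℝ 2 f) (hc : HasCompactSupport f)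
    (hφ : Continuous φ) (hψ : Continuous ψ) (hχ : Continuous χ)
    (h1 : ∀ z, HasLineDerivAt ℝ φ (ψ z) z v) (h2 : ∀ z, HasLineDerivAt ℝ ψ (χ z) z v) :
    ∫ z, φ z * dv v (dv v f) z = ∫ z, χ z * f z := by
  have c1 := dv_cont hf v
  have s1 := dv_supp hc v
  have c2 : Continuous (dv v (dv v f)) := by
    unfold dv at c1 ⊢
    exact (c1.continuous_fderiv (by norm_num)).clm_apply continuous_const
  have s2 := dv_supp s1 v
  have e1 := integral_bilinear_hasLineDerivAt_right_eq_neg_left_of_integrable (μ := volume)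
    (B := ContinuousLinearMap.mul ℝ ℝ) (f := φ) (f' := ψ) (g := dv v f) (g' := dv v (dv v f))
    (v := v)
    ((hψ.mul c1.continuous).integrable_of_hasCompactSupport s1.mul_left)
    ((hφ.mul c2).integrable_of_hasCompactSupport s2.mul_left)
    ((hφ.mul c1.continuous).integrable_of_hasCompactSupport s1.mul_left)
    (fun z _ => h1 z)
    (fun z _ => ((c1.differentiable (by norm_num)) z).hasFDerivAt.hasLineDerivAt v)
  have e2 := integral_bilinear_hasLineDerivAt_right_eq_neg_left_of_integrable (μ := volume)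
    (B := ContinuousLinearMap.mul ℝ ℝ) (f := ψ) (f' := χ) (g := f) (g' := dv v f)
    (v := v)
    ((hχ.mul hf.continuous).integrable_of_hasCompactSupport hc.mul_left)
    ((hψ.mul c1.continuous).integrable_of_hasCompactSupport s1.mul_left)
    ((hψ.mul hf.continuous).integrable_of_hasCompactSupport hc.mul_left)
    (fun z _ => h2 z)
    (fun z _ => ((hf.differentiable (by norm_num)) z).hasFDerivAt.hasLineDerivAt v)
  simp only [ContinuousLinearMap.mul_apply'] at e1 e2
  rw [e1, e2, neg_neg]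

lemma lap_cont {f : ℂ → ℝ} (hf : ContDiff ℝ 2 f) : Continuous (Laplacian.laplacian f) := by
  have : Laplacian.laplacian f = fun z => dv 1 (dv 1 f) z + dv Complex.I (dv Complex.I f) z := by
    ext z
    exact lap_eq hf.contDiffAt
  rw [this]
  have c : ∀ v : ℂ, Continuous (dv v (dv v f)) := by
    intro v
    have c1 := dv_cont hf v
    unfold dv at c1 ⊢
    exact (c1.continuous_fderiv (by norm_num)).clm_apply continuous_const
  exact (c 1).add (c Complex.I)

lemma lap_supp {f : ℂ → ℝ} (hf : ContDiff ℝ 2 f) (hc : HasCompactSupport f) :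
    HasCompactSupport (Laplacian.laplacian f) := by
  have : Laplacian.laplacian f = fun z => dv 1 (dv 1 f) z + dv Complex.I (dv Complex.I f) z := by
    ext z
    exact lap_eq hf.contDiffAt
  rw [this]
  exact (dv_supp (dv_supp hc 1) 1).add (dv_supp (dv_supp hc Complex.I) Complex.I)

/-- the identity for the regularised logarithm -/
lemma reg_identity {f : ℂ → ℝ} (hf : ContDiff ℝ 2 f) (hc : HasCompactSupport f) {ε : ℝ}
    (hε : 0 < ε) :
    ∫ z, (1 / 2 * Real.log (rho ε z)) * Laplacian.laplacian f z =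
      ∫ z, 2 * ε ^ 2 / rho ε z ^ 2 * f z := by
  have hr := rho_cont ε
  have h0 : ∀ z, rho ε z ≠ 0 := fun z => (rho_pos hε z).ne'
  have hφ : Continuous (fun z => 1 / 2 * Real.log (rho ε z)) :=
    continuous_const.mul (hr.log h0)
  have hψ1 : Continuous (fun z : ℂ => z.re / rho ε z) := Complex.continuous_re.div hr h0
  have hψ2 : Continuous (fun z : ℂ => z.im / rho ε z) := Complex.continuous_im.div hr h0
  have hχ1 : Continuous (fun z : ℂ => 1 / rho ε z - 2 * z.re ^ 2 / rho ε z ^ 2) :=
    (continuous_const.div hr h0).sub ((continuous_const.mul (Complex.continuous_re.pow 2)).div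
      (hr.pow 2) (fun z => pow_ne_zero 2 (h0 z)))
  have hχ2 : Continuous (fun z : ℂ => 1 / rho ε z - 2 * z.im ^ 2 / rho ε z ^ 2) :=
    (continuous_const.div hr h0).sub ((continuous_const.mul (Complex.continuous_im.pow 2)).div
      (hr.pow 2) (fun z => pow_ne_zero 2 (h0 z)))
  have c : ∀ v : ℂ, Continuous (dv v (dv v f)) := by
    intro v
    have c1 := dv_cont hf v
    unfold dv at c1 ⊢
    exact (c1.continuous_fderiv (by norm_num)).clm_apply continuous_const
  have e1 := parts (v := 1) hf hc hφ hψ1 hχ1 (line_log_one hε) (line_div_one hε)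
  have e2 := parts (v := Complex.I) hf hc hφ hψ2 hχ2 (line_log_I hε) (line_div_I hε)
  have e3 : ∀ z, (1 / 2 * Real.log (rho ε z)) * Laplacian.laplacian f z =
      (1 / 2 * Real.log (rho ε z)) * dv 1 (dv 1 f) z +
      (1 / 2 * Real.log (rho ε z)) * dv Complex.I (dv Complex.I f) z := by
    intro z
    rw [lap_eq hf.contDiffAt]
    ring
  simp only [e3]
  rw [integral_add, e1, e2, ← integral_add]
  · refine integral_congr_ae (Eventually.of_forall fun z => ?_)
    have hz := h0 z
    simp only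
    have : rho ε z = z.re ^ 2 + z.im ^ 2 + ε ^ 2 := rfl
    field_simp
    rw [this]
    ring
  · exact (hχ1.mul hf.continuous).integrable_of_hasCompactSupport hc.mul_left
  · exact (hχ2.mul hf.continuous).integrable_of_hasCompactSupport hc.mul_left
  · exact (hφ.mul (c 1)).integrable_of_hasCompactSupport (dv_supp (dv_supp hc 1) 1).mul_left
  · exact (hφ.mul (c Complex.I)).integrable_of_hasCompactSupport
      (dv_supp (dv_supp hc Complex.I) Complex.I).mul_left

/-- the peak function -/
def pk (w : ℂ) : ℝ := (1 / Real.pi) / (‖w‖ ^ 2 + 1) ^ 2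

lemma pk_integral : ∫ w, pk w = 1 := by
  have h1 := integral_fun_norm_addHaar (volume : Measure ℂ)
    (fun y : ℝ => (1 / Real.pi) / (y ^ 2 + 1) ^ 2)
  unfold pk
  rw [h1, Complex.finrank_real_complex]
  have h2 : (volume : Measure ℂ).real (Metric.ball 0 1) = Real.pi := by
    rw [measureReal_def, Complex.volume_ball]
    simp
  have h3 : ∫ y in Ioi (0 : ℝ), y ^ (2 - 1) • ((1 / Real.pi) / (y ^ 2 + 1) ^ 2) =
      0 - (-(1 / (2 * Real.pi)) / ((0 : ℝ) ^ 2 + 1)) := by
    refine integral_Ioi_of_hasDerivAt_of_nonneg' (g := fun y : ℝ =>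
      -(1 / (2 * Real.pi)) / (y ^ 2 + 1)) (fun x _ => ?_) (fun x hx => ?_) ?_
    · have e1 : HasDerivAt (fun y : ℝ => y ^ 2 + 1) (2 * x) x := by
        simpa using (hasDerivAt_pow 2 x).add_const 1
      have e2 := (hasDerivAt_const x (-(1 / (2 * Real.pi)))).div e1
        (by positivity : x ^ 2 + 1 ≠ 0)
      refine e2.congr_deriv ?_
      have : x ^ 2 + 1 ≠ 0 := by positivity
      simp only [smul_eq_mul]
      field_simp
      ring
    · have hx' : (0 : ℝ) < x := hx
      simp only [smul_eq_mul]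
      positivity
    · have e1 : Tendsto (fun y : ℝ => y ^ 2 + 1) atTop atTop :=
        tendsto_atTop_add_const_right _ _ (tendsto_pow_atTop (by norm_num))
      exact e1.const_div_atTop _
  rw [h2, h3]
  simp only [smul_eq_mul, nsmul_eq_mul]
  field_simp
  norm_num

lemma pk_decay : Tendsto (fun x : ℂ => ‖x‖ ^ Module.finrank ℝ ℂ * pk x) (Bornology.cobounded ℂ)
    (𝓝 0) := by
  rw [Complex.finrank_real_complex]
  have h1 : Tendsto (fun x : ℂ => ‖x‖) (Bornology.cobounded ℂ) atTop :=
    tendsto_norm_cobounded_atTop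
  have h2 : Tendsto (fun r : ℝ => (1 / Real.pi) / (r ^ 2 + 1)) atTop (𝓝 0) := by
    have e1 : Tendsto (fun y : ℝ => y ^ 2 + 1) atTop atTop :=
      tendsto_atTop_add_const_right _ _ (tendsto_pow_atTop (by norm_num))
    exact e1.const_div_atTop _
  refine squeeze_zero (fun x => ?_) (fun x => ?_) (h2.comp h1)
  · unfold pk
    positivity
  · unfold pk
    simp only [Function.comp]
    have hx : 0 < ‖x‖ ^ 2 + 1 := by positivity
    rw [mul_div_assoc', div_le_div_iff₀ (by positivity) hx]
    have hp : 0 < 1 / Real.pi := by positivity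
    nlinarith [mul_pos hp hx]

lemma log_locInt : LocallyIntegrable (fun z : ℂ => Real.log ‖z‖) := by
  intro x
  refine ⟨Metric.ball 0 (‖x‖ + 1), Metric.isOpen_ball.mem_nhds (by simp), ?_⟩
  rw [integrableOn_fun_norm_addHaar (volume : Measure ℂ) (f := Real.log),
    Complex.finrank_real_complex]
  have : (fun y : ℝ => y ^ (2 - 1) • Real.log y) = fun y => y * Real.log y := by
    ext y
    simp
  rw [this]
  exact (Real.continuous_mul_log.integrableOn_Icc (a := 0) (b := ‖x‖ + 1)).mono_set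
    Ioo_subset_Icc_self

lemma int_log_mul {g : ℂ → ℝ} (hg : Continuous g) (hc : HasCompactSupport g) :
    Integrable (fun z : ℂ => Real.log ‖z‖ * g z) := by
  have := log_locInt.integrable_smul_left_of_hasCompactSupport hg hc
  refine this.congr (Eventually.of_forall fun z => ?_)
  simp [mul_comm]

end LogC

open LogC in
theorem log_laplacian {f : ℂ → ℝ} (hf : ContDiff ℝ 2 f) (hc : HasCompactSupport f) :
    ∫ z : ℂ, Real.log ‖z‖ * Laplacian.laplacian f z = 2 * Real.pi * f 0 := by
  have hL := lap_cont hf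
  have hLc := lap_supp hf hc
  -- the scales
  have hε : ∀ n : ℕ, (0 : ℝ) < 1 / ((n : ℝ) + 1) := fun n => by positivity
  have hε1 : ∀ n : ℕ, 1 / ((n : ℝ) + 1) ≤ 1 := fun n => by
    rw [div_le_one (by positivity)]
    linarith [(Nat.cast_nonneg n : (0 : ℝ) ≤ n)]
  have hε0 : Tendsto (fun n : ℕ => 1 / ((n : ℝ) + 1)) atTop (𝓝 0) :=
    tendsto_one_div_add_atTop_nhds_zero_nat
  have t1 : Tendsto (fun n : ℕ => ∫ z, (1 / 2 * Real.log (rho (1 / ((n : ℝ) + 1)) z)) *
      Laplacian.laplacian f z) atTop (𝓝 (∫ z : ℂ, Real.log ‖z‖ * Laplacian.laplacian f z)) := by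
    refine tendsto_integral_of_dominated_convergence
      (fun z => |Real.log ‖z‖ * Laplacian.laplacian f z| +
        |1 / 2 * Real.log (‖z‖ ^ 2 + 1) * Laplacian.laplacian f z|) (fun n => ?_) ?_ (fun n => ?_) ?_
    · refine Continuous.aestronglyMeasurable ?_
      exact (continuous_const.mul ((rho_cont _).log
        (fun z => (rho_pos (hε n) z).ne'))).mul hL
    · refine (int_log_mul hL hLc).abs.add ?_
      have hcont : Continuous (fun z : ℂ => 1 / 2 * Real.log (‖z‖ ^ 2 + 1) *
          Laplacian.laplacian f z) := by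
        refine (continuous_const.mul (Continuous.log (by fun_prop) (fun z => ?_))).mul hL
        positivity
      exact (hcont.integrable_of_hasCompactSupport hLc.mul_left).abs
    · have h0 : ∀ᵐ z : ℂ, z ≠ 0 := by
        rw [ae_iff]
        simp
      filter_upwards [h0] with z hz
      rw [Real.norm_eq_abs, abs_mul (1 / 2 * Real.log (rho (1 / ((n : ℝ) + 1)) z)),
        abs_mul (Real.log ‖z‖), abs_mul (1 / 2 * Real.log (‖z‖ ^ 2 + 1)), ← add_mul]
      refine mul_le_mul_of_nonneg_right ?_ (abs_nonneg _)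
      have hz' : 0 < ‖z‖ := norm_pos_iff.2 hz
      have e1 : Real.log ‖z‖ = 1 / 2 * Real.log (‖z‖ ^ 2) := by
        rw [Real.log_pow]
        push_cast
        ring
      have e2 : rho (1 / ((n : ℝ) + 1)) z = ‖z‖ ^ 2 + (1 / ((n : ℝ) + 1)) ^ 2 := by
        rw [norm_sq_eq]
        rfl
      have e3 : Real.log (‖z‖ ^ 2) ≤ Real.log (rho (1 / ((n : ℝ) + 1)) z) := by
        apply Real.log_le_log (by positivity)
        rw [e2]
        have := sq_nonneg (1 / ((n : ℝ) + 1))
        linarith
      have e4 : Real.log (rho (1 / ((n : ℝ) + 1)) z) ≤ Real.log (‖z‖ ^ 2 + 1) := by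
        apply Real.log_le_log (rho_pos (hε n) z)
        rw [e2]
        have : (1 / ((n : ℝ) + 1)) ^ 2 ≤ 1 := by
          have h5 := hε1 n
          have h6 := (hε n).le
          nlinarith
        linarith
      have e5 : 0 ≤ Real.log (‖z‖ ^ 2 + 1) := Real.log_nonneg (by nlinarith [sq_nonneg ‖z‖])
      have e6 := neg_abs_le (Real.log ‖z‖)
      have e7 := abs_nonneg (Real.log ‖z‖)
      rw [abs_of_nonneg (by positivity : 0 ≤ 1 / 2 * Real.log (‖z‖ ^ 2 + 1)), abs_le]
      constructor
      · rw [e1] at e6 e7 ⊢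
        linarith
      · linarith
    · have h0 : ∀ᵐ z : ℂ, z ≠ 0 := by
        rw [ae_iff]
        simp
      filter_upwards [h0] with z hz
      refine Tendsto.mul_const _ ?_
      have hz' : 0 < ‖z‖ := norm_pos_iff.2 hz
      have e1 : Real.log ‖z‖ = 1 / 2 * Real.log (‖z‖ ^ 2) := by
        rw [Real.log_pow]
        push_cast
        ring
      rw [e1]
      refine Tendsto.const_mul _ (Tendsto.log ?_ (by positivity))
      have e2 : ∀ n : ℕ, rho (1 / ((n : ℝ) + 1)) z = ‖z‖ ^ 2 + (1 / ((n : ℝ) + 1)) ^ 2 := by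
        intro n
        rw [norm_sq_eq]
        rfl
      simp only [e2]
      have := (hε0.pow 2).const_add (‖z‖ ^ 2)
      simpa using this
  have t2 : Tendsto (fun n : ℕ => ∫ z, 2 * (1 / ((n : ℝ) + 1)) ^ 2 /
      rho (1 / ((n : ℝ) + 1)) z ^ 2 * f z) atTop (𝓝 (2 * Real.pi * f 0)) := by
    have h1 := tendsto_integral_comp_smul_smul_of_integrable (μ := (volume : Measure ℂ))
      (φ := pk) (fun x => by unfold pk; positivity) pk_integral pk_decay (g := f)
      (hf.continuous.integrable_of_hasCompactSupport hc) hf.continuous.continuousAt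
    have h2 : Tendsto (fun n : ℕ => (n : ℝ) + 1) atTop atTop :=
      tendsto_atTop_add_const_right _ _ tendsto_natCast_atTop_atTop
    have h3 := (h1.comp h2).const_mul (2 * Real.pi)
    refine h3.congr (fun n => ?_)
    simp only [Function.comp]
    rw [← integral_const_mul]
    refine integral_congr_ae (Eventually.of_forall fun z => ?_)
    simp only [smul_eq_mul, Complex.finrank_real_complex]
    unfold pk
    have hn : (0 : ℝ) < (n : ℝ) + 1 := by positivity
    have e2 : rho (1 / ((n : ℝ) + 1)) z = ‖z‖ ^ 2 + (1 / ((n : ℝ) + 1)) ^ 2 := by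
      rw [norm_sq_eq]
      rfl
    rw [e2, norm_smul, Real.norm_eq_abs, abs_of_pos hn]
    have hp := Real.pi_pos.ne'
    have h4 : ‖z‖ ^ 2 + (1 / ((n : ℝ) + 1)) ^ 2 = (((n + 1) * ‖z‖) ^ 2 + 1) / ((n : ℝ) + 1) ^ 2 := by
      field_simp
    rw [h4]
    have h5 : ((n + 1) * ‖z‖) ^ 2 + 1 ≠ 0 := by positivity
    field_simp
  have t3 : Tendsto (fun n : ℕ => ∫ z, (1 / 2 * Real.log (rho (1 / ((n : ℝ) + 1)) z)) *
      Laplacian.laplacian f z) atTop (𝓝 (2 * Real.pi * f 0)) := by
    refine t2.congr (fun n => ?_)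
    exact (reg_identity hf hc (hε n)).symm
  exact tendsto_nhds_unique t1 t3

end Pool.Agent.Helper76.ES
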