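import Pool.Agent.Helper76.ES.Base
import Pool.Agent.Helper76.ES.ImPart

/-!
# Torsion values of a section are dense (module TOR, helper37)
-/

open Filter Topology Set MeasureTheory
open scoped Manifold ContDiff

noncomputable section

namespace Pool.Agent.Helper76.ES

namespace Tor

open ImPart

lemma isPreconnected_Hp : IsPreconnected Hp := convex_Hp.isPreconnected

/-- a holomorphic function on the upper half plane which is real on a nonempty open set is
constant -/
lemma const_of_im {f : ℂ → ℂ} (hf : DifferentiableOn ℂ f Hp) {U : Set ℂ} (hU : IsOpen U)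
    (hUH : U ⊆ Hp) (hne : U.Nonempty) (h : ∀ z ∈ U, (f z).im = 0) : ∃ c : ℂ, ∀ s ∈ Hp, f s = c := by
  have ha : AnalyticOnNhd ℂ f Hp := hf.analyticOnNhd isOpen_Hp
  rcases ha.is_constant_or_isOpen isPreconnected_Hp with h1 | h1
  · exact h1
  · exfalso
    have h2 := h1 U hUH hU
    obtain ⟨z, hz⟩ := hne
    obtain ⟨r, hr, hball⟩ := Metric.isOpen_iff.1 h2 (f z) ⟨z, hz, rfl⟩
    have h3 : f z + (r / 2 : ℝ) * Complex.I ∈ Metric.ball (f z) r := by
      rw [Metric.mem_ball, dist_eq_norm]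
      simp only [add_sub_cancel_left, norm_mul, Complex.norm_real, Complex.norm_I, mul_one]
      rw [Real.norm_of_nonneg (by positivity)]
      linarith
    obtain ⟨w, hw, hw'⟩ := hball h3
    have h4 := h w hw
    rw [hw'] at h4
    simp [h z hz] at h4
    linarith

/-- the section is not a constant real combination of the periods -/
lemma not_const {τ b : ℂ → ℂ} {n m : ℤ} (hn : n ≠ 0) (h1 : ∀ s ∈ Hp, τ (s + 1) = τ s + n)
    (h2 : ∀ s ∈ Hp, b (s + 1) = b s + m)
    (hne : ¬ ∃ c : ℂ, ∀ s ∈ Hp, b s = m / n * τ s + c) (r : ℝ) :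
    ¬ ∃ c : ℂ, ∀ s ∈ Hp, b s - r * τ s = c := by
  rintro ⟨c, hc⟩
  have hI : Complex.I ∈ Hp := by simp [Hp]
  have hI1 : Complex.I + 1 ∈ Hp := by simp [Hp]
  have e1 := hc _ hI
  have e2 := hc _ hI1
  rw [h1 _ hI, h2 _ hI, ← e1] at e2
  have e3 : (m : ℂ) = r * n := by linear_combination e2
  have hn' : (n : ℂ) ≠ 0 := by exact_mod_cast hn
  refine hne ⟨c, fun s hs => ?_⟩
  rw [e3, mul_div_assoc, div_self hn', mul_one]
  linear_combination hc s hs

end Tor

open ImPart Tor in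
theorem torsion_dense {τ b : ℂ → ℂ} (hτ : DifferentiableOn ℂ τ Hp) (hb : DifferentiableOn ℂ b Hp)
    (hpos : ∀ s ∈ Hp, 0 < (τ s).im) {n m : ℤ} (hn : n ≠ 0) (h1 : ∀ s ∈ Hp, τ (s + 1) = τ s + n)
    (h2 : ∀ s ∈ Hp, b (s + 1) = b s + m)
    (hne : ¬ ∃ c : ℂ, ∀ s ∈ Hp, b s = m / n * τ s + c) {s : ℂ} (hs : s ∈ Hp) {ε : ℝ} (hε : 0 < ε) :
    ∃ t ∈ Hp, dist t s < ε ∧ ∃ (N : ℕ) (M K : ℤ), 0 < N ∧ (N : ℂ) * b t = M * τ t + K := by
  obtain ⟨δ, hδ, hball⟩ := Metric.isOpen_iff.1 isOpen_Hp s hs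
  set B := Metric.ball s (min δ ε) with hB
  have hBH : B ⊆ Hp := (Metric.ball_subset_ball (min_le_left _ _)).trans hball
  have hr0 : 0 < min δ ε := lt_min hδ hε
  have hBo : IsOpen B := Metric.isOpen_ball
  have hBn : B.Nonempty := ⟨s, Metric.mem_ball_self hr0⟩
  have hsub : ∀ r : ℝ, DifferentiableOn ℂ (fun t => b t - r * τ t) Hp := fun r =>
    hb.sub (hτ.const_mul _)
  -- a point where the second coordinate is rational
  have key : ∃ t0 ∈ B, ∃ r : ℚ, (b t0).im / (τ t0).im = r := by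
    set β : ℂ → ℝ := fun t => (b t).im / (τ t).im with hβ
    have hβc : ContinuousOn β B := by
      refine ContinuousOn.div ?_ ?_ fun t ht => (hpos t (hBH ht)).ne'
      · exact Complex.continuous_im.comp_continuousOn (hb.continuousOn.mono hBH)
      · exact Complex.continuous_im.comp_continuousOn (hτ.continuousOn.mono hBH)
    have hpc : IsPreconnected (β '' B) := (convex_ball s _).isPreconnected.image β hβc
    by_cases hex : ∃ t1 ∈ B, ∃ t2 ∈ B, β t1 < β t2
    · obtain ⟨t1, ht1, t2, ht2, hlt⟩ := hex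
      obtain ⟨r, hr1, hr2⟩ := exists_rat_btwn hlt
      have h3 := hpc.Icc_subset (mem_image_of_mem β ht1) (mem_image_of_mem β ht2)
        ⟨hr1.le, hr2.le⟩
      obtain ⟨t0, ht0, he⟩ := h3
      exact ⟨t0, ht0, r, he⟩
    · exfalso
      push Not at hex
      have hconst : ∀ t ∈ B, β t = β s := fun t ht =>
        le_antisymm (hex s (Metric.mem_ball_self hr0) t ht) (hex t ht s (Metric.mem_ball_self hr0))
      refine not_const hn h1 h2 hne (β s) (const_of_im (hsub (β s)) hBo hBH hBn fun t ht => ?_)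
      have h3 := hconst t ht
      have h4 : (b t).im = β s * (τ t).im := by
        rw [← h3, hβ]
        simp only
        rw [div_mul_cancel₀ _ (hpos t (hBH ht)).ne']
      simp [h4]
  obtain ⟨t0, ht0, r, hr⟩ := key
  have ha : AnalyticOnNhd ℂ (fun t => b t - ((r : ℝ) : ℂ) * τ t) Hp :=
    (hsub r).analyticOnNhd isOpen_Hp
  rcases ha.is_constant_or_isOpen isPreconnected_Hp with h3 | h3
  · exact absurd h3 (not_const hn h1 h2 hne r)
  · have h4 := h3 B hBH hBo
    obtain ⟨ρ, hρ, hball'⟩ := Metric.isOpen_iff.1 h4 _ (mem_image_of_mem _ ht0)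
    have him : (b t0 - ((r : ℝ) : ℂ) * τ t0).im = 0 := by
      have h5 : (b t0).im = r * (τ t0).im := by
        rw [← hr, div_mul_cancel₀ _ (hpos t0 (hBH ht0)).ne']
      simp [h5]
    set x : ℝ := (b t0 - ((r : ℝ) : ℂ) * τ t0).re with hx
    obtain ⟨q, hq1, hq2⟩ := exists_rat_btwn (show x < x + ρ by linarith)
    have h6 : (((q : ℝ)) : ℂ) ∈ Metric.ball (b t0 - ((r : ℝ) : ℂ) * τ t0) ρ := by
      have h7 : b t0 - ((r : ℝ) : ℂ) * τ t0 = (x : ℂ) := by
        apply Complex.ext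
        · simp [hx]
        · rw [him]; simp
      rw [h7, Metric.mem_ball, dist_eq_norm, ← Complex.ofReal_sub, Complex.norm_real,
        Real.norm_of_nonneg (by linarith)]
      linarith
    obtain ⟨t, ht, hte⟩ := hball' h6
    refine ⟨t, hBH ht, (Metric.mem_ball.1 ht).trans_le (min_le_right _ _), r.den * q.den,
      r.num * q.den, q.num * r.den, Nat.mul_pos r.den_pos q.den_pos, ?_⟩
    have h8 : b t = ((r : ℝ) : ℂ) * τ t + ((q : ℝ) : ℂ) := by
      have : b t - ((r : ℝ) : ℂ) * τ t = ((q : ℝ) : ℂ) := hte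
      linear_combination this
    have hr' : ((r : ℝ) : ℂ) = (r.num : ℂ) / (r.den : ℂ) := by
      have : (r : ℝ) = (r.num : ℝ) / (r.den : ℝ) := by
        exact_mod_cast (Rat.num_div_den r).symm
      rw [this]; push_cast; rfl
    have hq' : ((q : ℝ) : ℂ) = (q.num : ℂ) / (q.den : ℂ) := by
      have : (q : ℝ) = (q.num : ℝ) / (q.den : ℝ) := by
        exact_mod_cast (Rat.num_div_den q).symm
      rw [this]; push_cast; rfl
    have hrd : (r.den : ℂ) ≠ 0 := by exact_mod_cast r.den_nz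
    have hqd : (q.den : ℂ) ≠ 0 := by exact_mod_cast q.den_nz
    rw [h8, hr', hq']
    push_cast
    field_simp

end Pool.Agent.Helper76.ES
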