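import Pool.Agent.Helper76.ES.Cyc
import Pool.Agent.Helper76.ES.Tor
import Pool.Agent.Helper76.ES.Lin

/-!
# Density of the regulators
-/

open Filter Topology Set MeasureTheory
open scoped Manifold ContDiff

noncomputable section

namespace Pool.Agent.Helper76.ES

variable {E : Type} [NormedAddCommGroup E] [NormedSpace ℂ E]
  {X : Type} [TopologicalSpace X] [ChartedSpace E X]

theorem numTrivial_of_reg {k : ℕ} {c : Fin k → ℝ} {η : Fin k → Form E X}
    (h0 : ∀ ξ : Chain E X, IsCycle ξ → ∑ j, c j * reg (η j) ξ = 0) :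
    NumTrivial (comb c η) := by
  have key : ∀ t : Term E X, t.Valid → (∀ x, t.bd x = 0) → Lin c η t →
      t.reg (comb c η) = 0 := by
    intro t h1 h2 h3
    have hc : IsCycle [((1 : ℤ), t)] := by
      refine ⟨?_, fun x => ?_⟩
      · intro q hq
        simp only [List.mem_cons, List.not_mem_nil, or_false] at hq
        rw [hq]; exact h1
      · simp [h2]
    have h4 : reg (comb c η) [((1 : ℤ), t)] = 0 := by
      rw [reg_lin]
      · exact h0 _ hc
      · intro q hq
        simp only [List.mem_cons, List.not_mem_nil, or_false] at hq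
        rw [hq]; exact h3
    simpa [reg] using h4
  refine ⟨fun C => ?_, fun C => ?_⟩
  · obtain ⟨h1, h2, h3, h4⟩ := rat_const C
    rw [← h3]; exact key _ h1 h2 (h4 c η)
  · obtain ⟨h1, h2, h3, h4⟩ := ell_const C
    rw [← h3]; exact key _ h1 h2 (h4 c η)

theorem exact_of_reg (F : Family E X) {k : ℕ} {c : Fin k → ℝ} {η : Fin k → Form E X}
    (h0 : ∀ ξ : Chain E X, IsCycle ξ → ∑ j, c j * reg (η j) ξ = 0) :
    ExactAlong F (comb c η) := by
  obtain ⟨U, κ, ψ, c', h⟩ := exists_isPot F (numTrivial_of_reg h0)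
  obtain ⟨u, hu, hu1, hu2⟩ := rat_potential (comb c η) F.R
  obtain ⟨u', hu', hu1', hu2'⟩ := rat_potential (comb c η) F.R'
  have hcont : ContinuousOn (Phi F U ψ u u') Hp := by
    intro s hs
    have h1 := contDiffAt_section h.smooth F.hb hs
    have h2 := contDiffAt_section h.smooth (a := fun _ => 0) (differentiableOn_const 0) hs
    have h3 := contDiffAt_rat hu F.hr hs
    have h4 := contDiffAt_rat hu' F.hr' hs
    have h5 := contDiffAt_quot h hs
    exact ((((h1.sub h2).sub h5).sub h3).add h4).continuousAt.continuousWithinAt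
  -- a torsion value
  have hI : (Complex.I : ℂ) ∈ Hp := by simp [Hp]
  obtain ⟨t, ht, -, N, M, K, hN, htb⟩ := torsion_dense F.hτ F.hb F.τ_pos F.hn F.τ_shift F.b_shift
    F.b_ne hI one_pos
  have hall : ∀ s ∈ Hp, Phi F U ψ u u' s = Phi F U ψ u u' t := by
    intro s hs
    by_contra hne
    have hopen : ∀ᶠ s' in 𝓝 s, Phi F U ψ u u' s' ≠ Phi F U ψ u u' t :=
      ((hcont s hs).continuousAt (isOpen_Hp.mem_nhds hs)).eventually_ne hne
    obtain ⟨ε, hε, hball⟩ := Metric.eventually_nhds_iff.1 hopen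
    obtain ⟨s', hs', hd, N', M', K', hN', hsb⟩ := torsion_dense F.hτ F.hb F.τ_pos F.hn F.τ_shift
      F.b_shift F.b_ne hs hε
    exact hball hd (Phi_eq h0 h hu2 hu2' hs' ht hN' hN hsb htb)
  obtain ⟨κ', hκ⟩ := psi_of_const h hu hu1 hu' hu1'
    (fun s hs t' ht' => (hall s hs).trans (hall t' ht').symm)
  exact exact_of_pot h hκ hu' hu1'

/-- multiples of a chain -/
def scale (a : ℤ) (ξ : Chain E X) : Chain E X := ξ.map fun t => (a * t.1, t.2)

theorem reg_scale (η : Form E X) (a : ℤ) (ξ : Chain E X) :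
    reg η (scale a ξ) = a * reg η ξ := by
  unfold reg scale
  rw [List.map_map, ← List.sum_map_mul_left]
  congr 1
  refine List.map_congr_left fun t _ => ?_
  simp only [Function.comp]
  push_cast; ring

theorem reg_append (η : Form E X) (ξ ξ' : Chain E X) :
    reg η (ξ ++ ξ') = reg η ξ + reg η ξ' := by
  unfold reg; simp

theorem isCycle_scale (a : ℤ) {ξ : Chain E X} (h : IsCycle ξ) : IsCycle (scale a ξ) := by
  refine ⟨?_, fun x => ?_⟩
  · intro t ht
    obtain ⟨t', ht', rfl⟩ := List.mem_map.1 ht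
    exact h.1 t' ht'
  · have := h.2 x
    unfold scale
    rw [List.map_map]
    have e : (ξ.map ((fun t : ℤ × Term E X => t.1 * t.2.bd x) ∘ fun t => (a * t.1, t.2))) =
        ξ.map fun t => a * (t.1 * t.2.bd x) := by
      refine List.map_congr_left fun t _ => ?_
      simp only [Function.comp]; ring
    rw [e, List.sum_map_mul_left, this, mul_zero]

theorem isCycle_append {ξ ξ' : Chain E X} (h : IsCycle ξ) (h' : IsCycle ξ') :
    IsCycle (ξ ++ ξ') := by
  refine ⟨?_, fun x => ?_⟩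
  · intro t ht
    rcases List.mem_append.1 ht with h1 | h1
    · exact h.1 t h1
    · exact h'.1 t h1
  · rw [List.map_append, List.sum_append, h.2 x, h'.2 x, add_zero]

theorem main (k : ℕ) (η : Fin k → Form E X)
    (h : ∀ c : Fin k → ℝ, NumTrivial (comb c η) → (∀ F : Family E X, ExactAlong F (comb c η)) →
      c = 0) :
    Dense {v : Fin k → ℝ | ∃ m : ℕ, 0 < m ∧ ∃ ξ : Chain E X, IsCycle ξ ∧
      ∀ j, v j = reg (η j) ξ / m} := by
  refine dense_of_no_functional ?_ ?_ ?_ ?_
  · exact ⟨1, one_pos, [], ⟨by simp, by simp⟩, fun j => by simp [reg]⟩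
  · rintro v ⟨m, hm, ξ, hξ, hv⟩ w ⟨m', hm', ξ', hξ', hw⟩
    refine ⟨m * m', Nat.mul_pos hm hm', scale m' ξ ++ scale m ξ',
      isCycle_append (isCycle_scale _ hξ) (isCycle_scale _ hξ'), fun j => ?_⟩
    rw [Pi.add_apply, hv, hw, reg_append, reg_scale, reg_scale]
    have h1 : (m : ℝ) ≠ 0 := by exact_mod_cast hm.ne'
    have h2 : (m' : ℝ) ≠ 0 := by exact_mod_cast hm'.ne'
    push_cast
    field_simp
  · rintro q v ⟨m, hm, ξ, hξ, hv⟩
    refine ⟨q.den * m, Nat.mul_pos q.den_pos hm, scale q.num ξ, isCycle_scale _ hξ, fun j => ?_⟩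
    simp only [hv, reg_scale]
    have h1 : (m : ℝ) ≠ 0 := by exact_mod_cast hm.ne'
    have h2 : (q.den : ℝ) ≠ 0 := by exact_mod_cast q.den_pos.ne'
    have h3 : (q : ℝ) = q.num / q.den := by exact_mod_cast (Rat.num_div_den q).symm
    rw [h3]
    push_cast
    field_simp
  · intro c hc
    have h0 : ∀ ξ : Chain E X, IsCycle ξ → ∑ j, c j * reg (η j) ξ = 0 := by
      intro ξ hξ
      exact hc (fun j => reg (η j) ξ) ⟨1, one_pos, ξ, hξ, fun j => by simp⟩
    exact h c (numTrivial_of_reg h0) (fun F => exact_of_reg F h0)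

end Pool.Agent.Helper76.ES
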