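import Pool.Agent.Helper76.ES.Base
import Pool.Agent.Helper76.ES.ImPart

/-!
# Polarisation (module POLAR, helper37)
-/

open Filter Topology Set MeasureTheory
open scoped Manifold ContDiff

noncomputable section

namespace Pool.Agent.Helper76.ES

open ImPart in
/-- one differentiation -/
lemma Polar.step {ι : Type} (S : Finset ι) {f g : ι → ℂ → ℂ}
    (hf : ∀ i ∈ S, DifferentiableOn ℂ (f i) Hp) (hg : ∀ i ∈ S, DifferentiableOn ℂ (g i) Hp)
    (h : ∀ s ∈ Hp, ∑ i ∈ S, f i s * (starRingEnd ℂ) (g i s) = 0) :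
    ∀ s ∈ Hp, ∑ i ∈ S, deriv (f i) s * (starRingEnd ℂ) (g i s) = 0 := by
  intro s hs
  have hd : ∀ v : ℂ, ∑ i ∈ S, (v * deriv (f i) s * (starRingEnd ℂ) (g i s) +
      f i s * (starRingEnd ℂ) (v * deriv (g i) s)) = 0 := by
    intro v
    have h1 : ∀ i ∈ S, HasDerivAt (fun t : ℝ => f i (s + t * v) * (starRingEnd ℂ) (g i (s + t * v)))
        (v * deriv (f i) s * (starRingEnd ℂ) (g i s) + f i s * (starRingEnd ℂ) (v * deriv (g i) s))
        0 := by
      intro i hi
      have hl : HasDerivAt (fun t : ℝ => s + t * v) v 0 := by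
        simpa using ((Complex.ofRealCLM.hasDerivAt (x := (0 : ℝ))).mul_const v).const_add s
      have e0 : s + ((0 : ℝ) : ℂ) * v = s := by simp
      have hfi : HasDerivAt (f i) (deriv (f i) s) (s + ((0 : ℝ) : ℂ) * v) := by
        rw [e0]
        exact ((hf i hi).differentiableAt (isOpen_Hp.mem_nhds hs)).hasDerivAt
      have hgi : HasDerivAt (g i) (deriv (g i) s) (s + ((0 : ℝ) : ℂ) * v) := by
        rw [e0]
        exact ((hg i hi).differentiableAt (isOpen_Hp.mem_nhds hs)).hasDerivAt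
      have h2 := hfi.comp_of_eq (0 : ℝ) hl rfl
      have h3 := hgi.comp_of_eq (0 : ℝ) hl rfl
      have h4 := (Complex.conjCLE.toContinuousLinearMap.hasFDerivAt.comp_hasDerivAt (0 : ℝ) h3)
      have h5 := h2.mul h4
      refine h5.congr_deriv ?_
      simp only [Function.comp_apply, e0]
      simp
      ring
    have h6 : HasDerivAt (fun t : ℝ => ∑ i ∈ S, f i (s + t * v) * (starRingEnd ℂ) (g i (s + t * v)))
        (∑ i ∈ S, (v * deriv (f i) s * (starRingEnd ℂ) (g i s) +
          f i s * (starRingEnd ℂ) (v * deriv (g i) s))) 0 := HasDerivAt.fun_sum h1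
    have h7 : (fun t : ℝ => ∑ i ∈ S, f i (s + t * v) * (starRingEnd ℂ) (g i (s + t * v)))
        =ᶠ[𝓝 0] fun _ => 0 := by
      have hc : ContinuousAt (fun t : ℝ => s + t * v) 0 := by fun_prop
      have : ∀ᶠ t : ℝ in 𝓝 0, s + t * v ∈ Hp := by
        refine hc.eventually_mem ?_
        have e0 : s + ((0 : ℝ) : ℂ) * v = s := by simp
        rw [e0]
        exact isOpen_Hp.mem_nhds hs
      filter_upwards [this] with t ht
      exact h _ ht
    have h8 := (h6.congr_of_eventuallyEq h7.symm).unique (hasDerivAt_const (0 : ℝ) (0 : ℂ))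
    exact h8
  have h1 := hd 1
  have h2 := hd Complex.I
  simp only [one_mul, map_mul, Complex.conj_I, Finset.sum_add_distrib] at h1 h2
  have h3 : ∑ i ∈ S, Complex.I * deriv (f i) s * (starRingEnd ℂ) (g i s) =
      Complex.I * ∑ i ∈ S, deriv (f i) s * (starRingEnd ℂ) (g i s) := by
    rw [Finset.mul_sum]; exact Finset.sum_congr rfl fun i _ => by ring
  have h4 : ∑ i ∈ S, f i s * (-Complex.I * (starRingEnd ℂ) (deriv (g i) s)) =
      -Complex.I * ∑ i ∈ S, f i s * (starRingEnd ℂ) (deriv (g i) s) := by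
    rw [Finset.mul_sum]; exact Finset.sum_congr rfl fun i _ => by ring
  rw [h3, h4] at h2
  have h5 : Complex.I * (2 * ∑ i ∈ S, deriv (f i) s * (starRingEnd ℂ) (g i s)) = 0 := by
    linear_combination h2 + Complex.I * h1
  have h6 := (mul_eq_zero.mp h5).resolve_left Complex.I_ne_zero
  exact (mul_eq_zero.mp h6).resolve_left two_ne_zero

open ImPart in
/-- a function of two variables which vanishes on the antidiagonal vanishes -/
theorem polarise {ι : Type} (S : Finset ι) {f g : ι → ℂ → ℂ} (hf : ∀ i ∈ S, DifferentiableOn ℂ (f i) Hp)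
    (hg : ∀ i ∈ S, DifferentiableOn ℂ (g i) Hp)
    (h : ∀ s ∈ Hp, ∑ i ∈ S, f i s * (starRingEnd ℂ) (g i s) = 0) :
    ∀ s ∈ Hp, ∀ t ∈ Hp, ∑ i ∈ S, f i s * (starRingEnd ℂ) (g i t) = 0 := by
  have hk : ∀ k : ℕ, (∀ i ∈ S, DifferentiableOn ℂ (iteratedDeriv k (f i)) Hp) ∧
      ∀ s ∈ Hp, ∑ i ∈ S, iteratedDeriv k (f i) s * (starRingEnd ℂ) (g i s) = 0 := by
    intro k
    induction k with
    | zero => simpa only [iteratedDeriv_zero] using ⟨hf, h⟩
    | succ k ih =>
      refine ⟨fun i hi => ?_, ?_⟩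
      · rw [iteratedDeriv_succ]
        exact (ih.1 i hi).deriv isOpen_Hp
      · simp only [iteratedDeriv_succ]
        exact Polar.step S ih.1 hg ih.2
  intro s hs t ht
  set F : ℂ → ℂ := fun z => ∑ i ∈ S, f i z * (starRingEnd ℂ) (g i t) with hF
  have hFd : DifferentiableOn ℂ F Hp :=
    DifferentiableOn.fun_sum fun i hi => (hf i hi).mul_const _
  obtain ⟨r, hr, hball⟩ := Metric.isOpen_iff.1 isOpen_Hp t ht
  have h0 : ∀ z ∈ Metric.ball t r, F z = 0 := by
    intro z hz
    have h1 : ∀ i ∈ S, HasSum (fun n : ℕ => (n.factorial : ℂ)⁻¹ • (z - t) ^ n •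
        iteratedDeriv n (f i) t) (f i z) := fun i hi =>
      Complex.hasSum_taylorSeries_on_ball ((hf i hi).mono hball) hz
    have h2 : HasSum (fun n : ℕ => ∑ i ∈ S, ((n.factorial : ℂ)⁻¹ • (z - t) ^ n •
        iteratedDeriv n (f i) t) * (starRingEnd ℂ) (g i t)) (F z) :=
      hasSum_sum fun i hi => (h1 i hi).mul_right _
    have h3 : ∀ n : ℕ, ∑ i ∈ S, ((n.factorial : ℂ)⁻¹ • (z - t) ^ n •
        iteratedDeriv n (f i) t) * (starRingEnd ℂ) (g i t) = 0 := by
      intro n
      have h4 := (hk n).2 t ht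
      have h5 : ∑ i ∈ S, ((n.factorial : ℂ)⁻¹ • (z - t) ^ n •
          iteratedDeriv n (f i) t) * (starRingEnd ℂ) (g i t) = (n.factorial : ℂ)⁻¹ * (z - t) ^ n *
          ∑ i ∈ S, iteratedDeriv n (f i) t * (starRingEnd ℂ) (g i t) := by
        rw [Finset.mul_sum]
        exact Finset.sum_congr rfl fun i _ => by simp only [smul_eq_mul]; ring
      rw [h5, h4, mul_zero]
    simp only [h3] at h2
    exact h2.unique hasSum_zero
  have hFa : AnalyticOnNhd ℂ F Hp := hFd.analyticOnNhd isOpen_Hp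
  have h6 := hFa.eqOn_zero_of_preconnected_of_eventuallyEq_zero convex_Hp.isPreconnected ht (by
    filter_upwards [Metric.ball_mem_nhds t hr] with z hz
    exact h0 z hz)
  exact h6 hs

end Pool.Agent.Helper76.ES
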