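import Pool.Agent.Helper76.ES.Base
import Pool.Agent.Helper76.ES.ImPart
import Pool.Agent.Helper76.ES.Polar
import Pool.Agent.Helper76.ES.Tor

/-!
# The function `ψ` is a multiple of `Im τ` (module POL, helper37)
-/

open Filter Topology Set MeasureTheory
open scoped Manifold ContDiff

noncomputable section

namespace Pool.Agent.Helper76.ES

open ImPart Tor in
theorem pol {τ b : ℂ → ℂ} (hτ : DifferentiableOn ℂ τ Hp) (hb : DifferentiableOn ℂ b Hp)
    (hpos : ∀ s ∈ Hp, 0 < (τ s).im) {n m : ℤ} (hn : n ≠ 0) (h1 : ∀ s ∈ Hp, τ (s + 1) = τ s + n)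
    (h2 : ∀ s ∈ Hp, b (s + 1) = b s + m)
    (hne : ¬ ∃ c : ℂ, ∀ s ∈ Hp, b s = m / n * τ s + c) {ψ : ℂ → ℝ} {c : ℝ}
    (hψ : ∀ s ∈ Hp, ContDiffAt ℝ 2 ψ s) (hψ0 : ∀ s ∈ Hp, Laplacian.laplacian ψ s = 0)
    (hψ1 : ∀ s ∈ Hp, ψ (s + 1) = ψ s + c * (τ s).im)
    (hψb : ∀ s ∈ Hp, Laplacian.laplacian (fun t => ψ t * (b t).im / (τ t).im) s = 0) :
    ∃ κ : ℝ, ∀ s ∈ Hp, ψ s = κ * (τ s).im := by
  have hn' : (n : ℂ) ≠ 0 := by exact_mod_cast hn
  have hnr : (n : ℝ) ≠ 0 := by exact_mod_cast hn
  have hs1 : ∀ s ∈ Hp, s + 1 ∈ Hp := fun s hs => by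
    simpa [Hp] using hs
  -- smoothness of the second function
  have hbd : ∀ s ∈ Hp, ContDiffAt ℝ 2 (fun t => ψ t * (b t).im / (τ t).im) s := by
    intro s hs
    have e1 : ContDiffAt ℝ 2 b s :=
      ((hb.analyticOnNhd isOpen_Hp s hs).contDiffAt (n := 2)).restrict_scalars ℝ
    have e2 : ContDiffAt ℝ 2 τ s :=
      ((hτ.analyticOnNhd isOpen_Hp s hs).contDiffAt (n := 2)).restrict_scalars ℝ
    have e3 : ContDiffAt ℝ 2 (fun t => (b t).im) s := Complex.imCLM.contDiff.contDiffAt.comp s e1
    have e4 : ContDiffAt ℝ 2 (fun t => (τ t).im) s := Complex.imCLM.contDiff.contDiffAt.comp s e2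
    exact ((hψ s hs).mul e3).div e4 (hpos s hs).ne'
  obtain ⟨h, hh, hψh⟩ := exists_im hψ hψ0
  obtain ⟨F0, hF0, hF0'⟩ := exists_im hbd hψb
  set p : ℝ := (m : ℝ) / n with hp
  set bb : ℂ → ℂ := fun s => b s - p * τ s with hbb
  have hbbd : DifferentiableOn ℂ bb Hp := hb.sub (hτ.const_mul _)
  have hbb1 : ∀ s ∈ Hp, bb (s + 1) = bb s := by
    intro s hs
    simp only [hbb, h1 s hs, h2 s hs, hp]
    push_cast
    field_simp
    ring
  have hbbc : ¬ ∃ w : ℂ, ∀ s ∈ Hp, bb s = w := not_const hn h1 h2 hne p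
  set F : ℂ → ℂ := fun s => F0 s - p * h s with hF
  have hFd : DifferentiableOn ℂ F Hp := hF0.sub (hh.const_mul _)
  have hFim : ∀ s ∈ Hp, (F s).im * (τ s).im = (h s).im * (bb s).im := by
    intro s hs
    have e1 := hF0' s hs
    have e2 := hψh s hs
    have e3 := (hpos s hs).ne'
    simp only [hF, hbb, Complex.sub_im, Complex.im_ofReal_mul]
    rw [← e1, ← e2]
    field_simp
  -- shifts
  obtain ⟨r, hr⟩ : ∃ r : ℂ, ∀ s ∈ Hp, h (s + 1) - h s - c * τ s = r := by
    refine const_of_im (U := Hp) ?_ isOpen_Hp subset_rfl ⟨Complex.I, by simp [Hp]⟩ ?_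
    · have : DifferentiableOn ℂ (fun s => h (s + 1)) Hp :=
        hh.comp (differentiableOn_id.add_const 1) hs1
      exact (this.sub hh).sub (hτ.const_mul _)
    · intro s hs
      have e1 := hψh s hs
      have e2 := hψh _ (hs1 s hs)
      have e3 := hψ1 s hs
      simp only [Complex.sub_im, Complex.im_ofReal_mul]
      rw [← e1, ← e2, e3]; ring
  have hrim : r.im = 0 := by
    have hI : Complex.I ∈ Hp := by simp [Hp]
    have e1 := hψh _ hI
    have e2 := hψh _ (hs1 _ hI)
    have e3 := hψ1 _ hI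
    rw [← hr _ hI]
    simp only [Complex.sub_im, Complex.im_ofReal_mul]
    rw [← e1, ← e2, e3]; ring
  have hFs : ∀ s ∈ Hp, (F (s + 1)).im = (F s).im + c * (bb s).im := by
    intro s hs
    have e1 := hFim s hs
    have e2 := hFim _ (hs1 s hs)
    have e3 := hψ1 s hs
    have e4 := (hpos s hs).ne'
    rw [hψh s hs, hψh _ (hs1 s hs)] at e3
    rw [hbb1 s hs, h1 s hs, e3] at e2
    simp only [Complex.add_im, Complex.intCast_im, add_zero] at e2
    apply mul_right_cancel₀ e4
    rw [e2]
    linear_combination (-1 : ℝ) * e1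
  obtain ⟨r', hr'⟩ : ∃ r' : ℂ, ∀ s ∈ Hp, F (s + 1) - F s - c * bb s = r' := by
    refine const_of_im (U := Hp) ?_ isOpen_Hp subset_rfl ⟨Complex.I, by simp [Hp]⟩ ?_
    · have : DifferentiableOn ℂ (fun s => F (s + 1)) Hp :=
        hFd.comp (differentiableOn_id.add_const 1) hs1
      exact (this.sub hFd).sub (hbbd.const_mul _)
    · intro s hs
      simp only [Complex.sub_im, Complex.im_ofReal_mul]
      rw [hFs s hs]; ring
  -- polarisation
  have hpol : ∀ s ∈ Hp, ∀ t ∈ Hp, (h s - (starRingEnd ℂ) (h t)) * (bb s - (starRingEnd ℂ) (bb t)) =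
      (F s - (starRingEnd ℂ) (F t)) * (τ s - (starRingEnd ℂ) (τ t)) := by
    have hone : DifferentiableOn ℂ (fun _ : ℂ => (1 : ℂ)) Hp := differentiableOn_const _
    have key := polarise (Finset.univ : Finset (Fin 8))
      (f := ![fun s => h s * bb s, fun s => -h s, fun s => -bb s, fun _ => 1,
        fun s => -(F s * τ s), fun s => F s, fun s => τ s, fun _ => -1])
      (g := ![fun _ => 1, bb, h, fun s => h s * bb s, fun _ => 1, τ, F, fun s => F s * τ s])
      (by
        intro i _
        fin_cases i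
        · exact hh.mul hbbd
        · exact hh.neg
        · exact hbbd.neg
        · exact hone
        · exact (hFd.mul hτ).neg
        · exact hFd
        · exact hτ
        · exact differentiableOn_const _)
      (by
        intro i _
        fin_cases i
        · exact hone
        · exact hbbd
        · exact hh
        · exact hh.mul hbbd
        · exact hone
        · exact hτ
        · exact hFd
        · exact hFd.mul hτ)
      (by
        intro s hs
        rw [Fin.sum_univ_eight]
        simp only [Matrix.cons_val, map_one, map_mul, mul_one, one_mul]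
        have e1 := hFim s hs
        have e2 : ∀ z : ℂ, z - (starRingEnd ℂ) z = 2 * z.im * Complex.I := fun z => by
          rw [Complex.sub_conj]; push_cast; ring
        have e3 : (h s - (starRingEnd ℂ) (h s)) * (bb s - (starRingEnd ℂ) (bb s)) =
            (F s - (starRingEnd ℂ) (F s)) * (τ s - (starRingEnd ℂ) (τ s)) := by
          rw [e2, e2, e2, e2]
          have e4 : (((F s).im * (τ s).im : ℝ) : ℂ) = (((h s).im * (bb s).im : ℝ) : ℂ) := by
            rw [e1]
          push_cast at e4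
          linear_combination (-4 * Complex.I ^ 2) * e4
        linear_combination e3)
    intro s hs t ht
    have e := key s hs t ht
    rw [Fin.sum_univ_eight] at e
    simp only [Matrix.cons_val, map_one, map_mul, mul_one, one_mul] at e
    linear_combination e
  -- first shift
  have hE1 : ∀ s ∈ Hp, ∀ t ∈ Hp, (c * τ s + r) * (bb s - (starRingEnd ℂ) (bb t)) =
      n * (F s - (starRingEnd ℂ) (F t)) +
        (c * bb s + r') * (τ s - (starRingEnd ℂ) (τ t) + n) := by
    intro s hs t ht
    have e1 := hpol s hs t ht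
    have e2 := hpol _ (hs1 s hs) t ht
    have e3 := hr s hs
    have e4 := hr' s hs
    have e5 : h (s + 1) = h s + c * τ s + r := by linear_combination e3
    have e6 : F (s + 1) = F s + c * bb s + r' := by linear_combination e4
    rw [e5, e6, hbb1 s hs, h1 s hs] at e2
    linear_combination e2 - e1
  -- second shift
  have hE2 : ∀ s ∈ Hp, ∀ t ∈ Hp, c * bb s + 2 * r' = -(c * (starRingEnd ℂ) (bb t)) := by
    intro s hs t ht
    have e1 := hE1 s hs t ht
    have e2 := hE1 _ (hs1 s hs) t ht
    have e4 := hr' s hs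
    have e6 : F (s + 1) = F s + c * bb s + r' := by linear_combination e4
    rw [e6, hbb1 s hs, h1 s hs] at e2
    have e7 : (n : ℂ) * (c * bb s + 2 * r' + c * (starRingEnd ℂ) (bb t)) = 0 := by
      linear_combination e1 - e2
    have e8 := (mul_eq_zero.mp e7).resolve_left hn'
    linear_combination e8
  have hc0 : (c : ℂ) = 0 := by
    by_contra hc
    apply hbbc
    have hI : Complex.I ∈ Hp := by simp [Hp]
    refine ⟨(-(c * (starRingEnd ℂ) (bb Complex.I)) - 2 * r') / c, fun s hs => ?_⟩
    rw [eq_div_iff hc]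
    linear_combination hE2 s hs _ hI
  have hr0 : r' = 0 := by
    have hI : Complex.I ∈ Hp := by simp [Hp]
    have e := hE2 _ hI _ hI
    rw [hc0] at e
    simp only [zero_mul, zero_add, neg_zero] at e
    exact (mul_eq_zero.mp e).resolve_left two_ne_zero
  -- conclusion
  set κ : ℝ := r.re / n with hκ
  have hκ' : (κ : ℂ) * n = r := by
    have e1 : (r.re : ℂ) = r := by
      apply Complex.ext
      · simp
      · simp [hrim]
    rw [hκ]; push_cast
    rw [e1]; field_simp
  have hzero : ∀ s ∈ Hp, (bb s).im * (ψ s - κ * (τ s).im) = 0 := by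
    intro s hs
    have e1 := hE1 s hs s hs
    have e2 := hpol s hs s hs
    rw [hc0, hr0] at e1
    simp only [zero_mul, zero_add, add_zero] at e1
    have e3 : (n : ℂ) * ((bb s - (starRingEnd ℂ) (bb s)) *
        ((h s - (starRingEnd ℂ) (h s)) - κ * (τ s - (starRingEnd ℂ) (τ s)))) = 0 := by
      linear_combination n * e2 - (τ s - (starRingEnd ℂ) (τ s)) * e1 -
        (bb s - (starRingEnd ℂ) (bb s)) * (τ s - (starRingEnd ℂ) (τ s)) * hκ'
    have e4 := (mul_eq_zero.mp e3).resolve_left hn'
    rw [Complex.sub_conj, Complex.sub_conj, Complex.sub_conj] at e4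
    have e5 : (((bb s).im * ((h s).im - κ * (τ s).im) : ℝ) : ℂ) * (-4) = 0 := by
      rw [← e4]
      push_cast
      linear_combination (-4 * (bb s).im * ((h s).im - κ * (τ s).im) : ℂ) * Complex.I_sq -
        (4 * (bb s).im * ((h s).im - κ * (τ s).im) : ℂ) * (Complex.I_sq - Complex.I_sq)
    have e6 := (mul_eq_zero.mp e5).resolve_right (by norm_num)
    rw [hψh s hs]
    exact_mod_cast e6
  refine ⟨κ, fun s hs => ?_⟩
  by_contra hcon
  have hcont : ContinuousOn (fun t => ψ t - κ * (τ t).im) Hp := by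
    refine ContinuousOn.sub (fun t ht => (hψ t ht).continuousAt.continuousWithinAt) ?_
    exact (Complex.continuous_im.comp_continuousOn hτ.continuousOn).const_mul _ |>.congr
      fun t _ => rfl
  have hopen : IsOpen (Hp ∩ (fun t => ψ t - κ * (τ t).im) ⁻¹' {0}ᶜ) :=
    hcont.isOpen_inter_preimage isOpen_Hp isOpen_compl_singleton
  refine hbbc (const_of_im hbbd hopen inter_subset_left ⟨s, hs, sub_ne_zero.mpr hcon⟩ ?_)
  rintro t ⟨ht, ht'⟩
  exact (mul_eq_zero.mp (hzero t ht)).resolve_right ht'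

end Pool.Agent.Helper76.ES
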