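import Pool.Agent.Helper76.ES.Pot
import Pool.Agent.Helper76.ES.FormL
import Pool.Agent.Helper76.ES.Pol

/-!
# Potentials along a family and the function `Φ`
-/

open Filter Topology Set MeasureTheory
open scoped Manifold ContDiff

noncomputable section

namespace Pool.Agent.Helper76.ES

variable {E : Type} [NormedAddCommGroup E] [NormedSpace ℂ E]
  {X : Type} [TopologicalSpace X] [ChartedSpace E X]

/-- the elliptic curve over `s` -/
def Family.ell (F : Family E X) {s : ℂ} (hs : s ∈ Hp) : EllCurve E X where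
  τ := F.τ s
  pos := F.τ_pos s hs
  φ := fun z => F.Ψ (s, z)
  hol := by
    have h1 : ContMDiff 𝓘(ℂ, ℂ) 𝓘(ℂ, ℂ × ℂ) ω (fun z : ℂ => (s, z)) :=
      ContDiff.contMDiff (by fun_prop)
    exact F.hΨ.comp_contMDiff h1 (fun z => hs)
  add_one := fun z => F.Ψ_one (s, z) hs
  add_tau := fun z => F.Ψ_tau (s, z) hs

/-- the pulled back potentials -/
def Family.P (F : Family E X) (η : Form E X) (p q : ℂ × ℂ) : ℝ := η.pot (F.Ψ p) (F.Ψ q)

theorem Family.geo (F : Family E X) (η : Form E X) : Geo F.τ (F.P η) where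
  loc := loc_of_form η isOpen_Om F.hΨ
  hol := F.hτ
  pos := F.τ_pos
  one_l := fun p hp q _ => by simp only [Family.P, F.Ψ_one p hp]
  one_r := fun p _ q hq => by simp only [Family.P, F.Ψ_one q hq]
  tau_l := fun p hp q _ => by simp only [Family.P, F.Ψ_tau p hp]
  tau_r := fun p _ q hq => by simp only [Family.P, F.Ψ_tau q hq]

theorem contDiffAt_P {Ω : Set (ℂ × ℂ)} {P : ℂ × ℂ → ℂ × ℂ → ℝ} (h : Loc Ω P) {p : ℂ × ℂ}
    (hp : p ∈ Ω) : ContDiffAt ℝ 2 (P p) p := (h.smooth p hp).of_le (by norm_cast)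

/-- vertical coefficient and density -/
theorem Family.L_eq_dens (F : Family E X) (η : Form E X) {s : ℂ} (hs : s ∈ Hp) (z : ℂ) :
    L (F.P η) (0, 1) (s, z) = dens η (fun w => F.Ψ (s, w)) z := by
  have h1 : ContDiffAt ℝ 2 (F.P η (s, z)) (s, z) := contDiffAt_P (F.geo η).loc hs
  have h2 : ContDiffAt ℂ 2 (fun w : ℂ => (s, w)) z := by fun_prop
  have h3 := laplacian_comp (u := F.P η (s, z)) (γ := fun w : ℂ => (s, w)) (s := z) h1 h2
  have h4 : deriv (fun w : ℂ => (s, w)) z = (0, 1) := by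
    have : HasDerivAt (fun w : ℂ => (s, w)) (0, 1) z :=
      (hasDerivAt_const z s).prodMk (hasDerivAt_id z)
    exact this.deriv
  rw [h4] at h3
  unfold dens
  rw [show (fun w => η.pot (F.Ψ (s, z)) (F.Ψ (s, w))) = fun w => F.P η (s, z) (s, w) from rfl, h3]
  rfl

/-- Laplacian of a function on the family along a section -/
theorem laplacian_section {U : ℂ × ℂ → ℝ} {a : ℂ → ℂ} (ha : DifferentiableOn ℂ a Hp) {s : ℂ}
    (hs : s ∈ Hp) (hU : ContDiffAt ℝ 2 U (s, a s)) :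
    Laplacian.laplacian (fun t : ℂ => U (t, a t)) s = lev U (s, a s) (1, deriv a s) := by
  have h0 : AnalyticAt ℂ a s := ha.analyticAt (isOpen_Hp.mem_nhds hs)
  have h2 : ContDiffAt ℂ 2 (fun t : ℂ => (t, a t)) s :=
    contDiffAt_id.prodMk (h0.contDiffAt.of_le (by norm_cast))
  have h3 := laplacian_comp (u := U) (γ := fun w : ℂ => (w, a w)) (s := s) hU h2
  have h4 : deriv (fun w : ℂ => (w, a w)) s = (1, deriv a s) := by
    have : HasDerivAt (fun w : ℂ => (w, a w)) (1, deriv a s) s :=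
      (hasDerivAt_id s).prodMk h0.differentiableAt.hasDerivAt
    exact this.deriv
  rw [h4] at h3
  exact h3

/-- a potential of a rational curve composed with a holomorphic function -/
theorem rat_section (η : Form E X) (R : RatCurve E X) {u : ℂ → ℝ} (hu : ContDiff ℝ 2 u)
    (hu' : ∀ z, Laplacian.laplacian u z = dens η R.φ z) {r : ℂ → ℂ} (hr : DifferentiableOn ℂ r Hp)
    {s : ℂ} (hs : s ∈ Hp) : Laplacian.laplacian (fun t : ℂ => u (r t)) s =
      Laplacian.laplacian (fun t : ℂ => η.pot (R.φ (r s)) (R.φ (r t))) s := by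
  have h0 : AnalyticAt ℂ r s := hr.analyticAt (isOpen_Hp.mem_nhds hs)
  have hr2 : ContDiffAt ℂ 2 r s := h0.contDiffAt.of_le (by norm_cast)
  have hloc := loc_of_form η (Ω := (univ : Set ℂ)) isOpen_univ (Ψ := R.φ) R.hol.contMDiffOn
  have hP : ContDiffAt ℝ 2 (fun w => η.pot (R.φ (r s)) (R.φ w)) (r s) :=
    (hloc.smooth (r s) (mem_univ _)).of_le (by norm_cast)
  rw [laplacian_comp (u := u) hu.contDiffAt hr2,
    laplacian_comp (u := fun w => η.pot (R.φ (r s)) (R.φ w)) hP hr2]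
  have e1 : deriv r s = deriv r s • (1 : ℂ) := by simp
  rw [e1, lev_smul hu.contDiffAt, lev_smul hP]
  congr 1
  have e2 : ∀ (v : ℂ → ℝ) (z : ℂ), ContDiffAt ℝ 2 v z → lev v z 1 = Laplacian.laplacian v z := by
    intro v z hv
    have := laplacian_comp (u := v) (γ := fun w : ℂ => w) (s := z) hv contDiffAt_id
    simpa using this.symm
  rw [e2 _ _ hu.contDiffAt, e2 _ _ hP, hu']
  rfl

/-- a potential on the family -/
structure IsPot (F : Family E X) (η : Form E X) (U : ℂ × ℂ → ℝ) (κ ψ : ℂ → ℝ) (c : ℝ) : Prop where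
  smooth : ∀ p ∈ Om, ContDiffAt ℝ 2 U p
  one : ∀ p ∈ Om, U (p.1, p.2 + 1) = U p
  tau : ∀ p ∈ Om, U (p.1, p.2 + F.τ p.1) = U p + ψ p.1
  lev_h : ∀ p ∈ Om, ∀ l : ℂ, lev U p (1, l) = L (F.P η) (1, l) p - κ p.1
  lev_v : ∀ p ∈ Om, lev U p (0, 1) = L (F.P η) (0, 1) p
  shift : ∀ s ∈ Hp, ψ (s + 1) = ψ s + c * (F.τ s).im

theorem exists_isPot (F : Family E X) {η : Form E X} (h : NumTrivial η) :
    ∃ U κ ψ c, IsPot F η U κ ψ c := by
  obtain ⟨U, κ, ψ, c, h1, h2, h3, h4, h5, h6⟩ := exists_potential (F.geo η) (n := F.n) (by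
      intro s hs
      have := h.2 (F.ell hs)
      simp only [F.L_eq_dens η hs]
      exact this) F.τ_shift
    (fun p hp q _ => by simp only [Family.P, F.Ψ_shift p hp])
    (fun p _ q hq => by simp only [Family.P, F.Ψ_shift q hq])
  exact ⟨U, κ, ψ, c, h1, h2, h3, h4, h5, h6⟩

section
variable {F : Family E X} {η : Form E X} {U : ℂ × ℂ → ℝ} {κ ψ : ℂ → ℝ} {c : ℝ}

/-- Laplacian of the potential along a section -/
theorem IsPot.section (h : IsPot F η U κ ψ c) {a : ℂ → ℂ} (ha : DifferentiableOn ℂ a Hp) {s : ℂ}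
    (hs : s ∈ Hp) : Laplacian.laplacian (fun t : ℂ => U (t, a t)) s =
      Laplacian.laplacian (fun t : ℂ => η.pot (F.Ψ (s, a s)) (F.Ψ (t, a t))) s - κ s := by
  rw [laplacian_section ha hs (h.smooth _ hs), h.lev_h _ hs]
  congr 1
  exact (L_curve (F.geo η).loc ha hs).symm

theorem contDiffAt_section {U : ℂ × ℂ → ℝ} (hU : ∀ p ∈ Om, ContDiffAt ℝ 2 U p) {a : ℂ → ℂ}
    (ha : DifferentiableOn ℂ a Hp) {s : ℂ} (hs : s ∈ Hp) :
    ContDiffAt ℝ 2 (fun t : ℂ => U (t, a t)) s := by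
  have h0 : AnalyticAt ℂ a s := ha.analyticAt (isOpen_Hp.mem_nhds hs)
  have h2 : ContDiffAt ℝ 2 (fun t : ℂ => (t, a t)) s :=
    contDiffAt_id.prodMk ((h0.contDiffAt.of_le (by norm_cast)).restrict_scalars ℝ)
  exact ContDiffAt.comp s (hU _ hs) h2

theorem contDiffAt_im {a : ℂ → ℂ} (ha : DifferentiableOn ℂ a Hp) {s : ℂ} (hs : s ∈ Hp) :
    ContDiffAt ℝ 2 (fun t : ℂ => (a t).im) s := by
  have h0 : AnalyticAt ℂ a s := ha.analyticAt (isOpen_Hp.mem_nhds hs)
  have h1 : ContDiffAt ℝ 2 a s := (h0.contDiffAt.of_le (by norm_cast)).restrict_scalars ℝ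
  exact Complex.imCLM.contDiff.contDiffAt.comp s h1

/-- the multiplier is the difference of two values of the potential -/
theorem IsPot.psi_eq (h : IsPot F η U κ ψ c) {s : ℂ} (hs : s ∈ Hp) :
    ψ s = U (s, F.τ s) - U (s, 0) := by
  have := h.tau (s, 0) hs
  simp only [zero_add] at this
  rw [this]; ring

theorem IsPot.psi_smooth (h : IsPot F η U κ ψ c) {s : ℂ} (hs : s ∈ Hp) : ContDiffAt ℝ 2 ψ s := by
  have h1 := contDiffAt_section h.smooth F.hτ hs
  have h2 := contDiffAt_section h.smooth (a := fun _ => 0) (differentiableOn_const 0) hs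
  refine (h1.sub h2).congr_of_eventuallyEq ?_
  filter_upwards [isOpen_Hp.mem_nhds hs] with t ht
  exact h.psi_eq ht

theorem IsPot.psi_harmonic (h : IsPot F η U κ ψ c) {s : ℂ} (hs : s ∈ Hp) :
    Laplacian.laplacian ψ s = 0 := by
  have h1 := contDiffAt_section h.smooth F.hτ hs
  have h2 := contDiffAt_section h.smooth (a := fun _ => 0) (differentiableOn_const 0) hs
  have e : ψ =ᶠ[𝓝 s] (fun t : ℂ => U (t, F.τ t)) - fun t : ℂ => U (t, 0) := by
    filter_upwards [isOpen_Hp.mem_nhds hs] with t ht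
    exact h.psi_eq ht
  rw [(InnerProductSpace.laplacian_congr_nhds e).eq_of_nhds, h1.laplacian_sub h2,
    h.section F.hτ hs]
  have h3 := h.section (a := fun _ => 0) (differentiableOn_const 0) hs
  rw [h3]
  have e2 : (fun t : ℂ => η.pot (F.Ψ (s, F.τ s)) (F.Ψ (t, F.τ t))) =ᶠ[𝓝 s]
      fun t : ℂ => η.pot (F.Ψ (s, 0)) (F.Ψ (t, 0)) := by
    have h4 : ∀ t ∈ Hp, F.Ψ (t, F.τ t) = F.Ψ (t, 0) := fun t ht => by
      have := F.Ψ_tau (t, 0) ht
      simpa using this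
    filter_upwards [isOpen_Hp.mem_nhds hs] with t ht
    rw [h4 t ht, h4 s hs]
  rw [(InnerProductSpace.laplacian_congr_nhds e2).eq_of_nhds]
  ring

/-- the function `Φ` -/
def Phi (F : Family E X) (U : ℂ × ℂ → ℝ) (ψ : ℂ → ℝ) (u u' : ℂ → ℝ) (s : ℂ) : ℝ :=
  U (s, F.b s) - U (s, 0) - ψ s * (F.b s).im / (F.τ s).im - u (F.r s) + u' (F.r' s)

theorem contDiffAt_quot (h : IsPot F η U κ ψ c) {s : ℂ} (hs : s ∈ Hp) :
    ContDiffAt ℝ 2 (fun t => ψ t * (F.b t).im / (F.τ t).im) s :=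
  ((h.psi_smooth hs).mul (contDiffAt_im F.hb hs)).div (contDiffAt_im F.hτ hs)
    (F.τ_pos s hs).ne'

theorem contDiffAt_rat {u : ℂ → ℝ} (hu : ContDiff ℝ 2 u) {r : ℂ → ℂ}
    (hr : DifferentiableOn ℂ r Hp) {s : ℂ} (hs : s ∈ Hp) :
    ContDiffAt ℝ 2 (fun t => u (r t)) s := by
  have h0 : AnalyticAt ℂ r s := hr.analyticAt (isOpen_Hp.mem_nhds hs)
  exact hu.contDiffAt.comp s ((h0.contDiffAt.of_le (by norm_cast)).restrict_scalars ℝ)

/-- the Laplacian of the part of `Φ` without the quotient is zero -/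
theorem Phi_main (h : IsPot F η U κ ψ c) {u u' : ℂ → ℝ} (hu : ContDiff ℝ 2 u)
    (hu1 : ∀ z, Laplacian.laplacian u z = dens η F.R.φ z) (hu' : ContDiff ℝ 2 u')
    (hu1' : ∀ z, Laplacian.laplacian u' z = dens η F.R'.φ z) {s : ℂ} (hs : s ∈ Hp) :
    Laplacian.laplacian (fun t => U (t, F.b t) - U (t, 0) - u (F.r t) + u' (F.r' t)) s = 0 := by
  have h1 := contDiffAt_section h.smooth F.hb hs
  have h2 := contDiffAt_section h.smooth (a := fun _ => 0) (differentiableOn_const 0) hs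
  have h3 := contDiffAt_rat hu F.hr hs
  have h4 := contDiffAt_rat hu' F.hr' hs
  have e : (fun t => U (t, F.b t) - U (t, 0) - u (F.r t) + u' (F.r' t)) =
      (((fun t : ℂ => U (t, F.b t)) - fun t : ℂ => U (t, 0)) - fun t => u (F.r t)) +
        fun t => u' (F.r' t) := rfl
  have h12 : ContDiffAt ℝ 2 ((fun t : ℂ => U (t, F.b t)) - fun t : ℂ => U (t, 0)) s := h1.sub h2
  have h13 : ContDiffAt ℝ 2 (((fun t : ℂ => U (t, F.b t)) - fun t : ℂ => U (t, 0)) -
    fun t => u (F.r t)) s := h12.sub h3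
  rw [e, h13.laplacian_add h4, h12.laplacian_sub h3,
    h1.laplacian_sub h2, h.section F.hb hs, h.section (a := fun _ => 0) (differentiableOn_const 0) hs,
    rat_section η F.R hu hu1 F.hr hs, rat_section η F.R' hu' hu1' F.hr' hs]
  have e1 : (fun t : ℂ => η.pot (F.Ψ (s, F.b s)) (F.Ψ (t, F.b t))) =ᶠ[𝓝 s]
      fun t : ℂ => η.pot (F.R.φ (F.r s)) (F.R.φ (F.r t)) := by
    filter_upwards [isOpen_Hp.mem_nhds hs] with t ht
    rw [F.meet t ht, F.meet s hs]
  have e2 : (fun t : ℂ => η.pot (F.Ψ (s, 0)) (F.Ψ (t, 0))) =ᶠ[𝓝 s]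
      fun t : ℂ => η.pot (F.R'.φ (F.r' s)) (F.R'.φ (F.r' t)) := by
    filter_upwards [isOpen_Hp.mem_nhds hs] with t ht
    rw [F.meet' t ht, F.meet' s hs]
  rw [(InnerProductSpace.laplacian_congr_nhds e1).eq_of_nhds,
    (InnerProductSpace.laplacian_congr_nhds e2).eq_of_nhds]
  ring

/-- if `Φ` is constant then the multiplier is a multiple of `Im τ` -/
theorem psi_of_const (h : IsPot F η U κ ψ c) {u u' : ℂ → ℝ} (hu : ContDiff ℝ 2 u)
    (hu1 : ∀ z, Laplacian.laplacian u z = dens η F.R.φ z) (hu' : ContDiff ℝ 2 u')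
    (hu1' : ∀ z, Laplacian.laplacian u' z = dens η F.R'.φ z)
    (hΦ : ∀ s ∈ Hp, ∀ t ∈ Hp, Phi F U ψ u u' s = Phi F U ψ u u' t) :
    ∃ k : ℝ, ∀ s ∈ Hp, ψ s = k * (F.τ s).im := by
  refine pol F.hτ F.hb F.τ_pos F.hn F.τ_shift F.b_shift F.b_ne (fun s hs => h.psi_smooth hs)
    (fun s hs => h.psi_harmonic hs) h.shift ?_
  intro s hs
  have h1 := contDiffAt_section h.smooth F.hb hs
  have h2 := contDiffAt_section h.smooth (a := fun _ => 0) (differentiableOn_const 0) hs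
  have h3 := contDiffAt_rat hu F.hr hs
  have h4 := contDiffAt_rat hu' F.hr' hs
  have e : (fun t => ψ t * (F.b t).im / (F.τ t).im) =ᶠ[𝓝 s]
      (fun t => U (t, F.b t) - U (t, 0) - u (F.r t) + u' (F.r' t)) -
        fun _ => Phi F U ψ u u' s := by
    filter_upwards [isOpen_Hp.mem_nhds hs] with t ht
    simp only [Pi.sub_apply]
    rw [hΦ s hs t ht, Phi]
    ring
  have h5 : ContDiffAt ℝ 2 (fun t => U (t, F.b t) - U (t, 0) - u (F.r t) + u' (F.r' t)) s :=
    ((h1.sub h2).sub h3).add h4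
  rw [(InnerProductSpace.laplacian_congr_nhds e).eq_of_nhds, h5.laplacian_sub contDiffAt_const,
    Phi_main h hu hu1 hu' hu1' hs, InnerProductSpace.laplacian_const]
  simp

end

end Pool.Agent.Helper76.ES
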