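import Pool.Agent.Helper76.ES.Coef
import Pool.Agent.Helper76.ES.Inv

/-!
# The coefficients of the form are quasi-periodic
-/

open Filter Topology Set MeasureTheory
open scoped Manifold ContDiff

noncomputable section

namespace Pool.Agent.Helper76.ES

theorem qp_C {τ : ℂ → ℂ} {P : ℂ × ℂ → ℂ × ℂ → ℝ} (G : Geo τ P) : QP τ 0 (L P (0, 1)) := by
  refine ⟨fun j => if j = 0 then L P (0, 1) else fun _ => 0, ?_, ?_, ?_⟩
  · intro j
    by_cases hj : j = 0
    · simp only [hj, if_true]; exact L_smooth G.loc _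
    · simp only [hj, if_false]; exact contDiffOn_const
  · intro j p hp
    by_cases hj : j = 0
    · simp only [hj, if_true]; exact L_add_one G hp _
    · simp only [hj, if_false]
  · intro k p hp
    rw [C_add_tau G hp k]
    simp

namespace QpL

theorem smooth_deriv {τ : ℂ → ℂ} (hτ : DifferentiableOn ℂ τ Hp) :
    ContDiffOn ℝ ∞ (fun p : ℂ × ℂ => deriv τ p.1) Om := by
  have hopen : IsOpen Hp := isOpen_lt continuous_const Complex.continuous_im
  have h1 : AnalyticOnNhd ℂ (deriv τ) Hp := (hτ.analyticOnNhd hopen).deriv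
  have h2 : ContDiffOn ℂ ∞ (deriv τ) Hp := h1.contDiffOn hopen.uniqueDiffOn
  have h3 : ContDiffOn ℝ ∞ (deriv τ) Hp := h2.restrict_scalars ℝ
  exact h3.comp contDiff_fst.contDiffOn (fun p hp => hp)

theorem smooth_cA {P : ℂ × ℂ → ℂ × ℂ → ℝ} (h : Loc Om P) : ContDiffOn ℝ ∞ (cA P) Om := by
  unfold cA
  exact (((L_smooth h _).sub (L_smooth h _)).sub (L_smooth h _)).div_const 2

theorem smooth_cB {P : ℂ × ℂ → ℂ × ℂ → ℝ} (h : Loc Om P) : ContDiffOn ℝ ∞ (cB P) Om := by
  unfold cB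
  exact (((L_smooth h _).sub (L_smooth h _)).sub (L_smooth h _)).div_const 2

theorem cA_add_one {τ : ℂ → ℂ} {P : ℂ × ℂ → ℂ × ℂ → ℝ} (G : Geo τ P) {p : ℂ × ℂ} (hp : p ∈ Om) :
    cA P (p.1, p.2 + 1) = cA P p := by
  unfold cA; rw [L_add_one G hp, L_add_one G hp, L_add_one G hp]

theorem cB_add_one {τ : ℂ → ℂ} {P : ℂ × ℂ → ℂ × ℂ → ℝ} (G : Geo τ P) {p : ℂ × ℂ} (hp : p ∈ Om) :
    cB P (p.1, p.2 + 1) = cB P p := by
  unfold cB; rw [L_add_one G hp, L_add_one G hp, L_add_one G hp]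

theorem norm_sq (z : ℂ) : ‖z‖ ^ 2 = z.re ^ 2 + z.im ^ 2 := by
  rw [Complex.sq_norm, Complex.normSq_apply]; ring

end QpL

open QpL in
theorem qp_L {τ : ℂ → ℂ} {P : ℂ × ℂ → ℂ × ℂ → ℝ} (G : Geo τ P) (l : ℂ) :
    QP τ 2 (L P (1, l)) := by
  have hd := smooth_deriv G.hol
  have hre : ContDiffOn ℝ ∞ (fun p : ℂ × ℂ => (deriv τ p.1).re) Om :=
    Complex.reCLM.contDiff.comp_contDiffOn hd
  have him : ContDiffOn ℝ ∞ (fun p : ℂ × ℂ => (deriv τ p.1).im) Om :=
    Complex.imCLM.contDiff.comp_contDiffOn hd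
  have hA := smooth_cA G.loc
  have hB := smooth_cB G.loc
  have hC : ContDiffOn ℝ ∞ (L P (0, 1)) Om := L_smooth G.loc _
  let g1 : ℂ × ℂ → ℝ := fun p => -(2 * cA P p * (deriv τ p.1).re) - 2 * cB P p * (deriv τ p.1).im
    - 2 * (l.re * (deriv τ p.1).re + l.im * (deriv τ p.1).im) * L P (0, 1) p
  let g2 : ℂ × ℂ → ℝ := fun p =>
    ((deriv τ p.1).re * (deriv τ p.1).re + (deriv τ p.1).im * (deriv τ p.1).im) * L P (0, 1) p
  have hg1 : ContDiffOn ℝ ∞ g1 Om := by
    refine ((((contDiffOn_const.mul hA).mul hre).neg).sub ((contDiffOn_const.mul hB).mul him)).sub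
      ((contDiffOn_const.mul ((contDiffOn_const.mul hre).add (contDiffOn_const.mul him))).mul hC)
  have hg2 : ContDiffOn ℝ ∞ g2 Om := ((hre.mul hre).add (him.mul him)).mul hC
  refine ⟨fun j => if j = 0 then L P (1, l) else if j = 1 then g1 else if j = 2 then g2
    else fun _ => 0, ?_, ?_, ?_⟩
  · intro j
    dsimp only
    split_ifs
    · exact L_smooth G.loc _
    · exact hg1
    · exact hg2
    · exact contDiffOn_const
  · intro j p hp
    dsimp only
    split_ifs
    · exact L_add_one G hp _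
    · simp only [g1]; rw [cA_add_one G hp, cB_add_one G hp, L_add_one G hp]
    · simp only [g2]; rw [L_add_one G hp]
    · rfl
  · intro k p hp
    rw [L_add_tau G hp k l, L_one G.loc hp (l - k * deriv τ p.1)]
    simp only [Finset.sum_range_succ, Finset.sum_range_zero]
    rw [if_pos trivial, if_neg one_ne_zero, if_pos trivial, if_neg two_ne_zero,
      if_neg (by norm_num), if_pos trivial, L_one G.loc hp l, norm_sq, norm_sq]
    simp only [g1, g2, Complex.sub_re, Complex.sub_im, Complex.mul_re, Complex.mul_im,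
      Complex.intCast_re, Complex.intCast_im, zero_mul, sub_zero, add_zero]
    ring

end Pool.Agent.Helper76.ES
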