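import Pool.Agent.Helper76.ES.Base

/-!
# Quasi-periodic functions: derivatives and growth (module QP, helper87)
-/

open Filter Topology Set MeasureTheory
open scoped Manifold ContDiff

noncomputable section

namespace Pool.Agent.Helper76.ES

namespace Quasi

lemma isOpen_Hp : IsOpen Hp := isOpen_lt continuous_const Complex.continuous_im

lemma isOpen_Om : IsOpen Om := isOpen_lt continuous_const (Complex.continuous_im.comp continuous_fst)

/-- the zeroth coefficient is the function itself -/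
lemma eq_zero {τ : ℂ → ℂ} {d : ℕ} {f : ℂ × ℂ → ℝ} {g : ℕ → ℂ × ℂ → ℝ}
    (h : ∀ k : ℤ, ∀ p ∈ Om, f (p.1, p.2 + k * τ p.1) =
      ∑ j ∈ Finset.range (d + 1), (k : ℝ) ^ j * g j p) {p : ℂ × ℂ} (hp : p ∈ Om) : f p = g 0 p := by
  have h0 := h 0 p hp
  simp only [Int.cast_zero, zero_mul, add_zero, Prod.mk.eta] at h0
  rw [h0, Finset.sum_range_succ']
  simp

/-- we may assume that the coefficients after the last one are zero -/
lemma trunc {τ : ℂ → ℂ} {d : ℕ} {f : ℂ × ℂ → ℝ} (hf : QP τ d f) :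
    ∃ g : ℕ → ℂ × ℂ → ℝ, (∀ j, ContDiffOn ℝ ∞ (g j) Om) ∧
    (∀ j, ∀ p ∈ Om, g j (p.1, p.2 + 1) = g j p) ∧ (∀ j, d < j → g j = fun _ => 0) ∧
    ∀ k : ℤ, ∀ p ∈ Om, f (p.1, p.2 + k * τ p.1) =
      ∑ j ∈ Finset.range (d + 1), (k : ℝ) ^ j * g j p := by
  obtain ⟨g, h1, h2, h3⟩ := hf
  refine ⟨fun j => if j ≤ d then g j else fun _ => 0, ?_, ?_, ?_, ?_⟩
  · intro j
    by_cases hj : j ≤ d
    · simp only [if_pos hj]; exact h1 j
    · simp only [if_neg hj]; exact contDiffOn_const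
  · intro j p hp
    by_cases hj : j ≤ d
    · simp only [if_pos hj]; exact h2 j p hp
    · simp only [if_neg hj]
  · intro j hj
    simp only [if_neg (not_le.2 hj)]
  · intro k p hp
    rw [h3 k p hp]
    refine Finset.sum_congr rfl fun j hj => ?_
    simp only [if_pos (Nat.lt_succ_iff.1 (Finset.mem_range.1 hj))]

/-- derivatives of periodic functions are periodic -/
lemma fderiv_periodic {g : ℂ × ℂ → ℝ} (h : ∀ p ∈ Om, g (p.1, p.2 + 1) = g p) {p : ℂ × ℂ}
    (hp : p ∈ Om) : fderiv ℝ g (p.1, p.2 + 1) = fderiv ℝ g p := by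
  have h1 : (p.1, p.2 + 1) = p + ((0 : ℂ), (1 : ℂ)) := by
    ext <;> simp
  rw [h1, ← fderiv_comp_add_right]
  apply Filter.EventuallyEq.fderiv_eq
  filter_upwards [isOpen_Om.mem_nhds hp] with q hq
  have := h q hq
  rw [← this]
  congr 1
  ext <;> simp

/-- periodicity under integers -/
lemma int_periodic {g : ℂ × ℂ → ℝ} (h : ∀ p ∈ Om, g (p.1, p.2 + 1) = g p) {s : ℂ} (hs : s ∈ Hp)
    (z : ℂ) (n : ℤ) : g (s, z - n) = g (s, z) := by
  have hp : Function.Periodic (fun z => g (s, z)) 1 := fun z => h (s, z) hs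
  have := hp.sub_zsmul_eq (x := z) n
  simpa using this

end Quasi

open Quasi

theorem QP.contDiffOn {τ : ℂ → ℂ} {d : ℕ} {f : ℂ × ℂ → ℝ} (hf : QP τ d f) :
    ContDiffOn ℝ ∞ f Om := by
  obtain ⟨g, h1, h2, h3⟩ := hf
  exact (h1 0).congr fun p hp => eq_zero h3 hp

theorem QP.add_one {τ : ℂ → ℂ} {d : ℕ} {f : ℂ × ℂ → ℝ} (hf : QP τ d f) {p : ℂ × ℂ} (hp : p ∈ Om) :
    f (p.1, p.2 + 1) = f p := by
  obtain ⟨g, h1, h2, h3⟩ := hf
  rw [eq_zero h3 hp, ← h2 0 p hp]
  exact eq_zero h3 (p := (p.1, p.2 + 1)) hp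

theorem QP.mono {τ : ℂ → ℂ} {d d' : ℕ} (hd : d ≤ d') {f : ℂ × ℂ → ℝ} (hf : QP τ d f) :
    QP τ d' f := by
  obtain ⟨g, h1, h2, h0, h3⟩ := trunc hf
  refine ⟨g, h1, h2, fun k p hp => ?_⟩
  rw [h3 k p hp]
  refine Finset.sum_subset (Finset.range_subset_range.2 (by omega)) fun j _ hj => ?_
  rw [h0 j (by simpa using hj)]
  simp

theorem QP.add {τ : ℂ → ℂ} {d : ℕ} {f g : ℂ × ℂ → ℝ} (hf : QP τ d f) (hg : QP τ d g) :
    QP τ d (fun p => f p + g p) := by
  obtain ⟨u, h1, h2, h3⟩ := hf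
  obtain ⟨v, i1, i2, i3⟩ := hg
  refine ⟨fun j p => u j p + v j p, fun j => (h1 j).add (i1 j), fun j p hp => ?_, fun k p hp => ?_⟩
  · simp only [h2 j p hp, i2 j p hp]
  · simp only [h3 k p hp, i3 k p hp, ← Finset.sum_add_distrib, mul_add]

theorem QP.const_mul {τ : ℂ → ℂ} {d : ℕ} {f : ℂ × ℂ → ℝ} (hf : QP τ d f) (c : ℝ) :
    QP τ d (fun p => c * f p) := by
  obtain ⟨u, h1, h2, h3⟩ := hf
  refine ⟨fun j p => c * u j p, fun j => contDiffOn_const.mul (h1 j), fun j p hp => ?_,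
    fun k p hp => ?_⟩
  · simp only [h2 j p hp]
  · simp only [h3 k p hp, Finset.mul_sum]
    exact Finset.sum_congr rfl fun j _ => by ring

theorem QP.dv {τ : ℂ → ℂ} (hτ : DifferentiableOn ℂ τ Hp) {d : ℕ} {f : ℂ × ℂ → ℝ} (hf : QP τ d f)
    (v : ℂ × ℂ) : QP τ (d + 1) (dv v f) := by
  have hfs := hf.contDiffOn
  obtain ⟨g, h1, h2, h0, h3⟩ := trunc hf
  have hfd : ∀ j, ContDiffOn ℝ ∞ (fderiv ℝ (g j)) Om := fun j =>
    (h1 j).fderiv_of_isOpen isOpen_Om (by simp)
  have hder : ContDiffOn ℝ ∞ (fun p : ℂ × ℂ => deriv τ p.1) Om := by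
    have e1 : ContDiffOn ℂ ∞ τ Hp := hτ.contDiffOn isOpen_Hp
    have e2 : ContDiffOn ℂ ∞ (deriv τ) Hp := e1.deriv_of_isOpen isOpen_Hp (by simp)
    have e3 : ContDiffOn ℝ ∞ (deriv τ) Hp := e2.restrict_scalars ℝ
    exact e3.comp contDiff_fst.contDiffOn fun p hp => hp
  refine ⟨fun j p => ES.dv v (g j) p -
    (if j = 0 then 0 else fderiv ℝ (g (j - 1)) p (0, deriv τ p.1 * v.1)), fun j => ?_,
    fun j p hp => ?_, fun k p hp => ?_⟩
  · refine ContDiffOn.sub ((hfd j).clm_apply contDiffOn_const) ?_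
    by_cases hj : j = 0
    · simp only [if_pos hj]; exact contDiffOn_const
    · simp only [if_neg hj]
      exact (hfd (j - 1)).clm_apply (contDiffOn_const.prodMk (hder.mul contDiffOn_const))
  · simp only [ES.dv, fderiv_periodic (h2 j) hp, fderiv_periodic (h2 (j - 1)) hp]
  · -- the map `T`
    have hT : HasFDerivAt (fun q : ℂ × ℂ => (q.1, q.2 + k * τ q.1))
        (((ContinuousLinearMap.fst ℂ ℂ ℂ).prod (ContinuousLinearMap.snd ℂ ℂ ℂ +
          (k : ℂ) • (deriv τ p.1 • ContinuousLinearMap.fst ℂ ℂ ℂ))).restrictScalars ℝ) p := by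
      refine HasFDerivAt.restrictScalars ℝ ?_
      have e1 : HasDerivAt τ (deriv τ p.1) p.1 :=
        (hτ.differentiableAt (isOpen_Hp.mem_nhds hp)).hasDerivAt
      have e2 : HasFDerivAt (fun q : ℂ × ℂ => τ q.1)
          (deriv τ p.1 • ContinuousLinearMap.fst ℂ ℂ ℂ) p :=
        e1.comp_hasFDerivAt p hasFDerivAt_fst
      exact hasFDerivAt_fst.prodMk (hasFDerivAt_snd.add (e2.const_mul (k : ℂ)))
    have hTp : (p.1, p.2 + k * τ p.1) ∈ Om := hp
    have hfT : HasFDerivAt f (fderiv ℝ f (p.1, p.2 + k * τ p.1)) (p.1, p.2 + k * τ p.1) :=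
      ((hfs.contDiffAt (isOpen_Om.mem_nhds hTp)).differentiableAt (by simp)).hasFDerivAt
    have hcomp := hfT.comp p hT
    have hsum : HasFDerivAt (fun q : ℂ × ℂ => ∑ j ∈ Finset.range (d + 1), (k : ℝ) ^ j * g j q)
        (∑ j ∈ Finset.range (d + 1), (k : ℝ) ^ j • fderiv ℝ (g j) p) p := by
      refine HasFDerivAt.fun_sum fun j _ => ?_
      exact (((h1 j).contDiffAt (isOpen_Om.mem_nhds hp)).differentiableAt
        (by simp)).hasFDerivAt.const_mul _
    have heq : (f ∘ fun q : ℂ × ℂ => (q.1, q.2 + k * τ q.1)) =ᶠ[𝓝 p]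
        fun q : ℂ × ℂ => ∑ j ∈ Finset.range (d + 1), (k : ℝ) ^ j * g j q := by
      filter_upwards [isOpen_Om.mem_nhds hp] with q hq
      exact h3 k q hq
    have huniq := (hcomp.congr_of_eventuallyEq heq.symm).unique hsum
    have happ := congrArg (fun L : ℂ × ℂ →L[ℝ] ℝ => L (v.1, v.2 - k * (deriv τ p.1 * v.1))) huniq
    simp only [ContinuousLinearMap.comp_apply, ContinuousLinearMap.coe_restrictScalars',
      ContinuousLinearMap.prod_apply, ContinuousLinearMap.add_apply, ContinuousLinearMap.smul_apply,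
      ContinuousLinearMap.coe_fst', ContinuousLinearMap.coe_snd', smul_eq_mul,
      ContinuousLinearMap.sum_apply, sub_add_cancel] at happ
    simp only [ES.dv]
    rw [happ]
    have hlin : ∀ j, fderiv ℝ (g j) p (v.1, v.2 - k * (deriv τ p.1 * v.1)) =
        fderiv ℝ (g j) p v - k * fderiv ℝ (g j) p (0, deriv τ p.1 * v.1) := by
      intro j
      have e : (v.1, v.2 - k * (deriv τ p.1 * v.1)) =
          v - (k : ℝ) • ((0 : ℂ), deriv τ p.1 * v.1) := by
        ext <;> simp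
      rw [e, map_sub, map_smul, smul_eq_mul]
    simp only [hlin, mul_sub, Finset.sum_sub_distrib]
    congr 1
    · rw [Finset.sum_range_succ (n := d + 1), h0 (d + 1) (by omega)]
      simp
    · rw [Finset.sum_range_succ' (n := d + 1)]
      simp only [Nat.add_eq_zero_iff, one_ne_zero, and_false, if_false, Nat.add_sub_cancel, if_true,
        mul_zero, add_zero, pow_succ]
      exact Finset.sum_congr rfl fun j _ => by ring

theorem QP.growth {τ : ℂ → ℂ} (hτ : DifferentiableOn ℂ τ Hp) (hpos : ∀ s ∈ Hp, 0 < (τ s).im)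
    {d : ℕ} {f : ℂ × ℂ → ℝ} (hf : QP τ d f) {K : Set ℂ} (hK : IsCompact K) (hKH : K ⊆ Hp) :
    ∃ M : ℝ, ∀ s ∈ K, ∀ z : ℂ, |f (s, z)| ≤ M * (1 + |z.im|) ^ d := by
  rcases K.eq_empty_or_nonempty with rfl | hne
  · exact ⟨0, by simp⟩
  have hcont : ContinuousOn (fun s => (τ s).im) K :=
    Complex.continuous_im.comp_continuousOn (hτ.continuousOn.mono hKH)
  obtain ⟨s0, hs0, hmin⟩ := hK.exists_isMinOn hne hcont
  obtain ⟨s1, hs1, hmax⟩ := hK.exists_isMaxOn hne hcont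
  set δ := (τ s0).im with hδ
  set A := (τ s1).im with hA
  have hδ0 : 0 < δ := hpos _ (hKH hs0)
  have hmin' : ∀ s ∈ K, δ ≤ (τ s).im := fun s hs => hmin hs
  have hmax' : ∀ s ∈ K, (τ s).im ≤ A := fun s hs => hmax hs
  obtain ⟨g, h1, h2, h3⟩ := hf
  -- the compact set
  have hC : IsCompact (K ×ˢ (Icc (0 : ℝ) 1 ×ℂ Icc (0 : ℝ) A)) :=
    hK.prod (isCompact_Icc.reProdIm isCompact_Icc)
  have hB : ∀ j, ∃ B : ℝ, ∀ p ∈ K ×ˢ (Icc (0 : ℝ) 1 ×ℂ Icc (0 : ℝ) A), |g j p| ≤ B := by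
    intro j
    have := hC.exists_bound_of_continuousOn (f := g j)
      ((h1 j).continuousOn.mono fun p hp => hKH hp.1)
    simpa [Real.norm_eq_abs] using this
  choose B hB using hB
  have hB0 : ∀ j, 0 ≤ B j := by
    intro j
    have := hB j (s0, 0) ⟨hs0, by
      simp only [Complex.mem_reProdIm, Complex.zero_re, Complex.zero_im, mem_Icc]
      exact ⟨⟨le_refl _, zero_le_one⟩, le_refl _, hδ0.le.trans (hmax' s0 hs0)⟩⟩
    exact (abs_nonneg _).trans this
  set C := 1 / δ + 1 with hCdef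
  have hC1 : 1 ≤ C := by
    have : 0 < 1 / δ := by positivity
    linarith
  refine ⟨∑ j ∈ Finset.range (d + 1), C ^ d * B j, fun s hs z => ?_⟩
  have hτs : 0 < (τ s).im := hpos _ (hKH hs)
  set k := ⌊z.im / (τ s).im⌋ with hk
  set z1 := z - k * τ s with hz1
  have e1 : z = z1 + k * τ s := by rw [hz1]; ring
  have him : z1.im = z.im - k * (τ s).im := by
    rw [hz1]; simp
  have him0 : 0 ≤ z1.im := by
    have := Int.floor_le (z.im / (τ s).im)
    rw [le_div_iff₀ hτs] at this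
    rw [him]; linarith
  have him1 : z1.im < (τ s).im := by
    have := Int.lt_floor_add_one (z.im / (τ s).im)
    rw [div_lt_iff₀ hτs] at this
    rw [him]; linarith
  have hf1 : f (s, z) = ∑ j ∈ Finset.range (d + 1), (k : ℝ) ^ j * g j (s, z1) := by
    have := h3 k (s, z1) (hKH hs)
    simp only at this
    rw [← this, ← e1]
  have hg : ∀ j, |g j (s, z1)| ≤ B j := by
    intro j
    rw [← int_periodic (h2 j) (hKH hs) z1 ⌊z1.re⌋]
    refine hB j _ ⟨hs, ?_⟩
    simp only [Complex.mem_reProdIm, Complex.sub_re, Complex.intCast_re, Complex.sub_im,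
      Complex.intCast_im, sub_zero, mem_Icc]
    have f1 := Int.floor_le z1.re
    have f2 := Int.lt_floor_add_one z1.re
    exact ⟨⟨by linarith, by linarith⟩, him0, (him1.le.trans (hmax' s hs))⟩
  have hkb : |(k : ℝ)| ≤ C * (1 + |z.im|) := by
    have f1 : |(k : ℝ)| ≤ |z.im / (τ s).im| + 1 := by
      have g1 := Int.floor_le (z.im / (τ s).im)
      have g2 := Int.lt_floor_add_one (z.im / (τ s).im)
      rw [← hk] at g1 g2
      rw [abs_le]
      have g3 := le_abs_self (z.im / (τ s).im)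
      have g4 := neg_abs_le (z.im / (τ s).im)
      constructor <;> linarith
    have f2 : |z.im / (τ s).im| ≤ |z.im| / δ := by
      rw [abs_div, abs_of_pos hτs]
      exact div_le_div_of_nonneg_left (abs_nonneg _) hδ0 (hmin' s hs)
    have f3 : C * (1 + |z.im|) = |z.im| / δ + 1 + (1 / δ + |z.im|) := by
      rw [hCdef]; ring
    have f4 : 0 ≤ 1 / δ + |z.im| := by positivity
    rw [f3]; linarith
  rw [hf1, Finset.sum_mul]
  refine (Finset.abs_sum_le_sum_abs _ _).trans (Finset.sum_le_sum fun j hj => ?_)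
  have hjd : j ≤ d := Nat.lt_succ_iff.1 (Finset.mem_range.1 hj)
  have hz : 1 ≤ 1 + |z.im| := by linarith [abs_nonneg z.im]
  calc |(k : ℝ) ^ j * g j (s, z1)| = |(k : ℝ)| ^ j * |g j (s, z1)| := by rw [abs_mul, abs_pow]
    _ ≤ (C * (1 + |z.im|)) ^ j * B j :=
        mul_le_mul (pow_le_pow_left₀ (abs_nonneg _) hkb j) (hg j) (abs_nonneg _) (by positivity)
    _ ≤ (C * (1 + |z.im|)) ^ d * B j := by
        refine mul_le_mul_of_nonneg_right (pow_le_pow_right₀ ?_ hjd) (hB0 j)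
        calc (1 : ℝ) = 1 * 1 := (one_mul 1).symm
          _ ≤ C * (1 + |z.im|) := mul_le_mul hC1 hz zero_le_one (by positivity)
    _ = C ^ d * B j * (1 + |z.im|) ^ d := by rw [mul_pow]; ring

end Pool.Agent.Helper76.ES
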