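import Pool.Agent.Helper76.ES.Avg
import Pool.Agent.Helper76.ES.Rel
import Pool.Agent.Helper76.ES.QpL
import Pool.Agent.Helper76.ES.Quasi

/-!
# Primitive of the averaged form
-/

open Filter Topology Set MeasureTheory
open scoped Manifold ContDiff

noncomputable section

namespace Pool.Agent.Helper76.ES

private theorem zn_open : IsOpen Om := by
  have : Continuous fun p : ℂ × ℂ => p.1.im := Complex.continuous_im.comp continuous_fst
  exact isOpen_lt continuous_const this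

private theorem zn_convex : Convex ℝ Om :=
  (convex_Ioi (0 : ℝ)).linear_preimage (Complex.imLm.comp (LinearMap.fst ℝ ℂ ℂ))

private theorem zn_int {τ : ℂ → ℂ} {d : ℕ} {f : ℂ × ℂ → ℝ} (hf : QP τ d f) {p : ℂ × ℂ}
    (hp : p ∈ Om) : IntervalIntegrable (fun s : ℝ => f (p.1, p.2 + s)) volume 0 1 := by
  apply Continuous.intervalIntegrable
  have h1 : Continuous fun s : ℝ => (p.1, p.2 + (s : ℂ)) := by fun_prop
  exact hf.contDiffOn.continuousOn.comp_continuous h1 fun s => hp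

private theorem zn_add {τ : ℂ → ℂ} {d d' : ℕ} {f g : ℂ × ℂ → ℝ} (hf : QP τ d f)
    (hg : QP τ d' g) {p : ℂ × ℂ} (hp : p ∈ Om) :
    avg (fun q => f q + g q) p = avg f p + avg g p := by
  unfold avg
  exact intervalIntegral.integral_add (zn_int hf hp) (zn_int hg hp)

private theorem zn_sub {τ : ℂ → ℂ} {d d' : ℕ} {f g : ℂ × ℂ → ℝ} (hf : QP τ d f)
    (hg : QP τ d' g) {p : ℂ × ℂ} (hp : p ∈ Om) :
    avg (fun q => f q - g q) p = avg f p - avg g p := by
  unfold avg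
  exact intervalIntegral.integral_sub (zn_int hf hp) (zn_int hg hp)

private theorem zn_congr {f g : ℂ × ℂ → ℝ} (h : ∀ p ∈ Om, f p = g p) {p : ℂ × ℂ}
    (hp : p ∈ Om) : avg f p = avg g p := by
  unfold avg
  exact intervalIntegral.integral_congr fun s _ => h _ hp

private theorem zn_cA {τ : ℂ → ℂ} {P : ℂ × ℂ → ℂ × ℂ → ℝ} (G : Geo τ P) : QP τ 2 (cA P) := by
  have h := (((qp_L G 1).add (((qp_L G 0).const_mul (-1)).add
    (((qp_C G).mono (Nat.zero_le 2)).const_mul (-1))))).const_mul (1 / 2)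
  have e : (fun p => 1 / 2 * (L P (1, 1) p + (-1 * L P (1, 0) p + -1 * L P (0, 1) p))) = cA P := by
    funext p
    unfold cA
    ring
  rw [e] at h
  exact h

private theorem zn_cB {τ : ℂ → ℂ} {P : ℂ × ℂ → ℂ × ℂ → ℝ} (G : Geo τ P) : QP τ 2 (cB P) := by
  have h := (((qp_L G Complex.I).add (((qp_L G 0).const_mul (-1)).add
    (((qp_C G).mono (Nat.zero_le 2)).const_mul (-1))))).const_mul (1 / 2)
  have e : (fun p => 1 / 2 * (L P (1, Complex.I) p + (-1 * L P (1, 0) p +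
      -1 * L P (0, 1) p))) = cB P := by
    funext p
    unfold cB
    ring
  rw [e] at h
  exact h

private theorem zn_expand (f : ℂ × ℂ → ℝ) (p v : ℂ × ℂ) : fderiv ℝ f p v =
    v.1.re * dv (1, 0) f p + v.1.im * dv (Complex.I, 0) f p + v.2.re * dv (0, 1) f p +
      v.2.im * dv (0, Complex.I) f p := by
  have h : v = v.1.re • ((1 : ℂ), (0 : ℂ)) + v.1.im • (Complex.I, (0 : ℂ)) +
      v.2.re • ((0 : ℂ), (1 : ℂ)) + v.2.im • ((0 : ℂ), Complex.I) := by
    refine Prod.ext ?_ ?_ <;> apply Complex.ext <;> simp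
  conv_lhs => rw [h]
  simp only [map_add, map_smul, smul_eq_mul, dv]

theorem exists_N {τ : ℂ → ℂ} {P : ℂ × ℂ → ℂ × ℂ → ℝ} (G : Geo τ P) :
    ∃ N : ℂ × ℂ → ℝ, ContDiffOn ℝ ∞ N Om ∧ ∀ p ∈ Om, ∀ v : ℂ × ℂ, dv v N p =
      avg (cB P) p * v.1.re + avg (cA P) p * v.1.im + avg (L P (0, 1)) p * v.2.im := by
  have qA := zn_cA G
  have qB := zn_cB G
  have qC := qp_C G
  have q0 := qp_L G 0
  obtain ⟨sA, dA⟩ := avg_smooth G.hol G.pos qA
  obtain ⟨sB, dB⟩ := avg_smooth G.hol G.pos qB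
  obtain ⟨sC, dC⟩ := avg_smooth G.hol G.pos qC
  -- the relations
  have r4 : ∀ p ∈ Om, dv (1, 0) (avg (cA P)) p = dv (Complex.I, 0) (avg (cB P)) p := by
    intro p hp
    have h1 := zn_congr (fun q hq => rel4 G.loc hq) hp
    rw [zn_sub (qA.dv G.hol _) (qB.dv G.hol _) hp, avg_dv_x q0 hp] at h1
    rw [dA _ p hp, dB _ p hp]
    linarith
  have r1 : ∀ p ∈ Om, dv (0, Complex.I) (avg (cB P)) p = dv (1, 0) (avg (L P (0, 1))) p := by
    intro p hp
    have h1 := zn_congr (fun q hq => rel1 G.loc hq) hp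
    rw [zn_add (qA.dv G.hol _) (qB.dv G.hol _) hp, avg_dv_x qA hp] at h1
    rw [dB _ p hp, dC _ p hp]
    linarith
  have r2 : ∀ p ∈ Om, dv (0, Complex.I) (avg (cA P)) p =
      dv (Complex.I, 0) (avg (L P (0, 1))) p := by
    intro p hp
    have h1 := zn_congr (fun q hq => rel2 G.loc hq) hp
    rw [zn_sub (qA.dv G.hol _) (qB.dv G.hol _) hp, avg_dv_x qB hp] at h1
    rw [dA _ p hp, dC _ p hp]
    linarith
  have xA : ∀ p ∈ Om, dv (0, 1) (avg (cA P)) p = 0 := fun p hp => by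
    rw [dA _ p hp, avg_dv_x qA hp]
  have xB : ∀ p ∈ Om, dv (0, 1) (avg (cB P)) p = 0 := fun p hp => by
    rw [dB _ p hp, avg_dv_x qB hp]
  have xC : ∀ p ∈ Om, dv (0, 1) (avg (L P (0, 1))) p = 0 := fun p hp => by
    rw [dC _ p hp, avg_dv_x qC hp]
  -- the form
  set c1 : ℂ × ℂ →L[ℝ] ℝ := Complex.reCLM.comp (ContinuousLinearMap.fst ℝ ℂ ℂ) with hc1
  set c2 : ℂ × ℂ →L[ℝ] ℝ := Complex.imCLM.comp (ContinuousLinearMap.fst ℝ ℂ ℂ) with hc2
  set c3 : ℂ × ℂ →L[ℝ] ℝ := Complex.imCLM.comp (ContinuousLinearMap.snd ℝ ℂ ℂ) with hc3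
  set om : ℂ × ℂ → ℂ × ℂ →L[ℝ] ℝ := fun p =>
    avg (cB P) p • c1 + avg (cA P) p • c2 + avg (L P (0, 1)) p • c3 with hom
  have som : ContDiffOn ℝ ∞ om Om :=
    ((sB.smul contDiffOn_const).add (sA.smul contDiffOn_const)).add (sC.smul contDiffOn_const)
  have hdiff : ∀ {f : ℂ × ℂ → ℝ}, ContDiffOn ℝ ∞ f Om → ∀ p ∈ Om,
      HasFDerivAt f (fderiv ℝ f p) p := fun hf p hp =>
    ((hf.differentiableOn (by simp)).differentiableAt (zn_open.mem_nhds hp)).hasFDerivAt
  have hD : ∀ p ∈ Om, HasFDerivAt om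
      ((fderiv ℝ (avg (cB P)) p).smulRight c1 + (fderiv ℝ (avg (cA P)) p).smulRight c2 +
        (fderiv ℝ (avg (L P (0, 1))) p).smulRight c3) p := fun p hp =>
    (((hdiff sB p hp).smul_const c1).add ((hdiff sA p hp).smul_const c2)).add
      ((hdiff sC p hp).smul_const c3)
  have hW : ∀ p ∈ Om, HasFDerivWithinAt om
      ((fderiv ℝ (avg (cB P)) p).smulRight c1 + (fderiv ℝ (avg (cA P)) p).smulRight c2 +
        (fderiv ℝ (avg (L P (0, 1))) p).smulRight c3) Om p :=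
    fun p hp => (hD p hp).hasFDerivWithinAt
  obtain ⟨N, hN⟩ := zn_convex.exists_forall_hasFDerivWithinAt_of_hasFDerivWithinAt_symmetric
    hW (by
      intro p hp v _ w _
      simp only [ContinuousLinearMap.add_apply, ContinuousLinearMap.smulRight_apply,
        ContinuousLinearMap.smul_apply, smul_eq_mul, zn_expand, xA p hp, xB p hp, xC p hp,
        r4 p hp, r1 p hp, r2 p hp]
      simp only [hc1, hc2, hc3, ContinuousLinearMap.comp_apply, ContinuousLinearMap.coe_fst',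
        ContinuousLinearMap.coe_snd', Complex.reCLM_apply, Complex.imCLM_apply]
      ring)
  have hN' : ∀ p ∈ Om, HasFDerivAt N (om p) p := fun p hp =>
    (hN p hp).hasFDerivAt (zn_open.mem_nhds hp)
  refine ⟨N, ?_, ?_⟩
  · rw [contDiffOn_infty_iff_fderiv_of_isOpen zn_open]
    refine ⟨fun p hp => (hN' p hp).differentiableAt.differentiableWithinAt, ?_⟩
    exact som.congr fun p hp => (hN' p hp).fderiv
  · intro p hp v
    unfold dv
    rw [(hN' p hp).fderiv]
    simp only [hom, hc1, hc2, hc3, ContinuousLinearMap.add_apply, ContinuousLinearMap.smul_apply,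
      ContinuousLinearMap.comp_apply, ContinuousLinearMap.coe_fst',
      ContinuousLinearMap.coe_snd', Complex.reCLM_apply, Complex.imCLM_apply, smul_eq_mul]

end Pool.Agent.Helper76.ES
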