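import Pool.Agent.Helper76.ES.UOne
import Pool.Agent.Helper76.ES.ZeroV
import Pool.Agent.Helper76.ES.Inv
import Pool.Agent.Helper76.ES.ZeroN

/-!
# The potential on a family of elliptic curves
-/

open Filter Topology Set MeasureTheory
open scoped Manifold ContDiff

noncomputable section

namespace Pool.Agent.Helper76.ES

theorem isOpen_Hp : IsOpen Hp := isOpen_lt continuous_const Complex.continuous_im

theorem isOpen_Om : IsOpen Om :=
  isOpen_lt continuous_const (Complex.continuous_im.comp continuous_fst)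

theorem convex_Om : Convex ℝ Om := by
  intro p hp q hq a b ha hb hab
  have h1 : 0 < p.1.im := hp
  have h2 : 0 < q.1.im := hq
  show 0 < (a • p + b • q).1.im
  simp only [Prod.fst_add, Prod.smul_fst, Complex.add_im, Complex.smul_im]
  rcases ha.eq_or_lt with h | h
  · rw [← h] at hab ⊢
    simp at hab
    rw [hab]; simpa using h2
  · have : 0 < a • p.1.im := by simpa using mul_pos h h1
    have h3 : 0 ≤ b • q.1.im := by simpa using mul_nonneg hb h2.le
    linarith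

/-- a function with zero derivative on `Om` is constant -/
theorem const_of_dv {H : ℂ × ℂ → ℝ} (hH : DifferentiableOn ℝ H Om)
    (h : ∀ p ∈ Om, ∀ v, dv v H p = 0) {p q : ℂ × ℂ} (hp : p ∈ Om) (hq : q ∈ Om) : H p = H q := by
  refine convex_Om.is_const_of_fderivWithin_eq_zero hH ?_ hp hq
  intro x hx
  rw [fderivWithin_of_isOpen isOpen_Om hx]
  exact ContinuousLinearMap.ext fun v => h x hx v

theorem add_one_mem {p : ℂ × ℂ} (hp : p ∈ Om) : (p.1 + 1, p.2) ∈ Om := by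
  have h : 0 < p.1.im := hp
  show 0 < (p.1 + 1).im
  simpa using h

theorem L_shift {P : ℂ × ℂ → ℂ × ℂ → ℝ}
    (hs_l : ∀ p ∈ Om, ∀ q ∈ Om, P (p.1 + 1, p.2) q = P p q)
    (hs_r : ∀ p ∈ Om, ∀ q ∈ Om, P p (q.1 + 1, q.2) = P p q) {p : ℂ × ℂ} (hp : p ∈ Om)
    (e : ℂ × ℂ) : L P e (p.1 + 1, p.2) = L P e p := by
  have e1 : ∀ q : ℂ × ℂ, q + (1, 0) = (q.1 + 1, q.2) := fun q => by ext <;> simp
  rw [← e1]
  refine L_translate (1, 0) ?_ ?_ ?_ hp e
  · intro q hq; rw [e1]; exact add_one_mem hq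
  · intro q hq r hr; rw [e1]; exact hs_l q hq r hr
  · intro q hq r hr; rw [e1]; exact hs_r q hq r hr

theorem avg_shift {f : ℂ × ℂ → ℝ} (h : ∀ p ∈ Om, f (p.1 + 1, p.2) = f p) {p : ℂ × ℂ}
    (hp : p ∈ Om) : avg f (p.1 + 1, p.2) = avg f p := by
  unfold avg
  refine intervalIntegral.integral_congr fun s _ => ?_
  exact h (p.1, p.2 + s) hp

theorem exists_potential {τ : ℂ → ℂ} {P : ℂ × ℂ → ℂ × ℂ → ℝ} (G : Geo τ P)
    (h0 : ∀ s ∈ Hp, ∫ a in box (τ s), L P (0, 1) (s, pt a) = 0) {n : ℤ}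
    (hτ : ∀ s ∈ Hp, τ (s + 1) = τ s + n)
    (hs_l : ∀ p ∈ Om, ∀ q ∈ Om, P (p.1 + 1, p.2) q = P p q)
    (hs_r : ∀ p ∈ Om, ∀ q ∈ Om, P p (q.1 + 1, q.2) = P p q) :
    ∃ (U : ℂ × ℂ → ℝ) (κ ψ : ℂ → ℝ) (c : ℝ),
      (∀ p ∈ Om, ContDiffAt ℝ 2 U p) ∧
      (∀ p ∈ Om, U (p.1, p.2 + 1) = U p) ∧ (∀ p ∈ Om, U (p.1, p.2 + τ p.1) = U p + ψ p.1) ∧
      (∀ p ∈ Om, ∀ l : ℂ, lev U p (1, l) = L P (1, l) p - κ p.1) ∧
      (∀ p ∈ Om, lev U p (0, 1) = L P (0, 1) p) ∧
      (∀ s ∈ Hp, ψ (s + 1) = ψ s + c * (τ s).im) := by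
  obtain ⟨N, hN, hN'⟩ := exists_N G
  obtain ⟨V, hV, hV1, hVτ, hVl, hVC⟩ := exists_V G h0 hN hN'
  have hU1 := U1_smooth G
  have hVd : ∀ p ∈ Om, ContDiffAt ℝ 2 V p := fun p hp =>
    (hV.contDiffAt (isOpen_Om.mem_nhds hp)).of_le (by norm_cast)
  have hUd : ∀ p ∈ Om, ContDiffAt ℝ 2 (U1 P) p := fun p hp =>
    (hU1.contDiffAt (isOpen_Om.mem_nhds hp)).of_le (by norm_cast)
  have hNd : DifferentiableOn ℝ N Om := hN.differentiableOn (by norm_num)
  have hNs : DifferentiableOn ℝ (fun p : ℂ × ℂ => N (p.1 + 1, p.2)) Om := by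
    intro p hp
    have h1 : DifferentiableAt ℝ N (p.1 + 1, p.2) :=
      hNd.differentiableAt (isOpen_Om.mem_nhds (add_one_mem hp))
    have h2 : DifferentiableAt ℝ (fun p : ℂ × ℂ => (p.1 + 1, p.2)) p := by fun_prop
    exact (DifferentiableAt.comp p h1 h2).differentiableWithinAt
  have hdv : ∀ p ∈ Om, ∀ v, dv v (fun p : ℂ × ℂ => N (p.1 + 1, p.2)) p = dv v N p := by
    intro p hp v
    have h1 : DifferentiableAt ℝ N (p.1 + 1, p.2) :=
      hNd.differentiableAt (isOpen_Om.mem_nhds (add_one_mem hp))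
    have e1 : dv v (fun p : ℂ × ℂ => N (p.1 + 1, p.2)) p = dv v N (p.1 + 1, p.2) := by
      have e2 : (fun p : ℂ × ℂ => N (p.1 + 1, p.2)) = fun p => N (p + (1, 0)) := by
        funext p; congr 1; ext <;> simp
      have e3 : (p.1 + 1, p.2) = p + (1, 0) := by ext <;> simp
      unfold dv
      rw [e2, fderiv_comp_add_right, e3]
    rw [e1, hN' _ (add_one_mem hp), hN' p hp]
    have hA : ∀ q ∈ Om, cA P (q.1 + 1, q.2) = cA P q := by
      intro q hq; unfold cA; simp only [L_shift hs_l hs_r hq]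
    have hB : ∀ q ∈ Om, cB P (q.1 + 1, q.2) = cB P q := by
      intro q hq; unfold cB; simp only [L_shift hs_l hs_r hq]
    rw [avg_shift hA hp, avg_shift hB hp, avg_shift (fun q hq => L_shift hs_l hs_r hq _) hp]
  have hI : ((Complex.I, 0) : ℂ × ℂ) ∈ Om := by simp [Om]
  set c : ℝ := N (Complex.I + 1, 0) - N (Complex.I, 0) with hc
  have hconst : ∀ p ∈ Om, N (p.1 + 1, p.2) = N p + c := by
    intro p hp
    have := const_of_dv (H := fun p : ℂ × ℂ => N (p.1 + 1, p.2) - N p) (hNs.sub hNd) (by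
      intro p hp v
      have h1 : DifferentiableAt ℝ (fun p : ℂ × ℂ => N (p.1 + 1, p.2)) p :=
        hNs.differentiableAt (isOpen_Om.mem_nhds hp)
      have h2 : DifferentiableAt ℝ N p := hNd.differentiableAt (isOpen_Om.mem_nhds hp)
      have h3 := hdv p hp v
      unfold dv at h3 ⊢
      rw [fderiv_fun_sub h1 h2]
      simp [h3]) hp hI
    simp only [hc]
    linarith
  refine ⟨fun p => U1 P p + V p, fun s => avg (L P (1, 0)) (s, 0),
    fun s => ∫ y in (0 : ℝ)..(τ s).im, N (s, y * Complex.I), c, ?_, ?_, ?_, ?_, ?_, ?_⟩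
  · intro p hp; exact (hUd p hp).add (hVd p hp)
  · intro p hp; simp only [U1_add_one G hp, hV1 p hp]
  · intro p hp; simp only [U1_add_tau G hp, hVτ p hp]; ring
  · intro p hp l
    rw [lev_add (hUd p hp) (hVd p hp), U1_lev G hp (Or.inr ⟨l, rfl⟩), hVl p hp l]
    ring
  · intro p hp
    rw [lev_add (hUd p hp) (hVd p hp), U1_lev G hp (Or.inl rfl), hVC p hp]
    ring
  · intro s hs
    have him : (τ (s + 1)).im = (τ s).im := by rw [hτ s hs]; simp
    simp only [him]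
    have h1 : ∀ y : ℝ, N (s + 1, y * Complex.I) = N (s, y * Complex.I) + c := fun y =>
      hconst (s, y * Complex.I) hs
    simp only [h1]
    have hcont : Continuous fun y : ℝ => N (s, y * Complex.I) := by
      have h2 : ContinuousOn N Om := hN.continuousOn
      refine h2.comp_continuous (by fun_prop) (fun y => hs)
    rw [intervalIntegral.integral_add (hcont.intervalIntegrable _ _)
      (continuous_const.intervalIntegrable _ _)]
    simp; ring

end Pool.Agent.Helper76.ES
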