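import Pool.Agent.Helper76.ES.Levi
import Pool.Agent.Helper76.ES.Coef
import Pool.Agent.Helper76.ES.Inv
import Pool.Agent.Helper76.ES.QpL
import Pool.Agent.Helper76.ES.Quasi
import Pool.Agent.Helper76.ES.Dui
import Pool.Agent.Helper76.ES.Ker
import Pool.Agent.Helper76.ES.KerL

/-!
# The modes of the potential other than zero
-/

open Filter Topology Set MeasureTheory
open scoped Manifold ContDiff

noncomputable section

namespace Pool.Agent.Helper76.ES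

namespace UOne

lemma isOpen_Om : IsOpen Om := isOpen_lt continuous_const (Complex.continuous_im.comp continuous_fst)

lemma two_le : (2 : WithTop ℕ∞) ≤ ∞ := WithTop.coe_le_coe.mpr (le_top : (2 : ℕ∞) ≤ ⊤)

lemma measurable_pt : Measurable pt := by
  unfold pt
  fun_prop

lemma integrable_ker (d : ℕ) :
    Integrable (fun a : ℝ × ℝ => ker (pt a) * (1 + |(pt a).im|) ^ d) (volume.restrict strip) :=
  ker_integrable d

lemma om_add {p : ℂ × ℂ} (hp : p ∈ Om) (w : ℂ) : (p.1, p.2 + w) ∈ Om := hp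

/-- the integral of `f` against the kernel -/
def I (f : ℂ × ℂ → ℝ) (p : ℂ × ℂ) : ℝ := ∫ a in strip, ker (pt a) * f (p.1, p.2 + pt a)

variable {τ : ℂ → ℂ} {P : ℂ × ℂ → ℂ × ℂ → ℝ}

lemma I_smooth (G : Geo τ P) {d : ℕ} {f : ℂ × ℂ → ℝ} (hf : QP τ d f) :
    ContDiffOn ℝ ∞ (I f) Om :=
  (dui measurable_pt integrable_ker G.hol G.pos hf).1

lemma I_dv (G : Geo τ P) {d : ℕ} {f : ℂ × ℂ → ℝ} (hf : QP τ d f) (v : ℂ × ℂ) {p : ℂ × ℂ}
    (hp : p ∈ Om) : dv v (I f) p = I (dv v f) p :=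
  (dui measurable_pt integrable_ker G.hol G.pos hf).2.1 v p hp

lemma I_int (G : Geo τ P) {d : ℕ} {f : ℂ × ℂ → ℝ} (hf : QP τ d f) {p : ℂ × ℂ} (hp : p ∈ Om) :
    Integrable (fun a => ker (pt a) * f (p.1, p.2 + pt a)) (volume.restrict strip) :=
  (dui measurable_pt integrable_ker G.hol G.pos hf).2.2 p hp

lemma U1_eq : U1 P = fun p => 1 / (2 * Real.pi) * I (L P (0, 1)) p := rfl

lemma dv_congr {F : Type} [NormedAddCommGroup F] [NormedSpace ℂ F] {u v : F → ℝ} {p : F}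
    (h : u =ᶠ[𝓝 p] v) (e : F) : dv e u p = dv e v p := by
  unfold dv
  rw [h.fderiv_eq]

lemma dv_mul {u : ℂ × ℂ → ℝ} {p : ℂ × ℂ} (hu : DifferentiableAt ℝ u p) (c : ℝ) (v : ℂ × ℂ) :
    dv v (fun q => c * u q) p = c * dv v u p := by
  unfold dv
  rw [fderiv_const_mul hu]
  simp

/-- the Levi form of the integral -/
lemma lev_I (G : Geo τ P) {d : ℕ} {f : ℂ × ℂ → ℝ} (hf : QP τ d f) {p : ℂ × ℂ} (hp : p ∈ Om)
    (e : ℂ × ℂ) : lev (I f) p e = I (fun q => lev f q e) p := by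
  have hC : ContDiffAt ℝ 2 (I f) p :=
    ((I_smooth G hf).contDiffAt (isOpen_Om.mem_nhds hp)).of_le two_le
  have h2 : ∀ v : ℂ × ℂ, dv v (dv v (I f)) p = I (dv v (dv v f)) p := by
    intro v
    have h1 : dv v (I f) =ᶠ[𝓝 p] I (dv v f) := by
      filter_upwards [isOpen_Om.mem_nhds hp] with q hq
      exact I_dv G hf v hq
    rw [dv_congr h1 v]
    exact I_dv G (hf.dv G.hol v) v hp
  rw [lev_eq_dv hC e, h2, h2]
  have hq : ∀ v : ℂ × ℂ, QP τ (d + 1 + 1) (dv v (dv v f)) := fun v => (hf.dv G.hol v).dv G.hol v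
  have h3 := integral_add (I_int G (hq e) hp) (I_int G (hq (Complex.I • e)) hp)
  unfold I
  rw [← h3]
  congr 1
  funext a
  have hfa : ContDiffAt ℝ 2 f (p.1, p.2 + pt a) :=
    ((hf.contDiffOn).contDiffAt (isOpen_Om.mem_nhds (om_add hp (pt a)))).of_le
      two_le
  show _ = ker (pt a) * lev f (p.1, p.2 + pt a) e
  rw [lev_eq_dv hfa e]
  ring

/-- restriction to a fibre -/
lemma fib_smooth {u : ℂ × ℂ → ℝ} (hu : ContDiffOn ℝ ∞ u Om) {s : ℂ} (hs : s ∈ Hp) :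
    ContDiff ℝ ∞ (fun t : ℂ => u (s, t)) := by
  rw [contDiff_iff_contDiffAt]
  intro t
  have h1 : ContDiffAt ℝ ∞ u (s, t) :=
    hu.contDiffAt (isOpen_Om.mem_nhds (show ((s, t) : ℂ × ℂ) ∈ Om from hs))
  exact h1.comp t (contDiffAt_const.prodMk contDiffAt_id)

lemma fib_dv {u : ℂ × ℂ → ℝ} (hu : ContDiffOn ℝ ∞ u Om) {s : ℂ} (hs : s ∈ Hp) (v t : ℂ) :
    dv v (fun t : ℂ => u (s, t)) t = dv (0, v) u (s, t) := by
  have h1 : ContDiffAt ℝ ∞ u (s, t) :=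
    hu.contDiffAt (isOpen_Om.mem_nhds (show ((s, t) : ℂ × ℂ) ∈ Om from hs))
  have h2 : HasFDerivAt u (fderiv ℝ u (s, t)) (s, t) :=
    (h1.differentiableAt (by simp)).hasFDerivAt
  have h3 : HasFDerivAt (fun t : ℂ => ((s, t) : ℂ × ℂ)) (ContinuousLinearMap.inr ℝ ℂ ℂ) t :=
    hasFDerivAt_prodMk_right s t
  have h4 := h2.comp t h3
  unfold dv
  have h5 : fderiv ℝ (fun t : ℂ => u (s, t)) t = (fderiv ℝ u (s, t)).comp
      (ContinuousLinearMap.inr ℝ ℂ ℂ) := h4.fderiv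
  rw [h5]
  simp

lemma dv_smooth {u : ℂ × ℂ → ℝ} (hu : ContDiffOn ℝ ∞ u Om) (v : ℂ × ℂ) :
    ContDiffOn ℝ ∞ (dv v u) Om := by
  have h1 : ContDiffOn ℝ ∞ (fderiv ℝ u) Om := hu.fderiv_of_isOpen isOpen_Om (by simp)
  exact h1.clm_apply contDiffOn_const

lemma fib_dv2 {u : ℂ × ℂ → ℝ} (hu : ContDiffOn ℝ ∞ u Om) {s : ℂ} (hs : s ∈ Hp) (v t : ℂ) :
    dv v (dv v (fun t : ℂ => u (s, t))) t = dv (0, v) (dv (0, v) u) (s, t) := by
  have h1 : dv v (fun t : ℂ => u (s, t)) = fun t => dv (0, v) u (s, t) := by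
    funext t
    exact fib_dv hu hs v t
  rw [h1]
  exact fib_dv (dv_smooth hu (0, v)) hs v t

/-- linearity of the derivative in the direction -/
lemma dv_split (u : ℂ × ℂ → ℝ) (q : ℂ × ℂ) (v : ℂ) :
    dv (0, v) u q = v.re * dv (0, 1) u q + v.im * dv (0, Complex.I) u q := by
  unfold dv
  have h1 : ((0, v) : ℂ × ℂ) = v.re • ((0, 1) : ℂ × ℂ) + v.im • ((0, Complex.I) : ℂ × ℂ) := by
    ext1
    · simp
    · simp only [Prod.smul_mk, Prod.snd_add, Complex.real_smul]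
      simp [Complex.re_add_im]
  rw [h1, map_add, map_smul, map_smul, smul_eq_mul, smul_eq_mul]

lemma dv_split2 {u : ℂ × ℂ → ℝ} (hu : ContDiffOn ℝ ∞ u Om) {q : ℂ × ℂ} (hq : q ∈ Om) (v : ℂ) :
    dv (0, v) (dv (0, v) u) q =
      v.re * (v.re * dv (0, 1) (dv (0, 1) u) q + v.im * dv (0, Complex.I) (dv (0, 1) u) q) +
      v.im * (v.re * dv (0, 1) (dv (0, Complex.I) u) q +
        v.im * dv (0, Complex.I) (dv (0, Complex.I) u) q) := by
  have h1 : dv (0, v) u = fun q => v.re * dv (0, 1) u q + v.im * dv (0, Complex.I) u q := by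
    funext q
    exact dv_split u q v
  have d1 : ∀ w : ℂ × ℂ, DifferentiableAt ℝ (dv w u) q := fun w =>
    ((dv_smooth hu w).contDiffAt (isOpen_Om.mem_nhds hq)).differentiableAt (by simp)
  have h2 : dv (0, v) (dv (0, v) u) q = v.re * dv (0, v) (dv (0, 1) u) q +
      v.im * dv (0, v) (dv (0, Complex.I) u) q := by
    conv_lhs => rw [h1]
    unfold dv at *
    rw [fderiv_fun_add ((d1 (0, 1)).const_mul _) ((d1 (0, Complex.I)).const_mul _),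
      fderiv_const_mul (d1 (0, 1)), fderiv_const_mul (d1 (0, Complex.I))]
    simp
  rw [h2, dv_split (dv (0, 1) u) q v, dv_split (dv (0, Complex.I) u) q v]

lemma re_im_le {v : ℂ} (hv : ‖v‖ ≤ 1) : |v.re| ≤ 1 ∧ |v.im| ≤ 1 :=
  ⟨(Complex.abs_re_le_norm v).trans hv, (Complex.abs_im_le_norm v).trans hv⟩

lemma grow (G : Geo τ P) {d : ℕ} {f : ℂ × ℂ → ℝ} (hf : QP τ d f) {s : ℂ} (hs : s ∈ Hp) {D : ℕ}
    (hD : d ≤ D) : ∃ M : ℝ, 0 ≤ M ∧ ∀ z : ℂ, |f (s, z)| ≤ M * (1 + |z.im|) ^ D := by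
  obtain ⟨M, hM⟩ := hf.growth G.hol G.pos (isCompact_singleton (x := s)) (by simpa using hs)
  refine ⟨|M|, abs_nonneg M, fun z => (hM s rfl z).trans ?_⟩
  have h1 : (1 : ℝ) ≤ 1 + |z.im| := by
    have := abs_nonneg z.im
    linarith
  have h2 : (1 + |z.im|) ^ d ≤ (1 + |z.im|) ^ D := pow_le_pow_right₀ h1 hD
  have h3 : 0 ≤ (1 + |z.im|) ^ d := by positivity
  calc M * (1 + |z.im|) ^ d ≤ |M| * (1 + |z.im|) ^ d :=
        mul_le_mul_of_nonneg_right (le_abs_self M) h3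
    _ ≤ |M| * (1 + |z.im|) ^ D := mul_le_mul_of_nonneg_left h2 (abs_nonneg M)

/-- the kernel formula on a fibre -/
lemma fibre (G : Geo τ P) {d : ℕ} {u : ℂ × ℂ → ℝ} (hu : QP τ d u) {p : ℂ × ℂ} (hp : p ∈ Om) :
    I (fun q => lev u q (0, 1)) p = 2 * Real.pi * (u p - avg u p) := by
  have hs : p.1 ∈ Hp := hp
  have hC := hu.contDiffOn
  set f : ℂ → ℝ := fun t => u (p.1, t) with hf
  have hfC : ContDiff ℝ ∞ f := fib_smooth hC hs
  have hper : ∀ z, f (z + 1) = f z := fun z =>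
    hu.add_one (p := (p.1, z)) (show ((p.1, z) : ℂ × ℂ) ∈ Om from hs)
  have hlev : ∀ z : ℂ, lev u (p.1, z) (0, 1) = Laplacian.laplacian f z := by
    intro z
    have h1 : ContDiffAt ℝ 2 u ((fun t : ℂ => ((p.1, t) : ℂ × ℂ)) z) :=
      (hC.contDiffAt (isOpen_Om.mem_nhds (show ((p.1, z) : ℂ × ℂ) ∈ Om from hs))).of_le
        two_le
    have h2 : ContDiffAt ℂ 2 (fun t : ℂ => ((p.1, t) : ℂ × ℂ)) z :=
      contDiffAt_const.prodMk contDiffAt_id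
    have h3 := laplacian_comp h1 h2
    have h4 : deriv (fun t : ℂ => ((p.1, t) : ℂ × ℂ)) z = (0, 1) := by
      have := (hasDerivAt_const z p.1).prodMk (hasDerivAt_id z)
      exact this.deriv
    rw [h4] at h3
    exact h3.symm
  -- growth
  obtain ⟨M0, hM0, b0⟩ := grow G hu hs (D := d + 1 + 1) (by omega)
  have q1 : ∀ w, QP τ (d + 1) (dv w u) := fun w => hu.dv G.hol w
  have q2 : ∀ w w', QP τ (d + 1 + 1) (dv w' (dv w u)) := fun w w' => (q1 w).dv G.hol w'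
  obtain ⟨M1, hM1, b1⟩ := grow G (q1 (0, 1)) hs (D := d + 1 + 1) (by omega)
  obtain ⟨M2, hM2, b2⟩ := grow G (q1 (0, Complex.I)) hs (D := d + 1 + 1) (by omega)
  obtain ⟨M3, hM3, b3⟩ := grow G (q2 (0, 1) (0, 1)) hs (D := d + 1 + 1) le_rfl
  obtain ⟨M4, hM4, b4⟩ := grow G (q2 (0, 1) (0, Complex.I)) hs (D := d + 1 + 1) le_rfl
  obtain ⟨M5, hM5, b5⟩ := grow G (q2 (0, Complex.I) (0, 1)) hs (D := d + 1 + 1) le_rfl
  obtain ⟨M6, hM6, b6⟩ := grow G (q2 (0, Complex.I) (0, Complex.I)) hs (D := d + 1 + 1) le_rfl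
  set M : ℝ := M0 + (M1 + M2) + (M3 + M4 + M5 + M6) with hM
  have hle : ∀ {x y A : ℝ}, |x| ≤ 1 → |y| ≤ A → |x * y| ≤ A := by
    intro x y A hx hy
    rw [abs_mul]
    calc |x| * |y| ≤ 1 * A := mul_le_mul hx hy (abs_nonneg _) zero_le_one
      _ = A := one_mul A
  have hmul : ∀ {A B X : ℝ}, A ≤ B → 0 ≤ X → A * X ≤ B * X := fun h1 h2 =>
    mul_le_mul_of_nonneg_right h1 h2
  have hX : ∀ z : ℂ, 0 ≤ (1 + |z.im|) ^ (d + 1 + 1) := fun z => by positivity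
  have c0 : ∀ z : ℂ, |f z| ≤ M * (1 + |z.im|) ^ (d + 1 + 1) := fun z =>
    (b0 z).trans (hmul (by rw [hM]; linarith) (hX z))
  have c1 : ∀ z : ℂ, ∀ v : ℂ, ‖v‖ ≤ 1 → |dv v f z| ≤ M * (1 + |z.im|) ^ (d + 1 + 1) := by
    intro z v hv
    obtain ⟨v1, v2⟩ := re_im_le hv
    rw [hf, fib_dv hC hs v z, dv_split]
    refine (abs_add_le _ _).trans ?_
    refine (add_le_add (hle v1 (b1 z)) (hle v2 (b2 z))).trans ?_
    rw [← add_mul]
    exact hmul (by rw [hM]; linarith) (hX z)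
  have c2 : ∀ z : ℂ, ∀ v : ℂ, ‖v‖ ≤ 1 →
      |dv v (dv v f) z| ≤ M * (1 + |z.im|) ^ (d + 1 + 1) := by
    intro z v hv
    obtain ⟨v1, v2⟩ := re_im_le hv
    rw [hf, fib_dv2 hC hs v z,
      dv_split2 hC (show ((p.1, z) : ℂ × ℂ) ∈ Om from hs) v]
    refine (abs_add_le _ _).trans ?_
    have e1 := (abs_add_le (v.re * dv (0, 1) (dv (0, 1) u) (p.1, z))
      (v.im * dv (0, Complex.I) (dv (0, 1) u) (p.1, z))).trans
      (add_le_add (hle v1 (b3 z)) (hle v2 (b4 z)))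
    have e2 := (abs_add_le (v.re * dv (0, 1) (dv (0, Complex.I) u) (p.1, z))
      (v.im * dv (0, Complex.I) (dv (0, Complex.I) u) (p.1, z))).trans
      (add_le_add (hle v1 (b5 z)) (hle v2 (b6 z)))
    refine (add_le_add (hle v1 e1) (hle v2 e2)).trans ?_
    rw [← add_mul, ← add_mul, ← add_mul]
    exact hmul (by rw [hM]; linarith) (hX z)
  have key := kerL (f := f) (hfC.of_le two_le) hper c0 c1 c2 p.2
  unfold I avg
  rw [← key]
  congr 1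
  funext a
  show ker (pt a) * lev u (p.1, p.2 + pt a) (0, 1) = _
  rw [hlev]

end UOne

open UOne

theorem U1_smooth {τ : ℂ → ℂ} {P : ℂ × ℂ → ℂ × ℂ → ℝ} (G : Geo τ P) :
    ContDiffOn ℝ ∞ (U1 P) Om := by
  rw [U1_eq]
  exact contDiffOn_const.mul (I_smooth G (qp_C G))

theorem U1_add_one {τ : ℂ → ℂ} {P : ℂ × ℂ → ℂ × ℂ → ℝ} (G : Geo τ P) {p : ℂ × ℂ} (hp : p ∈ Om) :
    U1 P (p.1, p.2 + 1) = U1 P p := by
  unfold U1
  congr 1
  congr 1
  funext a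
  have h := L_add_one G (om_add hp (pt a)) (0, 1)
  have e : ((p.1, p.2 + 1).1, (p.1, p.2 + 1).2 + pt a) =
      (((p.1, p.2 + pt a) : ℂ × ℂ).1, ((p.1, p.2 + pt a) : ℂ × ℂ).2 + 1) := by
    ext1
    · rfl
    · show p.2 + 1 + pt a = p.2 + pt a + 1
      ring
  rw [e, h]

theorem U1_add_tau {τ : ℂ → ℂ} {P : ℂ × ℂ → ℂ × ℂ → ℝ} (G : Geo τ P) {p : ℂ × ℂ} (hp : p ∈ Om) :
    U1 P (p.1, p.2 + τ p.1) = U1 P p := by
  unfold U1
  congr 1
  congr 1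
  funext a
  have h := C_add_tau G (om_add hp (pt a)) 1
  have e : ((p.1, p.2 + τ p.1).1, (p.1, p.2 + τ p.1).2 + pt a) =
      (((p.1, p.2 + pt a) : ℂ × ℂ).1,
        ((p.1, p.2 + pt a) : ℂ × ℂ).2 + ((1 : ℤ) : ℂ) * τ ((p.1, p.2 + pt a) : ℂ × ℂ).1) := by
    ext1
    · rfl
    · show p.2 + τ p.1 + pt a = p.2 + pt a + ((1 : ℤ) : ℂ) * τ p.1
      push_cast
      ring
  rw [e, h]

theorem U1_lev {τ : ℂ → ℂ} {P : ℂ × ℂ → ℂ × ℂ → ℝ} (G : Geo τ P) {p : ℂ × ℂ} (hp : p ∈ Om)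
    {e : ℂ × ℂ} (he : e = (0, 1) ∨ ∃ l, e = (1, l)) :
    lev (U1 P) p e = L P e p - avg (L P e) p := by
  have hq : QP τ 2 (L P e) := by
    rcases he with rfl | ⟨l, rfl⟩
    · exact (qp_C G).mono (by norm_num)
    · exact qp_L G l
  have hC : ContDiffAt ℝ 2 (I (L P (0, 1))) p :=
    ((I_smooth G (qp_C G)).contDiffAt (isOpen_Om.mem_nhds hp)).of_le two_le
  rw [U1_eq, lev_const_mul hC, lev_I G (qp_C G) hp]
  have h1 : I (fun q => lev (L P (0, 1)) q e) p = I (fun q => lev (L P e) q (0, 1)) p := by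
    unfold I
    congr 1
    funext a
    show ker (pt a) * lev (L P (0, 1)) (p.1, p.2 + pt a) e =
      ker (pt a) * lev (L P e) (p.1, p.2 + pt a) (0, 1)
    rw [L_comm G.loc (om_add hp (pt a))]
  rw [h1, fibre G hq hp]
  have hpi : Real.pi ≠ 0 := Real.pi_ne_zero
  field_simp

end Pool.Agent.Helper76.ES
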